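import Pool.Agent.RC84.Defs

/-!
# P4a: abstract acyclicity criterion (helper7)

A locally nilpotent homotopy.
-/

set_option autoImplicit false

namespace Pool.Agent.RC84

open scoped Classical
open Finsupp

namespace Acy

section Gen

variable {P : Type} (k : Type) [CommRing k]

/-- `cons` as a linear map -/
noncomputable def cl (x : P) : (List P →₀ k) →ₗ[k] (List P →₀ k) :=
  Finsupp.lmapDomain k k (List.cons x)

theorem cl_single (x : P) (l : List P) (a : k) : cl k x (single l a) = single (x :: l) a := by
  simp [cl]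

/-- linear extension -/
noncomputable abbrev lc (φ : List P → (List P →₀ k)) : (List P →₀ k) →ₗ[k] (List P →₀ k) :=
  Finsupp.linearCombination k φ

theorem lc_single (φ : List P → (List P →₀ k)) (l : List P) : lc k φ (single l 1) = φ l := by
  simp [lc]

theorem lc_cl (φ : List P → (List P →₀ k)) (x : P) (z : List P →₀ k) :
    lc k φ (cl k x z) = lc k (fun l => φ (x :: l)) z := by
  simp only [cl, lc, Finsupp.lmapDomain_apply, Finsupp.linearCombination_mapDomain]
  rfl

theorem lc_comp (T : (List P →₀ k) →ₗ[k] (List P →₀ k)) (φ : List P → (List P →₀ k))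
    (z : List P →₀ k) : lc k (fun l => T (φ l)) z = T (lc k φ z) := by
  simp only [lc, Finsupp.linearCombination_apply, Finsupp.sum, map_sum, map_smul]

theorem lc_congr {φ ψ : List P → (List P →₀ k)} {S : Set (List P)} (h : ∀ l ∈ S, φ l = ψ l)
    {z : List P →₀ k} (hz : z ∈ supported k k S) : lc k φ z = lc k ψ z := by
  simp only [lc, Finsupp.linearCombination_apply, Finsupp.sum]
  exact Finset.sum_congr rfl fun l hl => by rw [h l (hz hl)]

theorem lc_mem {φ : List P → (List P →₀ k)} {S T : Set (List P)}
    (h : ∀ l ∈ S, φ l ∈ supported k k T) {z : List P →₀ k} (hz : z ∈ supported k k S) :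
    lc k φ z ∈ supported k k T := by
  simp only [lc, Finsupp.linearCombination_apply, Finsupp.sum]
  exact Submodule.sum_mem _ fun l hl => Submodule.smul_mem _ _ (h l (hz hl))

theorem single_mem {S : Set (List P)} {l : List P} (h : l ∈ S) :
    (single l (1 : k)) ∈ supported k k S :=
  Finsupp.single_mem_supported k _ h

theorem cl_mem {S T : Set (List P)} (x : P) (h : ∀ l ∈ S, x :: l ∈ T) {z : List P →₀ k}
    (hz : z ∈ supported k k S) : cl k x z ∈ supported k k T := by
  have : cl k x z = lc k (fun l => single (x :: l) 1) z := by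
    have := lc_comp k (cl k x) (fun l => single l 1) z
    simp only [cl_single] at this
    rw [this]
    congr 1
    simp [lc, Finsupp.linearCombination_apply]
  rw [this]
  exact lc_mem k (fun l hl => single_mem k (h l hl)) hz

theorem mono_mem {S T : Set (List P)} (h : ∀ l ∈ S, l ∈ T) {z : List P →₀ k}
    (hz : z ∈ supported k k S) : z ∈ supported k k T :=
  Finsupp.supported_mono h hz

theorem bd_cons (x : P) (l : List P) : bd k (x :: l) = single l 1 - cl k x (bd k l) := rfl

theorem bd_nil : bd k ([] : List P) = 0 := rfl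

/-- the boundary -/
noncomputable abbrev B : (List P →₀ k) →ₗ[k] (List P →₀ k) := lc k (bd k)

theorem B_cl (x : P) (z : List P →₀ k) : B k (cl k x z) = z - cl k x (B k z) := by
  rw [B, lc_cl]
  have h1 : (fun l : List P => bd k (x :: l)) =
      fun l => ((LinearMap.id : (List P →₀ k) →ₗ[k] (List P →₀ k)) - (cl k x).comp (B k))
        (single l 1) := by
    funext l
    simp [bd_cons]
  rw [h1, lc_comp]
  have h2 : lc k (fun l : List P => single l (1 : k)) z = z := by
    simp [lc, Finsupp.linearCombination_apply]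
  rw [h2]
  rfl

theorem B_bd (l : List P) : B k (bd k l) = 0 := by
  induction l with
  | nil => simp [bd_nil]
  | cons x l ih => rw [bd_cons, map_sub, B, lc_single, ← B, B_cl, ih]; simp

theorem B_B (z : List P →₀ k) : B k (B k z) = 0 := by
  have := lc_comp k (B k) (bd k) z
  rw [← this]
  simp only [B_bd]
  simp [lc, Finsupp.linearCombination_apply]

theorem bd_sub (l : List P) :
    bd k l ∈ supported k k {l' | l'.Sublist l ∧ l'.length + 1 = l.length} := by
  induction l with
  | nil => rw [bd_nil]; exact Submodule.zero_mem _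
  | cons x l ih =>
    rw [bd_cons]
    refine Submodule.sub_mem _ (single_mem k ⟨List.sublist_cons_self x l, by simp⟩)
      (cl_mem k x ?_ ih)
    rintro l' ⟨h1, h2⟩
    exact ⟨h1.cons_cons x, by simp [h2]⟩

end Gen

/-! ## The contraction of the chains above `v w` -/

section HU

variable {P : Type} [PartialOrder P] (k : Type) [CommRing k] (K : P) (f : P → P)

/-- exceptional case: the next element is not below `K` and its projection is `x` -/
def Cnd (x : P) (l : List P) : Prop := ∃ y l', l = y :: l' ∧ ¬ y ≤ K ∧ f y = x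

/-- the contraction -/
noncomputable def hU : List P → (List P →₀ k)
  | [] => single [K] 1
  | x :: l => if x ≤ K then (if x = K ∨ Cnd K f x l then 0 else - cl k x (hU l))
      else single (f x :: x :: l) 1

/-- its defect -/
noncomputable def NU (l : List P) : List P →₀ k :=
  single l 1 - B k (hU k K f l) - lc k (hU k K f) (bd k l)

/-- the position of the first element outside -/
noncomputable def out (r : P → ℕ) (R : ℕ) : List P → ℕ
  | [] => 0
  | x :: l => if x ≤ K then out r R l else R + 1 - r x

variable (U : Set P)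

/-- chains in `U` -/
def CU (n : ℕ) : Set (List P) := {l | IsCh l ∧ (∀ x ∈ l, x ∈ U) ∧ l.length = n}

variable {K f U}

theorem hU_outside {x : P} (hx : ¬ x ≤ K) (l : List P) :
    hU k K f (x :: l) = single (f x :: x :: l) 1 := by
  simp [hU, hx]

theorem hU_top (l : List P) : hU k K f (K :: l) = 0 := by
  simp [hU]

theorem hU_cnd {x : P} {l : List P} (hx : x ≤ K) (h : Cnd K f x l) : hU k K f (x :: l) = 0 := by
  simp [hU, hx, h]

theorem hU_inside {x : P} {l : List P} (hx : x ≤ K) (hxK : x ≠ K) (h : ¬ Cnd K f x l) :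
    hU k K f (x :: l) = - cl k x (hU k K f l) := by
  simp [hU, hx, h, hxK]

theorem isCh_cons {x : P} {l : List P} : IsCh (x :: l) ↔ (∀ y ∈ l, x < y) ∧ IsCh l :=
  List.pairwise_cons

/-- properties of the data -/
structure Dat (K : P) (f : P → P) (U : Set P) : Prop where
  KU : K ∈ U
  le : ∀ x ∈ U, f x ≤ x
  leK : ∀ x ∈ U, f x ≤ K
  memU : ∀ x ∈ U, f x ∈ U
  inf : ∀ x ∈ U, ∀ z, z ≤ x → z ≤ K → z ≤ f x

theorem hU_mem (D : Dat K f U) (l : List P) : ∀ n, l ∈ CU U n → hU k K f l ∈ supported k k
    {l' | l' ∈ CU U (n + 1) ∧ ∀ u, u < K → (∀ y ∈ l, u < y) → ¬ Cnd K f u l → ∀ y ∈ l', u < y} := by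
  induction l with
  | nil =>
    intro n hn
    refine single_mem k ⟨⟨?_, ?_, ?_⟩, ?_⟩
    · simp [IsCh]
    · intro x hx
      simp only [List.mem_singleton] at hx
      rw [hx]; exact D.KU
    · have := hn.2.2
      simp at this ⊢
      omega
    · intro u hu _ _ y hy
      simp only [List.mem_singleton] at hy
      rw [hy]; exact hu
  | cons x l ih =>
    intro n hn
    obtain ⟨h1, h2, h3⟩ := hn
    obtain ⟨h1a, h1b⟩ := isCh_cons.1 h1
    by_cases hx : x ≤ K
    · by_cases hxK : x = K
      · subst hxK
        rw [hU_top]; exact Submodule.zero_mem _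
      · by_cases hc : Cnd K f x l
        · rw [hU_cnd k hx hc]; exact Submodule.zero_mem _
        · rw [hU_inside k hx hxK hc]
          have hlt : x < K := lt_of_le_of_ne hx hxK
          obtain ⟨n', rfl⟩ : ∃ n', n = n' + 1 := ⟨l.length, by simpa using h3.symm⟩
          have hl : l ∈ CU U n' := ⟨h1b, fun y hy => h2 y (by simp [hy]), by simpa using h3⟩
          refine Submodule.neg_mem _ (cl_mem k x ?_ (ih n' hl))
          rintro l' ⟨⟨g1, g2, g3⟩, g4⟩
          have g5 := g4 x hlt h1a hc
          refine ⟨⟨isCh_cons.2 ⟨g5, g1⟩, ?_, by simp [g3]⟩, ?_⟩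
          · intro y hy
            rcases List.mem_cons.1 hy with rfl | hy
            · exact h2 _ (by simp)
            · exact g2 y hy
          · intro u _ hul _ y hy
            have hux : u < x := hul x (by simp)
            rcases List.mem_cons.1 hy with rfl | hy
            · exact hux
            · exact hux.trans (g5 y hy)
    · rw [hU_outside k hx]
      have hxU : x ∈ U := h2 x (by simp)
      have hfx : f x < x := lt_of_le_of_ne (D.le x hxU) (fun h => hx (h ▸ D.leK x hxU))
      refine single_mem k ⟨⟨?_, ?_, by simp [← h3]⟩, ?_⟩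
      · refine isCh_cons.2 ⟨?_, h1⟩
        intro y hy
        rcases List.mem_cons.1 hy with rfl | hy
        · exact hfx
        · exact hfx.trans (h1a y hy)
      · intro y hy
        rcases List.mem_cons.1 hy with rfl | hy
        · exact D.memU x hxU
        · exact h2 y hy
      · intro u hu hul hc y hy
        rcases List.mem_cons.1 hy with rfl | hy
        · refine lt_of_le_of_ne (D.inf x hxU u (hul x (by simp)).le hu.le) ?_
          rintro rfl
          exact hc ⟨x, l, rfl, hx, rfl⟩
        · exact hul y hy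

theorem hU_memCU (D : Dat K f U) {l : List P} {n : ℕ} (h : l ∈ CU U n) :
    hU k K f l ∈ supported k k (CU U (n + 1)) :=
  mono_mem k (fun _ hl => hl.1) (hU_mem k D l n h)

theorem bd_memCU {l : List P} {n : ℕ} (h : l ∈ CU U (n + 1)) :
    bd k l ∈ supported k k (CU U n) := by
  refine mono_mem k ?_ (bd_sub k l)
  rintro l' ⟨g1, g2⟩
  obtain ⟨h1, h2, h3⟩ := h
  exact ⟨List.Pairwise.sublist g1 h1, fun x hx => h2 x (g1.subset hx), by omega⟩

theorem B_memCU {z : List P →₀ k} {n : ℕ} (h : z ∈ supported k k (CU U (n + 1))) :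
    B k z ∈ supported k k (CU U n) :=
  lc_mem k (fun _ hl => bd_memCU k hl) h

theorem NU_memCU (D : Dat K f U) {l : List P} {n : ℕ} (h : l ∈ CU U n) :
    NU k K f l ∈ supported k k (CU U n) := by
  refine Submodule.sub_mem _ (Submodule.sub_mem _ (single_mem k h) ?_) ?_
  · exact B_memCU k (hU_memCU k D h)
  · rcases n with _ | n
    · have : l = [] := List.length_eq_zero_iff.1 h.2.2
      subst this
      rw [bd_nil, map_zero]; exact Submodule.zero_mem _
    · exact lc_mem k (fun _ hl => hU_memCU k D hl) (bd_memCU k h)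

/-! the formulas for the defect -/

theorem NU_nil : NU k K f [] = 0 := by
  simp [NU, hU, bd_nil, bd_cons]

theorem NU_outside {x : P} (hx : ¬ x ≤ K) (l : List P) :
    NU k K f (x :: l) = single (f x :: l) 1 - hU k K f l := by
  have h1 : lc k (hU k K f) (cl k x (bd k l)) = cl k (f x) (cl k x (bd k l)) := by
    rw [lc_cl]
    have : (fun l => hU k K f (x :: l)) = fun l => ((cl k (f x)).comp (cl k x)) (single l 1) := by
      funext l
      rw [hU_outside k hx]
      simp [cl_single]
    rw [this, lc_comp]
    have h2 : lc k (fun l : List P => single l (1 : k)) (bd k l) = bd k l := by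
      simp [lc, Finsupp.linearCombination_apply]
    rw [h2]; rfl
  rw [NU, hU_outside k hx, B, lc_single, bd_cons, bd_cons, map_sub, map_sub, lc_single, h1,
    cl_single]
  abel

theorem NU_top (D : Dat K f U) {l : List P} (hl : IsCh (K :: l)) (hlU : ∀ x ∈ l, x ∈ U) :
    NU k K f (K :: l) = 0 := by
  have h1 : lc k (hU k K f) (cl k K (bd k l)) = 0 := by
    rw [lc_cl]
    simp only [hU_top]
    simp [lc, Finsupp.linearCombination_apply]
  have h2 : hU k K f l = single (K :: l) 1 := by
    cases l with
    | nil => rfl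
    | cons y l =>
      have hy : K < y := (isCh_cons.1 hl).1 y (by simp)
      have hyU := hlU y (by simp)
      rw [hU_outside k (not_le_of_gt hy)]
      have : f y = K := le_antisymm (D.leK y hyU) (D.inf y hyU K hy.le le_rfl)
      rw [this]
  rw [NU, hU_top, map_zero, bd_cons, map_sub, lc_single, h1, h2]
  abel

theorem NU_cnd {x y : P} {l : List P} (hx : x ≤ K) (hy : ¬ y ≤ K) (hxy : f y = x) :
    NU k K f (x :: y :: l) = hU k K f (x :: l) := by
  have hc : ∀ l', Cnd K f x (y :: l') := fun l' => ⟨y, l', rfl, hy, hxy⟩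
  have h1 : lc k (hU k K f) (cl k x (cl k y (bd k l))) = 0 := by
    rw [lc_cl, lc_cl]
    simp only [hU_cnd k hx (hc _)]
    simp [lc, Finsupp.linearCombination_apply]
  rw [NU, hU_cnd k hx (hc l), map_zero, bd_cons, bd_cons, map_sub, map_sub, map_sub, lc_single,
    h1, cl_single, lc_single, hU_outside k hy, hxy]
  abel

theorem NU_inside (D : Dat K f U) {x : P} {l : List P} (hx : x ≤ K) (hxK : x ≠ K)
    (hc : ¬ Cnd K f x l) (hl : IsCh (x :: l)) (hlU : ∀ y ∈ l, y ∈ U) :
    NU k K f (x :: l) = cl k x (NU k K f l) := by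
  have h1 : lc k (hU k K f) (cl k x (bd k l)) = - cl k x (lc k (hU k K f) (bd k l)) := by
    rw [lc_cl]
    have : ∀ l' ∈ {l' : List P | l'.Sublist l ∧ l'.length + 1 = l.length},
        hU k K f (x :: l') = (-(cl k x)) (hU k K f l') := by
      rintro l' ⟨g1, g2⟩
      rw [hU_inside k hx hxK]
      · rfl
      · rintro ⟨y', l'', rfl, hy', hf⟩
        rcases l with _ | ⟨y, l⟩
        · simp at g2
        have hy'U : y' ∈ U := hlU y' (g1.subset (by simp))
        have hyU : y ∈ U := hlU y (by simp)
        have hxy : x < y := (isCh_cons.1 hl).1 y (by simp)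
        have hyy : y ≤ y' := by
          have := g1.subset (List.mem_cons_self (a := y') (l := l''))
          rcases List.mem_cons.1 this with rfl | h
          · exact le_rfl
          · exact ((isCh_cons.1 (isCh_cons.1 hl).2).1 y' h).le
        by_cases hyK : y ≤ K
        · have := D.inf y' hy'U y hyy hyK
          rw [hf] at this
          exact absurd hxy (not_lt_of_ge this)
        · have h3 : f y ≤ f y' := D.inf y' hy'U _ ((D.le y hyU).trans hyy) (D.leK y hyU)
          have h4 : x ≤ f y := D.inf y hyU x hxy.le hx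
          have h5 : f y = x := le_antisymm (hf ▸ h3) h4
          exact hc ⟨y, l, rfl, hyK, h5⟩
    rw [lc_congr k this (bd_sub k l), lc_comp]
    rfl
  rw [NU, hU_inside k hx hxK hc, map_neg, B_cl, bd_cons, map_sub, lc_single, h1, NU, map_sub,
    map_sub, cl_single]
  abel

/-! the measure -/

variable {r : P → ℕ} {R : ℕ}

theorem out_lt (hr : ∀ x y, x < y → r x < r y) (hR : ∀ x, r x ≤ R) {x : P} :
    ∀ {l : List P}, (∀ y ∈ l, x < y) → out K r R l < R + 1 - r x := by
  intro l
  induction l with
  | nil =>
    intro _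
    have := hR x
    simp only [out]; omega
  | cons y l ih =>
    intro h
    simp only [out]
    split_ifs
    · exact ih fun z hz => h z (by simp [hz])
    · have h1 := hr x y (h y (by simp))
      have h2 := hR y
      omega

theorem out_le {l : List P} : out K r R l ≤ R + 1 := by
  induction l with
  | nil => simp [out]
  | cons y l ih =>
    simp only [out]
    split_ifs
    · exact ih
    · omega

theorem out_hU (D : Dat K f U) (l : List P) : (∀ y ∈ l, y ∈ U) →
    hU k K f l ∈ supported k k {l' | out K r R l' = out K r R l} := by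
  induction l with
  | nil =>
    intro _
    exact single_mem k (by simp [out])
  | cons x l ih =>
    intro h
    by_cases hx : x ≤ K
    · by_cases hxK : x = K
      · subst hxK
        rw [hU_top]; exact Submodule.zero_mem _
      · by_cases hc : Cnd K f x l
        · rw [hU_cnd k hx hc]; exact Submodule.zero_mem _
        · rw [hU_inside k hx hxK hc]
          refine Submodule.neg_mem _ (cl_mem k x ?_ (ih fun y hy => h y (by simp [hy])))
          intro l' hl'
          simp only [Set.mem_ofPred_eq] at hl' ⊢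
          simp [out, hx, hl']
    · rw [hU_outside k hx]
      have := D.leK x (h x (by simp))
      exact single_mem k (by simp [out, hx, this])

theorem NU_out (D : Dat K f U) (hr : ∀ x y, x < y → r x < r y) (hR : ∀ x, r x ≤ R) (l : List P) :
    IsCh l → (∀ y ∈ l, y ∈ U) →
    NU k K f l ∈ supported k k {l' | out K r R l' < out K r R l} := by
  induction l with
  | nil =>
    intro _ _
    rw [NU_nil]; exact Submodule.zero_mem _
  | cons x l ih =>
    intro hch hU'
    obtain ⟨h1, h2⟩ := isCh_cons.1 hch
    have hlU : ∀ y ∈ l, y ∈ U := fun y hy => hU' y (by simp [hy])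
    by_cases hx : x ≤ K
    · by_cases hxK : x = K
      · subst hxK
        rw [NU_top k D hch hlU]; exact Submodule.zero_mem _
      · by_cases hc : Cnd K f x l
        · obtain ⟨y, l', rfl, hy, hf⟩ := hc
          rw [NU_cnd k hx hy hf]
          refine mono_mem k ?_ (out_hU (r := r) (R := R) k D (x :: l') ?_)
          · intro l'' hl''
            simp only [Set.mem_ofPred_eq] at hl'' ⊢
            rw [hl'']
            simp only [out, hx, hy, if_true, if_false]
            exact out_lt hr hR (isCh_cons.1 h2).1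
          · intro z hz
            apply hU' z
            rcases List.mem_cons.1 hz with rfl | hz
            · simp
            · simp [hz]
        · rw [NU_inside k D hx hxK hc hch hlU]
          refine cl_mem k x ?_ (ih h2 hlU)
          intro l' hl'
          simp only [Set.mem_ofPred_eq] at hl' ⊢
          simp only [out, hx, if_true]
          exact hl'
    · rw [NU_outside k hx]
      have hlt : out K r R l < R + 1 - r x := out_lt hr hR h1
      refine Submodule.sub_mem _ (single_mem k ?_) (mono_mem k ?_ (out_hU (r := r) (R := R) k D l hlU))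
      · simp only [Set.mem_ofPred_eq, out, hx, D.leK x (hU' x (by simp)), if_true, if_false]
        exact hlt
      · intro l' hl'
        simp only [Set.mem_ofPred_eq] at hl' ⊢
        rw [hl']
        simp only [out, hx, if_false]
        exact hlt

end HU

/-! ## The nilpotent homotopy -/

section Main

variable {P W : Type} [PartialOrder P] (k : Type) [CommRing k]
  (ln : W → ℕ) (m : P → W) (v : W → P) (r : P → ℕ) (R : ℕ) (w₀ : W)
  (K : W → P) (f : W → P → P)

/-- the next element has the same minimum -/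
def Sm (x : P) (l : List P) : Prop := ∃ y l', l = y :: l' ∧ m y = m x

/-- the homotopy -/
noncomputable def hh : List P → (List P →₀ k)
  | [] => single [v w₀] 1
  | x :: l => if x = v (m x) then
        (if m x = w₀ ∨ Sm m x l then 0 else - cl k x (hU k (K (m x)) (f (m x)) l))
      else single (v (m x) :: x :: l) 1

/-- its defect -/
noncomputable def NN (l : List P) : List P →₀ k :=
  single l 1 - B k (hh k m v w₀ K f l) - lc k (hh k m v w₀ K f) (bd k l)

/-- the measure -/
noncomputable def mu : List P → ℕ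
  | [] => 0
  | x :: l => ln (m x) * (R + 3) +
      (if x = v (m x) ∧ ¬ Sm m x l then out (K (m x)) r R l else R + 2)

/-- the upper set `U_w` -/
def UU (w : W) : Set P := {x | v w ≤ x ∧ m x ≠ w}

variable {k ln m v r R w₀ K f}

theorem hh_ne {x : P} (hx : x ≠ v (m x)) (l : List P) :
    hh k m v w₀ K f (x :: l) = single (v (m x) :: x :: l) 1 := by
  simp [hh, hx]

theorem hh_zero {x : P} {l : List P} (hx : x = v (m x)) (h : m x = w₀ ∨ Sm m x l) :
    hh k m v w₀ K f (x :: l) = 0 := by
  simp only [hh]; rw [if_pos hx, if_pos h]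

theorem hh_U {x : P} {l : List P} (hx : x = v (m x)) (h : m x ≠ w₀) (h' : ¬ Sm m x l) :
    hh k m v w₀ K f (x :: l) = - cl k x (hU k (K (m x)) (f (m x)) l) := by
  simp only [hh]; rw [if_pos hx, if_neg (by tauto)]

/-- the hypotheses -/
structure HD (ln : W → ℕ) (m : P → W) (v : W → P) (r : P → ℕ) (R : ℕ) (w₀ : W)
    (K : W → P) (f : W → P → P) : Prop where
  hmv : ∀ w, m (v w) = w
  hvm : ∀ x, v (m x) ≤ x
  hlen : ∀ (w : W) (x : P), v w ≤ x → ln (m x) ≤ ln w ∧ (ln (m x) = ln w → m x = w)
  hw₀ : ∀ x, v w₀ ≤ x → m x = w₀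
  hD : ∀ w, w ≠ w₀ → Dat (K w) (f w) (UU m v w)
  hr : ∀ x y, x < y → r x < r y
  hR : ∀ x, r x ≤ R

theorem HD.up (H : HD ln m v r R w₀ K f) {w : W} {x y : P} (hx : x ∈ UU m v w) (hxy : x ≤ y) :
    y ∈ UU m v w := by
  obtain ⟨h1, h2⟩ := hx
  refine ⟨h1.trans hxy, fun h => h2 ?_⟩
  have h3 := H.hlen w x h1
  have h4 := H.hlen (m x) y ((H.hvm x).trans hxy)
  rw [h] at h4
  exact h3.2 (le_antisymm h3.1 h4.1)

theorem HD.ln_lt (H : HD ln m v r R w₀ K f) {w : W} {x : P} (hx : x ∈ UU m v w) :
    ln (m x) < ln w := by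
  obtain ⟨h1, h2⟩ := hx
  have h3 := H.hlen w x h1
  exact lt_of_le_of_ne h3.1 fun h => h2 (h3.2 h)

theorem HD.ln0 (H : HD ln m v r R w₀ K f) : ∀ (n : ℕ) (w : W), ln w ≤ n → ln w₀ ≤ ln w := by
  intro n
  induction n with
  | zero =>
    intro w hw
    by_cases h : w = w₀
    · rw [h]
    · have := H.ln_lt (H.hD w h).KU
      omega
  | succ n ih =>
    intro w hw
    by_cases h : w = w₀
    · rw [h]
    · have h1 := H.ln_lt (H.hD w h).KU
      have h2 := ih (m (K w)) (by omega)
      omega

theorem HD.ln0_lt (H : HD ln m v r R w₀ K f) {w : W} (h : w ≠ w₀) : ln w₀ < ln w :=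
  (H.ln0 _ (m (K w)) le_rfl).trans_lt (H.ln_lt (H.hD w h).KU)

/-- chains of length `n` -/
def Ch (P : Type) [PartialOrder P] (n : ℕ) : Set (List P) := {l | IsCh l ∧ l.length = n}

theorem HD.tailU (H : HD ln m v r R w₀ K f) {x : P} {l : List P} (hl : IsCh (x :: l))
    (hx : x = v (m x)) (hs : ¬ Sm m x l) : ∀ y ∈ l, y ∈ UU m v (m x) := by
  obtain ⟨h1, h2⟩ := isCh_cons.1 hl
  cases l with
  | nil => simp
  | cons y l =>
    have hy : y ∈ UU m v (m x) :=
      ⟨hx ▸ (h1 y (by simp)).le, fun h => hs ⟨y, l, rfl, h⟩⟩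
    intro z hz
    rcases List.mem_cons.1 hz with rfl | hz
    · exact hy
    · exact H.up hy ((isCh_cons.1 h2).1 z hz).le

theorem HD.hh_mem (H : HD ln m v r R w₀ K f) {l : List P} {n : ℕ} (h : l ∈ Ch P n) :
    hh k m v w₀ K f l ∈ supported k k (Ch P (n + 1)) := by
  obtain ⟨h1, h2⟩ := h
  cases l with
  | nil =>
    refine single_mem k ⟨by simp [IsCh], ?_⟩
    simp at h2 ⊢; omega
  | cons x l =>
    obtain ⟨g1, g2⟩ := isCh_cons.1 h1
    by_cases hx : x = v (m x)
    · by_cases hs : m x = w₀ ∨ Sm m x l
      · rw [hh_zero hx hs]; exact Submodule.zero_mem _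
      · rw [hh_U hx (by tauto) (by tauto)]
        obtain ⟨n', rfl⟩ : ∃ n', n = n' + 1 := ⟨l.length, by simpa using h2.symm⟩
        have hU' := H.tailU h1 hx (by tauto)
        have hl : l ∈ CU (UU m v (m x)) n' := ⟨g2, hU', by simpa using h2⟩
        refine Submodule.neg_mem _ (cl_mem k x ?_ (hU_memCU k (H.hD _ (by tauto)) hl))
        rintro l' ⟨q1, q2, q3⟩
        refine ⟨isCh_cons.2 ⟨fun y hy => ?_, q1⟩, by simp [q3]⟩
        have hy' := q2 y hy
        refine lt_of_le_of_ne (hx ▸ hy'.1) ?_
        rintro rfl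
        exact hy'.2 rfl
    · rw [hh_ne hx]
      have hlt : v (m x) < x := lt_of_le_of_ne (H.hvm x) (fun h => hx h.symm)
      refine single_mem k ⟨isCh_cons.2 ⟨?_, h1⟩, by simp [← h2]⟩
      intro y hy
      rcases List.mem_cons.1 hy with rfl | hy
      · exact hlt
      · exact hlt.trans (g1 y hy)

theorem bd_memCh {l : List P} {n : ℕ} (h : l ∈ Ch P (n + 1)) :
    bd k l ∈ supported k k (Ch P n) := by
  refine mono_mem k ?_ (bd_sub k l)
  rintro l' ⟨g1, g2⟩
  obtain ⟨h1, h3⟩ := h
  exact ⟨List.Pairwise.sublist g1 h1, by omega⟩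

theorem HD.NN_memCh (H : HD ln m v r R w₀ K f) {l : List P} {n : ℕ} (h : l ∈ Ch P n) :
    NN k m v w₀ K f l ∈ supported k k (Ch P n) := by
  refine Submodule.sub_mem _ (Submodule.sub_mem _ (single_mem k h) ?_) ?_
  · exact lc_mem k (fun _ hl => bd_memCh hl) (H.hh_mem h)
  · rcases n with _ | n
    · have : l = [] := List.length_eq_zero_iff.1 h.2
      subst this
      rw [bd_nil, map_zero]; exact Submodule.zero_mem _
    · exact lc_mem k (fun _ hl => H.hh_mem hl) (bd_memCh h)

theorem NN_nil : NN k m v w₀ K f [] = 0 := by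
  simp [NN, hh, bd_nil, bd_cons]

theorem NN_ne {x : P} (hx : x ≠ v (m x)) (l : List P) :
    NN k m v w₀ K f (x :: l) = single (v (m x) :: l) 1 - hh k m v w₀ K f l := by
  have h1 : lc k (hh k m v w₀ K f) (cl k x (bd k l)) = cl k (v (m x)) (cl k x (bd k l)) := by
    rw [lc_cl]
    have : (fun l => hh k m v w₀ K f (x :: l)) =
        fun l => ((cl k (v (m x))).comp (cl k x)) (single l 1) := by
      funext l
      rw [hh_ne hx]
      simp [cl_single]
    rw [this, lc_comp]
    have h2 : lc k (fun l : List P => single l (1 : k)) (bd k l) = bd k l := by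
      simp [lc, Finsupp.linearCombination_apply]
    rw [h2]; rfl
  rw [NN, hh_ne hx, B, lc_single, bd_cons, bd_cons, map_sub, map_sub, lc_single, h1,
    cl_single]
  abel

theorem NN_same {x y : P} {l : List P} (hx : x = v (m x)) (hy : m y = m x) (hne : y ≠ v (m y)) :
    NN k m v w₀ K f (x :: y :: l) = hh k m v w₀ K f (x :: l) := by
  have hc : ∀ l', Sm m x (y :: l') := fun l' => ⟨y, l', rfl, hy⟩
  have h1 : lc k (hh k m v w₀ K f) (cl k x (cl k y (bd k l))) = 0 := by
    rw [lc_cl, lc_cl]
    simp only [hh_zero hx (Or.inr (hc _))]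
    simp [lc, Finsupp.linearCombination_apply]
  rw [NN, hh_zero hx (Or.inr (hc l)), map_zero, bd_cons, bd_cons, map_sub, map_sub, map_sub,
    lc_single, h1, cl_single, lc_single, hh_ne hne, hy, ← hx]
  abel

theorem NN_v0 {x : P} (hx : x = v (m x)) (h : m x = w₀) : NN k m v w₀ K f [x] = 0 := by
  have h1 : hh k m v w₀ K f [] = single [v w₀] 1 := rfl
  rw [NN, hh_zero hx (Or.inl h), map_zero, bd_cons, bd_nil, map_zero, sub_zero, sub_zero, lc_single,
    h1, ← h, ← hx, sub_self]

theorem HD.NN_U (H : HD ln m v r R w₀ K f) {x : P} {l : List P} (hl : IsCh (x :: l))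
    (hx : x = v (m x)) (h0 : m x ≠ w₀) (hs : ¬ Sm m x l) :
    NN k m v w₀ K f (x :: l) = cl k x (NU k (K (m x)) (f (m x)) l) +
      hU k (K (m x)) (f (m x)) l - hh k m v w₀ K f l := by
  have hU' := H.tailU hl hx hs
  have h1 : lc k (hh k m v w₀ K f) (cl k x (bd k l)) =
      - cl k x (lc k (hU k (K (m x)) (f (m x))) (bd k l)) := by
    rw [lc_cl]
    have : ∀ l' ∈ {l' : List P | l'.Sublist l ∧ l'.length + 1 = l.length},
        hh k m v w₀ K f (x :: l') = (-(cl k x)) (hU k (K (m x)) (f (m x)) l') := by
      rintro l' ⟨g1, g2⟩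
      rw [hh_U hx h0]
      · rfl
      · rintro ⟨y', l'', rfl, hy'⟩
        exact (hU' y' (g1.subset (by simp))).2 hy'
    rw [lc_congr k this (bd_sub k l), lc_comp]
    rfl
  rw [NN, hh_U hx h0 hs, map_neg, B_cl, bd_cons, map_sub, lc_single, h1, NU, map_sub,
    map_sub, cl_single]
  abel

/-- lists whose head is at a strictly smaller level -/
def Low (ln : W → ℕ) (m : P → W) (w : W) : Set (List P) :=
  {l | ∃ z l', l = z :: l' ∧ ln (m z) < ln w}

theorem low_mu {w : W} {l : List P} (h : l ∈ Low ln m w) : mu ln m v r R K l < ln w * (R + 3) := by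
  obtain ⟨z, l', rfl, hz⟩ := h
  simp only [mu]
  have h1 : out (K (m z)) r R l' ≤ R + 1 := out_le
  have h2 : (ln (m z) + 1) * (R + 3) ≤ ln w * (R + 3) := Nat.mul_le_mul_right _ hz
  split_ifs <;> nlinarith

theorem HD.hh_low (H : HD ln m v r R w₀ K f) {w : W} {y : P} (l : List P)
    (hy : ln (m y) < ln w) : hh k m v w₀ K f (y :: l) ∈ supported k k (Low ln m w) := by
  by_cases hx : y = v (m y)
  · by_cases hs : m y = w₀ ∨ Sm m y l
    · rw [hh_zero hx hs]; exact Submodule.zero_mem _
    · rw [hh_U hx (by tauto) (by tauto)]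
      exact Submodule.neg_mem _ (cl_mem k y (S := Set.univ) (T := Low ln m w)
        (fun l' _ => ⟨y, l', rfl, hy⟩) (by simp))
  · rw [hh_ne hx]
    exact single_mem k ⟨_, _, rfl, by rw [H.hmv]; exact hy⟩

theorem HD.NN_mu (H : HD ln m v r R w₀ K f) {l : List P} (hl : IsCh l) :
    NN k m v w₀ K f l ∈ supported k k {l' | mu ln m v r R K l' < mu ln m v r R K l} := by
  cases l with
  | nil => rw [NN_nil]; exact Submodule.zero_mem _
  | cons x l =>
    obtain ⟨g1, g2⟩ := isCh_cons.1 hl
    have hvx := H.hvm x
    have hmvx := H.hmv (m x)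
    by_cases hx : x = v (m x)
    · by_cases hs : Sm m x l
      · -- (ii)
        obtain ⟨y, l', rfl, hy⟩ := hs
        have hxy : x < y := g1 y (by simp)
        have hne : y ≠ v (m y) := by
          rw [hy, ← hx]; exact hxy.ne'
        rw [NN_same hx hy hne]
        have hmu : mu ln m v r R K (x :: y :: l') = ln (m x) * (R + 3) + (R + 2) := by
          simp only [mu]
          rw [if_neg]
          rintro ⟨-, h⟩
          exact h ⟨y, l', rfl, hy⟩
        have hl' : IsCh (x :: l') := by
          refine isCh_cons.2 ⟨fun z hz => g1 z (by simp [hz]), (isCh_cons.1 g2).2⟩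
        by_cases hs' : m x = w₀ ∨ Sm m x l'
        · rw [hh_zero hx hs']; exact Submodule.zero_mem _
        · rw [hh_U hx (by tauto) (by tauto)]
          have hU' := H.tailU hl' hx (by tauto)
          refine Submodule.neg_mem _ (cl_mem k x ?_
            (hU_memCU k (H.hD _ (by tauto)) ⟨(isCh_cons.1 hl').2, hU', rfl⟩))
          rintro l'' ⟨q1, q2, q3⟩
          simp only [Set.mem_ofPred_eq]
          rw [hmu]
          simp only [mu]
          rw [if_pos]
          · have h1 : out (K (m x)) r R l'' ≤ R + 1 := out_le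
            omega
          · refine ⟨hx, ?_⟩
            rintro ⟨z, l3, rfl, hz⟩
            exact (q2 z (by simp)).2 hz
      · by_cases h0 : m x = w₀
        · -- (iv)
          have hl0 : l = [] := by
            rcases l with _ | ⟨y, l'⟩
            · rfl
            · exfalso
              refine hs ⟨y, l', rfl, ?_⟩
              have hxy : x < y := g1 y (by simp)
              rw [h0]
              refine H.hw₀ y ?_
              rw [← h0, ← hx]; exact hxy.le
          subst hl0
          rw [NN_v0 hx h0]; exact Submodule.zero_mem _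
        · -- (iii)
          rw [H.NN_U hl hx h0 hs]
          have hU' := H.tailU hl hx hs
          have hD := H.hD _ h0
          have hmu : mu ln m v r R K (x :: l) =
              ln (m x) * (R + 3) + out (K (m x)) r R l := by
            simp only [mu]
            rw [if_pos ⟨hx, hs⟩]
          have hlow : ∀ l' ∈ Low ln m (m x), l' ∈
              {l' | mu ln m v r R K l' < mu ln m v r R K (x :: l)} := by
            intro l' hl'
            have := low_mu (v := v) (r := r) (R := R) (K := K) hl'
            simp only [Set.mem_ofPred_eq]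
            rw [hmu]; omega
          have hcu : l ∈ CU (UU m v (m x)) l.length := ⟨g2, hU', rfl⟩
          refine Submodule.sub_mem _ (Submodule.add_mem _ ?_ ?_) ?_
          · have a1 := NU_out (k := k) hD H.hr H.hR l g2 hU'
            have a2 := NU_memCU (k := k) hD hcu
            have a3 : NU k (K (m x)) (f (m x)) l ∈ supported k k
                ({l' | out (K (m x)) r R l' < out (K (m x)) r R l} ∩
                  CU (UU m v (m x)) l.length) := by
              rw [Finsupp.supported_inter]
              exact ⟨a1, a2⟩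
            refine cl_mem k x ?_ a3
            rintro l' ⟨b1, b2, b3, b4⟩
            simp only [Set.mem_ofPred_eq] at b1 ⊢
            rw [hmu]
            simp only [mu]
            rw [if_pos]
            · omega
            · refine ⟨hx, ?_⟩
              rintro ⟨z, l3, rfl, hz⟩
              exact (b3 z (by simp)).2 hz
          · refine mono_mem k ?_ (hU_memCU k hD hcu)
            rintro l' ⟨b1, b2, b3⟩
            apply hlow
            rcases l' with _ | ⟨z, l'⟩
            · simp at b3
            · exact ⟨z, l', rfl, H.ln_lt (b2 z (by simp))⟩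
          · rcases l with _ | ⟨y, l'⟩
            · refine single_mem k (hlow _ ⟨v w₀, [], rfl, ?_⟩)
              rw [H.hmv]; exact H.ln0_lt h0
            · exact mono_mem k hlow (H.hh_low l' (H.ln_lt (hU' y (by simp))))
    · -- (i)
      have hmu : mu ln m v r R K (x :: l) = ln (m x) * (R + 3) + (R + 2) := by
        simp only [mu]
        rw [if_neg]
        rintro ⟨h, -⟩
        exact hx h
      have hvlt : v (m x) < x := lt_of_le_of_ne hvx (fun h => hx h.symm)
      rw [NN_ne hx]
      rcases l with _ | ⟨y, l'⟩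
      · refine Submodule.sub_mem _ (single_mem k ?_) (single_mem k ?_)
        · simp only [Set.mem_ofPred_eq]
          rw [hmu]
          simp only [mu]
          rw [hmvx, if_pos]
          · simp [out]
          · refine ⟨rfl, ?_⟩
            rintro ⟨z, l3, h, -⟩
            simp at h
        · simp only [Set.mem_ofPred_eq]
          rw [hmu]
          simp only [mu]
          rw [H.hmv, if_pos]
          · have := H.ln0 _ (m x) le_rfl
            have h2 : ln w₀ * (R + 3) ≤ ln (m x) * (R + 3) := Nat.mul_le_mul_right _ this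
            simp only [out]
            omega
          · refine ⟨rfl, ?_⟩
            rintro ⟨z, l3, h, -⟩
            simp at h
      · have hxy : x < y := g1 y (by simp)
        by_cases hy : m y = m x
        · have hne : y ≠ v (m y) := by
            rw [hy]
            exact (hvlt.trans hxy).ne'
          rw [hh_ne hne, hy, sub_self]; exact Submodule.zero_mem _
        · have hyU : y ∈ UU m v (m x) := ⟨(hvlt.trans hxy).le, hy⟩
          refine Submodule.sub_mem _ (single_mem k ?_) ?_
          · simp only [Set.mem_ofPred_eq]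
            rw [hmu]
            simp only [mu]
            rw [hmvx, if_pos]
            · have h1 : out (K (m x)) r R (y :: l') ≤ R + 1 := out_le
              omega
            · refine ⟨rfl, ?_⟩
              rintro ⟨z, l3, h, hz⟩
              rw [List.cons.injEq] at h
              rw [← h.1, hmvx] at hz
              exact hy hz
          · refine mono_mem k ?_ (H.hh_low l' (H.ln_lt hyU))
            intro l'' hl''
            have := low_mu (v := v) (r := r) (R := R) (K := K) hl''
            simp only [Set.mem_ofPred_eq]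
            rw [hmu]; omega

theorem HD.acyclic (H : HD ln m v r R w₀ K f) (n : ℕ) : ∀ (M : ℕ) (z : List P →₀ k),
    (∀ l ∈ z.support, l ∈ Ch P n) → (∀ l ∈ z.support, mu ln m v r R K l < M) → B k z = 0 →
    ∃ y : List P →₀ k, (∀ l ∈ y.support, l ∈ Ch P (n + 1)) ∧ B k y = z := by
  intro M
  induction M with
  | zero =>
    intro z hz hM _
    have : z = 0 := by
      rw [← Finsupp.support_eq_empty]
      exact Finset.eq_empty_of_forall_notMem fun l hl => by
        have := hM l hl
        omega
    exact ⟨0, by simp, by simp [this]⟩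
  | succ M ih =>
    intro z hz hM hB
    have hz' : z ∈ supported k k (Ch P n) := fun l hl => hz l hl
    set Nz := lc k (NN k m v w₀ K f) z with hNz
    have e1 : Nz = z - B k (lc k (hh k m v w₀ K f) z) - lc k (hh k m v w₀ K f) (B k z) := by
      have : (NN k m v w₀ K f) = fun l => ((LinearMap.id : (List P →₀ k) →ₗ[k] (List P →₀ k)) -
          (B k).comp (lc k (hh k m v w₀ K f)) - (lc k (hh k m v w₀ K f)).comp (B k))
            (single l 1) := by
        funext l
        simp [NN]
      rw [hNz, this, lc_comp]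
      have h2 : lc k (fun l : List P => single l (1 : k)) z = z := by
        simp [lc, Finsupp.linearCombination_apply]
      rw [h2]; rfl
    rw [hB, map_zero, sub_zero] at e1
    have hH : lc k (hh k m v w₀ K f) z ∈ supported k k (Ch P (n + 1)) :=
      lc_mem k (fun _ hl => H.hh_mem hl) hz'
    have hN1 : Nz ∈ supported k k (Ch P n) := lc_mem k (fun _ hl => H.NN_memCh hl) hz'
    have hN2 : Nz ∈ supported k k {l | mu ln m v r R K l < M} := by
      have : z ∈ supported k k {l | l ∈ Ch P n ∧ mu ln m v r R K l < M + 1} :=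
        fun l hl => ⟨hz l hl, hM l hl⟩
      refine lc_mem k ?_ this
      rintro l ⟨h1, h2⟩
      refine mono_mem k ?_ (H.NN_mu h1.1)
      intro l' hl'
      simp only [Set.mem_ofPred_eq] at hl' ⊢
      omega
    have hN3 : B k Nz = 0 := by
      rw [e1, map_sub, hB, B_B, sub_zero]
    obtain ⟨y, hy1, hy2⟩ := ih Nz (fun l hl => hN1 hl) (fun l hl => hN2 hl) hN3
    refine ⟨y + lc k (hh k m v w₀ K f) z, ?_, ?_⟩
    · have : y + lc k (hh k m v w₀ K f) z ∈ supported k k (Ch P (n + 1)) :=
        Submodule.add_mem _ (fun l hl => hy1 l hl) hH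
      exact fun l hl => this hl
    · rw [map_add, hy2, e1]; abel

end Main

end Acy

open Acy in
/-- P4a: abstract acyclicity criterion -/
theorem acyclic_abstract {P W : Type} [PartialOrder P] (k : Type) [CommRing k]
    (ln : W → ℕ) (m : P → W) (v : W → P) (r : P → ℕ) (R : ℕ)
    (hmv : ∀ w, m (v w) = w) (hvm : ∀ x, v (m x) ≤ x)
    (hlen : ∀ (w : W) (x : P), v w ≤ x → ln (m x) ≤ ln w ∧ (ln (m x) = ln w → m x = w))
    (hmin : ∀ (w : W) (x : P), x ≤ v w → x = v w)
    (w₀ : W) (hw₀ : ∀ x, v w₀ ≤ x → m x = w₀)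
    (hK : ∀ w, w ≠ w₀ → ∃ K : P, v w ≤ K ∧ m K ≠ w ∧
      ∀ x, v w ≤ x → m x ≠ w → ∃ y, y ≤ x ∧ y ≤ K ∧ v w ≤ y ∧ m y ≠ w ∧
        ∀ z, z ≤ x → z ≤ K → z ≤ y)
    (hr : ∀ x y, x < y → r x < r y) (hR : ∀ x, r x ≤ R) : Acyclic k P := by
  have hK' : ∀ w, ∃ K : P, w ≠ w₀ → v w ≤ K ∧ m K ≠ w ∧
      ∀ x, v w ≤ x → m x ≠ w → ∃ y, y ≤ x ∧ y ≤ K ∧ v w ≤ y ∧ m y ≠ w ∧
        ∀ z, z ≤ x → z ≤ K → z ≤ y := by
    intro w
    by_cases h : w = w₀
    · exact ⟨v w, fun h' => absurd h h'⟩
    · obtain ⟨K, hK⟩ := hK w h
      exact ⟨K, fun _ => hK⟩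
  choose K hK1 using hK'
  have hf : ∀ w x, ∃ y, w ≠ w₀ → v w ≤ x → m x ≠ w → y ≤ x ∧ y ≤ K w ∧ v w ≤ y ∧ m y ≠ w ∧
        ∀ z, z ≤ x → z ≤ K w → z ≤ y := by
    intro w x
    by_cases h : w ≠ w₀ ∧ v w ≤ x ∧ m x ≠ w
    · obtain ⟨y, hy⟩ := (hK1 w h.1).2.2 x h.2.1 h.2.2
      exact ⟨y, fun _ _ _ => hy⟩
    · exact ⟨x, fun h1 h2 h3 => absurd ⟨h1, h2, h3⟩ h⟩
  choose f hf1 using hf
  have H : HD ln m v r R w₀ K f :=
    { hmv := hmv, hvm := hvm, hlen := hlen, hw₀ := hw₀, hr := hr, hR := hR
      hD := fun w hw =>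
        { KU := ⟨(hK1 w hw).1, (hK1 w hw).2.1⟩
          le := fun x hx => (hf1 w x hw hx.1 hx.2).1
          leK := fun x hx => (hf1 w x hw hx.1 hx.2).2.1
          memU := fun x hx => ⟨(hf1 w x hw hx.1 hx.2).2.2.1, (hf1 w x hw hx.1 hx.2).2.2.2.1⟩
          inf := fun x hx => (hf1 w x hw hx.1 hx.2).2.2.2.2 } }
  intro n z hz hB
  exact H.acyclic n (z.support.sup (mu ln m v r R K) + 1) z hz
    (fun l hl => Nat.lt_succ_of_le (Finset.le_sup (f := mu ln m v r R K) hl)) hB

end Pool.Agent.RC84
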