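import Pool.Agent.RC84.Defs

/-!
# Elementary facts on right-angled Coxeter groups
-/

set_option autoImplicit false

namespace Pool.Agent.RC84

open scoped Classical

section
variable {V : Type} (Γ : SimpleGraph V)

theorem gen_mul_self (s : V) : gen Γ s * gen Γ s = 1 := (rcs Γ).simple_mul_simple_self s

theorem gen_inv (s : V) : (gen Γ s)⁻¹ = gen Γ s := (rcs Γ).inv_simple s

variable {Γ} in
theorem gen_comm {s t : V} (h : Γ.Adj s t) : gen Γ s * gen Γ t = gen Γ t * gen Γ s := by
  have h1 := (rcs Γ).simple_mul_simple_pow s t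
  have h2 : (raMat Γ) s t = 2 := by
    change (Matrix.of fun s t => if s = t then 1 else if Γ.Adj s t then 2 else 0) s t = 2
    simp [h.ne, h]
  rw [h2, pow_two] at h1
  have h3 : gen Γ s * gen Γ t * (gen Γ s * gen Γ t) = 1 := h1
  have h4 : gen Γ s * gen Γ t = (gen Γ s * gen Γ t)⁻¹ := eq_inv_of_mul_eq_one_left h3
  rw [h4, mul_inv_rev, gen_inv, gen_inv]

theorem len_one : len Γ 1 = 0 := (rcs Γ).length_one

theorem len_inv (w : RA Γ) : len Γ w⁻¹ = len Γ w := (rcs Γ).length_inv w

theorem len_mul_le (u w : RA Γ) : len Γ (u * w) ≤ len Γ u + len Γ w := (rcs Γ).length_mul_le u w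

theorem len_eq_zero {w : RA Γ} : len Γ w = 0 ↔ w = 1 := (rcs Γ).length_eq_zero_iff

theorem len_gen (s : V) : len Γ (gen Γ s) = 1 := (rcs Γ).length_simple s

theorem len_mul_gen (w : RA Γ) (s : V) :
    len Γ (w * gen Γ s) = len Γ w + 1 ∨ len Γ (w * gen Γ s) + 1 = len Γ w :=
  (rcs Γ).length_mul_simple w s

theorem len_gen_mul (w : RA Γ) (s : V) :
    len Γ (gen Γ s * w) = len Γ w + 1 ∨ len Γ (gen Γ s * w) + 1 = len Γ w :=
  (rcs Γ).length_simple_mul w s

theorem exists_word (w : RA Γ) : ∃ l : List V, l.length = len Γ w ∧ (l.map (gen Γ)).prod = w := by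
  obtain ⟨l, h1, h2⟩ := (rcs Γ).exists_isReduced w
  refine ⟨l, ?_, h2.symm⟩
  rw [← h1, ← h2]
  rfl

theorem len_word_le (l : List V) : len Γ (l.map (gen Γ)).prod ≤ l.length :=
  (rcs Γ).length_wordProd_le l

theorem RA_induction {p : RA Γ → Prop} (w : RA Γ) (one : p 1)
    (mul : ∀ (w : RA Γ) (s : V), p w → p (w * gen Γ s)) : p w :=
  (rcs Γ).simple_induction_right w one mul

theorem RA_induction_left {p : RA Γ → Prop} (w : RA Γ) (one : p 1)
    (mul : ∀ (w : RA Γ) (s : V), p w → p (gen Γ s * w)) : p w :=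
  (rcs Γ).simple_induction_left w one mul

theorem exists_right_desc {w : RA Γ} (h : w ≠ 1) : ∃ s, len Γ (w * gen Γ s) < len Γ w :=
  (rcs Γ).exists_rightDescent_of_ne_one h

theorem exists_left_desc {w : RA Γ} (h : w ≠ 1) : ∃ s, len Γ (gen Γ s * w) < len Γ w :=
  (rcs Γ).exists_leftDescent_of_ne_one h

/-- universal property -/
noncomputable def RAlift {H : Type*} [Monoid H] (f : V → H) (h1 : ∀ s, f s * f s = 1)
    (h2 : ∀ s t, Γ.Adj s t → f s * f t = f t * f s) : RA Γ →* H :=
  (rcs Γ).lift ⟨f, by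
    intro s t
    change (f s * f t) ^ ((Matrix.of fun s t => if s = t then 1 else if Γ.Adj s t then 2 else 0 :
      Matrix V V ℕ) s t) = 1
    by_cases h : s = t
    · subst h
      simp [h1]
    · by_cases h' : Γ.Adj s t
      · simp only [Matrix.of_apply, h, h', if_false, if_true, pow_two]
        calc f s * f t * (f s * f t) = f s * (f t * f s) * f t := by simp only [mul_assoc]
          _ = f s * (f s * f t) * f t := by rw [h2 s t h']
          _ = (f s * f s) * (f t * f t) := by simp only [mul_assoc]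
          _ = 1 := by rw [h1, h1, mul_one]
      · simp [h, h']⟩

theorem RAlift_gen {H : Type*} [Monoid H] (f : V → H) (h1 : ∀ s, f s * f s = 1)
    (h2 : ∀ s t, Γ.Adj s t → f s * f t = f t * f s) (s : V) :
    RAlift Γ f h1 h2 (gen Γ s) = f s := (rcs Γ).lift_apply_simple _ s

theorem RA_hom_ext {H : Type*} [Monoid H] {φ ψ : RA Γ →* H}
    (h : ∀ s, φ (gen Γ s) = ψ (gen Γ s)) : φ = ψ := (rcs Γ).ext_simple h

/-- two nonadjacent generators are separated by a homomorphism -/
theorem exists_sep {H : Type*} [Monoid H] {s t : V} (hst : s ≠ t) (hadj : ¬ Γ.Adj s t) (a b : H)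
    (ha : a * a = 1) (hb : b * b = 1) :
    ∃ φ : RA Γ →* H, φ (gen Γ s) = a ∧ φ (gen Γ t) = b ∧
      ∀ u, u ≠ s → u ≠ t → φ (gen Γ u) = 1 := by
  let f : V → H := fun u => if u = s then a else if u = t then b else 1
  have h1 : ∀ u, f u * f u = 1 := by
    intro u
    simp only [f]
    split_ifs <;> simp [ha, hb]
  have h2 : ∀ u v, Γ.Adj u v → f u * f v = f v * f u := by
    intro u v h
    simp only [f]
    by_cases hu : u = s
    · subst hu
      by_cases hv : v = u
      · exact absurd hv h.ne'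
      · by_cases hv' : v = t
        · subst hv'; exact absurd h hadj
        · simp [hv, hv']
    · by_cases hu' : u = t
      · subst hu'
        by_cases hv : v = s
        · subst hv; exact absurd h.symm hadj
        · by_cases hv' : v = u
          · exact absurd hv' h.ne'
          · simp [hv, hv']
      · simp [hu, hu']
  refine ⟨RAlift Γ f h1 h2, ?_, ?_, ?_⟩
  · rw [RAlift_gen]; simp [f]
  · rw [RAlift_gen]; simp [f, hst.symm]
  · intro u hu hu'
    rw [RAlift_gen]; simp [f, hu, hu']

theorem ab_mul_apply (u w : RA Γ) (v : V) :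
    Multiplicative.toAdd (ab Γ (u * w)) v =
      Multiplicative.toAdd (ab Γ u) v + Multiplicative.toAdd (ab Γ w) v := by
  rw [map_mul]; rfl

theorem ab_gen_apply (s v : V) :
    Multiplicative.toAdd (ab Γ (gen Γ s)) v = if v = s then 1 else 0 := by
  rw [ab_gen]
  change (Pi.single s 1 : V → ZMod 2) v = _
  rw [Pi.single_apply]

end

end Pool.Agent.RC84
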