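import Pool.Agent.RC84.Basic0
import Pool.Agent.SLE.Rank2

/-!
# Descents in right-angled Coxeter groups (package P1)
-/

set_option autoImplicit false

namespace Pool.Agent.RC84

open scoped Classical
open CoxeterSystem List Pool.Agent.SLE

section
variable {V : Type} (Γ : SimpleGraph V)

theorem gen_mul_gen_pow_ne_one {s t : V} (hst : s ≠ t) (hadj : ¬ Γ.Adj s t) (n : ℕ) (hn : 0 < n) :
    (gen Γ s * gen Γ t) ^ n ≠ 1 := by
  intro h
  let a : Equiv.Perm ℤ := Equiv.neg ℤ
  let b : Equiv.Perm ℤ := Equiv.subLeft (1 : ℤ)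
  have ha : a * a = 1 := by ext x; simp [a]
  have hb : b * b = 1 := by ext x; simp [b]
  obtain ⟨φ, h1, h2, -⟩ := exists_sep Γ hst hadj a b ha hb
  have h3 := congrArg φ h
  rw [map_pow, map_mul, h1, h2, map_one] at h3
  have h4 : ∀ (m : ℕ) (x : ℤ), ((a * b) ^ m) x = x - m := by
    intro m
    induction m with
    | zero => intro x; simp
    | succ m ih =>
      intro x
      rw [pow_succ, Equiv.Perm.mul_apply, ih]
      simp [a, b]
      ring
  have h5 := h4 n 0
  rw [h3] at h5
  simp at h5
  omega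

/-- left version of `desc_adj` -/
theorem ldesc_adj {w : RA Γ} {s t : V} (hs : len Γ (gen Γ s * w) < len Γ w)
    (ht : len Γ (gen Γ t * w) < len Γ w) (hst : s ≠ t) : Γ.Adj s t := by
  by_contra hadj
  let cs := rcs Γ
  let i := s
  let j := t
  have hi : cs.IsLeftDescent w i := hs
  have hj : cs.IsLeftDescent w j := ht
  -- choose a decomposition with `Y` shortest, then `u` shortest
  let P : ℕ → Prop := fun n => ∃ u Y : List V, (∀ x ∈ u, x = i ∨ x = j) ∧
    cs.wordProd (u ++ Y) = w ∧ Y.length = n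
  have hP : ∃ n, P n := by
    obtain ⟨ω, hω⟩ := cs.wordProd_surjective w
    exact ⟨ω.length, [], ω, by simp, by simpa using hω, rfl⟩
  set n0 := Nat.find hP with hn0
  let Q : ℕ → Prop := fun k => ∃ u Y : List V, (∀ x ∈ u, x = i ∨ x = j) ∧
    cs.wordProd (u ++ Y) = w ∧ Y.length = n0 ∧ u.length = k
  have hQ : ∃ k, Q k := by
    obtain ⟨u, Y, h1, h2, h3⟩ := Nat.find_spec hP
    exact ⟨u.length, u, Y, h1, h2, h3, rfl⟩
  obtain ⟨u, Y, hu, hw, hY, huk⟩ := Nat.find_spec hQ
  have hmin1 : ∀ u' Y' : List V, (∀ x ∈ u', x = i ∨ x = j) → cs.wordProd (u' ++ Y') = w →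
      n0 ≤ Y'.length := fun u' Y' h1 h2 => Nat.find_min' hP ⟨u', Y', h1, h2, rfl⟩
  have hmin2 : ∀ u' Y' : List V, (∀ x ∈ u', x = i ∨ x = j) → cs.wordProd (u' ++ Y') = w →
      Y'.length = n0 → u.length ≤ u'.length := by
    intro u' Y' h1 h2 h3
    rw [huk]
    exact Nat.find_min' hQ ⟨u', Y', h1, h2, h3, rfl⟩
  have hred : cs.IsReduced (u ++ Y) := by
    obtain ⟨ω, hs, hr, hp⟩ := exists_reduced_sublist cs (u ++ Y)
    obtain ⟨u', Y', rfl, hu', hY'⟩ := List.sublist_append_iff.1 hs
    have h1 : ∀ x ∈ u', x = i ∨ x = j := fun x hx => hu x (hu'.subset hx)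
    have h2 : cs.wordProd (u' ++ Y') = w := by rw [hp, hw]
    have h3 := hmin1 u' Y' h1 h2
    have h4 : Y' = Y := hY'.eq_of_length (le_antisymm hY'.length_le (by omega))
    subst h4
    have h5 := hmin2 u' Y' h1 h2 hY
    have h6 : u' = u := hu'.eq_of_length (le_antisymm hu'.length_le h5)
    subst h6
    exact hr
  have key : ∀ x : V, (x = i ∨ x = j) → cs.IsLeftDescent w x →
      ∃ p < u.length, cs.wordProd u = cs.wordProd (x :: u.eraseIdx p) := by
    intro x hx hdx
    rw [← hw] at hdx
    obtain ⟨p, hp, hp2⟩ := exchange_left cs (u ++ Y) x hdx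
    by_cases hpu : p < u.length
    · refine ⟨p, hpu, ?_⟩
      rw [List.eraseIdx_append_of_lt_length hpu, wordProd_append, wordProd_append,
        ← mul_assoc] at hp2
      have := mul_right_cancel hp2
      rw [wordProd_cons, this]; simp
    · exfalso
      rw [List.eraseIdx_append_of_length_le (by omega), wordProd_append, wordProd_append] at hp2
      have h1 : cs.wordProd ((x :: u) ++ Y.eraseIdx (p - u.length)) = w := by
        rw [List.cons_append, wordProd_cons, wordProd_append, hp2, ← hw, wordProd_append]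
        simp
      have h2 := hmin1 _ _ (by
        intro y hy
        rcases List.mem_cons.1 hy with h | h
        · rw [h]; exact hx
        · exact hu y h) h1
      rw [List.length_append] at hp
      rw [List.length_eraseIdx_of_lt (by omega)] at h2
      omega
  have hredu : cs.IsReduced u := by simpa using hred.take u.length
  obtain ⟨p, hp, hpi⟩ := key i (Or.inl rfl) hi
  obtain ⟨q, hq, hqj⟩ := key j (Or.inr rfl) hj
  have hk1 : (u.eraseIdx p).length + 1 = u.length := by
    rw [List.length_eraseIdx_of_lt hp]; omega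
  have hk2 : (u.eraseIdx q).length + 1 = u.length := by
    rw [List.length_eraseIdx_of_lt hq]; omega
  have hri : cs.IsReduced (i :: u.eraseIdx p) := by
    rw [CoxeterSystem.IsReduced, ← hpi, List.length_cons, hk1, hredu.eq]
  have hrj : cs.IsReduced (j :: u.eraseIdx q) := by
    rw [CoxeterSystem.IsReduced, ← hqj, List.length_cons, hk2, hredu.eq]
  have hai := eq_alt_of_isReduced cs (u.eraseIdx p)
    (fun x hx => hu x ((List.eraseIdx_sublist _ _).subset hx)) hri
  have haj := eq_alt_of_isReduced cs (u.eraseIdx q) (i := j) (j := i)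
    (fun x hx => (hu x ((List.eraseIdx_sublist _ _).subset hx)).symm) hrj
  rw [hk1] at hai
  rw [hk2] at haj
  have heq : cs.wordProd (alt i j u.length) = cs.wordProd (alt j i u.length) := by
    rw [← hai, ← haj, ← hpi, ← hqj]
  exact gen_mul_gen_pow_ne_one Γ hst hadj u.length (by omega) (pow_eq_one_of_alt cs heq)

theorem len_inv_mul_gen (w : RA Γ) (s : V) : len Γ (w⁻¹ * gen Γ s) = len Γ (gen Γ s * w) := by
  rw [← len_inv Γ (gen Γ s * w), mul_inv_rev, gen_inv]

theorem len_gen_mul_inv (w : RA Γ) (s : V) : len Γ (gen Γ s * w⁻¹) = len Γ (w * gen Γ s) := by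
  rw [← len_inv Γ (w * gen Γ s), mul_inv_rev, gen_inv]

/-- two right descents are adjacent -/
theorem desc_adj {w : RA Γ} {s t : V} (hs : len Γ (w * gen Γ s) < len Γ w)
    (ht : len Γ (w * gen Γ t) < len Γ w) (hst : s ≠ t) : Γ.Adj s t := by
  apply ldesc_adj Γ (w := w⁻¹) _ _ hst
  · rwa [len_gen_mul_inv, len_inv]
  · rwa [len_gen_mul_inv, len_inv]

/-- two left descents: the length drops by two -/
theorem ldesc_two {w : RA Γ} {s t : V} (hs : len Γ (gen Γ s * w) < len Γ w)
    (ht : len Γ (gen Γ t * w) < len Γ w) (hst : s ≠ t) :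
    len Γ (gen Γ s * (gen Γ t * w)) + 2 = len Γ w := by
  have hadj := ldesc_adj Γ hs ht hst
  have hM : (raMat Γ) s t = 2 := by
    change (Matrix.of fun s t => if s = t then 1 else if Γ.Adj s t then 2 else 0) s t = 2
    simp [hadj.ne, hadj]
  have hexact : ∀ k : ℕ, ((rcs Γ).simple s * (rcs Γ).simple t) ^ k = 1 → (raMat Γ) s t ∣ k := by
    intro k hk
    rw [hM]
    by_contra hodd
    have h2 : k % 2 = 1 := by omega
    have h3 : ((rcs Γ).simple s * (rcs Γ).simple t) ^ 2 = 1 := by
      have := (rcs Γ).simple_mul_simple_pow s t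
      rwa [hM] at this
    have h4 : (rcs Γ).simple s * (rcs Γ).simple t = 1 := by
      have h5 : k = 2 * (k / 2) + 1 := by omega
      rw [h5, pow_succ, pow_mul, h3, one_pow, one_mul] at hk
      exact hk
    have h5 : ab Γ (gen Γ s * gen Γ t) = ab Γ 1 := congrArg (ab Γ) h4
    have h6 := congrFun (congrArg Multiplicative.toAdd h5) s
    rw [ab_mul_apply, ab_gen_apply, ab_gen_apply, map_one] at h6
    simp [hst] at h6
  obtain ⟨Y, h1, h2⟩ := two_descents (rcs Γ) (by rw [hM]; norm_num) hexact hs ht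
  rw [hM] at h1 h2
  have e : alt s t 2 = [s, t] := rfl
  rw [e] at h1 h2
  have h3 : w = gen Γ s * (gen Γ t * (rcs Γ).wordProd Y) := by
    rw [← h1]
    simp only [List.cons_append, List.nil_append, wordProd_cons]
    rfl
  have h4 : gen Γ s * (gen Γ t * w) = (rcs Γ).wordProd Y := by
    rw [h3, ← mul_assoc (gen Γ t) (gen Γ s), ← gen_comm hadj, ← mul_assoc, ← mul_assoc,
      ← mul_assoc, gen_mul_self, one_mul, mul_assoc (gen Γ t), ← mul_assoc (gen Γ t),
      gen_mul_self, one_mul]
  have h5 : len Γ w = Y.length + 2 := by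
    have := h2.eq
    rw [h1] at this
    change len Γ w = _ at this
    simpa using this
  have h6 : len Γ ((rcs Γ).wordProd Y) ≤ Y.length := (rcs Γ).length_wordProd_le Y
  have h7 := len_gen_mul Γ w t
  have h8 := len_gen_mul Γ (gen Γ t * w) s
  rw [h4] at h8 ⊢
  omega

/-- two right descents: the length drops by two -/
theorem desc_two {w : RA Γ} {s t : V} (hs : len Γ (w * gen Γ s) < len Γ w)
    (ht : len Γ (w * gen Γ t) < len Γ w) (hst : s ≠ t) :
    len Γ (w * gen Γ s * gen Γ t) + 2 = len Γ w := by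
  have h := ldesc_two Γ (w := w⁻¹) (s := t) (t := s) (by rwa [len_gen_mul_inv, len_inv])
    (by rwa [len_gen_mul_inv, len_inv]) hst.symm
  rw [len_inv] at h
  rw [← h, ← len_inv Γ (w * gen Γ s * gen Γ t)]
  simp [mul_inv_rev, gen_inv]

/-- a product without cancelling letters is reduced -/
theorem len_mul_of_disjoint (u v : RA Γ)
    (h : ∀ s, ¬ (len Γ (u * gen Γ s) < len Γ u ∧ len Γ (gen Γ s * v) < len Γ v)) :
    len Γ (u * v) = len Γ u + len Γ v := by
  induction hn : len Γ v generalizing u v with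
  | zero =>
    rw [len_eq_zero] at hn
    subst hn
    simp
  | succ n ih =>
    have hv : v ≠ 1 := by
      rintro rfl
      rw [len_one] at hn
      omega
    obtain ⟨t, ht⟩ := exists_left_desc Γ hv
    have hv' : len Γ (gen Γ t * v) = n := by
      have := len_gen_mul Γ v t
      omega
    have hut : len Γ (u * gen Γ t) = len Γ u + 1 := by
      have h1 := len_mul_gen Γ u t
      have h2 := h t
      have h3 : ¬ len Γ (u * gen Γ t) < len Γ u := fun h3 => h2 ⟨h3, ht⟩
      omega
    have hvv : gen Γ t * (gen Γ t * v) = v := by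
      rw [← mul_assoc, gen_mul_self, one_mul]
    have huu : u * gen Γ t * gen Γ t = u := by
      rw [mul_assoc, gen_mul_self, mul_one]
    have key := ih (u * gen Γ t) (gen Γ t * v) ?_ hv'
    · have e : u * gen Γ t * (gen Γ t * v) = u * v := by
        rw [mul_assoc, hvv]
      rw [e] at key
      omega
    · rintro s ⟨h1, h2⟩
      have hst : s ≠ t := by
        rintro rfl
        rw [hvv] at h2
        omega
      have h3 : len Γ (u * gen Γ t * gen Γ t) < len Γ (u * gen Γ t) := by
        rw [huu]; omega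
      have hadj : Γ.Adj s t := desc_adj Γ h1 h3 hst
      apply h s
      constructor
      · have h4 := desc_two Γ h1 h3 hst
        have h5 : u * gen Γ t * gen Γ s * gen Γ t = u * gen Γ s := by
          rw [mul_assoc u, ← gen_comm hadj, mul_assoc u, mul_assoc (gen Γ s), gen_mul_self, mul_one]
        rw [h5] at h4
        omega
      · have h4 : gen Γ s * v = gen Γ t * (gen Γ s * (gen Γ t * v)) := by
          rw [← mul_assoc (gen Γ t), ← gen_comm hadj, mul_assoc (gen Γ s), hvv]
        have h5 := len_mul_le Γ (gen Γ t) (gen Γ s * (gen Γ t * v))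
        rw [len_gen] at h5
        rw [h4]
        omega

end

end Pool.Agent.RC84
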