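import Pool.Agent.RC84.Basic0
import Pool.Agent.RACG.Tors

/-!
# The isomorphism between the presentations `RACG.W Γ` and `RA Γ`
-/

set_option autoImplicit false

namespace Pool.Agent.RC84

open scoped Classical

variable {V : Type} {Γ : SimpleGraph V}

variable (Γ) in
/-- from `W Γ` to `RA Γ` -/
noncomputable def toRA : RACG.W Γ →* RA Γ :=
  RACG.lift (gen Γ) (gen_mul_self Γ) (fun _ _ h => gen_comm h)

theorem toRA_gen (s : V) : toRA Γ (RACG.gen Γ s) = gen Γ s := RACG.lift_gen _ _ _ s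

theorem raMat_liftable {H : Type*} [Monoid H] (f : V → H) (h1 : ∀ s, f s * f s = 1)
    (h2 : ∀ s t, Γ.Adj s t → f s * f t = f t * f s) : (raMat Γ).IsLiftable f := by
  intro s t
  by_cases h : s = t
  · subst h
    simp [raMat, h1]
  · by_cases h' : Γ.Adj s t
    · have e : raMat Γ s t = 2 := by
        change (if s = t then 1 else if Γ.Adj s t then 2 else 0) = 2
        rw [if_neg h, if_pos h']
      rw [e, pow_two]
      calc f s * f t * (f s * f t) = f s * f t * (f t * f s) := by rw [h2 s t h']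
        _ = f s * (f t * f t) * f s := by simp only [mul_assoc]
        _ = 1 := by rw [h1, mul_one, h1]
    · have e : raMat Γ s t = 0 := by
        change (if s = t then 1 else if Γ.Adj s t then 2 else 0) = 0
        rw [if_neg h, if_neg h']
      rw [e, pow_zero]

variable (Γ) in
/-- from `RA Γ` to `W Γ` -/
noncomputable def ofRA : RA Γ →* RACG.W Γ :=
  (rcs Γ).lift ⟨RACG.gen Γ, raMat_liftable _ (RACG.gen_mul_self Γ) (fun _ _ h => RACG.gen_comm h)⟩

theorem ofRA_gen (s : V) : ofRA Γ (gen Γ s) = RACG.gen Γ s := (rcs Γ).lift_apply_simple _ s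

variable (Γ) in
/-- the isomorphism -/
noncomputable def iso : RACG.W Γ ≃* RA Γ :=
  MonoidHom.toMulEquiv (toRA Γ) (ofRA Γ)
    (RACG.hom_ext fun s => by simp [toRA_gen, ofRA_gen])
    ((rcs Γ).ext_simple fun s => by
      change toRA Γ (ofRA Γ (gen Γ s)) = gen Γ s
      rw [ofRA_gen, toRA_gen])

@[simp] theorem iso_gen (s : V) : iso Γ (RACG.gen Γ s) = gen Γ s := toRA_gen s

@[simp] theorem iso_symm_gen (s : V) : (iso Γ).symm (gen Γ s) = RACG.gen Γ s := ofRA_gen s

theorem iso_prod (l : List V) : iso Γ (RACG.prod Γ l) = (l.map (gen Γ)).prod := by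
  induction l with
  | nil => simp
  | cons a l ih => simp [ih]

theorem wordProd_eq (l : List V) : (rcs Γ).wordProd l = iso Γ (RACG.prod Γ l) := by
  rw [iso_prod]
  rfl

@[simp] theorem len_iso (w : RACG.W Γ) : len Γ (iso Γ w) = RACG.len w := by
  refine le_antisymm ?_ ?_
  · obtain ⟨l, rfl, hl, _⟩ := RACG.exists_word w
    rw [← hl, ← wordProd_eq]
    exact (rcs Γ).length_wordProd_le l
  · obtain ⟨l, hl, hw⟩ := (rcs Γ).exists_isReduced (iso Γ w)
    rw [wordProd_eq] at hw
    have h1 := (iso Γ).injective hw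
    have h2 := RACG.len_prod_le (Γ := Γ) l
    rw [← h1] at h2
    have h3 : len Γ (iso Γ w) = l.length := by
      rw [h1, ← wordProd_eq]
      exact hl
    rw [h3]
    exact h2

theorem len_symm (w : RA Γ) : RACG.len ((iso Γ).symm w) = len Γ w := by
  rw [← len_iso, MulEquiv.apply_symm_apply]

theorem exists_iso (w : RA Γ) : ∃ x, iso Γ x = w := ⟨_, (iso Γ).apply_symm_apply w⟩

theorem isCl_iff {T : Finset V} : Γ.IsClique (T : Set V) ↔ RACG.IsCl Γ T := by
  constructor
  · intro h s hs t ht hne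
    exact h hs ht hne
  · intro h s hs t ht hne
    exact h s hs t ht hne

@[simp] theorem iso_wcl (T : Finset V) : iso Γ (RACG.wcl Γ T) = pr Γ T := iso_prod _

theorem len_gen_mul_lt_iff {s : V} {w : RACG.W Γ} :
    len Γ (gen Γ s * iso Γ w) < len Γ (iso Γ w) ↔ RACG.In s w := by
  rw [← iso_gen, ← map_mul, len_iso, len_iso, RACG.in_iff]

theorem len_mul_gen_lt_iff {s : V} {w : RACG.W Γ} :
    len Γ (iso Γ w * gen Γ s) < len Γ (iso Γ w) ↔ RACG.In s w⁻¹ := by
  rw [← iso_gen, ← map_mul, len_iso, len_iso, RACG.in_iff, ← RACG.len_inv (w * _), mul_inv_rev,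
    RACG.gen_inv, RACG.len_inv]

theorem ab_iso (w : RACG.W Γ) : ab Γ (iso Γ w) = RACG.abHom Γ w := by
  have : (ab Γ).comp (iso Γ).toMonoidHom = RACG.abHom Γ := RACG.hom_ext fun s => by
    rw [RACG.abHom_gen]
    exact (congrArg (ab Γ) (iso_gen s)).trans (by rw [ab_gen])
  exact DFunLike.congr_fun this w

end Pool.Agent.RC84
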