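import Pool.Agent.RC84.Defs
import Pool.Agent.RC84.Basic0
import Pool.Agent.RC84.Basic1

/-!
# Cosets of the parabolic subgroups of cliques in right-angled Coxeter groups
-/

set_option autoImplicit false

namespace Pool.Agent.RC84

open scoped Classical

section P2
variable {V : Type} (Γ : SimpleGraph V)

theorem pr_empty : pr Γ ∅ = 1 := by simp [pr]

theorem pr_singleton (s : V) : pr Γ {s} = gen Γ s := by simp [pr]

theorem cosets_comm {T : Finset V} (h : Γ.IsClique (T : Set V)) :
    (T : Set V).Pairwise (Function.onFun Commute (gen Γ)) := by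
  intro a ha b hb hab
  exact gen_comm (h ha hb hab)

theorem cosets_pr_eq {T : Finset V} (h : Γ.IsClique (T : Set V)) :
    pr Γ T = T.noncommProd (gen Γ) (cosets_comm Γ h) := by
  have h1 : (T.toList.toFinset : Finset V) = T := Finset.toList_toFinset T
  have h2 := Finset.noncommProd_toFinset T.toList (gen Γ) (by rw [h1]; exact cosets_comm Γ h)
    T.nodup_toList
  unfold pr
  rw [← h2]
  congr 1

theorem cosets_pr_insert {T : Finset V} {s : V} (hs : s ∉ T)
    (h : Γ.IsClique ((insert s T : Finset V) : Set V)) :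
    pr Γ (insert s T) = gen Γ s * pr Γ T := by
  have hT : Γ.IsClique (T : Set V) := h.subset (by simp)
  rw [cosets_pr_eq Γ h, cosets_pr_eq Γ hT, Finset.noncommProd_insert_of_notMem _ _ _ _ hs]

theorem pr_mul {A B : Finset V} (h : Γ.IsClique ((A ∪ B : Finset V) : Set V)) :
    pr Γ A * pr Γ B = pr Γ (symmDiff A B) := by
  induction A using Finset.induction_on with
  | empty => rw [pr_empty, one_mul, ← Finset.bot_eq_empty, bot_symmDiff]
  | insert s A hs ih =>
    have hA : Γ.IsClique ((A ∪ B : Finset V) : Set V) := by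
      refine h.subset ?_
      rw [Finset.insert_union]
      simp
    have hsA : Γ.IsClique ((insert s A : Finset V) : Set V) := by
      refine h.subset ?_
      intro x hx
      simp only [Finset.coe_union, Set.mem_union]
      exact Or.inl hx
    rw [cosets_pr_insert Γ hs hsA, mul_assoc, ih hA]
    by_cases hB : s ∈ B
    · have h1 : s ∈ symmDiff A B := by
        rw [Finset.mem_symmDiff]; exact Or.inr ⟨hB, hs⟩
      have h2 : insert s ((symmDiff A B).erase s) = symmDiff A B := Finset.insert_erase h1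
      have h3 : Γ.IsClique ((insert s ((symmDiff A B).erase s) : Finset V) : Set V) := by
        rw [h2]
        refine hA.subset ?_
        intro x hx
        rw [Finset.mem_coe, Finset.mem_symmDiff] at hx
        rw [Finset.mem_coe, Finset.mem_union]
        tauto
      have h4 : symmDiff (insert s A) B = (symmDiff A B).erase s := by
        ext x
        rw [Finset.mem_erase, Finset.mem_symmDiff, Finset.mem_symmDiff, Finset.mem_insert]
        by_cases hx : x = s
        · subst hx; tauto
        · tauto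
      rw [← h2, cosets_pr_insert Γ (Finset.notMem_erase _ _) h3, ← mul_assoc, gen_mul_self, one_mul,
        h4]
    · have h1 : s ∉ symmDiff A B := by
        rw [Finset.mem_symmDiff]; tauto
      have h4 : symmDiff (insert s A) B = insert s (symmDiff A B) := by
        ext x
        rw [Finset.mem_insert, Finset.mem_symmDiff, Finset.mem_symmDiff, Finset.mem_insert]
        by_cases hx : x = s
        · subst hx; tauto
        · tauto
      have h3 : Γ.IsClique ((insert s (symmDiff A B) : Finset V) : Set V) := by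
        refine h.subset ?_
        intro x hx
        rw [Finset.mem_coe, Finset.mem_insert, Finset.mem_symmDiff] at hx
        rw [Finset.mem_coe, Finset.mem_union, Finset.mem_insert]
        tauto
      rw [h4, cosets_pr_insert Γ h1 h3]

theorem ab_pr {A : Finset V} (h : Γ.IsClique (A : Set V)) (v : V) :
    Multiplicative.toAdd (ab Γ (pr Γ A)) v = if v ∈ A then 1 else 0 := by
  induction A using Finset.induction_on with
  | empty =>
    rw [pr_empty, map_one]
    simp
  | insert s A hs ih =>
    have hA : Γ.IsClique (A : Set V) := h.subset (by simp)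
    rw [cosets_pr_insert Γ hs h, ab_mul_apply, ih hA, ab_gen_apply]
    by_cases hv : v = s
    · subst hv
      simp [hs]
    · simp [hv]

theorem cosets_ab_word (l : List V) (v : V) (hv : v ∉ l) :
    Multiplicative.toAdd (ab Γ (l.map (gen Γ)).prod) v = 0 := by
  induction l with
  | nil => simp
  | cons a l ih =>
    rw [List.map_cons, List.prod_cons, ab_mul_apply, ab_gen_apply,
      ih (fun h => hv (List.mem_cons_of_mem _ h)), add_zero, if_neg]
    rintro rfl
    exact hv List.mem_cons_self

theorem cosets_card_le_len (A : Finset V) (w : RA Γ)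
    (h : ∀ v ∈ A, Multiplicative.toAdd (ab Γ w) v ≠ 0) : A.card ≤ len Γ w := by
  obtain ⟨l, h1, h2⟩ := exists_word Γ w
  rw [← h1]
  refine (Finset.card_le_card ?_).trans l.toFinset_card_le
  intro v hv
  rw [List.mem_toFinset]
  by_contra hvl
  exact h v hv (by rw [← h2]; exact cosets_ab_word Γ l v hvl)

theorem len_pr {A : Finset V} (h : Γ.IsClique (A : Set V)) : len Γ (pr Γ A) = A.card := by
  apply le_antisymm
  · have := len_word_le Γ A.toList
    rwa [Finset.length_toList] at this
  · apply cosets_card_le_len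
    intro v hv
    rw [ab_pr Γ h, if_pos hv]
    exact one_ne_zero

/-- the left descents of `pr A` belong to `A` -/
theorem cosets_ldesc_pr {A : Finset V} (h : Γ.IsClique (A : Set V)) {s : V}
    (hs : len Γ (gen Γ s * pr Γ A) < len Γ (pr Γ A)) : s ∈ A := by
  by_contra hsA
  have h1 : (insert s A).card ≤ len Γ (gen Γ s * pr Γ A) := by
    apply cosets_card_le_len
    intro v hv
    rw [ab_mul_apply, ab_gen_apply, ab_pr Γ h]
    rcases Finset.mem_insert.1 hv with rfl | hv'
    · simp [hsA]
    · have : v ≠ s := fun he => hsA (he ▸ hv')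
      simp [hv', this]
  rw [Finset.card_insert_of_notMem hsA] at h1
  rw [len_pr Γ h] at hs
  omega

/-- the right descents of `pr A` belong to `A` -/
theorem cosets_rdesc_pr {A : Finset V} (h : Γ.IsClique (A : Set V)) {s : V}
    (hs : len Γ (pr Γ A * gen Γ s) < len Γ (pr Γ A)) : s ∈ A := by
  by_contra hsA
  have h1 : (insert s A).card ≤ len Γ (pr Γ A * gen Γ s) := by
    apply cosets_card_le_len
    intro v hv
    rw [ab_mul_apply, ab_gen_apply, ab_pr Γ h]
    rcases Finset.mem_insert.1 hv with rfl | hv'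
    · simp [hsA]
    · have : v ≠ s := fun he => hsA (he ▸ hv')
      simp [hv', this]
  rw [Finset.card_insert_of_notMem hsA] at h1
  rw [len_pr Γ h] at hs
  omega

theorem cosets_pr_mul_self {A : Finset V} (h : Γ.IsClique (A : Set V)) : pr Γ A * pr Γ A = 1 := by
  rw [pr_mul Γ (by rwa [Finset.union_self]), symmDiff_self, Finset.bot_eq_empty, pr_empty]

theorem cosets_pr_inv {A : Finset V} (h : Γ.IsClique (A : Set V)) : (pr Γ A)⁻¹ = pr Γ A :=
  inv_eq_of_mul_eq_one_right (cosets_pr_mul_self Γ h)

theorem cosets_symmDiff_subset {A B T : Finset V} (hA : A ⊆ T) (hB : B ⊆ T) :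
    symmDiff A B ⊆ T := by
  intro x hx
  rw [Finset.mem_symmDiff] at hx
  rcases hx with hx | hx
  · exact hA hx.1
  · exact hB hx.1

theorem cosets_pr_mul_sub {A B T : Finset V} (hT : Γ.IsClique (T : Set V)) (hA : A ⊆ T)
    (hB : B ⊆ T) : pr Γ A * pr Γ B = pr Γ (symmDiff A B) :=
  pr_mul Γ (hT.subset (by
    intro x hx
    rw [Finset.mem_coe] at hx ⊢
    exact Finset.union_subset hA hB hx))

theorem cosets_self_mem (w : RA Γ) (T : Finset V) : w ∈ cos Γ w T :=
  ⟨∅, Finset.empty_subset _, by rw [pr_empty, mul_one]⟩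

theorem cos_subset_iff {w w' : RA Γ} {T T' : Finset V} (hT : Γ.IsClique (T : Set V))
    (hT' : Γ.IsClique (T' : Set V)) :
    cos Γ w T ⊆ cos Γ w' T' ↔ T ⊆ T' ∧ w ∈ cos Γ w' T' := by
  constructor
  · intro h
    have hw := h (cosets_self_mem Γ w T)
    refine ⟨?_, hw⟩
    intro s hs
    obtain ⟨A, hA, hwA⟩ := hw
    have h1 : w * gen Γ s ∈ cos Γ w T := ⟨{s}, by simpa using hs, by rw [pr_singleton]⟩
    obtain ⟨B, hB, hwB⟩ := h h1
    have hAc : Γ.IsClique (A : Set V) := hT'.subset (by exact_mod_cast hA)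
    have h2 : gen Γ s = pr Γ (symmDiff A B) := by
      rw [← cosets_pr_mul_sub Γ hT' hA hB]
      have h3 : w' * (pr Γ A * gen Γ s) = w' * pr Γ B := by rw [← mul_assoc, ← hwA, hwB]
      have h4 := mul_left_cancel h3
      rw [← h4, ← mul_assoc, cosets_pr_mul_self Γ hAc, one_mul]
    have h5 : symmDiff A B ⊆ T' := cosets_symmDiff_subset hA hB
    have h6 := ab_pr Γ (A := symmDiff A B) (hT'.subset (by exact_mod_cast h5)) s
    rw [← h2, ab_gen_apply, if_pos rfl] at h6
    by_contra hsT
    rw [if_neg (fun h => hsT (h5 h))] at h6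
    exact one_ne_zero h6
  · rintro ⟨hTT, A, hA, hwA⟩
    rintro u ⟨B, hB, rfl⟩
    refine ⟨symmDiff A B, cosets_symmDiff_subset hA (hB.trans hTT), ?_⟩
    rw [hwA, mul_assoc, cosets_pr_mul_sub Γ hT' hA (hB.trans hTT)]

theorem mem_cos_symm {w w' : RA Γ} {T : Finset V} (hT : Γ.IsClique (T : Set V))
    (h : w ∈ cos Γ w' T) : cos Γ w T = cos Γ w' T := by
  apply Set.Subset.antisymm
  · exact (cos_subset_iff Γ hT hT).2 ⟨subset_rfl, h⟩
  · refine (cos_subset_iff Γ hT hT).2 ⟨subset_rfl, ?_⟩
    obtain ⟨A, hA, hwA⟩ := h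
    refine ⟨A, hA, ?_⟩
    rw [hwA, mul_assoc, cosets_pr_mul_self Γ (hT.subset (by exact_mod_cast hA)), mul_one]

theorem len_min_mul (w₀ : RA Γ) {T A : Finset V} (hT : Γ.IsClique (T : Set V))
    (h : ∀ s ∈ T, len Γ w₀ < len Γ (w₀ * gen Γ s)) (hA : A ⊆ T) :
    len Γ (w₀ * pr Γ A) = len Γ w₀ + A.card := by
  have hAc : Γ.IsClique (A : Set V) := hT.subset (by exact_mod_cast hA)
  rw [len_mul_of_disjoint Γ w₀ (pr Γ A), len_pr Γ hAc]
  rintro s ⟨h1, h2⟩
  have h3 := h s (hA (cosets_ldesc_pr Γ hAc h2))
  omega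

/-- the shortest element of a coset -/
theorem exists_min_cos (w : RA Γ) {T : Finset V} (hT : Γ.IsClique (T : Set V)) :
    ∃ w₀ ∈ cos Γ w T, (∀ s ∈ T, len Γ w₀ < len Γ (w₀ * gen Γ s)) ∧
      ∀ u ∈ cos Γ w T, u ≠ w₀ → len Γ w₀ < len Γ u := by
  have hne : ∃ n, ∃ u ∈ cos Γ w T, len Γ u = n := ⟨_, w, cosets_self_mem Γ w T, rfl⟩
  obtain ⟨w₀, hw₀, hlen⟩ := Nat.find_spec hne
  have hmin : ∀ u ∈ cos Γ w T, len Γ w₀ ≤ len Γ u := by
    intro u hu
    rw [hlen]
    exact Nat.find_min' hne ⟨u, hu, rfl⟩
  have hd : ∀ s ∈ T, len Γ w₀ < len Γ (w₀ * gen Γ s) := by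
    intro s hs
    have h1 : w₀ * gen Γ s ∈ cos Γ w T := by
      rw [← mem_cos_symm Γ hT hw₀]
      exact ⟨{s}, by simpa using hs, by rw [pr_singleton]⟩
    have h2 := hmin _ h1
    rcases len_mul_gen Γ w₀ s with h3 | h3 <;> omega
  refine ⟨w₀, hw₀, hd, ?_⟩
  intro u hu hne
  rw [← mem_cos_symm Γ hT hw₀] at hu
  obtain ⟨A, hA, rfl⟩ := hu
  rw [len_min_mul Γ w₀ hT hd hA]
  have h1 : A.Nonempty := by
    rw [Finset.nonempty_iff_ne_empty]
    rintro rfl
    exact hne (by rw [pr_empty, mul_one])
  have := h1.card_pos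
  omega

/-- a right descent occurs in every word for the element -/
theorem cosets_desc_mem {l : List V} {s : V}
    (h : len Γ ((l.map (gen Γ)).prod * gen Γ s) < len Γ (l.map (gen Γ)).prod) : s ∈ l := by
  by_contra hs
  let φ : RA Γ →* RA Γ := RAlift Γ (fun u => if u ∈ l then gen Γ u else 1)
    (by
      intro u
      by_cases hu : u ∈ l
      · simp only [hu, if_true, gen_mul_self]
      · simp only [hu, if_false, mul_one])
    (by
      intro u v huv
      by_cases hu : u ∈ l
      · by_cases hv : v ∈ l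
        · simp only [hu, hv, if_true, gen_comm huv]
        · simp only [hu, hv, if_true, if_false, mul_one, one_mul]
      · simp only [hu, if_false, mul_one, one_mul])
  have hφ : ∀ u, φ (gen Γ u) = if u ∈ l then gen Γ u else 1 := fun u => RAlift_gen Γ _ _ _ u
  have hfix : ∀ l' : List V, (∀ x ∈ l', x ∈ l) →
      φ (l'.map (gen Γ)).prod = (l'.map (gen Γ)).prod := by
    intro l'
    induction l' with
    | nil => intro _; simp
    | cons a l' ih =>
      intro h'
      rw [List.map_cons, List.prod_cons, map_mul, hφ, if_pos (h' a List.mem_cons_self),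
        ih (fun x hx => h' x (List.mem_cons_of_mem _ hx))]
  have hle : ∀ l' : List V, len Γ (φ (l'.map (gen Γ)).prod) ≤ l'.length := by
    intro l'
    induction l' with
    | nil => simp [len_one]
    | cons a l' ih =>
      rw [List.map_cons, List.prod_cons, map_mul, List.length_cons]
      refine (len_mul_le Γ _ _).trans ?_
      have : len Γ (φ (gen Γ a)) ≤ 1 := by
        rw [hφ]
        split_ifs
        · rw [len_gen]
        · rw [len_one]; exact Nat.zero_le _
      omega
  set w := (l.map (gen Γ)).prod with hw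
  obtain ⟨l', h1, h2⟩ := exists_word Γ (w * gen Γ s)
  have h3 := hle l'
  rw [h2, map_mul, hφ, if_neg hs, mul_one, hw, hfix l (fun x hx => hx), ← hw, h1] at h3
  omega

/-- the right descents of an element form a finite clique -/
theorem exists_desc (w : RA Γ) : ∃ D : Finset V, Γ.IsClique (D : Set V) ∧
    ∀ s, s ∈ D ↔ len Γ (w * gen Γ s) < len Γ w := by
  obtain ⟨l, h1, h2⟩ := exists_word Γ w
  refine ⟨l.toFinset.filter (fun s => len Γ (w * gen Γ s) < len Γ w), ?_, ?_⟩
  · intro s hs t ht hst
    rw [Finset.mem_coe, Finset.mem_filter] at hs ht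
    exact desc_adj Γ hs.2 ht.2 hst
  · intro s
    rw [Finset.mem_filter, List.mem_toFinset]
    constructor
    · exact fun h => h.2
    · intro h
      refine ⟨?_, h⟩
      rw [← h2] at h
      exact cosets_desc_mem Γ h

end P2

end Pool.Agent.RC84
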