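import Pool.Agent.RC84.Basic0
import Pool.Agent.RC84.Cosets

/-!
# Coset posets: freeness, upper intervals, ranks (package P8a)
-/

set_option autoImplicit false

namespace Pool.Agent.RC84

open scoped Classical

section CPoset

theorem cpo_dl_map {α β M : Type} [AddCommGroup M] (e : α → β) (l : List α) :
    ∀ f : List β → M, dl (l.map e) f = dl l (fun l' => f (l'.map e)) := by
  induction l with
  | nil => intro f; rfl
  | cons x l ih =>
    intro f
    simp only [List.map_cons, dl]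
    rw [ih]

theorem cpo_dl_congr {α M : Type} [AddCommGroup M] (l : List α) :
    ∀ f g : List α → M, (∀ l' : List α, l'.length + 1 = l.length → f l' = g l') →
      dl l f = dl l g := by
  induction l with
  | nil => intro f g _; rfl
  | cons x l ih =>
    intro f g h
    simp only [dl]
    rw [h l (by simp), ih (fun l' => f (x :: l')) (fun l' => g (x :: l'))
      (fun l' hl' => h (x :: l') (by simp [hl']))]

theorem cpo_self_mem {V : Type} (Γ : SimpleGraph V) (w : RA Γ) (T : Finset V) :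
    w ∈ cos Γ w T := ⟨∅, Finset.empty_subset _, by simp [pr]⟩

theorem cpo_cos_eq {V : Type} (Γ : SimpleGraph V) (w : RA Γ) (T : Finset V) :
    cos Γ w T = (fun A => w * pr Γ A) '' (T.powerset : Set (Finset V)) := by
  ext u
  constructor
  · rintro ⟨A, hA, rfl⟩
    exact ⟨A, by simpa using hA, rfl⟩
  · rintro ⟨A, hA, rfl⟩
    exact ⟨A, by simpa using hA, rfl⟩

theorem cpo_finite {V : Type} (Γ : SimpleGraph V) (w : RA Γ) (T : Finset V) :
    (cos Γ w T).Finite := by
  rw [cpo_cos_eq]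
  exact (Finset.finite_toSet _).image _

/-- the kernel of the abelianisation acts freely on the coset poset -/
theorem CP_free {V : Type} (Γ : SimpleGraph V) (𝒞 : Set (Finset V))
    (hcl : ∀ T ∈ 𝒞, Γ.IsClique (T : Set V)) (g : (ab Γ).ker) (x : CP Γ 𝒞)
    (h : (g : RA Γ) • x = x) : g = 1 := by
  obtain ⟨w, T, hT, hx⟩ := x.2
  have h1 : ((g : RA Γ) • x).1 = x.1 := by rw [h]
  rw [CP.smul_val, hx, image_cos] at h1
  have h2 : (g : RA Γ) * w ∈ cos Γ w T := by
    rw [← h1]
    exact cpo_self_mem Γ _ T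
  obtain ⟨A, hA, hgw⟩ := h2
  have h3 : A = ∅ := by
    apply Finset.eq_empty_of_forall_notMem
    intro v hv
    have h4 : Multiplicative.toAdd (ab Γ ((g : RA Γ) * w)) v =
        Multiplicative.toAdd (ab Γ (w * pr Γ A)) v := by rw [hgw]
    rw [ab_mul_apply, ab_mul_apply, ab_pr Γ ((hcl T hT).subset (by exact_mod_cast hA)) v,
      if_pos hv] at h4
    have h5 : Multiplicative.toAdd (ab Γ (g : RA Γ)) v = 0 := by
      have : ab Γ (g : RA Γ) = 1 := g.2
      rw [this]; rfl
    rw [h5, zero_add] at h4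
    have h6 : (1 : ZMod 2) = 0 := by
      have := h4.symm
      rwa [add_eq_left] at this
    exact absurd h6 (by decide)
  subst h3
  have h7 : (g : RA Γ) * w = w := by
    rw [hgw]; simp [pr]
  have h8 : (g : RA Γ) = 1 := by
    have := mul_eq_right.1 h7
    exact this
  exact Subtype.ext h8

theorem cpo_le_iff {V : Type} (Γ : SimpleGraph V) (w : RA Γ) {A B : Finset V}
    (hA : Γ.IsClique (A : Set V)) (hB : Γ.IsClique (B : Set V)) :
    cos Γ w A ⊆ cos Γ w B ↔ A ⊆ B := by
  rw [cos_subset_iff Γ hA hB]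
  exact ⟨fun h => h.1, fun h => ⟨h, cpo_self_mem Γ w B⟩⟩

theorem CP_upper_exact {V : Type} (Γ : SimpleGraph V) (𝒞 : Set (Finset V))
    (hcl : ∀ T ∈ 𝒞, Γ.IsClique (T : Set V)) (M : Type) [AddCommGroup M] (n : ℕ)
    (h : ∀ c ∈ 𝒞, ExactAt {c' | c' ∈ 𝒞 ∧ c < c'} M n) (x : CP Γ 𝒞) :
    ExactAt {y | x < y} M n := by
  obtain ⟨w, c, hc, hx⟩ := x.2
  intro f hf
  let e : Finset V → CP Γ 𝒞 := fun c' =>
    if hc' : c' ∈ 𝒞 then ⟨cos Γ w c', w, c', hc', rfl⟩ else x
  have he : ∀ c' ∈ 𝒞, (e c').1 = cos Γ w c' := by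
    intro c' hc'
    have h0 : e c' = ⟨cos Γ w c', w, c', hc', rfl⟩ := dif_pos hc'
    rw [h0]
  have hle : ∀ a ∈ 𝒞, ∀ b ∈ 𝒞, (e a ≤ e b ↔ a ⊆ b) := by
    intro a ha b hb
    change (e a).1 ⊆ (e b).1 ↔ a ⊆ b
    rw [he a ha, he b hb]
    exact cpo_le_iff Γ w (hcl a ha) (hcl b hb)
  have hlt : ∀ a ∈ 𝒞, ∀ b ∈ 𝒞, (e a < e b ↔ a < b) := by
    intro a ha b hb
    rw [lt_iff_le_not_ge, hle a ha b hb, hle b hb a ha, lt_iff_le_not_ge]
  have hex : e c = x := Subtype.ext (by rw [he c hc, hx])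
  have hinv : ∀ y : CP Γ 𝒞, x < y → ∃ c', (c' ∈ 𝒞 ∧ c < c') ∧ e c' = y := by
    intro y hy
    obtain ⟨w', c', hc', hy'⟩ := y.2
    have h1 : cos Γ w c ⊆ cos Γ w' c' := by
      rw [← hx, ← hy']
      exact hy.le
    have h2 := (cos_subset_iff Γ (hcl c hc) (hcl c' hc')).1 h1
    have h3 : e c' = y := Subtype.ext (by
      rw [he c' hc', hy']
      exact mem_cos_symm Γ (hcl c' hc') h2.2)
    refine ⟨c', ⟨hc', ?_⟩, h3⟩
    rw [← hlt c hc c' hc', hex, h3]
    exact hy
  choose! e' he'1 he'2 using hinv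
  obtain ⟨G, hG⟩ := h c hc (fun l => f (l.map e)) (by
    intro l hl hlm hlen
    rw [← cpo_dl_map]
    apply hf
    · change (l.map e).Pairwise (· < ·)
      rw [List.pairwise_map]
      refine List.Pairwise.imp_of_mem ?_ hl
      intro a b ha hb hab
      exact (hlt a (hlm a ha).1 b (hlm b hb).1).2 hab
    · intro y hy
      obtain ⟨a, ha, rfl⟩ := List.mem_map.1 hy
      change x < e a
      rw [← hex]
      exact (hlt c hc a (hlm a ha).1).2 (hlm a ha).2
    · rw [List.length_map, hlen])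
  refine ⟨fun l => G (l.map e'), ?_⟩
  intro l hl hlm hlen
  rw [← cpo_dl_map]
  have h1 : (l.map e').map e = l := by
    rw [List.map_map]
    conv_rhs => rw [← List.map_id l]
    apply List.map_congr_left
    intro y hy
    exact he'2 y (hlm y hy)
  have h2 := hG (l.map e') (by
    change (l.map e').Pairwise (· < ·)
    rw [List.pairwise_map]
    refine List.Pairwise.imp_of_mem ?_ hl
    intro a b ha hb hab
    have ha' := hlm a ha
    have hb' := hlm b hb
    rw [← hlt _ (he'1 a ha').1 _ (he'1 b hb').1, he'2 a ha', he'2 b hb']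
    exact hab) (by
    intro y hy
    obtain ⟨a, ha, rfl⟩ := List.mem_map.1 hy
    exact he'1 a (hlm a ha)) (by rw [List.length_map, hlen])
  have h3 : f ((l.map e').map e) = dl (l.map e') G := h2
  rw [h1] at h3
  exact h3

theorem CP_smul_lt {V : Type} (Γ : SimpleGraph V) (𝒞 : Set (Finset V)) (g : RA Γ)
    (x y : CP Γ 𝒞) (h : x < y) : g • x < g • y := by
  have hinj : Function.Injective (fun u : RA Γ => g * u) := mul_right_injective g
  rw [lt_iff_le_not_ge] at h ⊢
  constructor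
  · change (g • x).1 ⊆ (g • y).1
    rw [CP.smul_val, CP.smul_val]
    exact Set.image_mono h.1
  · intro h'
    apply h.2
    have h2 : (g • y).1 ⊆ (g • x).1 := h'
    rw [CP.smul_val, CP.smul_val] at h2
    exact (Set.image_subset_image_iff hinj).1 h2

/-- number of elements of a coset: a rank function on the coset poset -/
theorem CP_ncard_lt {V : Type} (Γ : SimpleGraph V) (𝒞 : Set (Finset V))
    (x y : CP Γ 𝒞) (h : x < y) : x.1.ncard < y.1.ncard := by
  obtain ⟨w, T, hT, hy⟩ := y.2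
  have hfin : y.1.Finite := by rw [hy]; exact cpo_finite Γ w T
  rw [lt_iff_le_not_ge] at h
  exact Set.ncard_lt_ncard ⟨h.1, h.2⟩ hfin

theorem CP_ncard_smul {V : Type} (Γ : SimpleGraph V) (𝒞 : Set (Finset V)) (g : RA Γ)
    (x : CP Γ 𝒞) : (g • x).1.ncard = x.1.ncard := by
  rw [CP.smul_val]
  exact Set.ncard_image_of_injective _ (mul_right_injective g)

theorem CP_ncard_le {V : Type} (Γ : SimpleGraph V) (𝒞 : Set (Finset V)) (R : ℕ)
    (hR : ∀ T ∈ 𝒞, T.card ≤ R) (x : CP Γ 𝒞) : x.1.ncard ≤ 2 ^ R := by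
  obtain ⟨w, T, hT, hx⟩ := x.2
  rw [hx, cpo_cos_eq]
  refine (Set.ncard_image_le (Finset.finite_toSet _)).trans ?_
  rw [Set.ncard_coe_finset, Finset.card_powerset]
  exact Nat.pow_le_pow_right (by norm_num) (hR T hT)

end CPoset

end Pool.Agent.RC84
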