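import Pool.Agent.RC84.Acyclic
import Pool.Agent.RC84.Cosets
import Pool.Agent.RC84.CPoset

/-!
# P4b: the coset poset of a right-angled Coxeter group is acyclic
-/

set_option autoImplicit false

namespace Pool.Agent.RC84

open scoped Classical

/-- P4b: coset posets -/
theorem CP_acyclic {V : Type} (Γ : SimpleGraph V) (𝒞 : Set (Finset V)) (h0 : ∅ ∈ 𝒞)
    (hcl : ∀ T ∈ 𝒞, Γ.IsClique (T : Set V)) (hint : ∀ T ∈ 𝒞, ∀ T' ∈ 𝒞, T ∩ T' ∈ 𝒞)
    (hcov : ∀ T : Finset V, Γ.IsClique (T : Set V) → ∃ T' ∈ 𝒞, T ⊆ T')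
    (R : ℕ) (hR : ∀ T ∈ 𝒞, T.card ≤ R) (k : Type) [CommRing k] : Acyclic k (CP Γ 𝒞) := by
  have hmin : ∀ x : CP Γ 𝒞, ∃ w₀ ∈ x.1, ∀ u ∈ x.1, u ≠ w₀ → len Γ w₀ < len Γ u := by
    intro x
    obtain ⟨w, T, hT, hx⟩ := x.2
    obtain ⟨w₀, h1, _, h3⟩ := exists_min_cos Γ w (hcl T hT)
    rw [← hx] at h1 h3
    exact ⟨w₀, h1, h3⟩
  choose m hm1 hm2 using hmin
  let v : RA Γ → CP Γ 𝒞 := fun w => ⟨cos Γ w ∅, w, ∅, h0, rfl⟩
  have hv : ∀ w, (v w).1 = {w} := by
    intro w
    ext u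
    constructor
    · rintro ⟨A, hA, rfl⟩
      rw [Finset.subset_empty.1 hA, pr_empty, mul_one]
      rfl
    · rintro rfl
      exact cosets_self_mem Γ _ _
  have hle : ∀ w (x : CP Γ 𝒞), v w ≤ x ↔ w ∈ x.1 := by
    intro w x
    change (v w).1 ⊆ x.1 ↔ _
    rw [hv]
    exact Set.singleton_subset_iff
  have hmle : ∀ (w : RA Γ) (x : CP Γ 𝒞), w ∈ x.1 →
      len Γ (m x) ≤ len Γ w ∧ (len Γ (m x) = len Γ w → m x = w) := by
    intro w x hw
    by_cases h : w = m x
    · rw [h]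
      exact ⟨le_rfl, fun _ => rfl⟩
    · have := hm2 x w hw h
      exact ⟨this.le, fun h' => absurd h' this.ne⟩
  have hrep : ∀ (w : RA Γ) (x : CP Γ 𝒞), w ∈ x.1 → ∃ T ∈ 𝒞, x.1 = cos Γ w T := by
    intro w x hw
    obtain ⟨w', T, hT, hx⟩ := x.2
    rw [hx] at hw
    exact ⟨T, hT, by rw [hx, mem_cos_symm Γ (hcl T hT) hw]⟩
  have hdesc : ∀ (w : RA Γ) (x : CP Γ 𝒞) (s : V), w * gen Γ s ∈ x.1 →
      len Γ (w * gen Γ s) < len Γ w → m x ≠ w := by
    intro w x s hs hlt h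
    have := (hmle _ x hs).1
    rw [h] at this
    omega
  refine acyclic_abstract k (len Γ) m v (fun x => x.1.ncard) (2 ^ R) ?_ ?_ ?_ ?_ 1 ?_ ?_
    (CP_ncard_lt Γ 𝒞) (CP_ncard_le Γ 𝒞 R hR)
  · intro w
    have := hm1 (v w)
    rw [hv] at this
    exact this
  · intro x
    rw [hle]
    exact hm1 x
  · intro w x h
    rw [hle] at h
    exact hmle w x h
  · intro w x h
    apply Subtype.ext
    have h1 : x.1 ⊆ {w} := by rw [← hv]; exact h
    rw [hv]
    apply Set.Subset.antisymm h1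
    rw [Set.singleton_subset_iff]
    have := h1 (hm1 x)
    rw [Set.mem_singleton_iff] at this
    rw [← this]
    exact hm1 x
  · intro x h
    rw [hle] at h
    have h1 := (hmle 1 x h).1
    rw [len_one] at h1
    exact (len_eq_zero Γ).1 (Nat.le_zero.1 h1)
  · intro w hw
    obtain ⟨D, hD1, hD2⟩ := exists_desc Γ w
    obtain ⟨T', hT', hDT⟩ := hcov D hD1
    obtain ⟨s₀, hs₀⟩ := exists_right_desc Γ hw
    have hmem : ∀ (T : Finset V) (s : V), s ∈ T → w * gen Γ s ∈ cos Γ w T := by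
      intro T s hs
      exact ⟨{s}, Finset.singleton_subset_iff.2 hs, by rw [pr_singleton]⟩
    refine ⟨⟨cos Γ w T', w, T', hT', rfl⟩, ?_, ?_, ?_⟩
    · rw [hle]
      exact cosets_self_mem Γ _ _
    · exact hdesc w _ s₀ (hmem T' s₀ (hDT ((hD2 s₀).2 hs₀))) hs₀
    · intro x hx hmx
      rw [hle] at hx
      obtain ⟨T, hT, hxT⟩ := hrep w x hx
      -- some right descent of `w` lies in `T`
      obtain ⟨s, hsT, hs⟩ : ∃ s ∈ T, len Γ (w * gen Γ s) < len Γ w := by
        by_contra hcon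
        push Not at hcon
        apply hmx
        have hup : ∀ s ∈ T, len Γ w < len Γ (w * gen Γ s) := by
          intro s hs
          rcases len_mul_gen Γ w s with h | h
          · omega
          · have := hcon s hs
            omega
        have h1 := hm1 x
        rw [hxT] at h1
        obtain ⟨A, hA, hAw⟩ := h1
        have h2 := len_min_mul Γ w (hcl T hT) hup hA
        have h3 := hmle w x hx
        rw [hAw, h2] at h3
        rw [hAw]
        exact h3.2 (by omega)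
      refine ⟨⟨cos Γ w (T ∩ T'), w, T ∩ T', hint T hT T' hT', rfl⟩, ?_, ?_, ?_, ?_, ?_⟩
      · change cos Γ w (T ∩ T') ⊆ x.1
        rw [hxT]
        rintro u ⟨A, hA, rfl⟩
        exact ⟨A, hA.trans Finset.inter_subset_left, rfl⟩
      · change cos Γ w (T ∩ T') ⊆ cos Γ w T'
        rintro u ⟨A, hA, rfl⟩
        exact ⟨A, hA.trans Finset.inter_subset_right, rfl⟩
      · rw [hle]
        exact cosets_self_mem Γ _ _
      · exact hdesc w _ s (hmem _ s (Finset.mem_inter.2 ⟨hsT, hDT ((hD2 s).2 hs)⟩)) hs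
      · intro z hzx hzK
        change z.1 ⊆ cos Γ w (T ∩ T')
        have h1 : z.1 ⊆ cos Γ w T := by rw [← hxT]; exact hzx
        have h2 : z.1 ⊆ cos Γ w T' := hzK
        intro u hu
        obtain ⟨A, hA, hAu⟩ := h1 hu
        obtain ⟨B, hB, hBu⟩ := h2 hu
        have h3 : pr Γ A = pr Γ B := mul_left_cancel (hAu.symm.trans hBu)
        have hAc : Γ.IsClique (A : Set V) := (hcl T hT).subset (by exact_mod_cast hA)
        have hBc : Γ.IsClique (B : Set V) := (hcl T' hT').subset (by exact_mod_cast hB)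
        have h4 : A = B := by
          ext a
          have h5 := ab_pr Γ hAc a
          rw [h3, ab_pr Γ hBc a] at h5
          by_cases ha : a ∈ A <;> by_cases hb : a ∈ B <;> simp [ha, hb] at h5 ⊢
        refine ⟨A, ?_, hAu⟩
        rw [h4] at hA ⊢
        exact Finset.subset_inter hA hB

end Pool.Agent.RC84
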