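import Pool.Agent.RC84.Defs

/-!
# MP_8085d2, P5: free actions on acyclic posets compute group cohomology

Elementwise double complex argument: inhomogeneous cochains of `G` with values in the modules of
functions on the chains of a free `G`-poset.
-/

set_option autoImplicit false

namespace Pool.Agent.RC84.Cohom

open CategoryTheory

section Diff

variable {k G X Y : Type} [CommRing k] [Group G] [AddCommGroup X] [Module k X]
  [AddCommGroup Y] [Module k Y]

/-- the inhomogeneous differential -/
def cohD (ρ : Representation k G X) (n : ℕ) (f : (Fin n → G) → X) : (Fin (n + 1) → G) → X :=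
  fun g => ρ (g 0) (f fun i => g i.succ) + ∑ j : Fin (n + 1), (-1 : k) ^ ((j : ℕ) + 1) •
    f (Fin.contractNth j (· * ·) g)

theorem cohD_eq (A : Rep.{0} k G) (n : ℕ) (f : (Fin n → G) → A) :
    cohD A.ρ n f = (inhomogeneousCochains.d A n).hom f := rfl

theorem cohD_cohD (ρ : Representation k G X) (n : ℕ) (f : (Fin n → G) → X) :
    cohD ρ (n + 1) (cohD ρ n f) = 0 := by
  have h := groupCohomology.inhomogeneousCochains.d_comp_d (A := Rep.of ρ) (n := n)
  have h2 := congrArg (fun m => m.hom f) h
  exact h2

theorem subsingleton_iff (A : Rep.{0} k G) (n : ℕ) :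
    Subsingleton (groupCohomology A (n + 1)) ↔
      ∀ f : (Fin (n + 1) → G) → A, cohD A.ρ (n + 1) f = 0 → ∃ h, cohD A.ρ n h = f := by
  have h1 : Subsingleton (groupCohomology A (n + 1)) ↔
      (groupCohomology.inhomogeneousCochains A).ExactAt (n + 1) := by
    rw [HomologicalComplex.exactAt_iff_isZero_homology]
    exact (ModuleCat.isZero_iff_subsingleton).symm
  rw [h1, HomologicalComplex.exactAt_iff' _ n (n + 1) (n + 2) (by simp) (by simp),
    ShortComplex.moduleCat_exact_iff]
  have e1 := groupCohomology.inhomogeneousCochains.d_def (A := A) n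
  have e2 := groupCohomology.inhomogeneousCochains.d_def (A := A) (n + 1)
  constructor
  · intro h f hf
    obtain ⟨x, hx⟩ := h f (by
      change ((groupCohomology.inhomogeneousCochains A).d (n + 1) (n + 2)).hom f = 0
      rw [e2]
      exact hf)
    refine ⟨x, ?_⟩
    change ((groupCohomology.inhomogeneousCochains A).d n (n + 1)).hom x = f at hx
    rw [e1] at hx
    exact hx
  · intro h f hf
    change ((groupCohomology.inhomogeneousCochains A).d (n + 1) (n + 2)).hom f = 0 at hf
    rw [e2] at hf
    obtain ⟨x, hx⟩ := h f hf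
    refine ⟨x, ?_⟩
    change ((groupCohomology.inhomogeneousCochains A).d n (n + 1)).hom x = f
    rw [e1]
    exact hx

theorem cohD_comp (ρ : Representation k G X) (σ : Representation k G Y) (d : X →ₗ[k] Y)
    (hd : ∀ g x, d (ρ g x) = σ g (d x)) (n : ℕ) (f : (Fin n → G) → X) :
    cohD σ n (fun g => d (f g)) = fun g => d (cohD ρ n f g) := by
  funext g
  simp [cohD, map_add, map_sum, hd]

theorem cohD_sub (ρ : Representation k G X) (n : ℕ) (f f' : (Fin n → G) → X) :
    cohD ρ n (fun g => f g - f' g) = fun g => cohD ρ n f g - cohD ρ n f' g := by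
  funext g
  simp only [cohD, map_sub, smul_sub, Finset.sum_sub_distrib]
  abel

end Diff

section Abs

variable {k G : Type} [CommRing k] [Group G] (C : ℕ → Type) [∀ n, AddCommGroup (C n)]
  [∀ n, Module k (C n)] (ρ : ∀ n, Representation k G (C n)) (d : ∀ n, C n →ₗ[k] C (n + 1))

/-- the statement moved along the double complex -/
def SS : ℕ → ℕ → Prop
  | 0, q => ∀ x : C q, (∀ g, ρ (q + 1) g (d q x) = d q x) →
      ∃ y : C q, (∀ g, ρ q g y = y) ∧ d q y = d q x
  | p + 1, q => ∀ Ψ : (Fin (p + 1) → G) → C q,
      cohD (ρ (q + 1)) (p + 1) (fun g => d q (Ψ g)) = 0 →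
      ∃ η : (Fin p → G) → C q, ∀ g, d q (cohD (ρ q) p η g) = d q (Ψ g)

theorem cohD_zero {X : Type} [AddCommGroup X] [Module k X] (ρ : Representation k G X)
    (f : (Fin 0 → G) → X) (g : Fin 1 → G) : cohD ρ 0 f g = ρ (g 0) (f ![]) - f ![] := by
  have h : ∀ a : Fin 0 → G, f a = f ![] := fun a => congrArg f (Subsingleton.elim _ _)
  simp [cohD, h, sub_eq_add_neg]

variable (hd : ∀ n g x, d n (ρ n g x) = ρ (n + 1) g (d n x))
  (hdd : ∀ n x, d (n + 1) (d n x) = 0)
  (hcol : ∀ n (x : C (n + 1)), d (n + 1) x = 0 → ∃ y : C n, d n y = x)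
  (hrow : ∀ n p (Φ : (Fin (p + 1) → G) → C (n + 1)), cohD (ρ (n + 1)) (p + 1) Φ = 0 →
    ∃ Ψ, cohD (ρ (n + 1)) p Ψ = Φ)

include hd hdd hcol hrow

theorem ss_step (p q : ℕ) : SS C ρ d p (q + 1) ↔ SS C ρ d (p + 1) q := by
  cases p with
  | zero =>
    constructor
    · intro h Ψ hΨ
      obtain ⟨Ψ', hΨ'⟩ := hrow q 0 _ hΨ
      set x' := Ψ' ![] with hx'
      have e1 : ∀ g : Fin 1 → G, ρ (q + 1) (g 0) x' - x' = d q (Ψ g) := by
        intro g
        rw [← congrFun hΨ' g, cohD_zero]
      have e2 : ∀ g : G, ρ (q + 2) g (d (q + 1) x') = d (q + 1) x' := by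
        intro g
        have := congrArg (d (q + 1)) (e1 ![g])
        rw [hdd, map_sub, hd] at this
        exact sub_eq_zero.1 this
      obtain ⟨y', hy1, hy2⟩ := h x' e2
      obtain ⟨z, hz⟩ := hcol q (x' - y') (by rw [map_sub, hy2, sub_self])
      refine ⟨fun _ => z, fun g => ?_⟩
      rw [cohD_zero, map_sub, hd, hz, ← e1 g, map_sub, hy1]
      abel
    · intro h x' hx'
      have e0 : ∀ g : Fin 1 → G, ∃ y : C q, d q y = ρ (q + 1) (g 0) x' - x' := by
        intro g
        apply hcol
        rw [map_sub, hd, hx', sub_self]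
      choose Ψ hΨ using e0
      have e1 : (fun g => d q (Ψ g)) = cohD (ρ (q + 1)) 0 (fun _ => x') := by
        funext g
        rw [hΨ, cohD_zero]
      obtain ⟨η, hη⟩ := h Ψ (by rw [e1, cohD_cohD])
      refine ⟨x' - d q (η ![]), fun g => ?_, by rw [map_sub, hdd, sub_zero]⟩
      have := hη ![g]
      rw [hΨ, cohD_zero, map_sub, hd] at this
      simp only [Matrix.cons_val_zero] at this
      rw [map_sub]
      have h2 : ρ (q + 1) g x' - ρ (q + 1) g (d q (η ![])) - (x' - d q (η ![])) =
          (ρ (q + 1) g x' - x') - (ρ (q + 1) g (d q (η ![])) - d q (η ![])) := by abel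
      rw [← sub_eq_zero, h2, this, sub_self]
  | succ p =>
    constructor
    · intro h Ψ hΨ
      obtain ⟨Ψ', hΨ'⟩ := hrow q (p + 1) _ hΨ
      have e1 : cohD (ρ (q + 2)) (p + 1) (fun g => d (q + 1) (Ψ' g)) = 0 := by
        rw [cohD_comp (ρ (q + 1)) (ρ (q + 2)) (d (q + 1)) (hd (q + 1)), hΨ']
        funext g
        exact hdd _ _
      obtain ⟨η', hη'⟩ := h Ψ' e1
      have e2 : ∀ g, ∃ y : C q, d q y = Ψ' g - cohD (ρ (q + 1)) p η' g := by
        intro g
        apply hcol
        rw [map_sub, hη', sub_self]
      choose η hη using e2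
      refine ⟨η, fun g => ?_⟩
      have h3 := congrFun (cohD_comp (ρ q) (ρ (q + 1)) (d q) (hd q) (p + 1) η) g
      rw [← h3, ← congrFun hΨ' g]
      simp only [hη]
      rw [cohD_sub, cohD_cohD]
      simp
    · intro h Ψ' hΨ'
      have e0 : ∀ g, ∃ y : C q, d q y = cohD (ρ (q + 1)) (p + 1) Ψ' g := by
        intro g
        apply hcol
        have h3 := congrFun (cohD_comp (ρ (q + 1)) (ρ (q + 2)) (d (q + 1)) (hd (q + 1)) (p + 1) Ψ') g
        rw [← h3, hΨ']
        rfl
      choose Ψ hΨ using e0
      have e1 : (fun g => d q (Ψ g)) = cohD (ρ (q + 1)) (p + 1) Ψ' := funext hΨ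
      obtain ⟨η, hη⟩ := h Ψ (by rw [e1, cohD_cohD])
      obtain ⟨η', hη'⟩ := hrow q p (fun g => Ψ' g - d q (η g)) (by
        rw [cohD_sub, cohD_comp (ρ q) (ρ (q + 1)) (d q) (hd q)]
        funext g
        beta_reduce
        rw [hη, hΨ, sub_self]
        rfl)
      refine ⟨η', fun g => ?_⟩
      rw [hη', map_sub, hdd, sub_zero]

theorem ss_iff (p q : ℕ) : SS C ρ d 0 (p + q) ↔ SS C ρ d p q := by
  induction p generalizing q with
  | zero => simp
  | succ p ih =>
    rw [← ss_step C ρ d hd hdd hcol hrow, ← ih, show p + 1 + q = p + (q + 1) by ring]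

theorem abs_iff (A : Rep.{0} k G) (e : A ≃ₗ[k] C 0) (he : ∀ g a, e (A.ρ g a) = ρ 0 g (e a))
    (h0 : ∀ x : C 0, d 0 x = 0 → x = 0) (n : ℕ) :
    Subsingleton (groupCohomology A (n + 1)) ↔
      ∀ x : C (n + 1), (∀ g, ρ (n + 2) g (d (n + 1) x) = d (n + 1) x) →
        ∃ y : C (n + 1), (∀ g, ρ (n + 1) g y = y) ∧ d (n + 1) y = d (n + 1) x := by
  have hinj : ∀ x y : C 0, d 0 x = d 0 y → x = y := by
    intro x y h
    exact sub_eq_zero.1 (h0 _ (by rw [map_sub, h, sub_self]))
  have h1 := ss_iff C ρ d hd hdd hcol hrow (n + 1) 0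
  change (SS C ρ d 0 (n + 1)) ↔ _ at h1
  rw [subsingleton_iff]
  refine Iff.trans ?_ h1.symm
  have he' : ∀ g x, e.symm (ρ 0 g x) = A.ρ g (e.symm x) := by
    intro g x
    apply e.injective
    rw [he]
    simp
  constructor
  · intro h Ψ hΨ
    rw [cohD_comp (ρ 0) (ρ 1) (d 0) (hd 0)] at hΨ
    have e1 : cohD (ρ 0) (n + 1) Ψ = 0 := by
      funext g
      exact h0 _ (congrFun hΨ g)
    obtain ⟨η, hη⟩ := h (fun g => e.symm (Ψ g)) (by
      have := cohD_comp (ρ 0) A.ρ e.symm.toLinearMap he' (n + 1) Ψ
      rw [e1] at this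
      refine this.trans ?_
      funext g
      simp)
    refine ⟨fun g => e (η g), fun g => ?_⟩
    have h3 := congrFun (cohD_comp A.ρ (ρ 0) e.toLinearMap he n η) g
    have h4 : cohD (ρ 0) n (fun g => e (η g)) g = e (cohD A.ρ n η g) := h3
    rw [h4, hη]
    simp
  · intro h f hf
    obtain ⟨η, hη⟩ := h (fun g => e (f g)) (by
      have h4 : cohD (ρ 0) (n + 1) (fun g => e (f g)) = fun g => e (cohD A.ρ (n + 1) f g) :=
        cohD_comp A.ρ (ρ 0) e.toLinearMap he (n + 1) f
      rw [cohD_comp (ρ 0) (ρ 1) (d 0) (hd 0), h4, hf]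
      funext g
      simp)
    refine ⟨fun g => e.symm (η g), ?_⟩
    have h4 : cohD A.ρ n (fun g => e.symm (η g)) = fun g => e.symm (cohD (ρ 0) n η g) :=
      cohD_comp (ρ 0) A.ρ e.symm.toLinearMap he' n η
    rw [h4]
    funext g
    rw [hinj _ _ (hη g)]
    simp

end Abs

/-! ## List cochains -/

section Lists

variable {P : Type}

theorem cdl_add {A : Type} [AddCommGroup A] (l : List P) (f g : List P → A) :
    dl l (fun m => f m + g m) = dl l f + dl l g := by
  induction l generalizing f g with
  | nil => simp [dl]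
  | cons x l ih => simp only [dl, ih]; abel

theorem cdl_smul {k A : Type} [CommRing k] [AddCommGroup A] [Module k A] (c : k) (l : List P)
    (f : List P → A) : dl l (fun m => c • f m) = c • dl l f := by
  induction l generalizing f with
  | nil => simp [dl]
  | cons x l ih => simp only [dl, ih, smul_sub]

theorem cdl_map_hom {A B : Type} [AddCommGroup A] [AddCommGroup B] (φ : A →+ B) (l : List P)
    (f : List P → A) : dl l (fun m => φ (f m)) = φ (dl l f) := by
  induction l generalizing f with
  | nil => simp [dl]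
  | cons x l ih => simp only [dl, ih, map_sub]

theorem cdl_map {A Q : Type} [AddCommGroup A] (e : P → Q) (l : List P) (f : List Q → A) :
    dl (l.map e) f = dl l (fun m => f (m.map e)) := by
  induction l generalizing f with
  | nil => simp [dl]
  | cons x l ih => simp only [dl, List.map_cons, ih]

theorem cdl_congr {A : Type} [AddCommGroup A] {l : List P} {f g : List P → A}
    (h : ∀ m, m.Sublist l → m.length + 1 = l.length → f m = g m) : dl l f = dl l g := by
  induction l generalizing f g with
  | nil => simp [dl]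
  | cons x l ih =>
    simp only [dl]
    rw [h l (List.sublist_cons_self _ _) rfl]
    congr 1
    apply ih
    intro m hm hl
    exact h _ (hm.cons_cons x) (by simpa using hl)

theorem cdl_dl {A : Type} [AddCommGroup A] (l : List P) (f : List P → A) :
    dl l (fun m => dl m f) = 0 := by
  induction l generalizing f with
  | nil => simp [dl]
  | cons x l ih =>
    have h1 : ∀ m, dl (x :: m) f = f m + - dl m (fun m' => f (x :: m')) := by
      intro m
      simp [dl, sub_eq_add_neg]
    simp only [dl]
    rw [show dl l (fun l' => f l' - dl l' fun l'' => f (x :: l'')) =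
      dl l (fun l' => f l' + - dl l' fun l'' => f (x :: l'')) by simp only [sub_eq_add_neg],
      cdl_add]
    have h2 := cdl_map_hom (-AddMonoidHom.id A) l (fun l' => dl l' fun l'' => f (x :: l''))
    simp only [AddMonoidHom.neg_apply, AddMonoidHom.id_apply, ih, neg_zero] at h2
    rw [h2]
    abel

variable {k : Type} [CommRing k]

theorem lc_bd {A : Type} [AddCommGroup A] [Module k A] (l : List P) (f : List P → A) :
    Finsupp.linearCombination k f (bd k l) = dl l f := by
  induction l generalizing f with
  | nil => simp [bd, dl]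
  | cons x l ih =>
    rw [bd, dl, map_sub, Finsupp.linearCombination_single, one_smul,
      Finsupp.linearCombination_mapDomain, ← ih]
    rfl

theorem lc_single (z : List P →₀ k) :
    Finsupp.linearCombination k (fun m => Finsupp.single m (1 : k)) z = z := by
  rw [Finsupp.linearCombination_apply]
  simp

theorem bd_bd (l : List P) : Finsupp.linearCombination k (bd k) (bd k l) = 0 := by
  rw [lc_bd]
  have h : ∀ m : List P, bd k m = dl m (fun m' => Finsupp.single m' (1 : k)) := by
    intro m
    rw [← lc_bd (k := k) m, lc_single]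
  rw [show (bd k : List P → _) = fun m => dl m (fun m' => Finsupp.single m' (1 : k)) from
    funext h]
  exact cdl_dl _ _

theorem mem_bd_support {l m : List P} (h : m ∈ (bd k l).support) :
    m.Sublist l ∧ m.length + 1 = l.length := by
  classical
  induction l generalizing m with
  | nil => simp [bd] at h
  | cons x l ih =>
    rw [bd] at h
    rcases Finset.mem_union.1 (Finsupp.support_sub h) with h1 | h1
    · have := Finsupp.support_single_subset h1
      rw [Finset.mem_singleton] at this
      subst this
      exact ⟨List.sublist_cons_self _ _, rfl⟩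
    · obtain ⟨m', hm', rfl⟩ := Finset.mem_image.1 (Finsupp.mapDomain_support h1)
      obtain ⟨h2, h3⟩ := ih hm'
      exact ⟨h2.cons_cons x, by simpa using h3⟩

theorem lc_congr {A : Type} [AddCommGroup A] [Module k A] {f g : List P → A}
    (z : List P →₀ k) (h : ∀ m ∈ z.support, f m = g m) :
    Finsupp.linearCombination k f z = Finsupp.linearCombination k g z := by
  rw [Finsupp.linearCombination_apply, Finsupp.linearCombination_apply]
  exact Finsupp.sum_congr fun m hm => by rw [h m hm]

theorem lc_lc {A : Type} [AddCommGroup A] [Module k A] (f : List P → A)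
    (s : List P → (List P →₀ k)) (z : List P →₀ k) :
    Finsupp.linearCombination k f (Finsupp.linearCombination k s z) =
      Finsupp.linearCombination k (fun m => Finsupp.linearCombination k f (s m)) z := by
  induction z using Finsupp.induction_linear with
  | zero => simp
  | add z w hz hw => rw [map_add, map_add, map_add, hz, hw]
  | single a b => simp

theorem lc_support {s : List P → (List P →₀ k)} {z : List P →₀ k} {m : List P}
    (h : m ∈ (Finsupp.linearCombination k s z).support) : ∃ l ∈ z.support, m ∈ (s l).support := by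
  classical
  rw [Finsupp.linearCombination_apply] at h
  have h1 := Finsupp.support_sum h
  simp only [Finset.mem_biUnion] at h1
  obtain ⟨l, hl, hm⟩ := h1
  exact ⟨l, hl, Finsupp.support_smul hm⟩

theorem exists_contraction [PartialOrder P] (hac : Acyclic k P) (n : ℕ) :
    ∃ s : List P → (List P →₀ k), ∀ l, IsCh l → l.length < n →
      (∀ m ∈ (s l).support, IsCh m ∧ m.length = l.length + 1) ∧
      Finsupp.linearCombination k (bd k) (s l) + Finsupp.linearCombination k s (bd k l) =
        Finsupp.single l 1 := by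
  classical
  induction n with
  | zero => exact ⟨fun _ => 0, fun l _ h => absurd h (Nat.not_lt_zero _)⟩
  | succ n ih =>
    obtain ⟨s, hs⟩ := ih
    have key : ∀ l, ∃ y : List P →₀ k, IsCh l → l.length = n →
        (∀ m ∈ y.support, IsCh m ∧ m.length = l.length + 1) ∧
        Finsupp.linearCombination k (bd k) y + Finsupp.linearCombination k s (bd k l) =
        Finsupp.single l 1 := by
      intro l
      by_cases hl : IsCh l ∧ l.length = n
      swap
      · exact ⟨0, fun h1 h2 => absurd ⟨h1, h2⟩ hl⟩
      obtain ⟨hl1, hl2⟩ := hl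
      have hsub : ∀ m ∈ (bd k l).support, IsCh m ∧ m.length < n := by
        intro m hm
        obtain ⟨h1, h2⟩ := mem_bd_support hm
        exact ⟨List.Pairwise.sublist h1 hl1, by omega⟩
      obtain ⟨y, hy1, hy2⟩ := hac n (Finsupp.single l 1 - Finsupp.linearCombination k s (bd k l))
        (by
          intro m hm
          rcases Finset.mem_union.1 (Finsupp.support_sub hm) with h1 | h1
          · have := Finsupp.support_single_subset h1
            rw [Finset.mem_singleton] at this
            subst this
            exact ⟨hl1, hl2⟩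
          · obtain ⟨m', hm', hm''⟩ := lc_support h1
            obtain ⟨h3, h4⟩ := hs m' (hsub m' hm').1 (hsub m' hm').2
            obtain ⟨h5, h6⟩ := h3 m hm''
            have := (mem_bd_support hm').2
            exact ⟨h5, by omega⟩)
        (by
          rw [map_sub, Finsupp.linearCombination_single, one_smul, lc_lc]
          have e1 : Finsupp.linearCombination k
              (fun m => Finsupp.linearCombination k (bd k) (s m)) (bd k l) =
              Finsupp.linearCombination k
              (fun m => Finsupp.single m (1 : k) - Finsupp.linearCombination k s (bd k m))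
                (bd k l) := by
            apply lc_congr
            intro m hm
            rw [← (hs m (hsub m hm).1 (hsub m hm).2).2]
            abel
          have e2 : Finsupp.linearCombination k
              (fun m => Finsupp.single m (1 : k) - Finsupp.linearCombination k s (bd k m))
                (bd k l) = bd k l - 0 := by
            have e3 : (fun m : List P => Finsupp.single m (1 : k) -
                Finsupp.linearCombination k s (bd k m)) = (fun m => Finsupp.single m (1 : k)) -
                (fun m => Finsupp.linearCombination k s (bd k m)) := rfl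
            rw [e3]
            have e4 : ∀ (f g : List P → (List P →₀ k)) (z : List P →₀ k),
                Finsupp.linearCombination k (f - g) z = Finsupp.linearCombination k f z -
                Finsupp.linearCombination k g z := by
              intro f g z
              simp [Finsupp.linearCombination_apply, smul_sub, Finsupp.sum_sub]
            rw [e4, ← lc_lc s (bd k), bd_bd, map_zero]
            congr 1
            rw [lc_single]
          rw [e1, e2]
          simp)
      refine ⟨y, fun _ _ => ⟨fun m hm => ?_, ?_⟩⟩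
      · obtain ⟨h1, h2⟩ := hy1 m hm
        exact ⟨h1, by omega⟩
      · rw [hy2]
        abel
    choose y hy using key
    refine ⟨fun l => if l.length = n then y l else s l, fun l hl hln => ?_⟩
    have hcong : Finsupp.linearCombination k (fun l => if l.length = n then y l else s l)
        (bd k l) = Finsupp.linearCombination k s (bd k l) := by
      apply lc_congr
      intro m hm
      have := (mem_bd_support hm).2
      rw [if_neg (by omega)]
    rw [hcong]
    by_cases h : l.length = n
    · simp only [h, if_true]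
      have := hy l hl h
      rwa [h] at this
    · simp only [h, if_false]
      exact hs l hl (by omega)

theorem exactAt_univ_of_acyclic [PartialOrder P] (hac : Acyclic k P) (A : Type) [AddCommGroup A]
    [Module k A] (n : ℕ) (f : List P → A)
    (hf : ∀ l : List P, IsCh l → l.length = n + 1 → dl l f = 0) :
    ∃ g : List P → A, ∀ l : List P, IsCh l → l.length = n → f l = dl l g := by
  obtain ⟨s, hs⟩ := exists_contraction hac (n + 1)
  refine ⟨fun m => Finsupp.linearCombination k f (s m), fun l hl hn => ?_⟩
  obtain ⟨h1, h2⟩ := hs l hl (by omega)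
  have h3 : f l = Finsupp.linearCombination k f (Finsupp.single l 1) := by simp
  rw [h3, ← h2, map_add, lc_lc, lc_lc, lc_bd (k := k) l]
  have h4 : Finsupp.linearCombination k (fun m => Finsupp.linearCombination k f (bd k m)) (s l) =
      0 := by
    rw [Finsupp.linearCombination_apply]
    apply Finset.sum_eq_zero
    intro m hm
    obtain ⟨h5, h6⟩ := h1 m hm
    simp only [lc_bd]
    rw [hf m h5 (by omega), smul_zero]
  rw [h4, zero_add]

end Lists

/-! ## The complex of functions on chains of a free `G`-poset -/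

section Conc

variable {k G P : Type} [CommRing k] [Group G] [PartialOrder P] [MulAction G P]

/-- chains of length `n` -/
abbrev Chn (P : Type) [Preorder P] (n : ℕ) : Type := {l : List P // IsCh l ∧ l.length = n}

theorem isCh_map (hmono : ∀ (g : G) (x y : P), x < y → g • x < g • y) (g : G) {l : List P}
    (h : IsCh l) : IsCh (l.map (g • ·)) := by
  rw [IsCh, List.pairwise_map]
  exact h.imp fun {a b} => hmono g a b

theorem isCh_map_iff (hmono : ∀ (g : G) (x y : P), x < y → g • x < g • y) (g : G) {l : List P} :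
    IsCh (l.map (g • ·)) ↔ IsCh l := by
  refine ⟨fun h => ?_, isCh_map hmono g⟩
  have := isCh_map hmono g⁻¹ h
  rw [List.map_map] at this
  have e : ((fun x : P => g⁻¹ • x) ∘ fun x : P => g • x) = id := by
    funext x
    simp
  rwa [e, List.map_id] at this

/-- the action on chains -/
def actCh (hmono : ∀ (g : G) (x y : P), x < y → g • x < g • y) (n : ℕ) (g : G) (l : Chn P n) :
    Chn P n := ⟨l.1.map (g • ·), isCh_map hmono g l.2.1, by rw [List.length_map, l.2.2]⟩

variable (hmono : ∀ (g : G) (x y : P), x < y → g • x < g • y)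

theorem actCh_one (n : ℕ) (l : Chn P n) : actCh hmono n (1 : G) l = l := by
  apply Subtype.ext
  simp [actCh]

theorem actCh_mul (n : ℕ) (g h : G) (l : Chn P n) :
    actCh hmono n (g * h) l = actCh hmono n g (actCh hmono n h l) := by
  apply Subtype.ext
  simp [actCh, mul_smul]

/-- the representation on functions on chains -/
def chRep (A : Rep.{0} k G) (n : ℕ) : Representation k G (Chn P n → A) where
  toFun g :=
    { toFun := fun f l => A.ρ g (f (actCh hmono n g⁻¹ l))
      map_add' := fun f f' => by funext l; simp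
      map_smul' := fun c f => by funext l; simp }
  map_one' := by
    ext f l
    simp [actCh_one]
  map_mul' g h := by
    ext f l
    simp [actCh_mul]

theorem chRep_apply (A : Rep.{0} k G) (n : ℕ) (g : G) (f : Chn P n → A) (l : Chn P n) :
    chRep hmono A n g f l = A.ρ g (f (actCh hmono n g⁻¹ l)) := rfl

open Classical in
/-- extension by zero -/
noncomputable def extCh {A : Type} [AddCommGroup A] (n : ℕ) (f : Chn P n → A) : List P → A :=
  fun l => if h : IsCh l ∧ l.length = n then f ⟨l, h⟩ else 0

theorem extCh_of {A : Type} [AddCommGroup A] {n : ℕ} (f : Chn P n → A) {l : List P}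
    (h : IsCh l ∧ l.length = n) : extCh n f l = f ⟨l, h⟩ := dif_pos h

theorem extCh_not {A : Type} [AddCommGroup A] {n : ℕ} (f : Chn P n → A) {l : List P}
    (h : ¬ (IsCh l ∧ l.length = n)) : extCh n f l = 0 := dif_neg h

theorem extCh_smul (A : Rep.{0} k G) (n : ℕ) (g : G) (f : Chn P n → A) (l : List P) :
    extCh n (chRep hmono A n g f) (l.map (g • ·)) = A.ρ g (extCh n f l) := by
  by_cases h : IsCh l ∧ l.length = n
  · have h' : IsCh (l.map (g • ·)) ∧ (l.map (g • ·)).length = n :=
      ⟨isCh_map hmono g h.1, by rw [List.length_map, h.2]⟩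
    rw [extCh_of _ h', extCh_of _ h, chRep_apply]
    congr 2
    apply Subtype.ext
    simp [actCh, Function.comp_def]
  · have h' : ¬ (IsCh (l.map (g • ·)) ∧ (l.map (g • ·)).length = n) := by
      rwa [isCh_map_iff hmono, List.length_map]
    rw [extCh_not _ h', extCh_not _ h, map_zero]

/-- the coboundary -/
noncomputable def chD (A : Type) [AddCommGroup A] [Module k A] (n : ℕ) :
    (Chn P n → A) →ₗ[k] (Chn P (n + 1) → A) where
  toFun f := fun l => dl l.1 (extCh n f)
  map_add' f f' := by
    funext l
    have : extCh n (f + f') = fun m => extCh n f m + extCh n f' m := by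
      funext m
      by_cases h : IsCh m ∧ m.length = n
      · simp [extCh_of _ h]
      · simp [extCh_not _ h]
    rw [this, cdl_add]
    rfl
  map_smul' c f := by
    funext l
    have : extCh n (c • f) = fun m => c • extCh n f m := by
      funext m
      by_cases h : IsCh m ∧ m.length = n
      · simp [extCh_of _ h]
      · simp [extCh_not _ h]
    rw [this, cdl_smul]
    rfl

theorem chD_apply (A : Type) [AddCommGroup A] [Module k A] (n : ℕ) (f : Chn P n → A)
    (l : Chn P (n + 1)) : chD (k := k) A n f l = dl l.1 (extCh n f) := rfl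

theorem chD_restrict {A : Type} [AddCommGroup A] [Module k A] (n : ℕ) (f : List P → A)
    (l : Chn P (n + 1)) : chD (k := k) A n (fun m => f m.1) l = dl l.1 f := by
  rw [chD_apply]
  apply cdl_congr
  intro m hm hl
  have h : IsCh m ∧ m.length = n := ⟨List.Pairwise.sublist hm l.2.1, by have := l.2.2; omega⟩
  rw [extCh_of _ h]

theorem dl_extCh {A : Type} [AddCommGroup A] [Module k A] (n : ℕ) (F : Chn P n → A)
    {l : List P} (hl : IsCh l) (hn : l.length = n + 2) :
    dl l (extCh (n + 1) (chD (k := k) A n F)) = 0 := by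
  rw [cdl_congr (g := fun m => dl m (extCh n F))]
  · exact cdl_dl _ _
  · intro m hm hl'
    have h : IsCh m ∧ m.length = n + 1 := ⟨List.Pairwise.sublist hm hl, by omega⟩
    rw [extCh_of _ h, chD_apply]

theorem chD_chD (A : Type) [AddCommGroup A] [Module k A] (n : ℕ) (f : Chn P n → A) :
    chD (k := k) A (n + 1) (chD (k := k) A n f) = 0 := by
  funext l
  rw [chD_apply]
  exact dl_extCh (k := k) n f l.2.1 l.2.2

theorem chD_equivariant (A : Rep.{0} k G) (n : ℕ) (g : G) (f : Chn P n → A) :
    chD (k := k) A n (chRep hmono A n g f) = chRep hmono A (n + 1) g (chD (k := k) A n f) := by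
  funext l
  rw [chRep_apply, chD_apply, chD_apply]
  have h1 : l.1 = (actCh hmono (n + 1) g⁻¹ l).1.map (g • ·) := by
    simp [actCh, Function.comp_def]
  conv_lhs => rw [h1]
  rw [cdl_map]
  simp only [extCh_smul hmono]
  exact cdl_map_hom (A.ρ g).toAddMonoidHom _ _

theorem chD_col (hac : Acyclic k P) (A : Type) [AddCommGroup A] [Module k A] (n : ℕ)
    (f : Chn P (n + 1) → A) (hf : chD (k := k) A (n + 1) f = 0) :
    ∃ y : Chn P n → A, chD (k := k) A n y = f := by
  obtain ⟨g, hg⟩ := exactAt_univ_of_acyclic hac A (n + 1) (extCh (n + 1) f) (by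
    intro l hl hn
    exact congrFun hf ⟨l, hl, hn⟩)
  refine ⟨fun m => g m.1, ?_⟩
  funext l
  rw [chD_restrict, ← hg l.1 l.2.1 l.2.2, extCh_of _ l.2]

theorem chD_inj (hac : Acyclic k P) (A : Type) [AddCommGroup A] [Module k A]
    (f : Chn P 0 → A) (hf : chD (k := k) A 0 f = 0) : f = 0 := by
  obtain ⟨g, hg⟩ := exactAt_univ_of_acyclic hac A 0 (extCh 0 f) (by
    intro l hl hn
    exact congrFun hf ⟨l, hl, hn⟩)
  funext l
  have h1 := hg l.1 l.2.1 l.2.2
  rw [extCh_of _ l.2] at h1
  have h2 : l.1 = [] := List.length_eq_zero_iff.1 l.2.2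
  rw [show f l = f ⟨l.1, l.2⟩ from rfl, h1, h2]
  rfl

omit [PartialOrder P] in
/-- an equivariant map to `G` -/
theorem exists_equivariant (hfree : ∀ (g : G) (x : P), g • x = x → g = 1) :
    ∃ t : P → G, ∀ g x, t (g • x) = g * t x := by
  have h1 : ∀ x : P, ∃ g : G, g • (Quotient.out (Quotient.mk (MulAction.orbitRel G P) x)) = x := by
    intro x
    have := Quotient.mk_out (s := MulAction.orbitRel G P) x
    have h2 := (MulAction.orbitRel G P).symm this
    exact h2
  choose t ht using h1
  refine ⟨t, fun g x => ?_⟩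
  have h3 : Quotient.mk (MulAction.orbitRel G P) (g • x) =
      Quotient.mk (MulAction.orbitRel G P) x := by
    apply Quotient.sound
    exact ⟨g, rfl⟩
  have h4 := ht (g • x)
  rw [h3] at h4
  have h5 : ((g * t x)⁻¹ * t (g • x)) •
      (Quotient.out (Quotient.mk (MulAction.orbitRel G P) x)) =
      (Quotient.out (Quotient.mk (MulAction.orbitRel G P) x)) := by
    rw [mul_smul, h4, inv_smul_eq_iff, mul_smul, ht]
  have h6 := hfree _ _ h5
  rw [inv_mul_eq_one] at h6
  exact h6.symm

theorem chD_row (hfree : ∀ (g : G) (x : P), g • x = x → g = 1) (A : Rep.{0} k G) (n p : ℕ)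
    (Φ : (Fin (p + 1) → G) → (Chn P (n + 1) → A))
    (hΦ : cohD (chRep hmono A (n + 1)) (p + 1) Φ = 0) :
    ∃ Ψ, cohD (chRep hmono A (n + 1)) p Ψ = Φ := by
  obtain ⟨t₀, ht₀⟩ := exists_equivariant hfree
  have hne : ∀ l : Chn P (n + 1), l.1 ≠ [] := by
    intro l h
    have := l.2.2
    rw [h] at this
    simp at this
  set t : Chn P (n + 1) → G := fun l => t₀ (l.1.head (hne l)) with ht
  have ht1 : ∀ g l, t (actCh hmono (n + 1) g l) = g * t l := by
    intro g l
    have : (actCh hmono (n + 1) g l).1.head (hne _) = g • l.1.head (hne l) := by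
      simp [actCh]
    rw [ht]
    simp only [this, ht₀]
  set r := chRep hmono A (n + 1) with hr
  have hact : ∀ (g : G) (f : Chn P (n + 1) → A) (l : Chn P (n + 1)),
      r g f l = A.ρ g (f (actCh hmono (n + 1) g⁻¹ l)) := fun g f l => rfl
  refine ⟨fun g l => r (t l) (Φ (Fin.cons (t l)⁻¹ g)) l, ?_⟩
  funext g l
  set T := t l with hT
  have h1 := congrFun (congrFun hΦ (Fin.cons T⁻¹ g)) (actCh hmono (n + 1) T⁻¹ l)
  have h2 := congrArg (A.ρ T) h1
  simp only [cohD, Fin.cons_zero, Fin.cons_succ, Pi.add_apply, Pi.zero_apply, map_zero,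
    map_add, Finset.sum_apply, Pi.smul_apply] at h2
  rw [Fin.sum_univ_succ, map_add, map_sum] at h2
  have e0 : Fin.contractNth (0 : Fin (p + 2)) (· * ·) (Fin.cons T⁻¹ g : Fin (p + 2) → G) =
      Fin.cons (T⁻¹ * g 0) (fun i => g i.succ) := by
    funext i
    refine Fin.cases ?_ (fun i => ?_) i
    · simp [Fin.contractNth]
    · simp [Fin.contractNth]
  have e1 : ∀ j : Fin (p + 1), Fin.contractNth j.succ (· * ·)
      (Fin.cons T⁻¹ g : Fin (p + 2) → G) = Fin.cons T⁻¹ (Fin.contractNth j (· * ·) g) := by
    intro j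
    funext i
    refine Fin.cases ?_ (fun i => ?_) i
    · simp [Fin.contractNth]
    · simp only [Fin.contractNth, Fin.cons_succ, Fin.val_succ, add_lt_add_iff_right,
        add_left_inj, ← Fin.succ_castSucc]
  simp only [e0, e1] at h2
  simp only [cohD, Pi.add_apply, Finset.sum_apply, Pi.smul_apply]
  have h3 : ∀ a : A, A.ρ T (A.ρ T⁻¹ a) = a := by
    intro a
    rw [← Module.End.mul_apply, ← map_mul, mul_inv_cancel, map_one, Module.End.one_apply]
  have h4 : r T⁻¹ (Φ g) (actCh hmono (n + 1) T⁻¹ l) = A.ρ T⁻¹ (Φ g l) := by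
    rw [hact, ← actCh_mul, inv_inv, mul_inv_cancel, actCh_one]
  rw [h4, h3] at h2
  have h5 : r (g 0) (fun l => r (t l) (Φ (Fin.cons (t l)⁻¹ fun i => g i.succ)) l) l =
      A.ρ T (Φ (Fin.cons (T⁻¹ * g 0) fun i => g i.succ) (actCh hmono (n + 1) T⁻¹ l)) := by
    rw [hact]
    rw [hact, ht1, ← hT, ← actCh_mul]
    have h6 : ((g 0)⁻¹ * T)⁻¹ = T⁻¹ * g 0 := by group
    rw [h6, mul_inv_cancel_right, map_mul, Module.End.mul_apply, ← Module.End.mul_apply,
      ← map_mul, mul_inv_cancel, map_one, Module.End.one_apply]
  have h7 : ∀ F : Chn P (n + 1) → A, r T F l = A.ρ T (F (actCh hmono (n + 1) T⁻¹ l)) :=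
    fun F => hact T F l
  rw [h5]
  simp only [← hT, h7]
  simp only [Fin.val_zero, Fin.val_succ, pow_succ, pow_zero, mul_neg, mul_one, neg_smul,
    one_smul, map_neg, neg_neg, map_smul, Finset.sum_neg_distrib] at h2 ⊢
  rw [← sub_eq_zero]
  rw [← neg_eq_zero]
  rw [← h2]
  abel


/-- `A` is the module of functions on the chain of length `0` -/
def chZero (A : Rep.{0} k G) : A ≃ₗ[k] (Chn P 0 → A) where
  toFun a := fun _ => a
  map_add' _ _ := rfl
  map_smul' _ _ := rfl
  invFun f := f ⟨[], List.Pairwise.nil, rfl⟩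
  left_inv _ := rfl
  right_inv f := by
    funext l
    have h2 : l.1 = [] := List.length_eq_zero_iff.1 l.2.2
    have h3 : l = ⟨[], List.Pairwise.nil, rfl⟩ := Subtype.ext h2
    rw [h3]

theorem cohomology_iff (hfree : ∀ (g : G) (x : P), g • x = x → g = 1) (hac : Acyclic k P)
    (A : Rep.{0} k G) (n : ℕ) :
    Subsingleton (groupCohomology A (n + 1)) ↔
      ∀ x : Chn P (n + 1) → A,
        (∀ g, chRep hmono A (n + 2) g (chD (k := k) A (n + 1) x) = chD (k := k) A (n + 1) x) →
        ∃ y : Chn P (n + 1) → A, (∀ g, chRep hmono A (n + 1) g y = y) ∧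
          chD (k := k) A (n + 1) y = chD (k := k) A (n + 1) x :=
  abs_iff (fun n => Chn P n → A) (fun n => chRep hmono A n) (fun n => chD (k := k) A n)
    (fun n g x => chD_equivariant hmono A n g x)
    (fun n x => chD_chD A n x)
    (fun n x hx => chD_col hac A n x hx)
    (fun n p Φ h => chD_row hmono hfree A n p Φ h)
    A (chZero A) (fun g a => by
      funext l
      rfl)
    (fun x hx => chD_inj hac A x hx) n

/-- an equivariant function on all lists restricts to an invariant function on chains -/
theorem chRep_restrict (A : Rep.{0} k G) (n : ℕ) (f : List P → A)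
    (hf : ∀ (g : G) (l : List P), f (l.map (g • ·)) = A.ρ g (f l)) (g : G) :
    chRep hmono A n g (fun m => f m.1) = fun m => f m.1 := by
  funext l
  rw [chRep_apply, ← hf]
  congr 1
  simp [actCh, Function.comp_def]

/-- extension by zero of an invariant function is equivariant -/
theorem extCh_equivariant (A : Rep.{0} k G) (n : ℕ) (f : Chn P n → A)
    (hf : ∀ g, chRep hmono A n g f = f) (g : G) (l : List P) :
    extCh n f (l.map (g • ·)) = A.ρ g (extCh n f l) := by
  have h := extCh_smul hmono A n g f l
  rwa [hf] at h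

end Conc

end Pool.Agent.RC84.Cohom

namespace Pool.Agent.RC84

open Cohom

theorem cohomology_vanish {k G P : Type} [CommRing k] [Group G] [PartialOrder P] [MulAction G P]
    (hmono : ∀ (g : G) (x y : P), x < y → g • x < g • y)
    (hfree : ∀ (g : G) (x : P), g • x = x → g = 1)
    (hac : Acyclic k P) (A : Rep k G) (n : ℕ) (hn : 1 ≤ n)
    (H : ∀ f : List P → A, (∀ (g : G) (l : List P), f (l.map (g • ·)) = A.ρ g (f l)) →
      (∀ l : List P, IsCh l → l.length = n + 2 → dl l f = 0) →
      ∃ g : List P → A, (∀ (h : G) (l : List P), g (l.map (h • ·)) = A.ρ h (g l)) ∧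
        ∀ l : List P, IsCh l → l.length = n + 1 → f l = dl l g) :
    Subsingleton (groupCohomology A n) := by
  obtain ⟨m, rfl⟩ : ∃ m, n = m + 1 := ⟨n - 1, by omega⟩
  rw [cohomology_iff hmono hfree hac]
  intro x hx
  obtain ⟨g, hg1, hg2⟩ := H (extCh (m + 2) (chD (k := k) A (m + 1) x))
    (extCh_equivariant hmono A (m + 2) _ hx)
    (fun l hl hlen => dl_extCh (k := k) (m + 1) x hl hlen)
  refine ⟨fun l => g l.1, chRep_restrict hmono A (m + 1) g hg1, ?_⟩
  funext l
  rw [chD_restrict, ← hg2 l.1 l.2.1 l.2.2, extCh_of _ l.2]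

theorem cohomology_nonvanish {k G P : Type} [CommRing k] [Group G] [PartialOrder P]
    [MulAction G P]
    (hmono : ∀ (g : G) (x y : P), x < y → g • x < g • y)
    (hfree : ∀ (g : G) (x : P), g • x = x → g = 1)
    (hac : Acyclic k P) (A : Rep k G) (n : ℕ) (hn : 1 ≤ n)
    (f : List P → A) (hf : ∀ (g : G) (l : List P), f (l.map (g • ·)) = A.ρ g (f l))
    (hcoc : ∀ l : List P, IsCh l → l.length = n + 2 → dl l f = 0)
    (hno : ∀ g : List P → A, (∀ (h : G) (l : List P), g (l.map (h • ·)) = A.ρ h (g l)) →
      ∃ l : List P, IsCh l ∧ l.length = n + 1 ∧ f l ≠ dl l g) :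
    Nontrivial (groupCohomology A n) := by
  obtain ⟨m, rfl⟩ : ∃ m, n = m + 1 := ⟨n - 1, by omega⟩
  rw [← not_subsingleton_iff_nontrivial, cohomology_iff hmono hfree hac]
  intro h
  obtain ⟨x, hx⟩ := chD_col hac A (m + 1) (fun l => f l.1) (by
    funext l
    rw [chD_restrict]
    exact hcoc l.1 l.2.1 l.2.2)
  obtain ⟨y, hy1, hy2⟩ := h x (by
    intro g
    rw [hx]
    exact chRep_restrict hmono A (m + 2) f hf g)
  obtain ⟨l, hl, hlen, hne⟩ := hno (extCh (m + 1) y) (extCh_equivariant hmono A (m + 1) y hy1)
  apply hne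
  have h1 := congrFun (hy2.trans hx) ⟨l, hl, hlen⟩
  exact h1.symm

end Pool.Agent.RC84
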