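import Pool.Agent.RC84.P7

/-!
# Chains of cubes (common part of packages P14a, P14b of MP_8085d2_al)
-/

set_option autoImplicit false

namespace Pool.Agent.RC84

open scoped Classical

section Lists

variable {α β V : Type} [AddCommGroup V]

theorem cx_dl_cons (x : α) (l : List α) (f : List α → V) :
    dl (x :: l) f = f l - dl l (fun l' => f (x :: l')) := rfl

theorem cx_dl_congr (l : List α) : ∀ f g : List α → V,
    (∀ l' : List α, l'.Sublist l → l'.length + 1 = l.length → f l' = g l') → dl l f = dl l g := by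
  induction l with
  | nil =>
    intro f g _
    simp [dl]
  | cons x l ih =>
    intro f g h
    rw [cx_dl_cons, cx_dl_cons, h l (List.sublist_cons_self x l) rfl]
    congr 1
    refine ih _ _ fun l' h1 h2 => h _ (h1.cons_cons x) ?_
    rw [List.length_cons, h2, List.length_cons]

theorem cx_dl_map (φ : α → β) (l : List α) : ∀ (f : List β → V),
    dl (l.map φ) f = dl l (fun l' => f (l'.map φ)) := by
  induction l with
  | nil => intro f; simp [dl]
  | cons x l ih =>
    intro f
    rw [List.map_cons, cx_dl_cons, cx_dl_cons, ih]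
    rfl

theorem cx_dl_zero (l : List α) : dl l (fun _ => (0 : V)) = 0 := by
  induction l with
  | nil => simp [dl]
  | cons x l ih => rw [cx_dl_cons, ih, sub_zero]

theorem cx_dl_neg (l : List α) : ∀ f : List α → V, dl l (fun l' => - f l') = - dl l f := by
  induction l with
  | nil => intro f; simp [dl]
  | cons x l ih =>
    intro f
    rw [cx_dl_cons, cx_dl_cons, ih]
    abel

/-- the coboundary of a family of functions, pointwise -/
theorem cx_dl_apply {ι : Type} (l : List α) : ∀ (f : List α → ι → V) (i : ι),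
    dl l f i = dl l (fun l' => f l' i) := by
  induction l with
  | nil => intro f i; simp [dl]
  | cons x l ih =>
    intro f i
    rw [cx_dl_cons, cx_dl_cons, Pi.sub_apply, ih]

end Lists

section Cubes

variable {V Q : Type} [Group Q] {Γ : SimpleGraph V} {π : RA Γ →* Q}

theorem cx_self_mem (q : Q) (T : Finset V) : q ∈ cube Γ π q T := by
  rw [cube, Finset.mem_image]
  exact ⟨∅, by simp, by simp [pr]⟩

theorem cx_cube_empty (q : Q) : cube Γ π q ∅ = {q} := by
  rw [cube]
  simp [pr]

variable (hd : Deep Γ π) (hc : ∀ T : Finset V, Γ.IsClique (T : Set V) → T.card ≤ 4)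

include hd hc

theorem cx_cube_le {q : Q} {T T' : Finset V} (hT : Γ.IsClique (T : Set V))
    (hT' : Γ.IsClique (T' : Set V)) : cube Γ π q T ⊆ cube Γ π q T' ↔ T ⊆ T' := by
  rw [cube_subset_iff hd hc hT hT']
  exact ⟨fun h => h.1, fun h => ⟨h, cx_self_mem q T'⟩⟩

theorem cx_cube_inj {q : Q} {T T' : Finset V} (hT : Γ.IsClique (T : Set V))
    (hT' : Γ.IsClique (T' : Set V)) (h : cube Γ π q T = cube Γ π q T') : T = T' :=
  Finset.Subset.antisymm ((cx_cube_le hd hc hT hT').1 h.subset)
    ((cx_cube_le hd hc hT' hT).1 h.superset)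

theorem cx_cube_lt {q : Q} {T T' : Finset V} (hT : Γ.IsClique (T : Set V))
    (hT' : Γ.IsClique (T' : Set V)) : cube Γ π q T < cube Γ π q T' ↔ T < T' := by
  rw [lt_iff_le_not_ge, lt_iff_le_not_ge]
  exact and_congr (cx_cube_le hd hc hT hT') (not_congr (cx_cube_le hd hc hT' hT))

omit hd in
/-- a nonempty cube containing `q` is `cube q T` for a clique `T` -/
theorem cx_exists_clique {q : Q} {c : Finset Q} (h : c ∈ cubes Γ π) (hq : q ∈ c) :
    ∃ T : Finset V, Γ.IsClique (T : Set V) ∧ c = cube Γ π q T := by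
  rcases h with rfl | ⟨q', T, hT, rfl⟩
  · simp at hq
  · exact ⟨T, hT, (mem_cube_eq hc hT hq).symm⟩

theorem cx_isCh_map {q : Q} {L : List (Finset V)} (hL : ∀ x ∈ L, Γ.IsClique (x : Set V)) :
    IsCh (L.map (cube Γ π q)) ↔ IsCh L := by
  rw [IsCh, IsCh, List.pairwise_map]
  constructor
  · intro h
    exact h.imp_of_mem fun {a b} ha hb hab => (cx_cube_lt hd hc (hL a ha) (hL b hb)).1 hab
  · intro h
    exact h.imp_of_mem fun {a b} ha hb hab => (cx_cube_lt hd hc (hL a ha) (hL b hb)).2 hab

/-- a chain of cubes containing `q` -/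
theorem cx_exists_list {q : Q} {l : List (Finset Q)} (hl : ∀ c ∈ l, c ∈ cubes Γ π ∧ q ∈ c)
    (hch : IsCh l) : ∃ L : List (Finset V), (∀ x ∈ L, Γ.IsClique (x : Set V)) ∧ IsCh L ∧
      l = L.map (cube Γ π q) := by
  have key : ∃ L : List (Finset V), (∀ x ∈ L, Γ.IsClique (x : Set V)) ∧
      l = L.map (cube Γ π q) := by
    clear hch
    induction l with
    | nil => exact ⟨[], by simp, rfl⟩
    | cons c l ih =>
      obtain ⟨L, hL, rfl⟩ := ih fun c hc => hl c (List.mem_cons_of_mem _ hc)
      obtain ⟨T, hT, rfl⟩ := cx_exists_clique hc (hl c List.mem_cons_self).1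
        (hl c List.mem_cons_self).2
      refine ⟨T :: L, ?_, rfl⟩
      intro x hx
      rcases List.mem_cons.1 hx with rfl | hx
      · exact hT
      · exact hL x hx
  obtain ⟨L, hL, rfl⟩ := key
  exact ⟨L, hL, (cx_isCh_map hd hc hL).1 hch, rfl⟩

omit hd hc in
omit [Group Q] in
theorem cx_mem_of_chain {q : Q} {c : Finset Q} {l : List (Finset Q)} (hch : IsCh (c :: l))
    (hq : q ∈ c) : ∀ x ∈ c :: l, q ∈ x := by
  intro x hx
  rcases List.mem_cons.1 hx with rfl | hx
  · exact hq
  · exact ((List.pairwise_cons.1 hch).1 x hx).le hq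

/-- the clique of a cube containing `q` -/
theorem cx_exists_inv : ∃ inv : Q → Finset Q → Finset V,
    ∀ (q : Q) (T : Finset V), Γ.IsClique (T : Set V) → inv q (cube Γ π q T) = T := by
  refine ⟨fun q c => if h : ∃ T : Finset V, Γ.IsClique (T : Set V) ∧ cube Γ π q T = c
    then h.choose else ∅, fun q T hT => ?_⟩
  have h : ∃ T' : Finset V, Γ.IsClique (T' : Set V) ∧ cube Γ π q T' = cube Γ π q T :=
    ⟨T, hT, rfl⟩
  simp only [h, dif_pos]
  exact cx_cube_inj hd hc h.choose_spec.1 hT h.choose_spec.2

end Cubes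

section Length

variable {V : Type} {Γ : SimpleGraph V} (hc : ∀ T : Finset V, Γ.IsClique (T : Set V) → T.card ≤ 4)

include hc

/-- chains of cliques are short -/
theorem cx_clique_chain {T : Finset V} {L : List (Finset V)} (h : IsCh (T :: L))
    (hT : Γ.IsClique (T : Set V)) (hL : ∀ x ∈ L, Γ.IsClique (x : Set V)) :
    L.length + T.card ≤ 4 := by
  induction L generalizing T with
  | nil => simpa using hc T hT
  | cons a L ih =>
    have h1 := List.pairwise_cons.1 h
    have h2 := ih h1.2 (hL a List.mem_cons_self) fun x hx => hL x (List.mem_cons_of_mem _ hx)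
    have h3 := Finset.card_lt_card (h1.1 a List.mem_cons_self)
    simp only [List.length_cons]
    omega

end Length

end Pool.Agent.RC84
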