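import Pool.Agent.RC84.CubeExact0

/-!
# From the nerve to the cube complex (package P14a of MP_8085d2_al)
-/

set_option autoImplicit false

namespace Pool.Agent.RC84

open scoped Classical

/-- P14a: from the nerve to the cube complex -/
theorem exact_cubes_zmod {V Q : Type} [Finite V] [Group Q] [Finite Q] (Γ : SimpleGraph V)
    (hps : Pseudo Γ) (π : RA Γ →* Q) (hs : Function.Surjective π) (hd : Deep Γ π)
    (h : Ex3 Γ (Q → ZMod 3) (fun s m q => m (q * π (gen Γ s)))) :
    ExactAt {c | c ∈ cubes Γ π ∧ c ≠ ∅} (ZMod 3) 4 := by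
  have hc := hps.card_le
  obtain ⟨inv, hinv⟩ := cx_exists_inv (Γ := Γ) (π := π) hd hc
  intro f hf
  -- the generators move the base point inside the cube
  have hmem : ∀ (q : Q) (T : Finset V) (s : V), s ∈ T → q * π (gen Γ s) ∈ cube Γ π q T := by
    intro q T s hsT
    rw [cube, Finset.mem_image]
    exact ⟨{s}, by simpa using hsT, by simp [pr]⟩
  have hmap : ∀ (q q' : Q) (T : Finset V) (l : List (Finset V)), IsCh (T :: l) →
      (∀ x ∈ T :: l, Γ.IsClique (x : Set V)) → q' ∈ cube Γ π q T →
      (T :: l).map (cube Γ π q') = (T :: l).map (cube Γ π q) := by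
    intro q q' T l hch hcl hq'
    refine List.map_congr_left fun x hx => ?_
    refine mem_cube_eq hc (hcl x hx) ?_
    rcases List.mem_cons.1 hx with rfl | hx'
    · exact hq'
    · exact (cx_cube_le hd hc (hcl T List.mem_cons_self) (hcl x hx)).2
        ((List.pairwise_cons.1 hch).1 x hx').le hq'
  obtain ⟨ψ, hψ1, hψ2⟩ := h (fun l q => f (l.map (cube Γ π q))) (by
    intro T l hch hcl _ s hsT
    funext q
    change f ((T :: l).map (cube Γ π (q * π (gen Γ s)))) = f ((T :: l).map (cube Γ π q))
    rw [hmap q _ T l hch hcl (hmem q T s hsT)]) (by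
    intro l hch hcl hlen
    funext q
    rw [cx_dl_apply, ← cx_dl_map]
    refine hf _ ((cx_isCh_map hd hc hcl).2 hch) ?_ (by rw [List.length_map, hlen])
    intro c hcm
    obtain ⟨T, hT, rfl⟩ := List.mem_map.1 hcm
    exact ⟨Or.inr ⟨q, T, hcl T hT, rfl⟩, Finset.ne_empty_of_mem (cx_self_mem q T)⟩)
  -- invariance of `ψ` under all of the cube
  have hinvψ : ∀ (q q' : Q) (T : Finset V) (l : List (Finset V)), IsCh (T :: l) →
      (∀ x ∈ T :: l, Γ.IsClique (x : Set V)) → (T :: l).length = 3 → q' ∈ cube Γ π q T →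
      ψ (T :: l) q' = ψ (T :: l) q := by
    intro q q' T l hch hcl hlen hq'
    rw [cube, Finset.mem_image] at hq'
    obtain ⟨A, hA, rfl⟩ := hq'
    rw [Finset.mem_powerset] at hA
    have key : ∀ (m : List V), (∀ s ∈ m, s ∈ T) → ∀ q : Q,
        ψ (T :: l) (q * π ((m.map (gen Γ)).prod)) = ψ (T :: l) q := by
      intro m hm
      induction m with
      | nil => intro q; simp
      | cons a m ih =>
        intro q
        rw [List.map_cons, List.prod_cons, map_mul, ← mul_assoc,
          ih (fun s hs => hm s (List.mem_cons_of_mem _ hs))]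
        exact congrFun (hψ1 T l hch hcl hlen a (hm a List.mem_cons_self)) q
    exact key A.toList (fun s hs => hA (Finset.mem_toList.1 hs)) q
  let G : List (Finset Q) → ZMod 3 := fun l => match l with
    | [] => ψ [] 1
    | c :: l => if h : c.Nonempty then ψ ((c :: l).map (inv h.choose)) h.choose else 0
  have hG : ∀ (q : Q) (l : List (Finset V)), IsCh l → (∀ x ∈ l, Γ.IsClique (x : Set V)) →
      l.length = 3 → G (l.map (cube Γ π q)) = ψ l q := by
    intro q l hch hcl hlen
    rcases l with _ | ⟨T, l⟩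
    · simp at hlen
    have hne : (cube Γ π q T).Nonempty := ⟨q, cx_self_mem q T⟩
    have h1 : G ((T :: l).map (cube Γ π q)) =
        ψ (((T :: l).map (cube Γ π q)).map (inv hne.choose)) hne.choose := by
      change (if h : (cube Γ π q T).Nonempty then
        ψ (((T :: l).map (cube Γ π q)).map (inv h.choose)) h.choose else 0) = _
      rw [dif_pos hne]
    rw [h1, ← hmap q _ T l hch hcl hne.choose_spec, List.map_map]
    have h2 : ∀ x ∈ T :: l, (inv hne.choose ∘ cube Γ π hne.choose) x = x :=
      fun x hx => hinv _ x (hcl x hx)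
    rw [List.map_congr_left h2, List.map_id']
    exact hinvψ q _ T l hch hcl hlen hne.choose_spec
  refine ⟨G, fun l hl hlS hlen => ?_⟩
  rcases l with _ | ⟨c, l⟩
  · simp at hlen
  obtain ⟨q, hq⟩ : c.Nonempty :=
    Finset.nonempty_iff_ne_empty.2 (hlS c List.mem_cons_self).2
  have hmem := cx_mem_of_chain hl hq
  obtain ⟨L, hL, hch, hLl⟩ := cx_exists_list (q := q) hd hc (l := c :: l)
    (fun x hx => ⟨(hlS x hx).1, hmem x hx⟩) hl
  rw [hLl, List.length_map] at hlen
  rw [hLl]
  have h3 := congrFun (hψ2 L hch hL hlen) q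
  rw [cx_dl_apply] at h3
  rw [h3, cx_dl_map]
  refine cx_dl_congr L _ _ fun l' hl' hlen' => ?_
  refine (hG q l' (hch.sublist hl') (fun x hx => hL x (hl'.subset hx)) (by omega)).symm

end Pool.Agent.RC84
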