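import Pool.Agent.RC84.Uct

/-!
# P11 of MP_8085d2_al: the top cohomology of the nerve and nonorientability
-/

set_option autoImplicit false
set_option linter.unusedSectionVars false

namespace Pool.Agent.RC84

open scoped Classical

namespace TopGenAux

variable {V : Type}

/-- the flag of a tetrahedron -/
noncomputable def FL (F : V × V × V × V) : List (Finset V) :=
  [{F.1}, {F.2.1, F.1}, {F.2.2.1, F.2.1, F.1}, {F.2.2.2, F.2.2.1, F.2.1, F.1}]

theorem ins_inj {x y : V} {S S' : Finset V} (hS : S = S') (hx : x ∉ S)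
    (h : insert x S = insert y S') : x = y := by
  subst hS
  have h1 : x ∈ insert y S := h ▸ Finset.mem_insert_self x S
  rcases Finset.mem_insert.1 h1 with h2 | h2
  · exact h2
  · exact absurd h2 hx

variable (Γ : SimpleGraph V)

/-- valid tetrahedra: start in `B` -/
def Val (B : Set V) (F : V × V × V × V) : Prop := Tet Γ F.1 F.2.1 F.2.2.1 F.2.2.2 ∧ F.1 ∈ B

variable {Γ}

theorem tet_ne {a b c d : V} (h : Tet Γ a b c d) :
    a ≠ b ∧ a ≠ c ∧ a ≠ d ∧ b ≠ c ∧ b ≠ d ∧ c ≠ d :=
  ⟨h.1.ne, h.2.1.ne, h.2.2.1.ne, h.2.2.2.1.ne, h.2.2.2.2.1.ne, h.2.2.2.2.2.ne⟩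

theorem card1 (a : V) : ({a} : Finset V).card = 1 := Finset.card_singleton a

theorem card2 {a b c d : V} (h : Tet Γ a b c d) : ({b, a} : Finset V).card = 2 := by
  obtain ⟨h1, h2, h3, h4, h5, h6⟩ := tet_ne h
  rw [Finset.card_insert_of_notMem (by simp [h1.symm]), card1]

theorem card3 {a b c d : V} (h : Tet Γ a b c d) : ({c, b, a} : Finset V).card = 3 := by
  obtain ⟨h1, h2, h3, h4, h5, h6⟩ := tet_ne h
  rw [Finset.card_insert_of_notMem (by simp [h2.symm, h4.symm]), card2 h]

theorem card4 {a b c d : V} (h : Tet Γ a b c d) : ({d, c, b, a} : Finset V).card = 4 := by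
  obtain ⟨h1, h2, h3, h4, h5, h6⟩ := tet_ne h
  rw [Finset.card_insert_of_notMem (by simp [h3.symm, h5.symm, h6.symm]), card3 h]

theorem dl4 {α M : Type} [AddCommGroup M] (x y z w : α) (g : List α → M) :
    dl [x, y, z, w] g = g [y, z, w] - g [x, z, w] + g [x, y, w] - g [x, y, z] := by
  simp only [dl]
  abel

theorem isClique_of_tet {a b c d : V} (h : Tet Γ a b c d) :
    Γ.IsClique (({d, c, b, a} : Finset V) : Set V) := by
  obtain ⟨h1, h2, h3, h4, h5, h6⟩ := h
  rw [SimpleGraph.isClique_iff]
  intro x hx y hy hxy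
  simp only [Finset.coe_insert, Finset.coe_singleton, Set.mem_insert_iff,
    Set.mem_singleton_iff] at hx hy
  rcases hx with rfl | rfl | rfl | rfl <;> rcases hy with rfl | rfl | rfl | rfl <;>
    first
    | exact absurd rfl hxy
    | exact h1
    | exact h2
    | exact h3
    | exact h4
    | exact h5
    | exact h6
    | exact h1.symm
    | exact h2.symm
    | exact h3.symm
    | exact h4.symm
    | exact h5.symm
    | exact h6.symm

/-- the shape of the maximal chains -/
theorem chain_shape (hps : Pseudo Γ) {T : Finset V} {l : List (Finset V)} (hch : IsCh (T :: l))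
    (hm : ∀ x ∈ T :: l, x ∈ Clq Γ) (hlen : (T :: l).length = 4) :
    ∃ F : V × V × V × V, Tet Γ F.1 F.2.1 F.2.2.1 F.2.2.2 ∧ T :: l = FL F := by
  obtain ⟨T₂, T₃, T₄, rfl⟩ : ∃ T₂ T₃ T₄, l = [T₂, T₃, T₄] := by
    rcases l with _ | ⟨T₂, _ | ⟨T₃, _ | ⟨T₄, _ | ⟨T₅, l⟩⟩⟩⟩
    · simp at hlen
    · simp at hlen
    · simp at hlen
    · exact ⟨T₂, T₃, T₄, rfl⟩
    · simp at hlen
  have h12 : T < T₂ := (List.pairwise_cons.1 hch).1 _ (by simp)
  have hch2 := (List.pairwise_cons.1 hch).2
  have h23 : T₂ < T₃ := (List.pairwise_cons.1 hch2).1 _ (by simp)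
  have hch3 := (List.pairwise_cons.1 hch2).2
  have h34 : T₃ < T₄ := (List.pairwise_cons.1 hch3).1 _ (by simp)
  have c1 : 1 ≤ T.card := Finset.card_pos.2 (Finset.nonempty_iff_ne_empty.2 (hm T (by simp)).1)
  have c4 : T₄.card ≤ 4 := hps.card_le T₄ (hm T₄ (by simp)).2
  have k12 := Finset.card_lt_card h12
  have k23 := Finset.card_lt_card h23
  have k34 := Finset.card_lt_card h34
  have e1 : T.card = 1 := by omega
  obtain ⟨a, rfl⟩ := Finset.card_eq_one.1 e1
  obtain ⟨b, hb, rfl⟩ := Finset.exists_eq_insert_iff.2 ⟨h12.1, (by omega : _ + 1 = T₂.card)⟩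
  obtain ⟨c, hc, rfl⟩ := Finset.exists_eq_insert_iff.2 ⟨h23.1, (by omega : _ + 1 = T₃.card)⟩
  obtain ⟨d, hd, rfl⟩ := Finset.exists_eq_insert_iff.2 ⟨h34.1, (by omega : _ + 1 = T₄.card)⟩
  refine ⟨(a, b, c, d), ?_, rfl⟩
  have hcl := (hm _ (by simp : ({d, c, b, a} : Finset V) ∈ _)).2
  simp only [Finset.mem_insert, Finset.mem_singleton, not_or] at hb hc hd
  rw [SimpleGraph.isClique_iff] at hcl
  have key : ∀ x ∈ ({d, c, b, a} : Finset V), ∀ y ∈ ({d, c, b, a} : Finset V), x ≠ y →
      Γ.Adj x y := fun x hx y hy hxy => hcl (Finset.mem_coe.2 hx) (Finset.mem_coe.2 hy) hxy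
  refine ⟨key a (by simp) b (by simp) (Ne.symm hb), key a (by simp) c (by simp) (Ne.symm hc.2),
    key a (by simp) d (by simp) (Ne.symm hd.2.2), key b (by simp) c (by simp) (Ne.symm hc.1),
    key b (by simp) d (by simp) (Ne.symm hd.2.1), key c (by simp) d (by simp) (Ne.symm hd.1)⟩

variable {M : Type} [AddCommGroup M]

/-- indicator of a list -/
noncomputable def ind (l₀ : List (Finset V)) (m : M) : List (Finset V) → M :=
  fun l => if l = l₀ then m else 0

theorem ind_self (l₀ : List (Finset V)) (m : M) : ind l₀ m l₀ = m := if_pos rfl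

theorem ind_ne {l₀ l : List (Finset V)} (m : M) (h : l ≠ l₀) : ind l₀ m l = 0 := if_neg h

/-- coefficient vectors on the tetrahedra starting in `B` -/
noncomputable def Dop (Γ : SimpleGraph V) (B : Set V) (g : List (Finset V) → M) :
    V × V × V × V → M := fun F => if Val Γ B F then dl (FL F) g else 0

theorem rel1 {B : Set V} {a b c d : V} (h : Tet Γ a b c d) (ha : a ∈ B) (hb : b ∈ B) (m : M) :
    Pi.single (a, b, c, d) m + Pi.single (b, a, c, d) m =
      Dop Γ B (ind [{b, a}, {c, b, a}, {d, c, b, a}] m) := by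
  funext F
  obtain ⟨a', b', c', d'⟩ := F
  obtain ⟨n1, n2, n3, n4, n5, n6⟩ := tet_ne h
  have h' : Tet Γ b a c d := ⟨h.1.symm, h.2.2.2.1, h.2.2.2.2.1, h.2.1, h.2.2.1, h.2.2.2.2.2⟩
  by_cases hv : Val Γ B (a', b', c', d')
  · rw [Dop, if_pos hv, FL, dl4]
    have ht : Tet Γ a' b' c' d' := hv.1
    obtain ⟨n1', n2', n3', n4', n5', n6'⟩ := tet_ne ht
    have z1 : ind [{b, a}, {c, b, a}, {d, c, b, a}] m
        [{a'}, {c', b', a'}, {d', c', b', a'}] = 0 := by
      refine ind_ne m fun he => ?_
      have := congrArg Finset.card (List.cons.inj he).1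
      rw [card1, card2 h] at this
      omega
    have z2 : ind [{b, a}, {c, b, a}, {d, c, b, a}] m
        [{a'}, {b', a'}, {d', c', b', a'}] = 0 := by
      refine ind_ne m fun he => ?_
      have := congrArg Finset.card (List.cons.inj he).1
      rw [card1, card2 h] at this
      omega
    have z3 : ind [{b, a}, {c, b, a}, {d, c, b, a}] m
        [{a'}, {b', a'}, {c', b', a'}] = 0 := by
      refine ind_ne m fun he => ?_
      have := congrArg Finset.card (List.cons.inj he).1
      rw [card1, card2 h] at this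
      omega
    simp only
    rw [z1, z2, z3, sub_zero, add_zero, sub_zero]
    by_cases he : [{b', a'}, {c', b', a'}, {d', c', b', a'}] =
        ([{b, a}, {c, b, a}, {d, c, b, a}] : List (Finset V))
    · rw [he, ind_self]
      obtain ⟨e1, he⟩ := List.cons.inj he
      obtain ⟨e2, he⟩ := List.cons.inj he
      obtain ⟨e3, -⟩ := List.cons.inj he
      have hc : c' = c := ins_inj e1 (by simp [n2'.symm, n4'.symm]) e2
      have hd : d' = d := ins_inj e2 (by simp [n3'.symm, n5'.symm, n6'.symm]) e3
      subst hc hd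
      have hb' : b' ∈ ({b, a} : Finset V) := e1 ▸ Finset.mem_insert_self _ _
      have ha' : a' ∈ ({b, a} : Finset V) := e1 ▸ (by simp)
      simp only [Finset.mem_insert, Finset.mem_singleton] at hb' ha'
      rcases ha' with rfl | rfl
      · rcases hb' with rfl | rfl
        · exact absurd rfl n1'
        · rw [Pi.add_apply, Pi.single_eq_same, Pi.single_eq_of_ne, zero_add]
          intro hh
          exact n1 (congrArg Prod.fst hh).symm
      · rcases hb' with rfl | rfl
        · rw [Pi.add_apply, Pi.single_eq_same, Pi.single_eq_of_ne, add_zero]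
          intro hh
          exact n1 (congrArg Prod.fst hh)
        · exact absurd rfl n1'
    · rw [ind_ne m he, Pi.add_apply, Pi.single_eq_of_ne, Pi.single_eq_of_ne, add_zero]
      · rintro hh
        simp only [Prod.mk.injEq] at hh
        obtain ⟨rfl, rfl, rfl, rfl⟩ := hh
        apply he
        rw [Finset.pair_comm b' a']
      · rintro hh
        simp only [Prod.mk.injEq] at hh
        obtain ⟨rfl, rfl, rfl, rfl⟩ := hh
        exact he rfl
  · rw [Dop, if_neg hv, Pi.add_apply, Pi.single_eq_of_ne, Pi.single_eq_of_ne, add_zero]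
    · rintro hh
      rw [hh] at hv
      exact hv ⟨h', hb⟩
    · rintro hh
      rw [hh] at hv
      exact hv ⟨h, ha⟩

theorem rel2 {B : Set V} {a b c d : V} (h : Tet Γ a b c d) (ha : a ∈ B) (m : M) :
    Pi.single (a, b, c, d) m + Pi.single (a, c, b, d) m =
      - Dop Γ B (ind [{a}, {c, b, a}, {d, c, b, a}] m) := by
  funext F
  obtain ⟨a', b', c', d'⟩ := F
  obtain ⟨n1, n2, n3, n4, n5, n6⟩ := tet_ne h
  have h' : Tet Γ a c b d :=
    ⟨h.2.1, h.1, h.2.2.1, h.2.2.2.1.symm, h.2.2.2.2.2, h.2.2.2.2.1⟩
  rw [Pi.neg_apply]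
  by_cases hv : Val Γ B (a', b', c', d')
  · rw [Dop, if_pos hv, FL, dl4]
    have ht : Tet Γ a' b' c' d' := hv.1
    obtain ⟨n1', n2', n3', n4', n5', n6'⟩ := tet_ne ht
    have z1 : ind [{a}, {c, b, a}, {d, c, b, a}] m
        [{b', a'}, {c', b', a'}, {d', c', b', a'}] = 0 := by
      refine ind_ne m fun he => ?_
      have := congrArg Finset.card (List.cons.inj he).1
      rw [card1, card2 ht] at this
      omega
    have z2 : ind [{a}, {c, b, a}, {d, c, b, a}] m
        [{a'}, {b', a'}, {d', c', b', a'}] = 0 := by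
      refine ind_ne m fun he => ?_
      have := congrArg Finset.card (List.cons.inj (List.cons.inj he).2).1
      rw [card2 ht, card3 h] at this
      omega
    have z3 : ind [{a}, {c, b, a}, {d, c, b, a}] m
        [{a'}, {b', a'}, {c', b', a'}] = 0 := by
      refine ind_ne m fun he => ?_
      have := congrArg Finset.card (List.cons.inj (List.cons.inj he).2).1
      rw [card2 ht, card3 h] at this
      omega
    simp only
    rw [z1, z2, z3, zero_sub, add_zero, sub_zero, neg_neg]
    by_cases he : [{a'}, {c', b', a'}, {d', c', b', a'}] =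
        ([{a}, {c, b, a}, {d, c, b, a}] : List (Finset V))
    · rw [he, ind_self]
      obtain ⟨e1, he⟩ := List.cons.inj he
      obtain ⟨e2, he⟩ := List.cons.inj he
      obtain ⟨e3, -⟩ := List.cons.inj he
      obtain rfl : a' = a := Finset.singleton_inj.1 e1
      have hd : d' = d := ins_inj e2 (by simp [n3'.symm, n5'.symm, n6'.symm]) e3
      subst hd
      have hc' : c' ∈ ({c, b, a'} : Finset V) := e2 ▸ Finset.mem_insert_self _ _
      have hb' : b' ∈ ({c, b, a'} : Finset V) := e2 ▸ (by simp)
      simp only [Finset.mem_insert, Finset.mem_singleton] at hb' hc'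
      rcases hc' with rfl | rfl | rfl
      · rcases hb' with rfl | rfl | rfl
        · exact absurd rfl n4'
        · rw [Pi.add_apply, Pi.single_eq_same, Pi.single_eq_of_ne, add_zero]
          intro hh
          simp only [Prod.mk.injEq] at hh
          exact n4 hh.2.1
        · exact absurd rfl n1'
      · rcases hb' with rfl | rfl | rfl
        · rw [Pi.add_apply, Pi.single_eq_same, Pi.single_eq_of_ne, zero_add]
          intro hh
          simp only [Prod.mk.injEq] at hh
          exact n4 hh.2.1.symm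
        · exact absurd rfl n4'
        · exact absurd rfl n1'
      · exact absurd rfl n2'
    · rw [ind_ne m he, Pi.add_apply, Pi.single_eq_of_ne, Pi.single_eq_of_ne, add_zero]
      · rintro hh
        simp only [Prod.mk.injEq] at hh
        obtain ⟨rfl, rfl, rfl, rfl⟩ := hh
        apply he
        rw [Finset.insert_comm b' c' {a'}]
      · rintro hh
        simp only [Prod.mk.injEq] at hh
        obtain ⟨rfl, rfl, rfl, rfl⟩ := hh
        exact he rfl
  · rw [Dop, if_neg hv, Pi.add_apply, Pi.single_eq_of_ne, Pi.single_eq_of_ne, add_zero, neg_zero]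
    · rintro hh
      rw [hh] at hv
      exact hv ⟨h', ha⟩
    · rintro hh
      rw [hh] at hv
      exact hv ⟨h, ha⟩

theorem rel3 {B : Set V} {a b c d : V} (h : Tet Γ a b c d) (ha : a ∈ B) (m : M) :
    Pi.single (a, b, c, d) m + Pi.single (a, b, d, c) m =
      Dop Γ B (ind [{a}, {b, a}, {d, c, b, a}] m) := by
  funext F
  obtain ⟨a', b', c', d'⟩ := F
  obtain ⟨n1, n2, n3, n4, n5, n6⟩ := tet_ne h
  have h' : Tet Γ a b d c :=
    ⟨h.1, h.2.2.1, h.2.1, h.2.2.2.2.1, h.2.2.2.1, h.2.2.2.2.2.symm⟩
  by_cases hv : Val Γ B (a', b', c', d')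
  · rw [Dop, if_pos hv, FL, dl4]
    have ht : Tet Γ a' b' c' d' := hv.1
    obtain ⟨n1', n2', n3', n4', n5', n6'⟩ := tet_ne ht
    have z1 : ind [{a}, {b, a}, {d, c, b, a}] m
        [{b', a'}, {c', b', a'}, {d', c', b', a'}] = 0 := by
      refine ind_ne m fun he => ?_
      have := congrArg Finset.card (List.cons.inj he).1
      rw [card1, card2 ht] at this
      omega
    have z2 : ind [{a}, {b, a}, {d, c, b, a}] m
        [{a'}, {c', b', a'}, {d', c', b', a'}] = 0 := by
      refine ind_ne m fun he => ?_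
      have := congrArg Finset.card (List.cons.inj (List.cons.inj he).2).1
      rw [card3 ht, card2 h] at this
      omega
    have z3 : ind [{a}, {b, a}, {d, c, b, a}] m
        [{a'}, {b', a'}, {c', b', a'}] = 0 := by
      refine ind_ne m fun he => ?_
      have := congrArg Finset.card (List.cons.inj (List.cons.inj (List.cons.inj he).2).2).1
      rw [card3 ht, card4 h] at this
      omega
    simp only
    rw [z1, z2, z3, sub_zero, sub_zero, zero_add]
    by_cases he : [{a'}, {b', a'}, {d', c', b', a'}] =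
        ([{a}, {b, a}, {d, c, b, a}] : List (Finset V))
    · rw [he, ind_self]
      obtain ⟨e1, he⟩ := List.cons.inj he
      obtain ⟨e2, he⟩ := List.cons.inj he
      obtain ⟨e3, -⟩ := List.cons.inj he
      obtain rfl : a' = a := Finset.singleton_inj.1 e1
      obtain rfl : b' = b := ins_inj e1 (by simp [n1'.symm]) e2
      have hd' : d' ∈ ({d, c, b', a'} : Finset V) := e3 ▸ Finset.mem_insert_self _ _
      have hc' : c' ∈ ({d, c, b', a'} : Finset V) := e3 ▸ (by simp)
      simp only [Finset.mem_insert, Finset.mem_singleton] at hd' hc'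
      rcases hd' with rfl | rfl | rfl | rfl
      · rcases hc' with rfl | rfl | rfl | rfl
        · exact absurd rfl n6'
        · rw [Pi.add_apply, Pi.single_eq_same, Pi.single_eq_of_ne, add_zero]
          intro hh
          simp only [Prod.mk.injEq] at hh
          exact n6 hh.2.2.1
        · exact absurd rfl n4'
        · exact absurd rfl n2'
      · rcases hc' with rfl | rfl | rfl | rfl
        · rw [Pi.add_apply, Pi.single_eq_same, Pi.single_eq_of_ne, zero_add]
          intro hh
          simp only [Prod.mk.injEq] at hh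
          exact n6 hh.2.2.1.symm
        · exact absurd rfl n6'
        · exact absurd rfl n4'
        · exact absurd rfl n2'
      · exact absurd rfl n5'
      · exact absurd rfl n3'
    · rw [ind_ne m he, Pi.add_apply, Pi.single_eq_of_ne, Pi.single_eq_of_ne, add_zero]
      · rintro hh
        simp only [Prod.mk.injEq] at hh
        obtain ⟨rfl, rfl, rfl, rfl⟩ := hh
        apply he
        rw [Finset.insert_comm c' d' {b', a'}]
      · rintro hh
        simp only [Prod.mk.injEq] at hh
        obtain ⟨rfl, rfl, rfl, rfl⟩ := hh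
        exact he rfl
  · rw [Dop, if_neg hv, Pi.add_apply, Pi.single_eq_of_ne, Pi.single_eq_of_ne, add_zero]
    · rintro hh
      rw [hh] at hv
      exact hv ⟨h', ha⟩
    · rintro hh
      rw [hh] at hv
      exact hv ⟨h, ha⟩

theorem rel4 (hps : Pseudo Γ) {B : Set V} {a b c d e : V} (h : Tet Γ a b c d)
    (h' : Tet Γ a b c e) (hde : d ≠ e) (ha : a ∈ B) (m : M) :
    Pi.single (a, b, c, d) m + Pi.single (a, b, c, e) m =
      - Dop Γ B (ind [{a}, {b, a}, {c, b, a}] m) := by
  funext F
  obtain ⟨a', b', c', d'⟩ := F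
  obtain ⟨n1, n2, n3, n4, n5, n6⟩ := tet_ne h
  rw [Pi.neg_apply]
  by_cases hv : Val Γ B (a', b', c', d')
  · rw [Dop, if_pos hv, FL, dl4]
    have ht : Tet Γ a' b' c' d' := hv.1
    obtain ⟨n1', n2', n3', n4', n5', n6'⟩ := tet_ne ht
    have z1 : ind [{a}, {b, a}, {c, b, a}] m
        [{b', a'}, {c', b', a'}, {d', c', b', a'}] = 0 := by
      refine ind_ne m fun he => ?_
      have := congrArg Finset.card (List.cons.inj he).1
      rw [card1, card2 ht] at this
      omega
    have z2 : ind [{a}, {b, a}, {c, b, a}] m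
        [{a'}, {c', b', a'}, {d', c', b', a'}] = 0 := by
      refine ind_ne m fun he => ?_
      have := congrArg Finset.card (List.cons.inj (List.cons.inj he).2).1
      rw [card3 ht, card2 h] at this
      omega
    have z3 : ind [{a}, {b, a}, {c, b, a}] m
        [{a'}, {b', a'}, {d', c', b', a'}] = 0 := by
      refine ind_ne m fun he => ?_
      have := congrArg Finset.card (List.cons.inj (List.cons.inj (List.cons.inj he).2).2).1
      rw [card4 ht, card3 h] at this
      omega
    simp only
    rw [z1, z2, z3, sub_zero, zero_add, zero_sub, neg_neg]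
    by_cases he : [{a'}, {b', a'}, {c', b', a'}] =
        ([{a}, {b, a}, {c, b, a}] : List (Finset V))
    · rw [he, ind_self]
      obtain ⟨e1, he⟩ := List.cons.inj he
      obtain ⟨e2, he⟩ := List.cons.inj he
      obtain ⟨e3, -⟩ := List.cons.inj he
      obtain rfl : a' = a := Finset.singleton_inj.1 e1
      obtain rfl : b' = b := ins_inj e1 (by simp [n1'.symm]) e2
      obtain rfl : c' = c := ins_inj e2 (by simp [n2'.symm, n4'.symm]) e3
      obtain ⟨f, -, -, hf⟩ := hps.two _ _ _ _ h
      have he' : e = f := (hf e h').resolve_left hde.symm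
      subst he'
      rcases hf d' ht with rfl | rfl
      · rw [Pi.add_apply, Pi.single_eq_same, Pi.single_eq_of_ne, add_zero]
        intro hh
        simp only [Prod.mk.injEq] at hh
        exact hde hh.2.2.2
      · rw [Pi.add_apply, Pi.single_eq_same, Pi.single_eq_of_ne, zero_add]
        intro hh
        simp only [Prod.mk.injEq] at hh
        exact hde hh.2.2.2.symm
    · rw [ind_ne m he, Pi.add_apply, Pi.single_eq_of_ne, Pi.single_eq_of_ne, add_zero]
      · rintro hh
        simp only [Prod.mk.injEq] at hh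
        obtain ⟨rfl, rfl, rfl, rfl⟩ := hh
        exact he rfl
      · rintro hh
        simp only [Prod.mk.injEq] at hh
        obtain ⟨rfl, rfl, rfl, rfl⟩ := hh
        exact he rfl
  · rw [Dop, if_neg hv, Pi.add_apply, Pi.single_eq_of_ne, Pi.single_eq_of_ne, add_zero, neg_zero]
    · rintro hh
      rw [hh] at hv
      exact hv ⟨h', ha⟩
    · rintro hh
      rw [hh] at hv
      exact hv ⟨h, ha⟩

/-- admissible cochains: zero on lists whose head is not contained in `B` -/
def Adm (B : Set V) (g : List (Finset V) → M) : Prop :=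
  ∀ (T : Finset V) (l : List (Finset V)), ¬ ((T : Set V) ⊆ B) → g (T :: l) = 0

theorem adm_ind {B : Set V} {T : Finset V} (hT : (T : Set V) ⊆ B) (l : List (Finset V)) (m : M) :
    Adm B (ind (T :: l) m) := by
  intro T' l' hT'
  refine ind_ne m fun he => hT' ?_
  rw [(List.cons.inj he).1]
  exact hT

variable {K : Type} [Field K] [Module K M]

theorem dl_smul' {α : Type} (r : K) (l : List α) (g : List α → M) :
    dl l (r • g) = r • dl l g := by
  have := UctAux.dl_map (DistribSMul.toAddMonoidHom M r) l g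
  exact this

/-- the submodule of the coefficient vectors of coboundaries of admissible cochains -/
noncomputable def Bd (Γ : SimpleGraph V) (B : Set V) (K M : Type) [Field K] [AddCommGroup M]
    [Module K M] : Submodule K (V × V × V × V → M) where
  carrier := {φ | ∃ g : List (Finset V) → M, Adm B g ∧ φ = Dop Γ B g}
  add_mem' := by
    rintro _ _ ⟨g, hg, rfl⟩ ⟨g', hg', rfl⟩
    refine ⟨g + g', fun T l h => ?_, ?_⟩
    · rw [Pi.add_apply, hg T l h, hg' T l h, add_zero]
    · funext F
      rw [Pi.add_apply]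
      unfold Dop
      split_ifs
      · rw [UctAux.dl_add]
      · rw [add_zero]
  zero_mem' := by
    refine ⟨0, fun T l _ => rfl, ?_⟩
    funext F
    unfold Dop
    split_ifs
    · rw [UctAux.dl_zero]; rfl
    · rfl
  smul_mem' := by
    rintro r _ ⟨g, hg, rfl⟩
    refine ⟨r • g, fun T l h => ?_, ?_⟩
    · rw [Pi.smul_apply, hg T l h, smul_zero]
    · funext F
      rw [Pi.smul_apply]
      unfold Dop
      split_ifs
      · rw [dl_smul']
      · rw [smul_zero]

theorem single_mem (hps : Pseudo Γ) {B : Set V} (hB : Gen Γ B) (hK : (2 : K) ≠ 0)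
    {a b c d : V} (h : Tet Γ a b c d) (ha : a ∈ B) (m : M) :
    Pi.single (a, b, c, d) m ∈ Bd Γ B K M := by
  have hU : ∀ u : (V × V × V × V → M) ⧸ Bd Γ B K M, u + u = 0 → u = 0 := by
    intro u hu
    have h2 : (2 : K) • u = 0 := by rw [two_smul]; exact hu
    exact (smul_eq_zero.1 h2).resolve_left hK
  have key := hB ((V × V × V × V → M) ⧸ Bd Γ B K M) hU
    (fun a b c d => Submodule.Quotient.mk (Pi.single (a, b, c, d) m)) ?_ ?_ ?_ ?_ a b c d h ha
  · exact (Submodule.Quotient.mk_eq_zero _).1 key
  · intro a b c d h ha hb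
    rw [eq_neg_iff_add_eq_zero, ← Submodule.Quotient.mk_add, Submodule.Quotient.mk_eq_zero,
      add_comm, rel1 h ha hb]
    refine ⟨_, adm_ind ?_ _ _, rfl⟩
    intro x hx
    simp only [Finset.coe_insert, Finset.coe_singleton, Set.mem_insert_iff,
      Set.mem_singleton_iff] at hx
    rcases hx with rfl | rfl
    · exact hb
    · exact ha
  · intro a b c d h ha
    rw [eq_neg_iff_add_eq_zero, ← Submodule.Quotient.mk_add, Submodule.Quotient.mk_eq_zero,
      add_comm, rel2 h ha]
    refine Submodule.neg_mem _ ⟨_, adm_ind ?_ _ _, rfl⟩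
    simpa using ha
  · intro a b c d h ha
    rw [eq_neg_iff_add_eq_zero, ← Submodule.Quotient.mk_add, Submodule.Quotient.mk_eq_zero,
      add_comm, rel3 h ha]
    refine ⟨_, adm_ind ?_ _ _, rfl⟩
    simpa using ha
  · intro a b c d d' h h' hdd ha
    rw [eq_neg_iff_add_eq_zero, ← Submodule.Quotient.mk_add, Submodule.Quotient.mk_eq_zero,
      add_comm, rel4 hps h h' hdd ha]
    refine Submodule.neg_mem _ ⟨_, adm_ind ?_ _ _, rfl⟩
    simpa using ha

end TopGenAux

open TopGenAux in
/-- P11 -/
theorem top_of_gen {V : Type} [Finite V] (Γ : SimpleGraph V)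
    (hps : Pseudo Γ) {B : Set V} (hB : Gen Γ B) (K M : Type) [Field K]
    (hK : (2 : K) ≠ 0) [AddCommGroup M] [Module K M] (f : List (Finset V) → M) :
    ∃ g : List (Finset V) → M, (∀ (T : Finset V) (l : List (Finset V)), ¬ ((T : Set V) ⊆ B) →
        g (T :: l) = 0) ∧
      ∀ (T : Finset V) (l : List (Finset V)), IsCh (T :: l) → (∀ x ∈ T :: l, x ∈ Clq Γ) →
        (T :: l).length = 4 → (T : Set V) ⊆ B → f (T :: l) = dl (T :: l) g := by
  have := Fintype.ofFinite V
  have hmem : (fun F => if Val Γ B F then f (FL F) else 0) ∈ Bd Γ B K M := by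
    rw [show (fun F => if Val Γ B F then f (FL F) else 0) =
      ∑ F : V × V × V × V, Pi.single F (if Val Γ B F then f (FL F) else 0) from
      (Finset.univ_sum_single _).symm]
    refine Submodule.sum_mem _ fun F _ => ?_
    split_ifs with hv
    · exact single_mem hps hB hK hv.1 hv.2 _
    · rw [Pi.single_zero]
      exact Submodule.zero_mem _
  obtain ⟨g, hg, he⟩ := hmem
  refine ⟨g, hg, fun T l hch hm hlen hTB => ?_⟩
  obtain ⟨F, hF, hFl⟩ := chain_shape hps hch hm hlen
  have hTF : T = {F.1} := by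
    have h1 : T :: l = {F.1} :: _ := hFl
    exact (List.cons.inj h1).1
  have hv : Val Γ B F := ⟨hF, hTB (by rw [hTF]; simp)⟩
  have h2 := congrFun he F
  simp only [Dop, if_pos hv] at h2
  rw [hFl, h2]

end Pool.Agent.RC84
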