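import Pool.Agent.RC84.CubeExact0
import Pool.Agent.RC84.TopGen

/-!
# Exactness for cubes: top degree, vertices, chain length (package P14b of MP_8085d2_al)
-/

set_option autoImplicit false

namespace Pool.Agent.RC84

open scoped Classical

/-- P14d: chains in `cubes` are short -/
theorem cubes_chain_length {V Q : Type} [Finite V] [Group Q] [Finite Q] (Γ : SimpleGraph V)
    (hps : Pseudo Γ) (π : RA Γ →* Q) (hd : Deep Γ π) (q : Q) (T : Finset V)
    (hT : Γ.IsClique (T : Set V)) (l : List (Finset Q)) (hl : IsCh (cube Γ π q T :: l))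
    (hlc : ∀ c ∈ l, c ∈ cubes Γ π) : l.length + T.card ≤ 4 := by
  have hc := hps.card_le
  have hmem := cx_mem_of_chain hl (cx_self_mem q T)
  obtain ⟨L, hL, hch, rfl⟩ := cx_exists_list (q := q) hd hc (l := l)
    (fun c hc => ⟨hlc c hc, hmem c (List.mem_cons_of_mem _ hc)⟩) (List.pairwise_cons.1 hl).2
  have h1 : IsCh ((T :: L).map (cube Γ π q)) := hl
  have hTL : ∀ x ∈ T :: L, Γ.IsClique (x : Set V) := by
    intro x hx
    rcases List.mem_cons.1 hx with rfl | hx
    · exact hT
    · exact hL x hx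
  rw [cx_isCh_map hd hc hTL] at h1
  rw [List.length_map]
  exact cx_clique_chain hc h1 hT hL

/-- P14c -/
theorem exact_cubes_vertex {V Q : Type} [Finite V] [Group Q] [Finite Q] (Γ : SimpleGraph V)
    (hps : Pseudo Γ) (hG : Gen Γ Set.univ) (π : RA Γ →* Q) (hs : Function.Surjective π)
    (hd : Deep Γ π) (M : Type) [AddCommGroup M] [Module ℚ M] (q : Q) :
    ExactAt {c | c ∈ cubes Γ π ∧ cube Γ π q ∅ < c} M 4 := by
  have hc := hps.card_le
  obtain ⟨inv, hinv⟩ := cx_exists_inv (Γ := Γ) (π := π) hd hc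
  intro f _
  obtain ⟨g, -, hg⟩ := top_of_gen Γ hps hG ℚ M (by norm_num)
    (fun L => f (L.map (cube Γ π q)))
  refine ⟨fun l => g (l.map (inv q)), fun l hl hlS hlen => ?_⟩
  have hq : q ∈ cube Γ π q ∅ := cx_self_mem q ∅
  obtain ⟨L, hL, hch, rfl⟩ := cx_exists_list (q := q) hd hc (l := l)
    (fun c hc => ⟨(hlS c hc).1, (hlS c hc).2.le hq⟩) hl
  have hne : ∀ x ∈ L, x ∈ Clq Γ := by
    intro x hx
    refine ⟨?_, hL x hx⟩
    rintro rfl
    exact lt_irrefl _ (hlS _ (List.mem_map_of_mem hx)).2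
  rw [List.length_map] at hlen
  rw [cx_dl_map]
  have h1 : dl L (fun l' => (fun l => g (l.map (inv q))) (l'.map (cube Γ π q))) = dl L g := by
    refine cx_dl_congr L _ _ fun l' hl' _ => ?_
    simp only [List.map_map]
    congr 1
    have : ∀ x ∈ l', (inv q ∘ cube Γ π q) x = x := fun x hx => hinv q x (hL x (hl'.subset hx))
    rw [List.map_congr_left this, List.map_id']
  rw [h1]
  rcases L with _ | ⟨T, L⟩
  · simp at hlen
  · exact hg T L hch hne hlen (Set.subset_univ _)

/-- P14b -/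
theorem exact_cubes_top {V Q : Type} [Finite V] [Group Q] [Finite Q] (Γ : SimpleGraph V)
    (hps : Pseudo Γ) (hG : Gen Γ Set.univ) (π : RA Γ →* Q) (hs : Function.Surjective π)
    (hd : Deep Γ π) (M : Type) [AddCommGroup M] [Module ℚ M] :
    ExactAt {c | c ∈ cubes Γ π ∧ c ≠ ∅} M 5 := by
  have hc := hps.card_le
  intro f _
  have hex : ∀ q : Q, ∃ g : List (Finset Q) → M, ∀ l : List (Finset Q), IsCh l →
      (∀ x ∈ l, x ∈ {c | c ∈ cubes Γ π ∧ cube Γ π q ∅ < c}) → l.length = 4 →
      f (cube Γ π q ∅ :: l) = dl l g := by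
    intro q
    refine exact_cubes_vertex Γ hps hG π hs hd M q (fun l => f (cube Γ π q ∅ :: l)) ?_
    intro l hl hlS hlen
    have h1 : IsCh (cube Γ π q ∅ :: l) := List.pairwise_cons.2 ⟨fun x hx => (hlS x hx).2, hl⟩
    have h2 := cubes_chain_length Γ hps π hd q ∅ (by simp) l h1 fun c hc => (hlS c hc).1
    rw [hlen] at h2
    simp at h2
  choose g hg using hex
  let G : List (Finset Q) → M := fun l => match l with
    | [] => 0
    | c :: l => if h : ∃ q, c = {q} then - g h.choose l else 0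
  refine ⟨G, fun l hl hlS hlen => ?_⟩
  rcases l with _ | ⟨c, l⟩
  · simp at hlen
  rw [List.length_cons] at hlen
  have hlen4 : l.length = 4 := by omega
  obtain ⟨hc1, hc2⟩ := hlS c List.mem_cons_self
  rcases hc1 with rfl | ⟨q, T, hT, rfl⟩
  · exact absurd rfl hc2
  have h1 := cubes_chain_length Γ hps π hd q T hT l hl fun c hc =>
    (hlS c (List.mem_cons_of_mem _ hc)).1
  have hT0 : T = ∅ := by
    rw [← Finset.card_eq_zero]
    omega
  subst hT0
  have h2 := List.pairwise_cons.1 hl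
  have h3 := hg q l h2.2 (fun x hx => ⟨(hlS x (List.mem_cons_of_mem _ hx)).1, h2.1 x hx⟩) hlen4
  rw [h3, cx_dl_cons]
  have h4 : G l = 0 := by
    rcases l with _ | ⟨c, l⟩
    · rfl
    · have h5 := h2.1 c List.mem_cons_self
      change (if h : ∃ q, c = {q} then - g h.choose l else 0) = 0
      rw [dif_neg]
      rintro ⟨q', rfl⟩
      rw [cx_cube_empty] at h5
      have h6 := Finset.card_lt_card h5
      simp at h6
  have h5 : ∀ l' : List (Finset Q), G (cube Γ π q ∅ :: l') = - g q l' := by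
    intro l'
    have h6 : ∃ q', cube Γ π q ∅ = {q'} := ⟨q, cx_cube_empty q⟩
    change (if h : ∃ q', cube Γ π q ∅ = {q'} then - g h.choose l' else 0) = _
    rw [dif_pos h6]
    have h7 : q = h6.choose := Finset.singleton_injective ((cx_cube_empty q).symm.trans h6.choose_spec)
    rw [← h7]
  rw [h4, zero_sub]
  simp only [h5]
  rw [cx_dl_neg, neg_neg]

end Pool.Agent.RC84
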