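import Pool.Agent.RC84.Defs

/-!
# The nerve with 106 vertices: data and loops over bit masks (helper74)

`N` is a flag triangulation of the nonorientable sphere bundle over the circle with 106 vertices
(the 600-cell minus the open stars of two opposite vertices, the two boundary components glued by
the antipodal map).  `ADJ` holds the rows of the adjacency matrix, `LL` and `OO` the columns of
the colourings `lam`, `om`.
-/

set_option autoImplicit false

namespace Pool.Agent.RC84
namespace D74

/-- the adjacency matrix, rows of 112 bits -/
def ADJ : ℕ := 0x1030283020002000000002020200200c2830080002000000002022000430140302001000000000808200080c140300800100000000080a000103028c100008000000010101000200c28c0400008000000010110000430140c10004000000004041000080c140c0400040000000040500281030000000300020040280020028200c0000003000082000028200140430000000030002080028020014080c0000000300009000002a000281030000000c00101001400100028200c000000c0004080001410001404300000000c0012000140100014080c0000000c00044000015003028102000000000000c422002000c28200200000000000d0088020030140410000000000032000222000c14080100000000003080008a00030281080000000000308110010000c282008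00000000032004401000301404400000000000d0001110000c1408040000000000c40004500300020102830000000004220008030000820280c0000000200022080030002041430000000008110008003000088140c00000001000110800c001001028300000001008800400c0004020280c00000008000884000c001004143000000020044004000c000408140c00000004000444020000030102820300000020200800200000c2028083000000101008010000030041402030000002020800100000c08140083000000101080080000030102900c00000080804000800000c202840c0000004040400400000300414100c0000008084000400000c0814040c0000004044000000028301000200000c7000080000000280c2000020000d03000800000001430040010000320030080000000140c0800010003080030800000000283010008000308c000400000000280c200008003200c004000000001430040040000d000c0400000000140c080004000c4000c402030000020001030280002020020083000000200200c2800008080200203000010000430140001010020008300000100080c140000404020100c000008000103028000202010040c000000800200c280000808100100c000040000430140001010100040c00000400080c14000040410000000003020281030000700002000000000300828200c00200300200000000003021404300008c0002000000000030094080c001000c020000000000c100281030010300010000000000c04028200c0080030100000000000c10140430020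0c00100000000000c0414080c004000c10002000000000302810040e8000200002000000000c2820100d40002000100000000030140420300280200001000000000c14080830014020000800000000030281083028001000008000000000c2822030140010000400000000030140500c00281000004000000000c140840c00141000108f00000000000912b016800000060f000000000010a28d402800000930c000000000060570294000002070c00000000020494e80140000000910800f000000312846200000001086000f0000000e28891000000006090030c000003055108800000020604030c000000c9620440000000000000900108f2b100f000000000000001080060f28e030c000000000000006000930d704c03000000000000020402070d4cb000c0020202020202020202004440000000202020810200820101084000000082010020202100820050800000000820100810204081012080000001008202008100202020850000000010082080410008201209000000004081002008101008209200000000040810080410040812220000000201008102008201008222000000002010084100808100409200000000810040102009004082090000000008100404100840404085000000010040810080402010092080000000100408404040081004508000000040404010080410040908400000000404040404040404044440000003c3c3c000000000000000000000003c3c3c0000000000000000000000000003c3c3c000000000000000000000003c3c3c0000000000000000000000000003c3c3c000000000000000000000003c3c3c00000000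

/-- the bits of `lam`, 8 columns of 112 bits -/
def LL : ℕ := 0x23376257f499d696f6db5f3ff8202372f1d7ee66c2d46bbb143ced1039f374d501d3c7747bbfbf5dcae00311a443213e2e8948101b0d0420275b3ce9a70f6abb6ab31bfcf1303aa6c714b58af9bfa6eee472fcc000098c2acf99046608210be03f30237b7dfda75fe2b263bb1ffcf13

/-- the bits of `om`, 8 columns of 112 bits -/
def OO : ℕ := 0x3a5ebceb610744f66256bbcd1c0020cd1828d6a92076b0e5c3e1fb7021daaeeb71035576f6125bcf1cc01b088e2a590112e68484ebd3dc2024e243940852ce19ab8a0410c0a03a5aaeeb710354f6e616fbcf1c002198ac6bffa3657670f5f8fdff7005b3e7d7b7fceb094bbfdc2ce79

/-- `2 ^ 106 - 1` -/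
def MASK : ℕ := 0x3ffffffffffffffffffffffffff

/-- bit test -/
def tb (m v : ℕ) : Bool := Nat.beq (Nat.land (Nat.shiftRight m v) 1) 1

/-- the neighbours of `v` as a bit mask -/
def row (v : ℕ) : ℕ := Nat.land (Nat.shiftRight ADJ (Nat.mul 112 v)) MASK

/-- the vertices `v` with `lam v i = 1` -/
def Lm (i : ℕ) : ℕ := Nat.land (Nat.shiftRight LL (Nat.mul 112 i)) MASK

/-- the vertices `v` with `om v i = 1` -/
def Om (i : ℕ) : ℕ := Nat.land (Nat.shiftRight OO (Nat.mul 112 i)) MASK

/-- check `P` at all set bits of `m` (highest first), with fuel -/
def allB (P : ℕ → Bool) : ℕ → ℕ → Bool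
  | 0, m => Nat.beq m 0
  | f + 1, m => cond (Nat.beq m 0) true
      (cond (P (Nat.log2 m)) (allB P f (Nat.xor m (Nat.shiftLeft 1 (Nat.log2 m)))) false)

theorem tb_eq (m v : ℕ) : tb m v = m.testBit v := by
  rw [Nat.testBit_eq_decide_div_mod_eq, tb]
  have h1 : Nat.shiftRight m v = m / 2 ^ v := Nat.shiftRight_eq_div_pow m v
  have h2 : Nat.land (m / 2 ^ v) 1 = m / 2 ^ v % 2 := Nat.and_one_is_mod _
  rw [h1, h2, Bool.eq_iff_iff]
  simp

theorem tb_xor (m n v : ℕ) : tb (Nat.xor m n) v = (tb m v ^^ tb n v) := by
  rw [tb_eq, tb_eq, tb_eq]
  exact Nat.testBit_xor m n v

theorem tb_land (m n v : ℕ) : tb (Nat.land m n) v = (tb m v && tb n v) := by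
  rw [tb_eq, tb_eq, tb_eq]
  exact Nat.testBit_and m n v

theorem tb_zero (v : ℕ) : tb 0 v = false := by
  rw [tb_eq]; exact Nat.zero_testBit v

theorem tb_shl (u v : ℕ) : tb (Nat.shiftLeft 1 u) v = decide (u = v) := by
  rw [tb_eq]
  have : Nat.shiftLeft 1 u = 2 ^ u := by
    change 1 <<< u = 2 ^ u
    rw [Nat.shiftLeft_eq, one_mul]
  rw [this, Nat.testBit_two_pow]

theorem allB_sound {P : ℕ → Bool} {f : ℕ} : ∀ {m : ℕ}, allB P f m = true → ∀ v : ℕ,
    tb m v = true → P v = true := by
  induction f with
  | zero =>
    intro m h v hv
    have h1 : m = 0 := Nat.eq_of_beq_eq_true h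
    rw [h1, tb_zero] at hv
    exact absurd hv (by simp)
  | succ f ih =>
    intro m h v hv
    rw [allB] at h
    by_cases h0 : Nat.beq m 0 = true
    · have h1 : m = 0 := Nat.eq_of_beq_eq_true h0
      rw [h1, tb_zero] at hv
      exact absurd hv (by simp)
    · rw [Bool.not_eq_true] at h0
      rw [h0, cond_false] at h
      by_cases h2 : P (Nat.log2 m) = true
      · rw [h2, cond_true] at h
        by_cases h3 : Nat.log2 m = v
        · rw [← h3]; exact h2
        · refine ih h v ?_
          rw [tb_xor, hv, tb_shl]
          simp [h3]
      · rw [Bool.not_eq_true] at h2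
        rw [h2, cond_false] at h
        exact absurd h (by simp)

theorem MASK_eq : MASK = 2 ^ 106 - 1 := by decide +kernel

theorem tb_MASK {v : ℕ} (hv : v < 106) : tb MASK v = true := by
  rw [tb_eq, MASK_eq, Nat.testBit_two_pow_sub_one]
  simpa using hv

theorem lt_of_tb_row {u v : ℕ} (h : tb (row u) v = true) : v < 106 := by
  rw [row, tb_land] at h
  rw [Bool.and_eq_true] at h
  have h := h.2
  rw [tb_eq, MASK_eq, Nat.testBit_two_pow_sub_one] at h
  simpa using h

/-- check `P` at all vertices -/
theorem allV_sound {P : ℕ → Bool} {f : ℕ} (h : allB P f MASK = true) {v : ℕ} (hv : v < 106) :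
    P v = true :=
  allB_sound h v (tb_MASK hv)

theorem sym_check : allB (fun u => cond (tb (row u) u) false
    (allB (fun v => tb (row v) u) 106 (row u))) 106 MASK = true := by decide +kernel

/-- the graph with 106 vertices -/
def Gam : SimpleGraph (Fin 106) where
  Adj a b := tb (row a) b = true
  symm := ⟨by
    intro a b h
    have h1 := allV_sound sym_check a.2
    cases h2 : tb (row a) a
    · rw [h2, cond_false] at h1
      exact allB_sound h1 b h
    · rw [h2, cond_true] at h1
      exact absurd h1 (by simp)⟩
  loopless := ⟨by
    intro a h
    have h1 := allV_sound sym_check a.2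
    rw [h, cond_true] at h1
    exact absurd h1 (by simp)⟩

theorem adj_iff (a b : Fin 106) : Gam.Adj a b ↔ tb (row a) b = true := Iff.rfl

/-- the colouring -/
def lam (v : Fin 106) (i : Fin 8) : ZMod 2 := if tb (Lm i) v = true then 1 else 0

/-- the dual colouring -/
def om (v : Fin 106) (i : Fin 8) : ZMod 2 := if tb (Om i) v = true then 1 else 0

/-- exclusive or of `f i && g i`, `i < 8` -/
def dotB (f g : ℕ → Bool) : Bool :=
  Bool.xor (Bool.xor (Bool.xor (Bool.xor (Bool.xor (Bool.xor (Bool.xor (f 0 && g 0) (f 1 && g 1))
    (f 2 && g 2)) (f 3 && g 3)) (f 4 && g 4)) (f 5 && g 5)) (f 6 && g 6)) (f 7 && g 7)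

theorem bz_mul (a b : Bool) : (if a = true then (1 : ZMod 2) else 0) *
    (if b = true then 1 else 0) = if (a && b) = true then 1 else 0 := by
  cases a <;> cases b <;> simp

theorem bz_add (a b : Bool) : (if a = true then (1 : ZMod 2) else 0) +
    (if b = true then 1 else 0) = if Bool.xor a b = true then 1 else 0 := by
  cases a <;> cases b <;> decide

theorem dot_eq (f g : ℕ → Bool) : (fun i : Fin 8 => if f i = true then (1 : ZMod 2) else 0) ⬝ᵥ
    (fun i : Fin 8 => if g i = true then (1 : ZMod 2) else 0) =
    if dotB f g = true then 1 else 0 := by
  simp only [dotProduct, Fin.sum_univ_eight, bz_mul, bz_add]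
  rfl

theorem om_dot_lam (u v : Fin 106) : om v ⬝ᵥ lam u =
    if dotB (fun i => tb (Om i) v) (fun i => tb (Lm i) u) = true then 1 else 0 :=
  dot_eq (fun i => tb (Om i) v) (fun i => tb (Lm i) u)

end D74
end Pool.Agent.RC84
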