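import Mathlib

/-!
# Definitions for MP_8085d2_al (rational versus integral cohomological dimension, helper84)

Chains as lists, the alternating coboundary `dl`, exactness predicates; right-angled Coxeter
groups `RA Γ`; coset posets `CP Γ 𝒞`; thickenings.
-/

set_option autoImplicit false

namespace Pool.Agent.RC84

open scoped Classical

/-! ## Chains as lists -/

/-- strict chains in a preorder, as lists -/
def IsCh {α : Type} [Preorder α] (l : List α) : Prop := l.Pairwise (· < ·)

/-- the (augmented) alternating coboundary of `f`, evaluated at the list `l`: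
`dl [x₀,…,xₙ] f = ∑ (-1)^i f [x₀,…,x̂ᵢ,…,xₙ]` -/
def dl {α V : Type} [AddCommGroup V] : List α → (List α → V) → V
  | [], _ => 0
  | x :: l, f => f l - dl l (fun l' => f (x :: l'))

/-- exactness at lists of length `n` of the cochain complex of functions on strict chains of
elements of `S` -/
def ExactAt {α : Type} [Preorder α] (S : Set α) (V : Type) [AddCommGroup V] (n : ℕ) : Prop :=
  ∀ f : List α → V,
    (∀ l : List α, IsCh l → (∀ x ∈ l, x ∈ S) → l.length = n + 1 → dl l f = 0) →
    ∃ g : List α → V, ∀ l : List α, IsCh l → (∀ x ∈ l, x ∈ S) → l.length = n → f l = dl l g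

/-- the (augmented) boundary of a list -/
noncomputable def bd {α : Type} (k : Type) [CommRing k] : List α → (List α →₀ k)
  | [] => 0
  | x :: l => Finsupp.single l 1 - Finsupp.mapDomain (List.cons x) (bd k l)

/-- acyclicity (augmented) of the complex of strict chains of `α` with coefficients `k` -/
def Acyclic (k : Type) [CommRing k] (α : Type) [Preorder α] : Prop :=
  ∀ (n : ℕ) (z : List α →₀ k), (∀ l ∈ z.support, IsCh l ∧ l.length = n) →
    Finsupp.linearCombination k (bd k) z = 0 →
    ∃ y : List α →₀ k, (∀ l ∈ y.support, IsCh l ∧ l.length = n + 1) ∧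
      Finsupp.linearCombination k (bd k) y = z

/-! ## Right-angled Coxeter groups -/

section RA

variable {V : Type}

/-- the right-angled Coxeter matrix of a graph -/
noncomputable def raMat (Γ : SimpleGraph V) : CoxeterMatrix V where
  M := Matrix.of fun s t => if s = t then 1 else if Γ.Adj s t then 2 else 0
  isSymm := by
    ext s t
    simp only [Matrix.transpose_apply, Matrix.of_apply, eq_comm (a := s) (b := t), Γ.adj_comm s t]
  diagonal := by intro s; simp
  off_diagonal := by
    intro s t h
    simp only [Matrix.of_apply, h, if_false]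
    split_ifs <;> simp

/-- the right-angled Coxeter group of a graph -/
abbrev RA (Γ : SimpleGraph V) : Type := (raMat Γ).Group

/-- the Coxeter system -/
noncomputable abbrev rcs (Γ : SimpleGraph V) : CoxeterSystem (raMat Γ) (RA Γ) :=
  (raMat Γ).toCoxeterSystem

/-- the generators -/
noncomputable def gen (Γ : SimpleGraph V) (s : V) : RA Γ := (rcs Γ).simple s

/-- word length -/
noncomputable def len (Γ : SimpleGraph V) (w : RA Γ) : ℕ := (rcs Γ).length w

/-- product of the generators in a finite set (used for cliques) -/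
noncomputable def pr (Γ : SimpleGraph V) (T : Finset V) : RA Γ := (T.toList.map (gen Γ)).prod

/-- the coset `w W_T` for a clique `T` -/
def cos (Γ : SimpleGraph V) (w : RA Γ) (T : Finset V) : Set (RA Γ) :=
  {u | ∃ A ⊆ T, u = w * pr Γ A}

/-- no induced squares -/
def NoSquare (Γ : SimpleGraph V) : Prop :=
  ∀ a b c d : V, Γ.Adj a b → Γ.Adj b c → Γ.Adj c d → Γ.Adj d a → a ≠ c → b ≠ d →
    Γ.Adj a c ∨ Γ.Adj b d

/-- the poset of cosets `w W_T`, `T ∈ 𝒞` -/
def CP (Γ : SimpleGraph V) (𝒞 : Set (Finset V)) : Type :=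
  {x : Set (RA Γ) // ∃ w : RA Γ, ∃ T ∈ 𝒞, x = cos Γ w T}

instance (Γ : SimpleGraph V) (𝒞 : Set (Finset V)) : PartialOrder (CP Γ 𝒞) :=
  inferInstanceAs (PartialOrder {x : Set (RA Γ) // ∃ w : RA Γ, ∃ T ∈ 𝒞, x = cos Γ w T})

theorem image_cos (Γ : SimpleGraph V) (g w : RA Γ) (T : Finset V) :
    (fun u => g * u) '' cos Γ w T = cos Γ (g * w) T := by
  ext u
  constructor
  · rintro ⟨v, ⟨A, hA, rfl⟩, rfl⟩
    exact ⟨A, hA, by simp [mul_assoc]⟩
  · rintro ⟨A, hA, rfl⟩
    exact ⟨w * pr Γ A, ⟨A, hA, rfl⟩, by simp [mul_assoc]⟩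

noncomputable instance (Γ : SimpleGraph V) (𝒞 : Set (Finset V)) : MulAction (RA Γ) (CP Γ 𝒞) where
  smul g x := ⟨(fun u => g * u) '' x.1, by
    obtain ⟨w, T, hT, hx⟩ := x.2
    exact ⟨g * w, T, hT, by rw [hx, image_cos]⟩⟩
  one_smul x := by
    apply Subtype.ext
    change (fun u => 1 * u) '' x.1 = x.1
    simp
  mul_smul g h x := by
    apply Subtype.ext
    change (fun u => g * h * u) '' x.1 = (fun u => g * u) '' ((fun u => h * u) '' x.1)
    rw [Set.image_image]
    simp [mul_assoc]

theorem CP.smul_val {Γ : SimpleGraph V} {𝒞 : Set (Finset V)} (g : RA Γ) (x : CP Γ 𝒞) :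
    (g • x).1 = (fun u => g * u) '' x.1 := rfl

/-- the abelianisation `W → (ℤ/2)^V` -/
noncomputable def ab (Γ : SimpleGraph V) : RA Γ →* Multiplicative (V → ZMod 2) :=
  (rcs Γ).lift ⟨fun s => Multiplicative.ofAdd (Pi.single s 1), by
    intro s t
    have key : ∀ x : Multiplicative (V → ZMod 2), x * x = 1 := by
      intro x
      apply Multiplicative.toAdd.injective
      ext v
      exact CharTwo.add_self_eq_zero _
    by_cases h : s = t
    · subst h
      simp [raMat, key]
    · by_cases h' : Γ.Adj s t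
      · simp [raMat, h, h', pow_two, key]
      · simp [raMat, h, h']⟩

theorem ab_gen (Γ : SimpleGraph V) (s : V) :
    ab Γ (gen Γ s) = Multiplicative.ofAdd (Pi.single s 1) :=
  (rcs Γ).lift_apply_simple _ s

end RA

/-! ## Thickenings -/

section Thick

variable {V Q : Type} [Group Q] (Γ : SimpleGraph V) (π : RA Γ →* Q)

/-- the cube `q Q_T` as a finite subset of `Q` -/
noncomputable def cube (q : Q) (T : Finset V) : Finset Q :=
  T.powerset.image (fun A => q * π (pr Γ A))

/-- the family consisting of `∅` and all cubes -/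
def cubes : Set (Finset Q) := {c | c = ∅ ∨ ∃ (q : Q) (T : Finset V), Γ.IsClique (T : Set V) ∧
  c = cube Γ π q T}

/-- the thickened graph: two elements of `Q` are adjacent if they lie in a common cube -/
def thick : SimpleGraph Q where
  Adj q q' := q ≠ q' ∧ ∃ (x : Q) (T : Finset V), Γ.IsClique (T : Set V) ∧
    q ∈ cube Γ π x T ∧ q' ∈ cube Γ π x T
  symm := ⟨by
    rintro q q' ⟨h, x, T, hT, h1, h2⟩
    exact ⟨h.symm, x, T, hT, h2, h1⟩⟩
  loopless := by
    constructor
    rintro q ⟨h, -⟩
    exact h rfl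

end Thick

/-! ## Flag complexes of dimension three -/

section Nerve

variable {V : Type}

/-- ordered tetrahedra (4-cliques) -/
def Tet (Γ : SimpleGraph V) (a b c d : V) : Prop :=
  Γ.Adj a b ∧ Γ.Adj a c ∧ Γ.Adj a d ∧ Γ.Adj b c ∧ Γ.Adj b d ∧ Γ.Adj c d

/-- the nonempty finite cliques -/
def Clq (Γ : SimpleGraph V) : Set (Finset V) := {T | T ≠ ∅ ∧ Γ.IsClique (T : Set V)}

/-- every component of `N_B` is nonorientable, in the form used: an alternating function on the
flags starting at vertices of `B` vanishes -/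
def Gen (Γ : SimpleGraph V) (B : Set V) : Prop :=
  ∀ (U : Type) [AddCommGroup U], (∀ u : U, u + u = 0 → u = 0) → ∀ Λ : V → V → V → V → U,
    (∀ a b c d, Tet Γ a b c d → a ∈ B → b ∈ B → Λ b a c d = - Λ a b c d) →
    (∀ a b c d, Tet Γ a b c d → a ∈ B → Λ a c b d = - Λ a b c d) →
    (∀ a b c d, Tet Γ a b c d → a ∈ B → Λ a b d c = - Λ a b c d) →
    (∀ a b c d d', Tet Γ a b c d → Tet Γ a b c d' → d ≠ d' → a ∈ B →
      Λ a b c d' = - Λ a b c d) →
    ∀ a b c d, Tet Γ a b c d → a ∈ B → Λ a b c d = 0

/-- pseudomanifold condition: every triangle lies in exactly two tetrahedra, no 5-cliques -/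
structure Pseudo (Γ : SimpleGraph V) : Prop where
  card_le : ∀ T : Finset V, Γ.IsClique (T : Set V) → T.card ≤ 4
  two : ∀ a b c d, Tet Γ a b c d → ∃ d', d' ≠ d ∧ Tet Γ a b c d' ∧
    ∀ x, Tet Γ a b c x → x = d ∨ x = d'
  ne : ∃ a b c d, Tet Γ a b c d

/-- exactness at triangles of the simplicial cochain complex of the flag complex of `Γ`
(cochains are functions on strictly increasing lists of vertices) -/
def ExN [LinearOrder V] (Γ : SimpleGraph V) (F : Type) [AddCommGroup F] : Prop :=
  ∀ f : List V → F,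
    (∀ l : List V, l.Pairwise (· < ·) → l.Pairwise Γ.Adj → l.length = 4 → dl l f = 0) →
    ∃ g : List V → F, ∀ l : List V, l.Pairwise (· < ·) → l.Pairwise Γ.Adj → l.length = 3 →
      f l = dl l g

/-- exactness in degree 3 of the complex of functions on chains of cliques (including `∅`) whose
value at `T₀ < T₁ < …` is invariant under the operators `act s`, `s ∈ T₀` -/
def Ex3 (Γ : SimpleGraph V) (M : Type) [AddCommGroup M] (act : V → M → M) : Prop :=
  ∀ φ : List (Finset V) → M,
    (∀ (T : Finset V) (l : List (Finset V)), IsCh (T :: l) →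
      (∀ x ∈ T :: l, Γ.IsClique (x : Set V)) → (T :: l).length = 4 →
      ∀ s ∈ T, act s (φ (T :: l)) = φ (T :: l)) →
    (∀ l : List (Finset V), IsCh l → (∀ x ∈ l, Γ.IsClique (x : Set V)) → l.length = 5 →
      dl l φ = 0) →
    ∃ ψ : List (Finset V) → M,
      (∀ (T : Finset V) (l : List (Finset V)), IsCh (T :: l) →
        (∀ x ∈ T :: l, Γ.IsClique (x : Set V)) → (T :: l).length = 3 →
        ∀ s ∈ T, act s (ψ (T :: l)) = ψ (T :: l)) ∧
      ∀ l : List (Finset V), IsCh l → (∀ x ∈ l, Γ.IsClique (x : Set V)) → l.length = 4 →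
        φ l = dl l ψ

/-- the sign action: `s` acts by `+1` if `s ∈ B`, by `-1` otherwise -/
noncomputable def sgnAct (B : Set V) (M : Type) [AddCommGroup M] : V → M → M :=
  fun s m => if s ∈ B then m else - m

end Nerve

end Pool.Agent.RC84
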