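import Pool.Agent.RC84.Defs

/-!
# P13: dévissage of a finite module over `ZMod 3` (MP_8085d2_al)
-/

set_option autoImplicit false

namespace Pool.Agent.RC84

open scoped Classical

namespace Devissage

/-! ### generalities on `dl` -/

theorem dl_congr {α V : Type} [AddCommGroup V] : ∀ (l : List α) (f g : List α → V),
    (∀ l' : List α, l'.Sublist l → l'.length + 1 = l.length → f l' = g l') → dl l f = dl l g
  | [], _, _, _ => rfl
  | x :: l, f, g, h => by
    simp only [dl]
    rw [h l (List.sublist_cons_self x l) (by simp),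
      dl_congr l (fun l' => f (x :: l')) (fun l' => g (x :: l'))]
    intro l' hl' hlen
    exact h (x :: l') (hl'.cons_cons x) (by simp only [List.length_cons]; omega)

theorem dl_map {α V W : Type} [AddCommGroup V] [AddCommGroup W] (F : V →+ W) :
    ∀ (l : List α) (f : List α → V), dl l (fun l' => F (f l')) = F (dl l f)
  | [], _ => by simp [dl]
  | x :: l, f => by
    simp only [dl]
    rw [dl_map F l (fun l' => f (x :: l')), map_sub]

theorem dl_sub {α V : Type} [AddCommGroup V] :
    ∀ (l : List α) (f g : List α → V), dl l (fun l' => f l' - g l') = dl l f - dl l g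
  | [], _, _ => by simp [dl]
  | x :: l, f, g => by
    simp only [dl]
    rw [dl_sub l (fun l' => f (x :: l')) (fun l' => g (x :: l'))]
    abel

theorem dl_add {α V : Type} [AddCommGroup V] :
    ∀ (l : List α) (f g : List α → V), dl l (fun l' => f l' + g l') = dl l f + dl l g
  | [], _, _ => by simp [dl]
  | x :: l, f, g => by
    simp only [dl]
    rw [dl_add l (fun l' => f (x :: l')) (fun l' => g (x :: l'))]
    abel

theorem dl_dl {α V : Type} [AddCommGroup V] :
    ∀ (l : List α) (f : List α → V), dl l (fun l' => dl l' f) = 0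
  | [], _ => rfl
  | x :: l, f => by
    simp only [dl]
    rw [dl_sub l f (fun l' => dl l' (fun l'' => f (x :: l''))),
      dl_dl l (fun l' => f (x :: l'))]
    simp

/-! ### elementary facts on generators -/

theorem gen_mul_self {V : Type} (Γ : SimpleGraph V) (s : V) : gen Γ s * gen Γ s = 1 :=
  (rcs Γ).simple_mul_simple_self s

theorem gen_inv {V : Type} (Γ : SimpleGraph V) (s : V) : (gen Γ s)⁻¹ = gen Γ s :=
  inv_eq_of_mul_eq_one_right (gen_mul_self Γ s)

theorem gen_comm {V : Type} (Γ : SimpleGraph V) {s t : V} (h : Γ.Adj s t) :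
    gen Γ s * gen Γ t = gen Γ t * gen Γ s := by
  have h1 := (rcs Γ).simple_mul_simple_pow s t
  have h2 : (raMat Γ) s t = 2 := by
    simp [raMat, h.ne, h]
  rw [h2, pow_two] at h1
  have e1 : gen Γ s * gen Γ t * (gen Γ s * gen Γ t) = 1 := h1
  have e2 := eq_inv_of_mul_eq_one_left e1
  rw [mul_inv_rev, gen_inv, gen_inv] at e2
  exact e2

/-- chains of cliques of a given length -/
def Good {V : Type} (Γ : SimpleGraph V) (n : ℕ) (l : List (Finset V)) : Prop :=
  IsCh l ∧ (∀ x ∈ l, Γ.IsClique (x : Set V)) ∧ l.length = n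

theorem Good.sub {V : Type} {Γ : SimpleGraph V} {n : ℕ} {l l' : List (Finset V)}
    (h : Good Γ (n + 1) l) (hs : l'.Sublist l) (hlen : l'.length + 1 = l.length) :
    Good Γ n l' := by
  refine ⟨h.1.sublist hs, fun x hx => h.2.1 x (hs.subset hx), ?_⟩
  have := h.2.2
  omega

/-- the head of a long sublist contains the head of the list -/
theorem head_mem {V : Type} {Γ : SimpleGraph V} {n : ℕ} {T : Finset V} {l l' : List (Finset V)}
    (h : Good Γ (n + 2) (T :: l)) (hs : l'.Sublist (T :: l))
    (hlen : l'.length + 1 = (T :: l).length) {s : V} (hsT : s ∈ T) :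
    ∃ T' l'', l' = T' :: l'' ∧ s ∈ T' := by
  have hne : l' ≠ [] := by
    intro h0
    have := h.2.2
    rw [h0] at hlen
    simp only [List.length_nil] at hlen
    omega
  obtain ⟨T', l'', rfl⟩ := List.exists_cons_of_ne_nil hne
  refine ⟨T', l'', rfl, ?_⟩
  have hT' : T' ∈ T :: l := hs.subset (List.mem_cons_self)
  rcases List.mem_cons.1 hT' with rfl | hT'
  · exact hsT
  · have h1 := (List.pairwise_cons.1 h.1).1 T' hT'
    exact h1.le hsT

theorem ext_step {V Q M : Type} (Γ : SimpleGraph V) [Group Q] (π : RA Γ →* Q)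
    [AddCommGroup M] [Module (ZMod 3) M] (ρ : Representation (ZMod 3) Q M)
    (m : M) (hm : m ≠ 0) (B : Set V) (hmB : ∀ s, ρ (π (gen Γ s)) m = if s ∈ B then m else -m)
    (hN : ∀ q, Submodule.span (ZMod 3) {m} ≤ (Submodule.span (ZMod 3) {m}).comap (ρ q))
    (hB : Ex3 Γ (ZMod 3) (sgnAct B (ZMod 3)))
    (hq : Ex3 Γ (M ⧸ Submodule.span (ZMod 3) {m})
      (fun s x => ρ.quotient _ hN (π (gen Γ s)) x)) :
    Ex3 Γ M (fun s x => ρ (π (gen Γ s)) x) := by
  intro φ hinv hcoc
  set N := Submodule.span (ZMod 3) {m} with hNdef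
  have four : (2 : ZMod 3) * 2 = 1 := by decide
  obtain ⟨ψq, hqinv, hψq⟩ := hq (fun l => N.mkQ (φ l)) (by
    intro T l hl hc hlen s hs
    have := hinv T l hl hc hlen s hs
    simp only at this
    show (N.mapQ N (ρ (π (gen Γ s))) (hN _)) (N.mkQ (φ (T :: l))) = N.mkQ (φ (T :: l))
    rw [Submodule.mkQ_apply, Submodule.mapQ_apply, this]) (by
    intro l hl hc hlen
    have h1 := dl_map N.mkQ.toAddMonoidHom l φ
    have h2 : dl l (fun l' => N.mkQ (φ l')) = N.mkQ (dl l φ) := h1
    rw [h2, hcoc l hl hc hlen, map_zero])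
  -- lifting invariants
  have hlift : ∀ T : Finset V, Γ.IsClique (T : Set V) → ∀ y : M,
      (∀ s ∈ T, ρ.quotient N hN (π (gen Γ s)) (N.mkQ y) = N.mkQ y) →
      ∃ y', N.mkQ y' = N.mkQ y ∧ ∀ s ∈ T, ρ (π (gen Γ s)) y' = y' := by
    intro T
    induction T using Finset.induction_on with
    | empty => intro _ y _; exact ⟨y, rfl, by simp⟩
    | insert t T ht ih =>
      intro hT y hy
      have hT' : Γ.IsClique (T : Set V) := hT.subset (by simp)
      obtain ⟨y1, h1, h2⟩ := ih hT' y (fun s hs => hy s (Finset.mem_insert_of_mem hs))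
      refine ⟨(2 : ZMod 3) • (y1 + ρ (π (gen Γ t)) y1), ?_, ?_⟩
      · have h3 := hy t (Finset.mem_insert_self _ _)
        have h4 : N.mkQ (ρ (π (gen Γ t)) y1) = N.mkQ y := by
          rw [← h3, ← h1]
          rfl
        rw [map_smul, map_add, h4, h1, ← two_smul (ZMod 3) (N.mkQ y), smul_smul, four, one_smul]
      · intro s hs
        rw [map_smul, map_add]
        rcases Finset.mem_insert.1 hs with rfl | hs
        · have h5 : ρ (π (gen Γ s)) (ρ (π (gen Γ s)) y1) = y1 := by
            rw [← Module.End.mul_apply, ← map_mul, ← map_mul, gen_mul_self, map_one, map_one]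
            rfl
          rw [h5, add_comm]
        · have hst : s ≠ t := fun h => ht (h ▸ hs)
          have hadj : Γ.Adj s t := hT (by simp [hs]) (by simp) hst
          have h5 : ρ (π (gen Γ s)) (ρ (π (gen Γ t)) y1) = ρ (π (gen Γ t)) y1 := by
            rw [← Module.End.mul_apply, ← map_mul, ← map_mul, gen_comm Γ hadj, map_mul, map_mul,
              Module.End.mul_apply, h2 s hs]
          rw [h5, h2 s hs]
  have hψ : ∀ l : List (Finset V), ∃ y : M, N.mkQ y = ψq l ∧
      ∀ T l', l = T :: l' → Good Γ 3 l → ∀ s ∈ T, ρ (π (gen Γ s)) y = y := by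
    intro l
    obtain ⟨y0, hy0⟩ := N.mkQ_surjective (ψq l)
    by_cases hg : Good Γ 3 l
    · obtain ⟨T, l', rfl⟩ : ∃ T l', l = T :: l' := by
        apply List.exists_cons_of_ne_nil
        intro h0
        have := hg.2.2
        rw [h0] at this
        simp at this
      obtain ⟨y', h1, h2⟩ := hlift T (hg.2.1 T (by simp)) y0 (by
        intro s hs
        rw [hy0]
        exact hqinv T l' hg.1 hg.2.1 hg.2.2 s hs)
      refine ⟨y', h1.trans hy0, ?_⟩
      intro T1 l1 h3 _
      obtain ⟨rfl, -⟩ := List.cons.inj h3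
      exact h2
    · exact ⟨y0, hy0, fun _ _ _ h => absurd h hg⟩
  choose ψ hψ1 hψ2 using hψ
  have hdlψ : ∀ T l, Good Γ 4 (T :: l) → ∀ s ∈ T,
      ρ (π (gen Γ s)) (dl (T :: l) ψ) = dl (T :: l) ψ := by
    intro T l hg s hs
    have h1 := dl_map (ρ (π (gen Γ s))).toAddMonoidHom (T :: l) ψ
    have h2 : dl (T :: l) (fun l' => ρ (π (gen Γ s)) (ψ l')) = ρ (π (gen Γ s)) (dl (T :: l) ψ) := h1
    rw [← h2]
    apply dl_congr
    intro l' hl' hlen
    obtain ⟨T', l'', rfl, hsT'⟩ := head_mem hg hl' hlen hs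
    exact hψ2 _ T' l'' rfl (hg.sub hl' hlen) s hsT'
  have h1 : ∀ l, Good Γ 4 l → φ l - dl l ψ ∈ N := by
    intro l hg
    rw [← Submodule.Quotient.mk_eq_zero, ← Submodule.mkQ_apply, map_sub]
    have h2 : dl l (fun l' => N.mkQ (ψ l')) = N.mkQ (dl l ψ) :=
      dl_map N.mkQ.toAddMonoidHom l ψ
    rw [← h2, funext hψ1, ← hψq l hg.1 hg.2.1 hg.2.2, sub_self]
  have h3 : ∀ l, ∃ c : ZMod 3, Good Γ 4 l → c • m = φ l - dl l ψ := by
    intro l
    by_cases hg : Good Γ 4 l
    · obtain ⟨c, hc⟩ := Submodule.mem_span_singleton.1 (h1 l hg)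
      exact ⟨c, fun _ => hc⟩
    · exact ⟨0, fun h => absurd h hg⟩
  choose φN hφN using h3
  have hinj : ∀ c c' : ZMod 3, c • m = c' • m → c = c' := fun c c' h =>
    smul_left_injective (ZMod 3) hm h
  obtain ⟨ψN, hNinv, hψN⟩ := hB φN (by
    intro T l hl hc hlen s hs
    have hg : Good Γ 4 (T :: l) := ⟨hl, hc, hlen⟩
    have h4 : ρ (π (gen Γ s)) (φ (T :: l) - dl (T :: l) ψ) = φ (T :: l) - dl (T :: l) ψ := by
      rw [map_sub, hdlψ T l hg s hs]
      congr 1
      exact hinv T l hl hc hlen s hs
    rw [← hφN _ hg, map_smul, hmB] at h4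
    unfold sgnAct
    split_ifs at h4 ⊢ with hsB
    · rfl
    · apply hinj
      rw [neg_smul, ← smul_neg, h4]) (by
    intro l hl hc hlen
    have hg : Good Γ 5 l := ⟨hl, hc, hlen⟩
    apply hinj
    rw [zero_smul]
    have h4 : dl l (fun l' => φN l' • m) = dl l φN • m :=
      dl_map (LinearMap.toSpanSingleton (ZMod 3) M m).toAddMonoidHom l φN
    rw [← h4, dl_congr l (fun l' => φN l' • m) (fun l' => φ l' - dl l' ψ)
      (fun l' h5 h6 => hφN l' (hg.sub h5 h6)), dl_sub, dl_dl, sub_zero]
    exact hcoc l hl hc hlen)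
  refine ⟨fun l => ψ l + ψN l • m, ?_, ?_⟩
  · intro T l hl hc hlen s hs
    have hg : Good Γ 3 (T :: l) := ⟨hl, hc, hlen⟩
    have h4 := hNinv T l hl hc hlen s hs
    show ρ (π (gen Γ s)) (ψ (T :: l) + ψN (T :: l) • m) = ψ (T :: l) + ψN (T :: l) • m
    rw [map_add, map_smul, hmB, hψ2 _ T l rfl hg s hs]
    congr 1
    unfold sgnAct at h4
    split_ifs at h4 ⊢ with hsB
    · rfl
    · rw [smul_neg, ← neg_smul, h4]
  · intro l hl hc hlen
    have hg : Good Γ 4 l := ⟨hl, hc, hlen⟩
    have h4 : dl l (fun l' => ψN l' • m) = dl l ψN • m :=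
      dl_map (LinearMap.toSpanSingleton (ZMod 3) M m).toAddMonoidHom l ψN
    rw [dl_add, h4, ← hψN l hl hc hlen, hφN l hg]
    abel

/-! ### common eigenvectors -/

theorem exists_fixed {Q M : Type} [Group Q] [AddCommGroup M] [Module (ZMod 3) M] [Finite M]
    [Nontrivial M] (ρ : Representation (ZMod 3) Q M) (K : Subgroup Q) (hK : IsPGroup 3 K) :
    ∃ m : M, m ≠ 0 ∧ ∀ k ∈ K, ρ k m = m := by
  let _ : MulAction K M :=
    { smul := fun k m => ρ k m
      one_smul := fun m => by
        show ρ ((1 : K) : Q) m = m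
        simp
      mul_smul := fun k k' m => by
        show ρ ((k * k' : K) : Q) m = ρ k (ρ k' m)
        simp }
  have hsm : ∀ (k : K) (m : M), k • m = ρ k m := fun _ _ => rfl
  have : Fact (Nat.Prime 3) := ⟨by norm_num⟩
  have hdvd : 3 ∣ Nat.card M := by
    obtain ⟨x, hx⟩ := exists_ne (0 : M)
    have h1 : addOrderOf x = 3 := by
      apply addOrderOf_eq_prime _ hx
      have : ((3 : ℕ) : ZMod 3) • x = 3 • x := Nat.cast_smul_eq_nsmul (ZMod 3) 3 x
      rw [← this]
      have h3 : ((3 : ℕ) : ZMod 3) = 0 := ZMod.natCast_self 3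
      rw [h3, zero_smul]
    rw [← h1]
    exact addOrderOf_dvd_natCard x
  have h0 : (0 : M) ∈ MulAction.fixedPoints K M := by
    intro k
    rw [hsm, map_zero]
  obtain ⟨b, hb, hb0⟩ := hK.exists_fixed_point_of_prime_dvd_card_of_fixed_point M hdvd h0
  exact ⟨b, fun h => hb0 h.symm, fun k hk => hb ⟨k, hk⟩⟩

theorem exists_eigen {ι Q M : Type} [Group Q] [Finite Q] [AddCommGroup M] [Module (ZMod 3) M]
    [Finite M] [Nontrivial M] (ρ : Representation (ZMod 3) Q M)
    (χ : Q →* Multiplicative (ι → ZMod 2)) (hp : IsPGroup 3 χ.ker) :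
    ∃ m : M, m ≠ 0 ∧ (∀ k ∈ χ.ker, ρ k m = m) ∧ ∀ q, ρ q m = m ∨ ρ q m = -m := by
  have := Fintype.ofFinite Q
  suffices H : ∀ F : Finset Q, ∃ m : M, m ≠ 0 ∧ (∀ k ∈ χ.ker, ρ k m = m) ∧
      ∀ q ∈ F, ρ q m = m ∨ ρ q m = -m by
    obtain ⟨m, h1, h2, h3⟩ := H Finset.univ
    exact ⟨m, h1, h2, fun q => h3 q (Finset.mem_univ _)⟩
  intro F
  induction F using Finset.induction_on with
  | empty =>
    obtain ⟨m, h1, h2⟩ := exists_fixed ρ χ.ker hp
    exact ⟨m, h1, h2, by simp⟩
  | insert t F ht ih =>
    obtain ⟨m, h1, h2, h3⟩ := ih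
    have hmul : ∀ (q q' : Q) (x : M), ρ q (ρ q' x) = ρ (q * q') x := by
      intro q q' x
      rw [map_mul, Module.End.mul_apply]
    -- commutation on fixed vectors
    have hcomm : ∀ (q q' : Q), χ q = χ q' → ρ q m = ρ q' m := by
      intro q q' h
      have h4 : q'⁻¹ * q ∈ χ.ker := by
        rw [MonoidHom.mem_ker, map_mul, map_inv, h, inv_mul_cancel]
      have h5 := h2 _ h4
      calc ρ q m = ρ (q' * (q'⁻¹ * q)) m := by rw [mul_inv_cancel_left]
        _ = ρ q' m := by rw [← hmul, h5]
    have hsq : ∀ x : Multiplicative (ι → ZMod 2), x * x = 1 := by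
      intro x
      apply Multiplicative.toAdd.injective
      ext v
      exact CharTwo.add_self_eq_zero _
    by_cases h0 : m + ρ t m = 0
    · refine ⟨m, h1, h2, ?_⟩
      intro q hq
      rcases Finset.mem_insert.1 hq with rfl | hq
      · right
        exact (neg_eq_of_add_eq_zero_right h0).symm
      · exact h3 q hq
    · refine ⟨m + ρ t m, h0, ?_, ?_⟩
      · intro k hk
        rw [map_add, h2 k hk, hmul, hcomm (k * t) t]
        rw [map_mul, MonoidHom.mem_ker.1 hk, one_mul]
      · intro q hq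
        rcases Finset.mem_insert.1 hq with rfl | hq
        · left
          rw [map_add, hmul, hcomm (q * q) 1, map_one, Module.End.one_apply, add_comm]
          rw [map_mul, hsq, map_one]
        · have h4 : ρ q (ρ t m) = ρ t (ρ q m) := by
            rw [hmul, hmul, hcomm (q * t) (t * q)]
            rw [map_mul, map_mul, mul_comm]
          rcases h3 q hq with h5 | h5
          · left
            rw [map_add, h4, h5]
          · right
            rw [map_add, h4, h5, map_neg]
            abel

theorem exists_omega {ι Q : Type} [Fintype ι] [Group Q] (χ : Q →* Multiplicative (ι → ZMod 2))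
    (e : Q →* Multiplicative (ZMod 2)) (he : ∀ k ∈ χ.ker, e k = 1) :
    ∃ ω : ι → ZMod 2, ∀ q, Multiplicative.toAdd (e q) = ω ⬝ᵥ Multiplicative.toAdd (χ q) := by
  set L : (Q →₀ ZMod 2) →ₗ[ZMod 2] (ι → ZMod 2) :=
    Finsupp.linearCombination (ZMod 2) (fun q => Multiplicative.toAdd (χ q)) with hL
  set E : (Q →₀ ZMod 2) →ₗ[ZMod 2] ZMod 2 :=
    Finsupp.linearCombination (ZMod 2) (fun q => Multiplicative.toAdd (e q)) with hE
  have hbin : ∀ c : ZMod 2, c ≠ 0 → c = 1 := by decide
  have hker : ∀ c ∈ LinearMap.ker L, E c = 0 := by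
    intro c hc
    rw [LinearMap.mem_ker] at hc
    have h1 : ∀ {A : Type} [AddCommGroup A] [Module (ZMod 2) A] (f : Q →* Multiplicative A),
        Finsupp.linearCombination (ZMod 2) (fun q => Multiplicative.toAdd (f q)) c
          = Multiplicative.toAdd (f c.support.toList.prod) := by
      intro A _ _ f
      rw [Finsupp.linearCombination_apply, Finsupp.sum, map_list_prod, ← Finset.sum_map_toList]
      have h2 : ∀ l : List Q, (∀ q ∈ l, c q ≠ 0) →
          (l.map fun q => c q • Multiplicative.toAdd (f q)).sum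
            = Multiplicative.toAdd (l.map f).prod := by
        intro l
        induction l with
        | nil => intro _; simp
        | cons q l ih =>
          intro h
          rw [List.map_cons, List.sum_cons, List.map_cons, List.prod_cons, toAdd_mul,
            ih (fun q' hq' => h q' (by simp [hq'])), hbin _ (h q (by simp)), one_smul]
      apply h2
      intro q hq
      rw [Finset.mem_toList] at hq
      exact Finsupp.mem_support_iff.1 hq
    rw [hL, h1 χ] at hc
    rw [hE, h1 e, he]
    · rfl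
    · rw [MonoidHom.mem_ker]
      exact Multiplicative.toAdd.injective hc
  have h2 : (E : Module.Dual (ZMod 2) (Q →₀ ZMod 2)) ∈ LinearMap.range L.dualMap := by
    rw [LinearMap.range_dualMap_eq_dualAnnihilator_ker, Submodule.mem_dualAnnihilator]
    exact hker
  obtain ⟨F, hF⟩ := h2
  refine ⟨fun i => F (Pi.single i 1), fun q => ?_⟩
  have h3 : F (L (Finsupp.single q 1)) = E (Finsupp.single q 1) := by
    rw [← hF]
    rfl
  rw [hL, hE, Finsupp.linearCombination_single, Finsupp.linearCombination_single, one_smul,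
    one_smul] at h3
  rw [← h3]
  conv_lhs => rw [← Finset.univ_sum_single (Multiplicative.toAdd (χ q))]
  rw [map_sum]
  simp only [dotProduct]
  apply Finset.sum_congr rfl
  intro i _
  have h4 : (Pi.single i (Multiplicative.toAdd (χ q) i) : ι → ZMod 2)
      = (Multiplicative.toAdd (χ q) i) • Pi.single i 1 := by
    rw [← Pi.single_smul]
    simp
  rw [h4, map_smul, smul_eq_mul, mul_comm]

theorem general {V ι Q : Type} [Fintype ι] (Γ : SimpleGraph V)
    (lam : V → ι → ZMod 2)
    (hB : ∀ ω : ι → ZMod 2, Ex3 Γ (ZMod 3) (sgnAct {v | ω ⬝ᵥ lam v = 0} (ZMod 3)))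
    [Group Q] [Finite Q] (π : RA Γ →* Q)
    (χ : Q →* Multiplicative (ι → ZMod 2))
    (hχ : ∀ s, χ (π (gen Γ s)) = Multiplicative.ofAdd (lam s)) (hp : IsPGroup 3 χ.ker) (n : ℕ) :
    ∀ (M : Type) [AddCommGroup M] [Module (ZMod 3) M] [Finite M]
      (ρ : Representation (ZMod 3) Q M), Nat.card M ≤ n →
      Ex3 Γ M (fun s x => ρ (π (gen Γ s)) x) := by
  induction n with
  | zero =>
    intro M _ _ _ ρ h
    have := Nat.card_pos (α := M)
    omega
  | succ n ih =>
    intro M _ _ _ ρ hn
    rcases subsingleton_or_nontrivial M with hs | hnt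
    · intro φ _ _
      exact ⟨fun _ => 0, fun _ _ _ _ _ _ _ => Subsingleton.elim _ _,
        fun _ _ _ _ => Subsingleton.elim _ _⟩
    · obtain ⟨m, hm, hK, hsgn⟩ := exists_eigen ρ χ hp
      have hneg : m ≠ -m := by
        intro h
        have h1 : (2 : ZMod 3) • m = 0 := by
          rw [two_smul]
          nth_rewrite 2 [h]
          exact add_neg_cancel m
        have h2 : (2 : ZMod 3) ≠ 0 := by decide
        exact (smul_ne_zero h2 hm) h1
      have hmul : ∀ (q q' : Q) (x : M), ρ (q * q') x = ρ q (ρ q' x) := by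
        intro q q' x
        rw [map_mul, Module.End.mul_apply]
      let e : Q →* Multiplicative (ZMod 2) :=
        { toFun := fun q => Multiplicative.ofAdd (if ρ q m = m then 0 else 1)
          map_one' := by simp
          map_mul' := by
            intro q q'
            rw [← ofAdd_add]
            congr 1
            rcases hsgn q with h1 | h1 <;> rcases hsgn q' with h2 | h2
            · rw [hmul, h2, h1]; simp
            · rw [hmul, h2, map_neg, h1, if_neg hneg.symm, if_pos rfl]; simp
            · rw [hmul, h2, h1, if_neg hneg.symm, if_pos rfl]; simp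
            · rw [hmul, h2, map_neg, h1, neg_neg, if_pos rfl, if_neg hneg.symm]
              decide }
      have he : ∀ q, Multiplicative.toAdd (e q) = if ρ q m = m then 0 else 1 := fun _ => rfl
      obtain ⟨ω, hω⟩ := exists_omega χ e (by
        intro k hk
        apply Multiplicative.toAdd.injective
        rw [he, if_pos (hK k hk)]
        rfl)
      have hN : ∀ q, Submodule.span (ZMod 3) {m} ≤ (Submodule.span (ZMod 3) {m}).comap (ρ q) := by
        intro q
        rw [Submodule.span_le, Set.singleton_subset_iff]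
        show ρ q m ∈ Submodule.span (ZMod 3) {m}
        rcases hsgn q with h1 | h1
        · rw [h1]; exact Submodule.mem_span_singleton_self m
        · rw [h1]; exact neg_mem (Submodule.mem_span_singleton_self m)
      have hfin : Finite (M ⧸ Submodule.span (ZMod 3) {m}) :=
        Finite.of_surjective _ (Submodule.mkQ_surjective _)
      apply ext_step Γ π ρ m hm {v | ω ⬝ᵥ lam v = 0} _ hN (hB ω)
      · apply ih
        have h1 := Submodule.card_eq_card_quotient_mul_card (Submodule.span (ZMod 3) {m})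
        have h2 : 2 ≤ Nat.card (Submodule.span (ZMod 3) {m}) := by
          have : Nontrivial (Submodule.span (ZMod 3) {m}) := by
            refine ⟨⟨⟨m, Submodule.mem_span_singleton_self m⟩, 0, ?_⟩⟩
            intro h
            exact hm (congrArg Subtype.val h)
          exact Finite.one_lt_card_iff_nontrivial.2 this
        have h3 : 0 < Nat.card (M ⧸ Submodule.span (ZMod 3) {m}) := Nat.card_pos
        nlinarith
      · intro s
        have h1 := hω (π (gen Γ s))
        rw [he, hχ, toAdd_ofAdd] at h1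
        by_cases h2 : ρ (π (gen Γ s)) m = m
        · rw [if_pos h2] at h1
          rw [if_pos (show s ∈ {v | ω ⬝ᵥ lam v = 0} from h1.symm)]
          exact h2
        · rw [if_neg h2] at h1
          rw [if_neg]
          · exact (hsgn _).resolve_left h2
          · intro h3
            have h4 : ω ⬝ᵥ lam s = 0 := h3
            rw [h4] at h1
            exact one_ne_zero h1

end Devissage

/-- P13: devissage along a normal 3-subgroup -/
theorem ex3_of_pgroup {V ι Q : Type} [Finite V] [Fintype ι] (Γ : SimpleGraph V)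
    (lam : V → ι → ZMod 2)
    (hB : ∀ ω : ι → ZMod 2, Ex3 Γ (ZMod 3) (sgnAct {v | ω ⬝ᵥ lam v = 0} (ZMod 3)))
    [Group Q] [Finite Q] (π : RA Γ →* Q) (hs : Function.Surjective π)
    (χ : Q →* Multiplicative (ι → ZMod 2))
    (hχ : ∀ s, χ (π (gen Γ s)) = Multiplicative.ofAdd (lam s)) (hp : IsPGroup 3 χ.ker) :
    Ex3 Γ (Q → ZMod 3) (fun s m q => m (q * π (gen Γ s))) := by
  let ρ : Representation (ZMod 3) Q (Q → ZMod 3) :=
    { toFun := fun g =>
        { toFun := fun m q => m (q * g)
          map_add' := fun _ _ => rfl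
          map_smul' := fun _ _ => rfl }
      map_one' := by
        ext m q
        simp
      map_mul' := by
        intro g h
        apply LinearMap.ext
        intro m
        funext q
        show m (q * (g * h)) = m (q * g * h)
        rw [mul_assoc] }
  exact Devissage.general Γ lam hB π χ hχ hp _ (Q → ZMod 3) ρ le_rfl

end Pool.Agent.RC84
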