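import Pool.Agent.RC84.Defs

/-!
# P17: exactness at triangles from the homological statement (duality), MP_8085d2_al
-/

set_option autoImplicit false
set_option linter.unusedSectionVars false

namespace Pool.Agent.RC84

open scoped Classical

section Dual

variable {V : Type} [Fintype V] [LinearOrder V] {K : Type} [Field K]

/-- increasing triangle -/
private def Tr (Γ : SimpleGraph V) (a b c : V) : Prop :=
  a < b ∧ b < c ∧ Γ.Adj a b ∧ Γ.Adj a c ∧ Γ.Adj b c

/-- increasing tetrahedron -/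
private def Tt (Γ : SimpleGraph V) (a b c d : V) : Prop :=
  a < b ∧ b < c ∧ c < d ∧ Γ.Adj a b ∧ Γ.Adj a c ∧ Γ.Adj a d ∧ Γ.Adj b c ∧ Γ.Adj b d ∧ Γ.Adj c d

private noncomputable def DD (Γ : SimpleGraph V) (K : Type) [Field K] :
    (V × V → K) →ₗ[K] (V × V × V → K) where
  toFun g := fun t => if Tr Γ t.1 t.2.1 t.2.2 then g (t.2.1, t.2.2) - g (t.1, t.2.2) + g (t.1, t.2.1)
    else 0
  map_add' g h := by
    ext t
    simp only [Pi.add_apply]
    split_ifs
    · ring
    · simp
  map_smul' c g := by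
    ext t
    simp only [Pi.smul_apply, smul_eq_mul, RingHom.id_apply]
    split_ifs
    · ring
    · simp

private theorem edge_aux (Γ : SimpleGraph V) (z : V → V → V → K) (a b : V) (hab : a < b)
    (hadj : Γ.Adj a b) :
    ∑ t : V × V × V, DD Γ K (Pi.single (a, b) 1) t * z t.1 t.2.1 t.2.2 =
      ∑ x, (if Γ.Adj a x ∧ Γ.Adj b x then
        (if x < a then z x a b else if x < b then - z a x b else z a b x) else 0) := by
  have h1 : ∀ t : V × V × V, DD Γ K (Pi.single (a, b) 1) t * z t.1 t.2.1 t.2.2 =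
      (if t.2.1 = a then if t.2.2 = b then (if Tr Γ t.1 t.2.1 t.2.2 then z t.1 t.2.1 t.2.2 else 0)
        else 0 else 0)
      - (if t.1 = a then if t.2.2 = b then (if Tr Γ t.1 t.2.1 t.2.2 then z t.1 t.2.1 t.2.2 else 0)
        else 0 else 0)
      + (if t.1 = a then if t.2.1 = b then (if Tr Γ t.1 t.2.1 t.2.2 then z t.1 t.2.1 t.2.2 else 0)
        else 0 else 0) := by
    rintro ⟨x, y, w⟩
    simp only [DD, LinearMap.coe_mk, AddHom.coe_mk, Pi.single_apply, Prod.mk.injEq]
    by_cases hT : Tr Γ x y w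
    · simp only [if_pos hT, ite_and]
      split_ifs <;> ring
    · simp [hT]
  rw [Finset.sum_congr rfl (fun t _ => h1 t)]
  rw [Fintype.sum_prod_type]
  simp only [Fintype.sum_prod_type, Finset.sum_add_distrib, Finset.sum_sub_distrib]
  have e1 : ∑ x : V, ∑ y : V, ∑ w : V, (if y = a then if w = b then
      (if Tr Γ x y w then z x y w else 0) else 0 else 0) =
      ∑ x : V, (if Tr Γ x a b then z x a b else 0) := by
    refine Finset.sum_congr rfl fun x _ => ?_
    rw [Finset.sum_eq_single a, Finset.sum_eq_single b]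
    · simp
    · intro w _ hw; simp [hw]
    · intro h; exact absurd (Finset.mem_univ _) h
    · intro y _ hy; simp [hy]
    · intro h; exact absurd (Finset.mem_univ _) h
  have e2 : ∑ x : V, ∑ y : V, ∑ w : V, (if x = a then if w = b then
      (if Tr Γ x y w then z x y w else 0) else 0 else 0) =
      ∑ y : V, (if Tr Γ a y b then z a y b else 0) := by
    rw [Finset.sum_eq_single a]
    · refine Finset.sum_congr rfl fun y _ => ?_
      rw [Finset.sum_eq_single b]
      · simp
      · intro w _ hw; simp [hw]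
      · intro h; exact absurd (Finset.mem_univ _) h
    · intro x _ hx; simp [hx]
    · intro h; exact absurd (Finset.mem_univ _) h
  have e3 : ∑ x : V, ∑ y : V, ∑ w : V, (if x = a then if y = b then
      (if Tr Γ x y w then z x y w else 0) else 0 else 0) =
      ∑ w : V, (if Tr Γ a b w then z a b w else 0) := by
    rw [Finset.sum_eq_single a, Finset.sum_eq_single b]
    · simp
    · intro y _ hy; simp [hy]
    · intro h; exact absurd (Finset.mem_univ _) h
    · intro x _ hx; simp [hx]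
    · intro h; exact absurd (Finset.mem_univ _) h
  rw [e1, e2, e3, ← Finset.sum_sub_distrib, ← Finset.sum_add_distrib]
  refine Finset.sum_congr rfl fun x _ => ?_
  by_cases hx : Γ.Adj a x ∧ Γ.Adj b x
  · rw [if_pos hx]
    have hxa : x ≠ a := hx.1.ne'
    have hxb : x ≠ b := hx.2.ne'
    rcases lt_trichotomy x a with h | h | h
    · have hxb' : x < b := h.trans hab
      have t1 : Tr Γ x a b := ⟨h, hab, hx.1.symm, hx.2.symm, hadj⟩
      have t2 : ¬ Tr Γ a x b := fun t => absurd t.1 (not_lt.mpr h.le)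
      have t3 : ¬ Tr Γ a b x := fun t => absurd t.2.1 (not_lt.mpr hxb'.le)
      rw [if_pos t1, if_neg t2, if_neg t3, if_pos h]; ring
    · exact absurd h hxa
    · rw [if_neg (not_lt.mpr h.le)]
      have t1 : ¬ Tr Γ x a b := fun t => absurd t.1 (not_lt.mpr h.le)
      rcases lt_trichotomy x b with h' | h' | h'
      · have t2 : Tr Γ a x b := ⟨h, h', hx.1, hadj, hx.2.symm⟩
        have t3 : ¬ Tr Γ a b x := fun t => absurd t.2.1 (not_lt.mpr h'.le)
        rw [if_neg t1, if_pos t2, if_neg t3, if_pos h']; ring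
      · exact absurd h' hxb
      · have t2 : ¬ Tr Γ a x b := fun t => absurd t.2.1 (not_lt.mpr h'.le)
        have t3 : Tr Γ a b x := ⟨hab, h', hadj, hx.1, hx.2⟩
        rw [if_neg t1, if_neg t2, if_pos t3, if_neg (not_lt.mpr h'.le)]; ring
  · rw [if_neg hx]
    have t1 : ¬ Tr Γ x a b := fun t => hx ⟨t.2.2.1.symm, t.2.2.2.1.symm⟩
    have t2 : ¬ Tr Γ a x b := fun t => hx ⟨t.2.2.1, t.2.2.2.2.symm⟩
    have t3 : ¬ Tr Γ a b x := fun t => hx ⟨t.2.2.2.1, t.2.2.2.2⟩
    rw [if_neg t1, if_neg t2, if_neg t3]; ring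

private theorem tet_aux (Γ : SimpleGraph V) (y : V → V → V → V → K) (a b c : V)
    (hT : Tr Γ a b c) (x : V) :
    (if Γ.Adj a x ∧ Γ.Adj b x ∧ Γ.Adj c x then
      (if x < a then y x a b c else if x < b then - y a x b c else
        if x < c then y a b x c else - y a b c x) else 0) =
    (if Tt Γ x a b c then y x a b c else 0) - (if Tt Γ a x b c then y a x b c else 0)
      + (if Tt Γ a b x c then y a b x c else 0) - (if Tt Γ a b c x then y a b c x else 0) := by
  obtain ⟨hab, hbc, h1, h2, h3⟩ := hT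
  by_cases hx : Γ.Adj a x ∧ Γ.Adj b x ∧ Γ.Adj c x
  · rw [if_pos hx]
    obtain ⟨hx1, hx2, hx3⟩ := hx
    have hxa : x ≠ a := hx1.ne'
    have hxb : x ≠ b := hx2.ne'
    have hxc : x ≠ c := hx3.ne'
    rcases lt_trichotomy x a with h | h | h
    · have t1 : Tt Γ x a b c := ⟨h, hab, hbc, hx1.symm, hx2.symm, hx3.symm, h1, h2, h3⟩
      have t2 : ¬ Tt Γ a x b c := fun t => absurd t.1 (not_lt.mpr h.le)
      have t3 : ¬ Tt Γ a b x c := fun t => absurd t.2.1 (not_lt.mpr (h.trans hab).le)
      have t4 : ¬ Tt Γ a b c x := fun t => absurd t.2.2.1 (not_lt.mpr ((h.trans hab).trans hbc).le)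
      rw [if_pos t1, if_neg t2, if_neg t3, if_neg t4, if_pos h]; ring
    · exact absurd h hxa
    · have t1 : ¬ Tt Γ x a b c := fun t => absurd t.1 (not_lt.mpr h.le)
      rw [if_neg (not_lt.mpr h.le)]
      rcases lt_trichotomy x b with h' | h' | h'
      · have t2 : Tt Γ a x b c := ⟨h, h', hbc, hx1, h1, h2, hx2.symm, hx3.symm, h3⟩
        have t3 : ¬ Tt Γ a b x c := fun t => absurd t.2.1 (not_lt.mpr h'.le)
        have t4 : ¬ Tt Γ a b c x := fun t => absurd t.2.2.1 (not_lt.mpr (h'.trans hbc).le)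
        rw [if_neg t1, if_pos t2, if_neg t3, if_neg t4, if_pos h']; ring
      · exact absurd h' hxb
      · have t2 : ¬ Tt Γ a x b c := fun t => absurd t.2.1 (not_lt.mpr h'.le)
        rw [if_neg (not_lt.mpr h'.le)]
        rcases lt_trichotomy x c with h'' | h'' | h''
        · have t3 : Tt Γ a b x c := ⟨hab, h', h'', h1, hx1, h2, hx2, h3, hx3.symm⟩
          have t4 : ¬ Tt Γ a b c x := fun t => absurd t.2.2.1 (not_lt.mpr h''.le)
          rw [if_neg t1, if_neg t2, if_pos t3, if_neg t4, if_pos h'']; ring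
        · exact absurd h'' hxc
        · have t3 : ¬ Tt Γ a b x c := fun t => absurd t.2.2.1 (not_lt.mpr h''.le)
          have t4 : Tt Γ a b c x := ⟨hab, hbc, h'', h1, h2, hx1, h3, hx2, hx3⟩
          rw [if_neg t1, if_neg t2, if_neg t3, if_pos t4, if_neg (not_lt.mpr h''.le)]; ring
  · rw [if_neg hx]
    have t1 : ¬ Tt Γ x a b c := fun ⟨_, _, _, p, q, r, _, _, _⟩ => hx ⟨p.symm, q.symm, r.symm⟩
    have t2 : ¬ Tt Γ a x b c := fun ⟨_, _, _, p, _, _, q, r, _⟩ => hx ⟨p, q.symm, r.symm⟩
    have t3 : ¬ Tt Γ a b x c := fun ⟨_, _, _, _, p, _, q, _, r⟩ => hx ⟨p, q, r.symm⟩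
    have t4 : ¬ Tt Γ a b c x := fun ⟨_, _, _, _, _, p, _, q, r⟩ => hx ⟨p, q, r⟩
    rw [if_neg t1, if_neg t2, if_neg t3, if_neg t4]; ring

private theorem dl3 {W : Type} [AddCommGroup W] (a b c : V) (g : List V → W) :
    dl [a, b, c] g = g [b, c] - g [a, c] + g [a, b] := by
  simp only [dl]; abel

private theorem dl4 {W : Type} [AddCommGroup W] (a b c d : V) (g : List V → W) :
    dl [a, b, c, d] g = g [b, c, d] - g [a, c, d] + g [a, b, d] - g [a, b, c] := by
  simp only [dl]; abel

/-- duality over a field -/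
theorem exN_of_homology_field (Γ : SimpleGraph V)
    (HC : ∀ z : V → V → V → K,
      (∀ a b, a < b → Γ.Adj a b →
        ∑ x, (if Γ.Adj a x ∧ Γ.Adj b x then
          (if x < a then z x a b else if x < b then - z a x b else z a b x) else 0) = 0) →
      ∃ y : V → V → V → V → K, ∀ a b c, a < b → b < c →
        Γ.Adj a b → Γ.Adj a c → Γ.Adj b c →
        z a b c = ∑ x, (if Γ.Adj a x ∧ Γ.Adj b x ∧ Γ.Adj c x then
          (if x < a then y x a b c else if x < b then - y a x b c else
            if x < c then y a b x c else - y a b c x) else 0)) :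
    ExN Γ K := by
  intro f hf
  let fh : V × V × V → K := fun t => if Tr Γ t.1 t.2.1 t.2.2 then f [t.1, t.2.1, t.2.2] else 0
  have key : fh ∈ LinearMap.range (DD Γ K) := by
    by_contra hcon
    obtain ⟨φ, hφ1, hφ2⟩ := Submodule.exists_le_ker_of_notMem hcon
    have hsum : ∀ h : V × V × V → K, φ h = ∑ t, h t * φ (Pi.single t 1) := by
      intro h
      rw [LinearMap.pi_apply_eq_sum_univ φ h]
      refine Finset.sum_congr rfl fun t _ => ?_
      rw [smul_eq_mul]
      congr 2
      ext s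
      simp [Pi.single_apply, eq_comm]
    set z : V → V → V → K := fun a b c => φ (Pi.single (a, b, c) 1) with hz
    have hzφ : ∀ h : V × V × V → K, φ h = ∑ t : V × V × V, h t * z t.1 t.2.1 t.2.2 := by
      intro h; rw [hsum h]
    obtain ⟨y, hy⟩ := HC z (by
      intro a b hab hadj
      rw [← edge_aux Γ z a b hab hadj, ← hzφ]
      exact hφ2 ⟨_, rfl⟩)
    apply hφ1
    rw [hzφ fh]
    have s1 : ∀ t : V × V × V, fh t * z t.1 t.2.1 t.2.2 =
        ∑ x : V, ((if Tt Γ x t.1 t.2.1 t.2.2 then y x t.1 t.2.1 t.2.2 * f [t.1, t.2.1, t.2.2] else 0)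
          - (if Tt Γ t.1 x t.2.1 t.2.2 then y t.1 x t.2.1 t.2.2 * f [t.1, t.2.1, t.2.2] else 0)
          + (if Tt Γ t.1 t.2.1 x t.2.2 then y t.1 t.2.1 x t.2.2 * f [t.1, t.2.1, t.2.2] else 0)
          - (if Tt Γ t.1 t.2.1 t.2.2 x then y t.1 t.2.1 t.2.2 x * f [t.1, t.2.1, t.2.2] else 0)) := by
      rintro ⟨a, b, c⟩
      by_cases hT : Tr Γ a b c
      · have h1 := hy a b c hT.1 hT.2.1 hT.2.2.1 hT.2.2.2.1 hT.2.2.2.2
        simp only [fh, if_pos hT]
        rw [h1, Finset.mul_sum]
        refine Finset.sum_congr rfl fun x _ => ?_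
        rw [tet_aux Γ y a b c hT x]
        split_ifs <;> ring
      · simp only [fh, if_neg hT, zero_mul]
        symm
        apply Finset.sum_eq_zero
        intro x _
        have t1 : ¬ Tt Γ x a b c := fun ⟨_, p1, p2, _, _, _, p, q, r⟩ => hT ⟨p1, p2, p, q, r⟩
        have t2 : ¬ Tt Γ a x b c := fun ⟨p1, p2, p3, _, p, q, _, _, r⟩ =>
          hT ⟨p1.trans p2, p3, p, q, r⟩
        have t3 : ¬ Tt Γ a b x c := fun ⟨p1, p2, p3, p, _, q, _, r, _⟩ =>
          hT ⟨p1, p2.trans p3, p, q, r⟩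
        have t4 : ¬ Tt Γ a b c x := fun ⟨p1, p2, _, p, q, _, r, _, _⟩ => hT ⟨p1, p2, p, q, r⟩
        rw [if_neg t1, if_neg t2, if_neg t3, if_neg t4]; ring
    rw [Finset.sum_congr rfl (fun t _ => s1 t)]
    simp only [Fintype.sum_prod_type, Finset.sum_add_distrib, Finset.sum_sub_distrib]
    -- rename the variables
    have r1 : ∑ a : V, ∑ b : V, ∑ c : V, ∑ x : V,
        (if Tt Γ x a b c then y x a b c * f [a, b, c] else 0) =
        ∑ p : V, ∑ q : V, ∑ r : V, ∑ s : V,
          (if Tt Γ p q r s then y p q r s * f [q, r, s] else 0) := by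
      calc _ = ∑ a : V, ∑ b : V, ∑ x : V, ∑ c : V,
            (if Tt Γ x a b c then y x a b c * f [a, b, c] else 0) :=
            Finset.sum_congr rfl fun a _ => Finset.sum_congr rfl fun b _ => Finset.sum_comm
        _ = ∑ a : V, ∑ x : V, ∑ b : V, ∑ c : V,
            (if Tt Γ x a b c then y x a b c * f [a, b, c] else 0) :=
            Finset.sum_congr rfl fun a _ => Finset.sum_comm
        _ = _ := Finset.sum_comm
    have r2 : ∑ a : V, ∑ b : V, ∑ c : V, ∑ x : V,
        (if Tt Γ a x b c then y a x b c * f [a, b, c] else 0) =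
        ∑ p : V, ∑ q : V, ∑ r : V, ∑ s : V,
          (if Tt Γ p q r s then y p q r s * f [p, r, s] else 0) := by
      calc _ = ∑ a : V, ∑ b : V, ∑ x : V, ∑ c : V,
            (if Tt Γ a x b c then y a x b c * f [a, b, c] else 0) :=
            Finset.sum_congr rfl fun a _ => Finset.sum_congr rfl fun b _ => Finset.sum_comm
        _ = _ := Finset.sum_congr rfl fun a _ => Finset.sum_comm
    have r3 : ∑ a : V, ∑ b : V, ∑ c : V, ∑ x : V,
        (if Tt Γ a b x c then y a b x c * f [a, b, c] else 0) =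
        ∑ p : V, ∑ q : V, ∑ r : V, ∑ s : V,
          (if Tt Γ p q r s then y p q r s * f [p, q, s] else 0) :=
      Finset.sum_congr rfl fun a _ => Finset.sum_congr rfl fun b _ => Finset.sum_comm
    rw [r1, r2, r3]
    simp only [← Finset.sum_add_distrib, ← Finset.sum_sub_distrib]
    refine Finset.sum_eq_zero fun p _ => Finset.sum_eq_zero fun q _ =>
      Finset.sum_eq_zero fun r _ => Finset.sum_eq_zero fun s _ => ?_
    by_cases hT : Tt Γ p q r s
    · simp only [if_pos hT]
      have h0 := hf [p, q, r, s] (by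
        obtain ⟨h1, h2, h3, _⟩ := hT
        simp [h1, h2, h3, h1.trans h2, h2.trans h3, (h1.trans h2).trans h3]) (by
        obtain ⟨_, _, _, h1, h2, h3, h4, h5, h6⟩ := hT
        simp [h1, h2, h3, h4, h5, h6]) rfl
      rw [dl4] at h0
      linear_combination (y p q r s) * h0
    · simp only [if_neg hT]; ring
  obtain ⟨g, hg⟩ := key
  refine ⟨fun l => match l with
    | [a, b] => g (a, b)
    | _ => 0, ?_⟩
  intro l hl1 hl2 hl3
  match l, hl3 with
  | [a, b, c], _ =>
    have hT : Tr Γ a b c := by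
      simp at hl1 hl2
      exact ⟨hl1.1.1, hl1.2, hl2.1.1, hl2.1.2, hl2.2⟩
    have h1 := congrFun hg (a, b, c)
    simp only [DD, LinearMap.coe_mk, AddHom.coe_mk, fh, if_pos hT] at h1
    rw [dl3, ← h1]

end Dual

/-- P17: exactness at triangles from the homological statement. -/
theorem exN_of_homology {V : Type} [Fintype V] [LinearOrder V] (Γ : SimpleGraph V)
    (HC : ∀ z : V → V → V → ZMod 3,
      (∀ a b, a < b → Γ.Adj a b →
        ∑ x, (if Γ.Adj a x ∧ Γ.Adj b x then
          (if x < a then z x a b else if x < b then - z a x b else z a b x) else 0) = 0) →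
      ∃ y : V → V → V → V → ZMod 3, ∀ a b c, a < b → b < c →
        Γ.Adj a b → Γ.Adj a c → Γ.Adj b c →
        z a b c = ∑ x, (if Γ.Adj a x ∧ Γ.Adj b x ∧ Γ.Adj c x then
          (if x < a then y x a b c else if x < b then - y a x b c else
            if x < c then y a b x c else - y a b c x) else 0)) :
    ExN Γ (ZMod 3) := by
  have : Fact (Nat.Prime 3) := ⟨Nat.prime_three⟩
  exact exN_of_homology_field Γ HC

end Pool.Agent.RC84
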