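import Pool.Agent.RC84.Defs

/-!
# The skyscraper filtration (package P6 of MP_8085d2_al)
-/

set_option autoImplicit false

namespace Pool.Agent.RC84

open scoped Classical

section Equiv

variable {α V : Type} [AddCommGroup V]

private theorem dl_cons' (x : α) (l : List α) (f : List α → V) :
    dl (x :: l) f = f l - dl l (fun l' => f (x :: l')) := rfl

private theorem dl_sub' (l : List α) : ∀ f g : List α → V,
    dl l (fun l' => f l' - g l') = dl l f - dl l g := by
  induction l with
  | nil =>
    intro f g
    simp [dl]
  | cons x l ih =>
    intro f g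
    rw [dl_cons', dl_cons', dl_cons', ih]
    abel

private theorem dl_dl' (l : List α) : ∀ g : List α → V, dl l (fun l' => dl l' g) = 0 := by
  induction l with
  | nil =>
    intro g
    simp [dl]
  | cons x l ih =>
    intro g
    rw [dl_cons']
    have h : (fun l' => dl (x :: l') g) = fun l' => g l' - dl l' (fun l'' => g (x :: l'')) := rfl
    rw [h, dl_sub', ih]
    abel

private theorem dl_congr' (l : List α) : ∀ f g : List α → V,
    (∀ l' : List α, l'.Sublist l → l'.length + 1 = l.length → f l' = g l') → dl l f = dl l g := by
  induction l with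
  | nil =>
    intro f g _
    simp [dl]
  | cons x l ih =>
    intro f g h
    rw [dl_cons', dl_cons', h l (List.sublist_cons_self x l) rfl]
    congr 1
    refine ih _ _ fun l' h1 h2 => h _ (h1.cons_cons x) ?_
    rw [List.length_cons, h2, List.length_cons]

private theorem dl_map' {β W : Type} [AddCommGroup W] (φ : α → β) (ρ : V → W)
    (hρ : ∀ a b, ρ (a - b) = ρ a - ρ b) (l : List α) : ∀ (f : List β → W) (g : List α → V),
    (∀ l' : List α, f (l'.map φ) = ρ (g l')) → dl (l.map φ) f = ρ (dl l g) := by
  have hρ0 : ρ 0 = 0 := by simpa using hρ 0 0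
  induction l with
  | nil =>
    intro f g _
    simp [dl, hρ0]
  | cons x l ih =>
    intro f g h
    rw [List.map_cons, dl_cons', dl_cons', hρ, h]
    congr 1
    exact ih _ _ fun l' => h (x :: l')

private theorem dl_zero' (l : List α) : dl l (fun _ => (0 : V)) = 0 := by
  induction l with
  | nil => rfl
  | cons x l ih => rw [dl_cons', ih, sub_zero]

private theorem dl_neg' (l : List α) (f : List α → V) : dl l (fun l' => - f l') = - dl l f := by
  have := dl_sub' l (fun _ => (0 : V)) f
  simp only [zero_sub, dl_zero'] at this
  exact this

end Equiv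

private theorem equiv_aux {G P V : Type} [Group G] [PartialOrder P] [MulAction G P]
    [AddCommGroup V] (ρ : G → V → V) (hρ : ∀ g a b, ρ g (a - b) = ρ g a - ρ g b)
    (hρ1 : ∀ a, ρ 1 a = a) (hρm : ∀ g h a, ρ (g * h) a = ρ g (ρ h a))
    (hmono : ∀ (g : G) (x y : P), x < y → g • x < g • y)
    (hfree : ∀ (g : G) (x : P), g • x = x → g = 1)
    (r : P → ℕ) (hr : ∀ x y, x < y → r x < r y) (hrG : ∀ (g : G) (x : P), r (g • x) = r x)
    (R : ℕ) (hR : ∀ x, r x ≤ R) (n : ℕ)
    (hex : ∀ x : P, ExactAt {y | x < y} V n)
    (f : List P → V) (hf : ∀ (g : G) (l : List P), f (l.map (g • ·)) = ρ g (f l))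
    (hcoc : ∀ l : List P, IsCh l → l.length = n + 2 → dl l f = 0) :
    ∃ g : List P → V, (∀ (h : G) (l : List P), g (l.map (h • ·)) = ρ h (g l)) ∧
        ∀ l : List P, IsCh l → l.length = n + 1 → f l = dl l g := by
  have hρ0 : ∀ g, ρ g 0 = 0 := fun g => by simpa using hρ g 0 0
  have hρn : ∀ g a, ρ g (-a) = - ρ g a := fun g a => by simpa [hρ0] using hρ g 0 a
  have hρa : ∀ g a b, ρ g (a + b) = ρ g a + ρ g b := fun g a b => by
    have := hρ g a (-b)
    rwa [hρn, sub_neg_eq_add, sub_neg_eq_add] at this
  -- the statement of the induction
  have key : ∀ i : ℕ, i ≤ R + 1 → ∃ g : List P → V,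
      (∀ (h : G) (l : List P), g (l.map (h • ·)) = ρ h (g l)) ∧
      ∀ (x : P) (l : List P), IsCh (x :: l) → l.length = n → R + 1 - i ≤ r x →
        f (x :: l) = dl (x :: l) g := by
    intro i
    induction i with
    | zero =>
      intro _
      refine ⟨fun _ => 0, fun h l => (hρ0 h).symm, fun x l _ _ hx => ?_⟩
      have := hR x
      omega
    | succ i ih =>
      intro hi
      obtain ⟨g, hg1, hg2⟩ := ih (by omega)
      set j := R - i with hj
      -- the difference
      set f' : List P → V := fun l => f l - dl l g with hf'
      have hf'e : ∀ (h : G) (l : List P), f' (l.map (h • ·)) = ρ h (f' l) := by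
        intro h l
        simp only [hf']
        rw [hρ, hf, dl_map' (h • ·) (ρ h) (hρ h) l g g (hg1 h)]
      have hf'0 : ∀ (x : P) (l : List P), IsCh (x :: l) → l.length = n → j < r x →
          f' (x :: l) = 0 := by
        intro x l h1 h2 h3
        simp only [hf']
        rw [hg2 x l h1 h2 (by omega), sub_self]
      have hf'c : ∀ l : List P, IsCh l → l.length = n + 2 → dl l f' = 0 := by
        intro l h1 h2
        simp only [hf']
        rw [dl_sub', hcoc l h1 h2, dl_dl', sub_zero]
      -- solutions above points of rank j
      have hsol : ∀ x : P, r x = j → ∃ gx : List P → V, ∀ l : List P, IsCh l →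
          (∀ y ∈ l, x < y) → l.length = n → f' (x :: l) = dl l gx := by
        intro x hx
        refine (hex x) (fun l => f' (x :: l)) fun l h1 h2 h3 => ?_
        have hch : IsCh (x :: l) := List.pairwise_cons.2 ⟨h2, h1⟩
        have h4 := hf'c (x :: l) hch (by rw [List.length_cons, h3])
        rw [dl_cons'] at h4
        match l, h1, h2, h3, h4 with
        | y :: l, h1, h2, h3, h4 =>
          have h5 : f' (y :: l) = 0 := by
            refine hf'0 y l h1 (by simpa using h3) ?_
            rw [← hx]
            exact hr x y (h2 y (by simp))
          rw [h5, zero_sub, neg_eq_zero] at h4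
          exact h4
      -- orbit representatives
      let rep : P → P := fun x => (Quotient.mk (MulAction.orbitRel G P) x).out
      have hrep : ∀ x : P, ∃ h : G, h • rep x = x := by
        intro x
        have h1 : (MulAction.orbitRel G P) (rep x) x := @Quotient.mk_out P (MulAction.orbitRel G P) x
        have h2 : (MulAction.orbitRel G P) x (rep x) :=
          (MulAction.orbitRel G P).iseqv.symm h1
        rw [MulAction.orbitRel_apply] at h2
        obtain ⟨h, hh⟩ := h2
        exact ⟨h, hh⟩
      choose tr htr using hrep
      have hrep_smul : ∀ (h : G) (x : P), rep (h • x) = rep x := by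
        intro h x
        have : (Quotient.mk (MulAction.orbitRel G P) (h • x)) =
            Quotient.mk (MulAction.orbitRel G P) x := by
          apply Quotient.sound
          change (MulAction.orbitRel G P) (h • x) x
          rw [MulAction.orbitRel_apply]
          exact ⟨h, rfl⟩
        simp only [rep, this]
      have htr_smul : ∀ (h : G) (x : P), tr (h • x) = h * tr x := by
        intro h x
        have h1 := htr (h • x)
        rw [hrep_smul] at h1
        have h2 : (h * tr x) • rep x = h • x := by rw [mul_smul, htr]
        have h3 : ((h * tr x)⁻¹ * tr (h • x)) • rep x = rep x := by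
          rw [mul_smul, h1, ← h2, inv_smul_smul]
        have h4 := hfree _ _ h3
        rw [inv_mul_eq_one] at h4
        exact h4.symm
      choose! G0 hG0 using hsol
      let gx : P → List P → V := fun x l => ρ (tr x) (G0 (rep x) (l.map ((tr x)⁻¹ • ·)))
      have hrrep : ∀ x, r (rep x) = r x := fun x => by
        conv_rhs => rw [← htr x]
        rw [hrG]
      have hmapinv : ∀ (h : G) (l : List P), (l.map (h⁻¹ • ·)).map (h • ·) = l := by
        intro h l
        rw [List.map_map]
        convert List.map_id l using 2
        funext y
        simp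
      have hmapinv' : ∀ (h : G) (l : List P), (l.map (h • ·)).map (h⁻¹ • ·) = l := by
        intro h l
        have := hmapinv h⁻¹ l
        rwa [inv_inv] at this
      have hgx1 : ∀ (x : P), r x = j → ∀ l : List P, IsCh l →
          (∀ y ∈ l, x < y) → l.length = n → f' (x :: l) = dl l (gx x) := by
        intro x hx l h1 h2 h3
        set l0 := l.map ((tr x)⁻¹ • ·) with hl0
        have hl : l0.map (tr x • ·) = l := hmapinv (tr x) l
        have e1 : f' (x :: l) = ρ (tr x) (f' (rep x :: l0)) := by
          rw [← hf'e, List.map_cons, hl, htr]
        have hrx : rep x = (tr x)⁻¹ • x := by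
          have h7 := congrArg (fun y => (tr x)⁻¹ • y) (htr x)
          simp only [inv_smul_smul] at h7
          exact h7
        have e2 : f' (rep x :: l0) = dl l0 (G0 (rep x)) := by
          refine hG0 (rep x) ((hrrep x).trans hx) l0 ?_ ?_ ?_
          · rw [hl0]
            exact List.Pairwise.map _ (fun a b hab => hmono _ a b hab) h1
          · intro y hy
            rw [hl0, List.mem_map] at hy
            obtain ⟨z, hz, rfl⟩ := hy
            rw [hrx]
            exact hmono _ _ _ (h2 z hz)
          · rw [hl0, List.length_map, h3]
        rw [e1, e2]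
        conv_rhs => rw [← hl]
        rw [dl_map' (tr x • ·) (ρ (tr x)) (hρ (tr x)) l0 (gx x) (G0 (rep x))]
        intro l'
        simp only [gx, hmapinv']
      have hgx2 : ∀ (h : G) (x : P) (l : List P), gx (h • x) (l.map (h • ·)) = ρ h (gx x l) := by
        intro h x l
        simp only [gx]
        rw [hrep_smul, htr_smul, hρm, List.map_map]
        congr 3
        apply List.map_congr_left
        intro y _
        simp [mul_smul]
      -- the new cochain
      let g' : List P → V := fun l => match l with
        | [] => 0
        | x :: l => if r x = j then - gx x l else 0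
      have hg'e : ∀ (h : G) (l : List P), g' (l.map (h • ·)) = ρ h (g' l) := by
        intro h l
        match l with
        | [] => exact (hρ0 h).symm
        | x :: l =>
          change (if r (h • x) = j then - gx (h • x) (l.map (h • ·)) else 0) =
            ρ h (if r x = j then - gx x l else 0)
          rw [hrG, hgx2]
          split_ifs
          · rw [hρn]
          · rw [hρ0]
      have hg'0 : ∀ l : List P, IsCh l → (∀ y ∈ l, j < r y) → g' l = 0 := by
        intro l _ h2
        match l, h2 with
        | [], _ => rfl
        | x :: l, h2 =>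
          have := h2 x (by simp)
          change (if r x = j then - gx x l else 0) = 0
          rw [if_neg (by omega)]
      refine ⟨fun l => g l + g' l, fun h l => by
        change g (l.map (h • ·)) + g' (l.map (h • ·)) = ρ h (g l + g' l)
        rw [hg1, hg'e, hρa], ?_⟩
      intro x l h1 h2 h3
      have hlt : ∀ y ∈ l, x < y := (List.pairwise_cons.1 h1).1
      have hl : IsCh l := (List.pairwise_cons.1 h1).2
      have hadd : dl (x :: l) (fun l => g l + g' l) = dl (x :: l) g + dl (x :: l) g' := by
        have := dl_sub' (x :: l) (fun l => g l + g' l) g'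
        simp only [add_sub_cancel_right] at this
        rw [this]
        abel
      have hmain : f' (x :: l) = dl (x :: l) g' := by
        rcases Nat.lt_or_ge j (r x) with h4 | h4
        · rw [hf'0 x l h1 h2 h4]
          have : dl (x :: l) g' = dl (x :: l) (fun _ => (0 : V)) := by
            refine dl_congr' _ _ _ fun l' h5 _ => hg'0 l' (h1.sublist h5) fun y hy => ?_
            rcases List.mem_cons.1 (h5.subset hy) with rfl | hy'
            · exact h4
            · exact h4.trans (hr x y (hlt y hy'))
          rw [this, dl_zero']
        · have h5 : r x = j := by omega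
          rw [hgx1 x h5 l hl hlt h2, dl_cons', hg'0 l hl fun y hy => by
            rw [← h5]
            exact hr x y (hlt y hy)]
          have : (fun l' => g' (x :: l')) = fun l' => - gx x l' := by
            funext l'
            change (if r x = j then - gx x l' else 0) = _
            rw [if_pos h5]
          rw [this, dl_neg']
          abel
      rw [hadd, ← hmain]
      simp only [hf']
      abel
  obtain ⟨g, hg1, hg2⟩ := key (R + 1) le_rfl
  refine ⟨g, hg1, fun l h1 h2 => ?_⟩
  match l, h1, h2 with
  | x :: l, h1, h2 => exact hg2 x l h1 (by simpa using h2) (by omega)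

theorem equivariant_exact {k G P : Type} [CommRing k] [Group G] [PartialOrder P] [MulAction G P]
    (hmono : ∀ (g : G) (x y : P), x < y → g • x < g • y)
    (hfree : ∀ (g : G) (x : P), g • x = x → g = 1)
    (r : P → ℕ) (hr : ∀ x y, x < y → r x < r y) (hrG : ∀ (g : G) (x : P), r (g • x) = r x)
    (R : ℕ) (hR : ∀ x, r x ≤ R) (A : Rep k G) (n : ℕ)
    (hex : ∀ x : P, ExactAt {y | x < y} A.V n)
    (f : List P → A) (hf : ∀ (g : G) (l : List P), f (l.map (g • ·)) = A.ρ g (f l))
    (hcoc : ∀ l : List P, IsCh l → l.length = n + 2 → dl l f = 0) :
    ∃ g : List P → A, (∀ (h : G) (l : List P), g (l.map (h • ·)) = A.ρ h (g l)) ∧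
        ∀ l : List P, IsCh l → l.length = n + 1 → f l = dl l g := by
  exact equiv_aux (fun g a => A.ρ g a) (fun g a b => map_sub _ a b) (fun a => by simp)
    (fun g h a => by simp) hmono hfree r hr hrG R hR n hex f hf hcoc

end Pool.Agent.RC84
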