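import Pool.Agent.RC84.TopGen

/-!
# P12 of MP_8085d2_al: exactness for sign representations
-/

set_option autoImplicit false
set_option linter.unusedSectionVars false

namespace Pool.Agent.RC84

open scoped Classical

namespace Ex3SignAux

open UctAux

theorem zmod3 {x : ZMod 3} (h : -x = x) : x = 0 := by
  revert h
  revert x
  decide

end Ex3SignAux

open Ex3SignAux UctAux in
/-- P12 -/
theorem ex3_sign {V : Type} [Finite V] (Γ : SimpleGraph V) (hps : Pseudo Γ) {B : Set V}
    (hB : Gen Γ B) (hN : ExactAt (Clq Γ) (ZMod 3) 3) : Ex3 Γ (ZMod 3) (sgnAct B (ZMod 3)) := by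
  intro φ hinv hcoc
  obtain ⟨g, hg0, hg⟩ := top_of_gen Γ hps hB (ZMod 3) (ZMod 3) (by decide) φ
  -- the first correction
  obtain ⟨ψ₁, hψ₁⟩ : ∃ ψ : List (Finset V) → ZMod 3, ψ = fun l => if ∅ ∈ l then 0 else g l :=
    ⟨_, rfl⟩
  have hψ₁' : ∀ l : List (Finset V), (∀ x ∈ l, x ∈ Clq Γ) → ψ₁ l = g l := by
    intro l hl
    rw [hψ₁]
    exact if_neg fun h0 => (hl ∅ h0).1 rfl
  have hdψ₁ : ∀ l : List (Finset V), (∀ x ∈ l, x ∈ Clq Γ) → dl l ψ₁ = dl l g := by
    intro l hl
    exact dl_congr l fun l' hs _ => hψ₁' l' fun x hx => hl x (hs.subset hx)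
  obtain ⟨φ', hφ'⟩ : ∃ φ' : List (Finset V) → ZMod 3, φ' = φ - fun l => dl l ψ₁ := ⟨_, rfl⟩
  have hvan : ∀ l : List (Finset V), IsCh l → (∀ x ∈ l, x ∈ Clq Γ) → l.length = 4 → φ' l = 0 := by
    intro l hch hm hlen
    rcases l with _ | ⟨T, l⟩
    · simp at hlen
    rw [hφ', Pi.sub_apply, hdψ₁ _ hm]
    by_cases hT : (T : Set V) ⊆ B
    · rw [hg T l hch hm hlen hT, sub_self]
    · obtain ⟨s, hs, hsB⟩ := Set.not_subset.1 hT
      have h1 := hinv T l hch (fun x hx => (hm x hx).2) hlen s hs
      have h2 : φ (T :: l) = 0 := by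
        apply zmod3
        simpa [sgnAct, hsB] using h1
      have h3 : dl (T :: l) g = 0 := by
        show g l - dl l (fun l' => g (T :: l')) = 0
        have h4 : (fun l' => g (T :: l')) = (0 : List (Finset V) → ZMod 3) := by
          funext l'
          exact hg0 T l' hT
        rw [h4, dl_zero, sub_zero]
        rcases l with _ | ⟨T', l⟩
        · simp at hlen
        · refine hg0 T' l fun h5 => hT ?_
          have h6 : T < T' := (List.pairwise_cons.1 hch).1 T' (by simp)
          exact fun x hx => h5 (h6.1 hx)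
      rw [h2, h3, sub_zero]
  -- the second correction
  have hco : ∀ l : List (Finset V), IsCh l → (∀ x ∈ l, x ∈ Clq Γ) → l.length = 3 + 1 →
      dl l (fun l' => φ' (∅ :: l')) = 0 := by
    intro l hch hm hlen
    have hch' : IsCh (∅ :: l) := by
      refine List.pairwise_cons.2 ⟨fun x hx => ?_, hch⟩
      exact Finset.empty_ssubset.2 (Finset.nonempty_iff_ne_empty.2 (hm x hx).1)
    have h1 : dl (∅ :: l) φ' = 0 := by
      rw [hφ', dl_sub, dl_dl, sub_zero]
      refine hcoc _ hch' ?_ (by simp [hlen])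
      intro x hx
      rcases List.mem_cons.1 hx with rfl | hx
      · simp
      · exact (hm x hx).2
    have h2 : dl (∅ :: l) φ' = φ' l - dl l (fun l' => φ' (∅ :: l')) := rfl
    rw [h2, hvan l hch hm (by omega), zero_sub, neg_eq_zero] at h1
    exact h1
  obtain ⟨η, hη⟩ := hN (fun l' => φ' (∅ :: l')) hco
  obtain ⟨ψ₂, hψ₂⟩ : ∃ ψ : List (Finset V) → ZMod 3, ψ = fun l => if l.head? = some ∅ then
      - η l.tail else 0 := ⟨_, rfl⟩
  have hψ₂0 : ∀ (T : Finset V) (l : List (Finset V)), T ≠ ∅ → ψ₂ (T :: l) = 0 := by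
    intro T l hT
    rw [hψ₂]
    exact if_neg fun h => hT (Option.some.inj h)
  have hψ₂1 : ∀ (l : List (Finset V)), ψ₂ (∅ :: l) = - η l := by
    intro l
    rw [hψ₂]
    exact if_pos rfl
  refine ⟨ψ₁ + ψ₂, ?_, ?_⟩
  · intro T l hch hcl hlen s hs
    have hT : T ≠ ∅ := Finset.ne_empty_of_mem hs
    rw [Pi.add_apply, hψ₂0 T l hT, add_zero]
    unfold sgnAct
    split_ifs with hsB
    · rfl
    · have hall : ∀ x ∈ T :: l, x ∈ Clq Γ := by
        intro x hx
        refine ⟨?_, hcl x hx⟩
        rcases List.mem_cons.1 hx with rfl | hx'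
        · exact hT
        · have h6 : T < x := (List.pairwise_cons.1 hch).1 x hx'
          rintro rfl
          exact absurd h6 (Finset.not_ssubset_empty T)
      rw [hψ₁' _ hall, hg0 T l (fun h => hsB (h hs)), neg_zero]
  · intro l hch hcl hlen
    rw [dl_add]
    have hφ : φ l = dl l ψ₁ + φ' l := by
      rw [hφ', Pi.sub_apply]; abel
    rw [hφ]
    congr 1
    rcases l with _ | ⟨T, l⟩
    · simp at hlen
    by_cases hT : T = ∅
    · subst hT
      have hne : ∀ x ∈ l, x ∈ Clq Γ := by
        intro x hx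
        refine ⟨?_, hcl x (by simp [hx])⟩
        have h6 : ∅ < x := (List.pairwise_cons.1 hch).1 x hx
        rintro rfl
        exact absurd h6 (Finset.not_ssubset_empty _)
      have hch' : IsCh l := (List.pairwise_cons.1 hch).2
      have hlen' : l.length = 3 := by simpa using hlen
      have h1 := hη l hch' hne hlen'
      have h2 : dl (∅ :: l) ψ₂ = ψ₂ l - dl l (fun l' => ψ₂ (∅ :: l')) := rfl
      have h3 : (fun l' => ψ₂ (∅ :: l')) = (0 : List (Finset V) → ZMod 3) - η := by
        funext l'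
        rw [hψ₂1, Pi.sub_apply, Pi.zero_apply, zero_sub]
      have h4 : ψ₂ l = 0 := by
        rcases l with _ | ⟨T', l⟩
        · simp at hlen'
        · exact hψ₂0 T' l (hne T' (by simp)).1
      rw [h2, h3, dl_sub, dl_zero, h4, zero_sub, zero_sub, neg_neg, ← h1]
    · have hall : ∀ x ∈ T :: l, x ∈ Clq Γ := by
        intro x hx
        refine ⟨?_, hcl x hx⟩
        rcases List.mem_cons.1 hx with rfl | hx'
        · exact hT
        · have h6 : T < x := (List.pairwise_cons.1 hch).1 x hx'
          rintro rfl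
          exact absurd h6 (Finset.not_ssubset_empty T)
      rw [hvan _ hch hall hlen]
      symm
      have h0 : dl (T :: l) ψ₂ = dl (T :: l) (0 : List (Finset V) → ZMod 3) := by
        refine dl_congr _ fun l' hs hl' => ?_
        rcases l' with _ | ⟨T', l'⟩
        · simp only [List.length_nil, List.length_cons] at hlen hl'
          omega
        · exact hψ₂0 T' l' (hall T' (hs.subset (by simp))).1
      rw [h0, dl_zero]

end Pool.Agent.RC84
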