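import Pool.Agent.RC84.Bridge

/-!
# P10c: the kernel of the abelianisation is hyperbolic
-/

set_option autoImplicit false

namespace Pool.Agent.RC84

open scoped Classical

theorem hypGroup_of_mulEquiv {G H : Type*} [Group G] [Group H] (e : G ≃* H)
    (h : HypFI.HypGroup G) : HypFI.HypGroup H := by
  obtain ⟨S, d, δ, h1, h2, h3⟩ := h
  have hS : ∀ s : H, s ∈ S.map e.toEquiv.toEmbedding ↔ e.symm s ∈ S := by
    intro s
    rw [Finset.mem_map]
    constructor
    · rintro ⟨a, ha, rfl⟩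
      have : e.symm (e.toEquiv.toEmbedding a) = a := e.symm_apply_apply a
      rwa [this]
    · intro ha
      exact ⟨_, ha, e.apply_symm_apply s⟩
  refine ⟨S.map e.toEquiv.toEmbedding, fun a b => d (e.symm a) (e.symm b), δ, ?_, ?_, ?_⟩
  · have h4 : ((S.map e.toEquiv.toEmbedding : Finset H) : Set H) = e.toMonoidHom '' (S : Set G) := by
      rw [Finset.coe_map]
      rfl
    rw [h4, ← MonoidHom.map_closure, h1]
    exact Subgroup.map_top_of_surjective _ e.surjective
  · intro g k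
    refine (h2 _ _).trans ?_
    congr 1
    ext n
    constructor
    · rintro ⟨l, rfl, hl, hp⟩
      refine ⟨l.map e, by simp, ?_, ?_⟩
      · intro s hs
        obtain ⟨a, ha, rfl⟩ := List.mem_map.1 hs
        rw [hS, hS, map_inv, e.symm_apply_apply]
        exact hl a ha
      · rw [List.prod_hom l e, hp]
        simp
    · rintro ⟨l, rfl, hl, hp⟩
      refine ⟨l.map e.symm, by simp, ?_, ?_⟩
      · intro s hs
        obtain ⟨a, ha, rfl⟩ := List.mem_map.1 hs
        have := hl a ha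
        rw [hS, hS, map_inv] at this
        exact this
      · rw [List.prod_hom l e.symm, hp]
        simp
  · intro x y z w
    exact h3 _ _ _ _

theorem map_ker {V : Type} (Γ : SimpleGraph V) :
    (RACG.abHom Γ).ker.map (iso Γ : RACG.W Γ →* RA Γ) = (ab Γ).ker := by
  ext g
  rw [Subgroup.mem_map]
  constructor
  · rintro ⟨x, hx, rfl⟩
    rw [MonoidHom.mem_ker] at hx ⊢
    exact (ab_iso x).trans hx
  · intro hg
    obtain ⟨x, rfl⟩ := exists_iso g
    exact ⟨x, by rwa [MonoidHom.mem_ker, ab_iso] at hg, rfl⟩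

/-- P10c: the kernel of the abelianisation is hyperbolic -/
theorem hyp_ker {V : Type} [Finite V] (Γ : SimpleGraph V) (hsq : NoSquare Γ) :
    ∃ (S : Finset (ab Γ).ker) (d : (ab Γ).ker → (ab Γ).ker → ℕ) (δ : ℕ),
      Subgroup.closure (S : Set (ab Γ).ker) = ⊤ ∧
      (∀ g h : (ab Γ).ker, d g h = sInf {n : ℕ | ∃ l : List (ab Γ).ker, l.length = n ∧
          (∀ s ∈ l, s ∈ S ∨ s⁻¹ ∈ S) ∧ l.prod = g⁻¹ * h}) ∧
      (∀ x y z w : (ab Γ).ker,
        min ((d x w : ℤ) + (d y w : ℤ) - (d x y : ℤ))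
            ((d y w : ℤ) + (d z w : ℤ) - (d y z : ℤ)) - 2 * (δ : ℤ)
          ≤ (d x w : ℤ) + (d z w : ℤ) - (d x z : ℤ)) := by
  have := Fintype.ofFinite V
  have h1 : HypFI.HypGroup (RACG.abHom Γ).ker := RACG.hypGroup hsq _
  exact hypGroup_of_mulEquiv (((iso Γ).subgroupMap _).trans
    (MulEquiv.subgroupCongr (map_ker Γ))) h1

end Pool.Agent.RC84
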