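import Pool.Agent.RC84.Bridge

/-!
# P3: deep quotients, torsion-freeness
-/

set_option autoImplicit false

namespace Pool.Agent.RC84

open scoped Classical

theorem exists_deep_quotient {V ι : Type} [Finite V] [Fintype ι] (Γ : SimpleGraph V)
    (lam om : V → ι → ZMod 2) (h1 : ∀ v, om v ⬝ᵥ lam v = 1)
    (h2 : ∀ u v, Γ.Adj u v → om v ⬝ᵥ lam u = 0) (p : ℕ) [Fact p.Prime] (hp : p ≠ 2) (d : ℕ) :
    ∃ (Q : Type) (_ : Group Q) (_ : Finite Q) (π : RA Γ →* Q)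
      (χ : Q →* Multiplicative (ι → ZMod 2)),
      Function.Surjective π ∧ (∀ w, len Γ w ≤ d → π w = 1 → w = 1) ∧
      (∀ s, χ (π (gen Γ s)) = Multiplicative.ofAdd (lam s)) ∧ IsPGroup p χ.ker := by
  have _ := hp
  let om' : V → (ι → ZMod 2) →+ ZMod 2 := fun v =>
    { toFun := fun u => om v ⬝ᵥ u
      map_zero' := dotProduct_zero _
      map_add' := fun a b => dotProduct_add _ a b }
  let c : RACG.Col Γ p (ι → ZMod 2) := RACG.Col.ofHom p lam om'
    (fun v => by ext i; exact CharTwo.add_self_eq_zero _) h1 (fun v t h => h2 t v h.symm)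
  obtain ⟨Q, iQ, fQ, π, hs, hd, hk, hpow⟩ := RACG.exists_deep c d
  let π' : RA Γ →* Q := π.comp (iso Γ).symm.toMonoidHom
  have hπ' : ∀ w, π' w = π ((iso Γ).symm w) := fun w => rfl
  have hle : π.ker ≤ c.hom.ker := fun w hw => MonoidHom.mem_ker.2 (hk w (MonoidHom.mem_ker.1 hw))
  let χ : Q →* Multiplicative (ι → ZMod 2) := π.liftOfSurjective hs ⟨c.hom, hle⟩
  have hχ : ∀ w, χ (π w) = c.hom w := fun w =>
    MonoidHom.liftOfRightInverse_comp_apply π _ (Function.rightInverse_surjInv hs) ⟨c.hom, hle⟩ w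
  refine ⟨Q, iQ, fQ, π', χ, ?_, ?_, ?_, ?_⟩
  · intro q
    obtain ⟨w, rfl⟩ := hs q
    exact ⟨iso Γ w, by rw [hπ', MulEquiv.symm_apply_apply]⟩
  · intro w hw h
    rw [hπ'] at h
    have := hd _ h (by rwa [len_symm])
    exact (MulEquiv.map_eq_one_iff _).1 this
  · intro s
    rw [hπ', iso_symm_gen, hχ, c.hom_gen]
    rfl
  · rintro ⟨q, hq⟩
    obtain ⟨w, rfl⟩ := hs q
    obtain ⟨j, hj⟩ := hpow w (by rw [← hχ]; exact MonoidHom.mem_ker.1 hq)
    exact ⟨j, Subtype.ext (by simpa using hj)⟩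

/-- P3b (from P3) -/
theorem torsionfree_ker {V : Type} [Finite V] (Γ : SimpleGraph V) :
    ∀ g : (ab Γ).ker, g ≠ 1 → ¬ IsOfFinOrder g := by
  rintro ⟨g, hg⟩ hne hfin
  obtain ⟨x, rfl⟩ := exists_iso g
  rw [MonoidHom.mem_ker, ab_iso] at hg
  refine RACG.not_isOfFinOrder x hg ?_ ?_
  · rintro rfl
    exact hne (Subtype.ext (map_one _))
  · have h2 := MonoidHom.isOfFinOrder ((iso Γ).symm.toMonoidHom.comp (ab Γ).ker.subtype) hfin
    have h3 : ((iso Γ).symm.toMonoidHom.comp (ab Γ).ker.subtype) ⟨iso Γ x, by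
      rw [MonoidHom.mem_ker, ab_iso]; exact hg⟩ = x := (iso Γ).symm_apply_apply x
    rwa [h3] at h2

end Pool.Agent.RC84
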