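import Pool.Agent.RC84.Defs

/-!
# P16: simplicial cochains versus chains of cliques (helper84)
-/

set_option autoImplicit false

namespace Pool.Agent.RC84

open scoped Classical

/-- P16: simplicial versus barycentric subdivision -/
theorem exactAt_of_exN {V : Type} [LinearOrder V] (Γ : SimpleGraph V) (F : Type)
    [AddCommGroup F] (h : ExN Γ F) : ExactAt (Clq Γ) F 3 := by
  intro θ hθ
  -- the cocycle condition
  have h4 : ∀ T0 T1 T2 T3 : Finset V, T0 < T1 → T1 < T2 → T2 < T3 → T0 ≠ ∅ →
      Γ.IsClique (T3 : Set V) →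
      θ [T1, T2, T3] - (θ [T0, T2, T3] - (θ [T0, T1, T3] - θ [T0, T1, T2])) = 0 := by
    intro T0 T1 T2 T3 h01 h12 h23 h0 h3
    have hc2 : Γ.IsClique (T2 : Set V) := h3.subset (Finset.coe_subset.2 h23.le)
    have hc1 : Γ.IsClique (T1 : Set V) := hc2.subset (Finset.coe_subset.2 h12.le)
    have hc0 : Γ.IsClique (T0 : Set V) := hc1.subset (Finset.coe_subset.2 h01.le)
    have h1n : T1 ≠ ∅ := fun e => by simp [e] at h01
    have h2n : T2 ≠ ∅ := fun e => by simp [e] at h12
    have h3n : T3 ≠ ∅ := fun e => by simp [e] at h23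
    have := hθ [T0, T1, T2, T3] (by
      simp only [IsCh, List.pairwise_cons, List.mem_cons, List.not_mem_nil, or_false, forall_eq_or_imp,
        forall_eq, IsEmpty.forall_iff, implies_true, List.Pairwise.nil, and_true]
      exact ⟨⟨h01, h01.trans h12, (h01.trans h12).trans h23⟩, ⟨h12, h12.trans h23⟩, h23⟩)
      (by
        simp only [List.mem_cons, List.not_mem_nil, or_false, forall_eq_or_imp, forall_eq]
        exact ⟨⟨h0, hc0⟩, ⟨h1n, hc1⟩, ⟨h2n, hc2⟩, ⟨h3n, h3⟩⟩) rfl
    simpa [dl] using this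
  -- A1
  obtain ⟨A1, hA1⟩ : ∃ A1 : V → Finset V → Finset V → F, ∀ v T0 T1,
      A1 v T0 T1 = if T0 = {v} then 0 else θ [{v}, T0, T1] := ⟨_, fun _ _ _ => rfl⟩
  have hd1 : ∀ (v : V) (T0 T1 T2 : Finset V), T0 < T1 → T1 < T2 → v ∈ T0 → Γ.IsClique (T2 : Set V) →
      A1 v T1 T2 - A1 v T0 T2 + A1 v T0 T1 = θ [T0, T1, T2] := by
    intro v T0 T1 T2 h01 h12 hv h2
    have e1 : T1 ≠ {v} := by
      intro e
      rw [e, Finset.ssubset_singleton_iff] at h01
      simp [h01] at hv
    rw [hA1, hA1, hA1, if_neg e1]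
    by_cases e0 : T0 = {v}
    · rw [if_pos e0, if_pos e0, e0]; abel
    · rw [if_neg e0, if_neg e0]
      have hlt : ({v} : Finset V) < T0 := by
        exact lt_of_le_of_ne (Finset.singleton_subset_iff.2 hv) (fun e => e0 e.symm)
      have := h4 {v} T0 T1 T2 hlt h01 h12 (Finset.singleton_ne_empty v) h2
      have e := sub_eq_zero.1 this
      rw [e]; abel
  -- A2
  obtain ⟨A2, hA2⟩ : ∃ A2 : V → V → Finset V → F, ∀ u v T,
      A2 u v T = if T = {u, v} then 0 else A1 v {u, v} T - A1 u {u, v} T :=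
    ⟨_, fun _ _ _ => rfl⟩
  have hd2 : ∀ (u v : V) (T0 T1 : Finset V), T0 < T1 → u ∈ T0 → v ∈ T0 → Γ.IsClique (T1 : Set V) →
      A2 u v T1 - A2 u v T0 = A1 v T0 T1 - A1 u T0 T1 := by
    intro u v T0 T1 h01 hu hv h1
    have hsub : ({u, v} : Finset V) ⊆ T0 := by
      intro x hx
      simp only [Finset.mem_insert, Finset.mem_singleton] at hx
      rcases hx with rfl | rfl <;> assumption
    have e1 : T1 ≠ {u, v} := by
      intro e
      rw [e] at h01
      exact absurd (lt_of_le_of_lt hsub h01) (lt_irrefl _)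
    rw [hA2, hA2, if_neg e1]
    by_cases e0 : T0 = {u, v}
    · rw [if_pos e0, e0]; abel
    · rw [if_neg e0]
      have hlt : ({u, v} : Finset V) < T0 := lt_of_le_of_ne hsub (fun e => e0 e.symm)
      have hu' : u ∈ ({u, v} : Finset V) := by simp
      have hv' : v ∈ ({u, v} : Finset V) := by simp
      have k1 := hd1 v _ _ _ hlt h01 hv' h1
      have k2 := hd1 u _ _ _ hlt h01 hu' h1
      have := k1.trans k2.symm
      rw [← sub_eq_zero] at this ⊢
      rw [← neg_eq_zero, ← this]; abel
  -- B3 is independent of T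
  have hd3 : ∀ (u v w : V) (T0 T1 : Finset V), T0 ≤ T1 → u ∈ T0 → v ∈ T0 → w ∈ T0 → Γ.IsClique (T1 : Set V) →
      A2 v w T1 - (A2 u w T1 - A2 u v T1) = A2 v w T0 - (A2 u w T0 - A2 u v T0) := by
    intro u v w T0 T1 h01 hu hv hw h1
    rcases h01.lt_or_eq with h01 | rfl
    · have k1 := hd2 v w _ _ h01 hv hw h1
      have k2 := hd2 u w _ _ h01 hu hw h1
      have k3 := hd2 u v _ _ h01 hu hv h1
      rw [sub_eq_iff_eq_add] at k1 k2 k3
      rw [k1, k2, k3]; abel
    · rfl
  -- A3 and ExN
  obtain ⟨C, hC⟩ := h (fun l => match l with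
    | [u, v, w] => A2 v w {u, v, w} - (A2 u w {u, v, w} - A2 u v {u, v, w})
    | _ => 0) (by
      intro l hl hadj hlen
      obtain ⟨a, b, c, d, rfl⟩ : ∃ a b c d, l = [a, b, c, d] := by
        match l, hlen with
        | [a, b, c, d], _ => exact ⟨a, b, c, d, rfl⟩
      have hcl : Γ.IsClique (({a, b, c, d} : Finset V) : Set V) := by
        simp only [List.pairwise_cons, List.mem_cons, List.not_mem_nil, or_false, forall_eq_or_imp,
          forall_eq, IsEmpty.forall_iff, implies_true, List.Pairwise.nil, and_true] at hadj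
        obtain ⟨⟨h1, h2, h3⟩, ⟨h4, h5⟩, h6⟩ := hadj
        intro x hx y hy hxy
        simp only [Finset.coe_insert, Finset.coe_singleton, Set.mem_insert_iff,
          Set.mem_singleton_iff] at hx hy
        rcases hx with rfl | rfl | rfl | rfl <;> rcases hy with rfl | rfl | rfl | rfl <;>
          first
            | exact absurd rfl hxy
            | assumption
            | (apply SimpleGraph.Adj.symm; assumption)
      have s1 := hd3 b c d {b, c, d} {a, b, c, d}
        (by intro x; simp only [Finset.mem_insert, Finset.mem_singleton]; tauto)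
        (by simp) (by simp) (by simp) hcl
      have s2 := hd3 a c d {a, c, d} {a, b, c, d}
        (by intro x; simp only [Finset.mem_insert, Finset.mem_singleton]; tauto)
        (by simp) (by simp) (by simp) hcl
      have s3 := hd3 a b d {a, b, d} {a, b, c, d}
        (by intro x; simp only [Finset.mem_insert, Finset.mem_singleton]; tauto)
        (by simp) (by simp) (by simp) hcl
      have s4 := hd3 a b c {a, b, c} {a, b, c, d}
        (by intro x; simp only [Finset.mem_insert, Finset.mem_singleton]; tauto)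
        (by simp) (by simp) (by simp) hcl
      simp only [dl, sub_zero]
      rw [← s1, ← s2, ← s3, ← s4]; abel)
  have hC' : ∀ (u v w : V) (T : Finset V), u < v → v < w → u ∈ T → v ∈ T → w ∈ T → Γ.IsClique (T : Set V) →
      A2 v w T - (A2 u w T - A2 u v T) = C [v, w] - (C [u, w] - C [u, v]) := by
    intro u v w T huv hvw hu hv hw hT
    have hsub : ({u, v, w} : Finset V) ≤ T := by
      intro x hx
      simp only [Finset.mem_insert, Finset.mem_singleton] at hx
      rcases hx with rfl | rfl | rfl <;> assumption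
    have huw := huv.trans hvw
    rw [hd3 u v w {u, v, w} T hsub (by simp) (by simp) (by simp) hT]
    have := hC [u, v, w] (by simp [huv, hvw, huw]) (by
      simp only [List.pairwise_cons, List.mem_cons, List.not_mem_nil, or_false, forall_eq_or_imp,
        forall_eq, IsEmpty.forall_iff, implies_true, List.Pairwise.nil, and_true]
      exact ⟨⟨hT hu hv huv.ne, hT hu hw huw.ne⟩, hT hv hw hvw.ne⟩) rfl
    simpa [dl] using this
  -- E1
  obtain ⟨E1, hE1⟩ : ∃ E1 : V → Finset V → F, ∀ T : Finset V, Γ.IsClique (T : Set V) →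
      ∀ u v, u ∈ T → v ∈ T → u < v → E1 v T - E1 u T = A2 u v T - C [u, v] := by
    refine ⟨fun v T => if hT : T.Nonempty then
      (if v = T.min' hT then 0 else A2 (T.min' hT) v T - C [T.min' hT, v]) else 0, ?_⟩
    intro T hT u v hu hv huv
    have hne : T.Nonempty := ⟨u, hu⟩
    simp only [dif_pos hne]
    have hv0 : v ≠ T.min' hne := fun e => absurd (T.min'_le u hu) (by rw [← e]; exact not_le.2 huv)
    rw [if_neg hv0]
    by_cases hu0 : u = T.min' hne
    · rw [if_pos hu0, ← hu0]; abel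
    · rw [if_neg hu0]
      have hlt : T.min' hne < u := lt_of_le_of_ne (T.min'_le u hu) (fun e => hu0 e.symm)
      have := hC' _ u v T hlt huv (T.min'_mem hne) hu hv hT
      rw [← sub_eq_zero] at this ⊢
      rw [← neg_eq_zero, ← this]; abel
  -- G is independent of the vertex
  have hG : ∀ T0 T1 : Finset V, T0 < T1 → Γ.IsClique (T1 : Set V) → ∀ u v, u ∈ T0 → v ∈ T0 →
      A1 v T0 T1 - E1 v T1 + E1 v T0 = A1 u T0 T1 - E1 u T1 + E1 u T0 := by
    intro T0 T1 h01 h1
    have key : ∀ u v, u ∈ T0 → v ∈ T0 → u < v →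
        A1 v T0 T1 - E1 v T1 + E1 v T0 = A1 u T0 T1 - E1 u T1 + E1 u T0 := by
      intro u v hu hv huv
      have k1 := hE1 T1 h1 u v (h01.le hu) (h01.le hv) huv
      have k0 := hE1 T0 (h1.subset (Finset.coe_subset.2 h01.le)) u v hu hv huv
      have k2 := hd2 u v T0 T1 h01 hu hv h1
      rw [sub_eq_iff_eq_add] at k1 k0 k2
      rw [k1, k0, k2]
      rw [← sub_eq_zero]
      abel_nf
    intro u v hu hv
    rcases lt_trichotomy u v with huv | rfl | huv
    · exact key u v hu hv huv
    · rfl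
    · exact (key v u hv hu huv).symm
  refine ⟨fun l => match l with
    | [T0, T1] => if hT : T0.Nonempty then
        A1 (T0.min' hT) T0 T1 - E1 (T0.min' hT) T1 + E1 (T0.min' hT) T0 else 0
    | _ => 0, ?_⟩
  intro l hl hS hlen
  obtain ⟨T0, T1, T2, rfl⟩ : ∃ T0 T1 T2, l = [T0, T1, T2] := by
    match l, hlen with
    | [a, b, c], _ => exact ⟨a, b, c, rfl⟩
  simp only [IsCh, List.pairwise_cons, List.mem_cons, List.not_mem_nil, or_false, forall_eq_or_imp,
    forall_eq, IsEmpty.forall_iff, implies_true, List.Pairwise.nil, and_true] at hl hS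
  obtain ⟨⟨h01, h02⟩, h12⟩ := hl
  obtain ⟨⟨h0n, h0⟩, ⟨h1n, h1⟩, ⟨h2n, h2⟩⟩ := hS
  have n0 : T0.Nonempty := Finset.nonempty_iff_ne_empty.2 h0n
  have n1 : T1.Nonempty := Finset.nonempty_iff_ne_empty.2 h1n
  simp only [dl, sub_zero, dif_pos n0, dif_pos n1]
  have hv0 := T0.min'_mem n0
  rw [hG T1 T2 h12 h2 (T0.min' n0) (T1.min' n1) (h01.le hv0) (T1.min'_mem n1),
    ← hd1 (T0.min' n0) T0 T1 T2 h01 h12 hv0 h2]
  abel

end Pool.Agent.RC84
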