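import Pool.Agent.RC84.Basic0
import Pool.Agent.RC84.Cosets
import Pool.Agent.RC84.CPAcyclic
import Pool.Agent.RC84.Cohom
import Pool.Agent.RC84.CubesA
import Pool.Agent.RC84.CubesB
import Pool.Agent.RC84.CPoset

/-!
# The top class: `H⁵(G; 𝔽₂) ≠ 0` for the kernel of the abelianisation of the thickened group
-/

set_option autoImplicit false

namespace Pool.Agent.RC84

open scoped Classical

section TC

variable {V Q : Type} [Group Q] (Γ : SimpleGraph V) (π : RA Γ →* Q)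

/-- the coset poset of the thickening -/
private abbrev TcP : Type := CP (thick Γ π) (cubes Γ π)

private noncomputable def tcMk (w : RA (thick Γ π)) (T : Finset Q) (hT : T ∈ cubes Γ π) :
    TcP Γ π := ⟨cos (thick Γ π) w T, w, T, hT, rfl⟩

private theorem tcMk_val (w : RA (thick Γ π)) (T : Finset Q) (hT : T ∈ cubes Γ π) :
    (tcMk Γ π w T hT).1 = cos (thick Γ π) w T := rfl

private theorem tcMk_smul (g w : RA (thick Γ π)) (T : Finset Q) (hT : T ∈ cubes Γ π) :
    g • tcMk Γ π w T hT = tcMk Γ π (g * w) T hT := by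
  apply Subtype.ext
  rw [CP.smul_val]
  exact image_cos _ _ _ _

/-- the coset of the empty clique -/
private noncomputable def tcK0 (w : RA (thick Γ π)) : TcP Γ π := tcMk Γ π w ∅ (Or.inl rfl)

/-- the coset of a cube -/
private noncomputable def tcK (w : RA (thick Γ π)) (q : Q) (S : Finset V) : TcP Γ π :=
  if h : Γ.IsClique (S : Set V) then tcMk Γ π w (cube Γ π q S) (Or.inr ⟨q, S, h, rfl⟩)
  else tcK0 Γ π w

variable {Γ π}

private theorem tcK_val {w : RA (thick Γ π)} {q : Q} {S : Finset V}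
    (h : Γ.IsClique (S : Set V)) :
    (tcK Γ π w q S).1 = cos (thick Γ π) w (cube Γ π q S) := by
  unfold tcK
  rw [dif_pos h]
  rfl

private theorem tcK0_smul (g w : RA (thick Γ π)) : g • tcK0 Γ π w = tcK0 Γ π (g * w) :=
  tcMk_smul Γ π _ _ _ _

private theorem tcK_smul (g w : RA (thick Γ π)) (q : Q) (S : Finset V) :
    g • tcK Γ π w q S = tcK Γ π (g * w) q S := by
  unfold tcK
  split_ifs with h
  · exact tcMk_smul Γ π _ _ _ _
  · exact tcK0_smul _ _

private theorem tc_cube_empty (q : Q) : cube Γ π q ∅ = {q} := by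
  unfold cube
  rw [Finset.powerset_empty, Finset.image_singleton, pr_empty, map_one, mul_one]

private theorem tc_self_mem_cube (q : Q) (S : Finset V) : q ∈ cube Γ π q S := by
  unfold cube
  rw [Finset.mem_image]
  exact ⟨∅, Finset.mem_powerset.2 (Finset.empty_subset _), by rw [pr_empty, map_one, mul_one]⟩

private theorem tc_clique_cube {q : Q} {S : Finset V} (h : Γ.IsClique (S : Set V)) :
    (thick Γ π).IsClique (cube Γ π q S : Set Q) := cubes_clique (Or.inr ⟨q, S, h, rfl⟩)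

private theorem tc_clique_empty : (thick Γ π).IsClique ((∅ : Finset Q) : Set Q) := by
  simp

private theorem tc_cos_lt {w : RA (thick Γ π)} {T T' : Finset Q}
    (hT : (thick Γ π).IsClique (T : Set Q)) (hT' : (thick Γ π).IsClique (T' : Set Q))
    (h : T ⊂ T') : cos (thick Γ π) w T ⊂ cos (thick Γ π) w T' := by
  have hw : ∀ U : Finset Q, w ∈ cos (thick Γ π) w U := fun U =>
    ⟨∅, Finset.empty_subset _, by rw [pr_empty, mul_one]⟩
  rw [Set.ssubset_iff_subset_ne]
  refine ⟨(cos_subset_iff _ hT hT').2 ⟨h.1, hw _⟩, ?_⟩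
  intro he
  have h2 := (cos_subset_iff (thick Γ π) (w := w) (w' := w) hT' hT).1 he.symm.subset
  exact h.2 h2.1

private theorem tcK0_lt {w : RA (thick Γ π)} {q : Q} {S : Finset V}
    (h : Γ.IsClique (S : Set V)) : tcK0 Γ π w < tcK Γ π w q S := by
  change (tcK0 Γ π w).1 < (tcK Γ π w q S).1
  rw [tcK_val h]
  apply tc_cos_lt tc_clique_empty (tc_clique_cube h)
  rw [Finset.empty_ssubset]
  exact ⟨q, tc_self_mem_cube q S⟩

variable (hps : Pseudo Γ) (hd : Deep Γ π)
include hps hd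

private theorem tcK_lt {w : RA (thick Γ π)} {q : Q} {S S' : Finset V}
    (h : Γ.IsClique (S : Set V)) (h' : Γ.IsClique (S' : Set V)) (hlt : S ⊂ S') :
    tcK Γ π w q S < tcK Γ π w q S' := by
  change (tcK Γ π w q S).1 < (tcK Γ π w q S').1
  rw [tcK_val h, tcK_val h']
  apply tc_cos_lt (tc_clique_cube h) (tc_clique_cube h')
  constructor
  · exact (cube_subset_iff hd hps.card_le h h').2 ⟨hlt.1, tc_self_mem_cube _ _⟩
  · intro h2
    exact hlt.2 ((cube_subset_iff hd hps.card_le h' h).1 h2).1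

omit hps hd in
private theorem tcK_congr_w {w : RA (thick Γ π)} {q : Q} {S : Finset V}
    (h : Γ.IsClique (S : Set V)) :
    tcK Γ π (w * gen (thick Γ π) q) q S = tcK Γ π w q S := by
  apply Subtype.ext
  rw [tcK_val h, tcK_val h]
  apply mem_cos_symm _ (tc_clique_cube h)
  refine ⟨{q}, ?_, by rw [pr_singleton]⟩
  intro x hx
  rw [Finset.mem_singleton] at hx
  rw [hx]
  exact tc_self_mem_cube q S

omit hd in
private theorem tcK_congr_q {w : RA (thick Γ π)} {q : Q} {S : Finset V} {a : V}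
    (h : Γ.IsClique (S : Set V)) (ha : a ∈ S) :
    tcK Γ π w (q * π (gen Γ a)) S = tcK Γ π w q S := by
  apply Subtype.ext
  rw [tcK_val h, tcK_val h]
  congr 1
  apply mem_cube_eq hps.card_le h
  unfold cube
  rw [Finset.mem_image]
  refine ⟨{a}, ?_, by rw [pr_singleton]⟩
  rw [Finset.mem_powerset, Finset.singleton_subset_iff]
  exact ha

omit hps hd in
private theorem tc_cos_inj {w w' : RA (thick Γ π)} {T T' : Finset Q}
    (hT : (thick Γ π).IsClique (T : Set Q)) (hT' : (thick Γ π).IsClique (T' : Set Q))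
    (h : cos (thick Γ π) w T = cos (thick Γ π) w' T') : T = T' :=
  Finset.Subset.antisymm ((cos_subset_iff _ hT hT').1 h.subset).1
    ((cos_subset_iff _ hT' hT).1 h.symm.subset).1

private theorem tcK_inj {w w' : RA (thick Γ π)} {q q' : Q} {S S' : Finset V}
    (h : Γ.IsClique (S : Set V)) (h' : Γ.IsClique (S' : Set V))
    (he : tcK Γ π w q S = tcK Γ π w' q' S') : S = S' := by
  have h1 := congrArg Subtype.val he
  rw [tcK_val h, tcK_val h'] at h1
  have h2 := tc_cos_inj (tc_clique_cube h) (tc_clique_cube h') h1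
  exact Finset.Subset.antisymm ((cube_subset_iff hd hps.card_le h h').1 h2.subset).1
    ((cube_subset_iff hd hps.card_le h' h).1 h2.symm.subset).1

omit hps hd in
private theorem tcK_inj_q {w w' : RA (thick Γ π)} {q q' : Q}
    (he : tcK Γ π w q ∅ = tcK Γ π w' q' ∅) : q = q' := by
  have h0 : Γ.IsClique ((∅ : Finset V) : Set V) := by simp
  have h1 := congrArg Subtype.val he
  rw [tcK_val h0, tcK_val h0] at h1
  have h2 := tc_cos_inj (tc_clique_cube h0) (tc_clique_cube h0) h1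
  rw [tc_cube_empty, tc_cube_empty] at h2
  exact Finset.singleton_injective h2

omit hps hd in
private theorem tcK0_inj {w w' : RA (thick Γ π)} (he : tcK0 Γ π w = tcK0 Γ π w') : w = w' := by
  have h1 : cos (thick Γ π) w ∅ = cos (thick Γ π) w' ∅ := congrArg Subtype.val he
  have h2 : w ∈ cos (thick Γ π) w' ∅ := by
    rw [← h1]
    exact ⟨∅, Finset.empty_subset _, by rw [pr_empty, mul_one]⟩
  obtain ⟨A, hA, hw⟩ := h2
  rw [Finset.subset_empty.1 hA, pr_empty, mul_one] at hw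
  exact hw

/-! ### chains are short -/

omit hps hd in
private theorem tc_len_le {α : Type} [Preorder α] (ρ : α → ℕ) (R : ℕ)
    (h1 : ∀ x y, x < y → ρ x < ρ y) (h2 : ∀ x, ρ x ≤ R) (l : List α) (hl : IsCh l) :
    l.length ≤ R + 1 := by
  have h3 : (l.map ρ).Nodup := by
    rw [List.Nodup, List.pairwise_map]
    exact List.Pairwise.imp (fun {a b} hab => (h1 a b hab).ne) hl
  have h4 : (l.map ρ).toFinset ⊆ Finset.range (R + 1) := by
    intro n hn
    rw [List.mem_toFinset, List.mem_map] at hn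
    obtain ⟨x, -, rfl⟩ := hn
    rw [Finset.mem_range]
    exact Nat.lt_succ_of_le (h2 x)
  have h5 := Finset.card_le_card h4
  rw [List.toFinset_card_of_nodup h3, List.length_map, Finset.card_range] at h5
  exact h5

/-- the type of an element of the coset poset -/
private noncomputable def tcTp (x : TcP Γ π) : Finset Q := x.2.choose_spec.choose

omit hps hd in
private theorem tcTp_spec (x : TcP Γ π) : ∃ w, tcTp x ∈ cubes Γ π ∧
    x.1 = cos (thick Γ π) w (tcTp x) :=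
  ⟨x.2.choose, x.2.choose_spec.choose_spec.1, x.2.choose_spec.choose_spec.2⟩

omit hps hd in
private theorem tcTp_lt {x y : TcP Γ π} (h : x < y) : tcTp x ⊂ tcTp y := by
  obtain ⟨w, hw, hw2⟩ := tcTp_spec x
  obtain ⟨w', hw', hw2'⟩ := tcTp_spec y
  have h1 : x.1 ⊆ y.1 := h.le
  have h2 : x.1 ≠ y.1 := fun h3 => h.ne (Subtype.ext h3)
  rw [hw2, hw2'] at h1 h2
  have h3 := (cos_subset_iff _ (cubes_clique hw) (cubes_clique hw')).1 h1
  refine ⟨h3.1, fun h4 => h2 ?_⟩
  have h5 : tcTp x = tcTp y := Finset.Subset.antisymm h3.1 h4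
  rw [h5]
  exact mem_cos_symm _ (cubes_clique hw') h3.2

/-- the clique of a cube -/
private noncomputable def tcRk (Γ : SimpleGraph V) (π : RA Γ →* Q) (c : Finset Q) : ℕ :=
  if h : ∃ (q : Q) (S : Finset V), Γ.IsClique (S : Set V) ∧ c = cube Γ π q S then
    h.choose_spec.choose.card + 1
  else 0

omit hps hd in
private theorem tcRk_empty : tcRk Γ π ∅ = 0 := by
  unfold tcRk
  rw [dif_neg]
  rintro ⟨q, S, -, h⟩
  have := tc_self_mem_cube (Γ := Γ) (π := π) q S
  rw [← h] at this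
  simp at this

private theorem tcRk_cube {q : Q} {S : Finset V} (hS : Γ.IsClique (S : Set V)) :
    tcRk Γ π (cube Γ π q S) = S.card + 1 := by
  unfold tcRk
  have hex : ∃ (q' : Q) (S' : Finset V), Γ.IsClique (S' : Set V) ∧
      cube Γ π q S = cube Γ π q' S' := ⟨q, S, hS, rfl⟩
  rw [dif_pos hex]
  have h1 := hex.choose_spec.choose_spec
  have h2 : S = hex.choose_spec.choose := Finset.Subset.antisymm
    ((cube_subset_iff hd hps.card_le hS h1.1).1 h1.2.subset).1
    ((cube_subset_iff hd hps.card_le h1.1 hS).1 h1.2.symm.subset).1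
  rw [← h2]

private theorem tcRk_lt {c c' : Finset Q} (hc : c ∈ cubes Γ π) (hc' : c' ∈ cubes Γ π)
    (h : c ⊂ c') : tcRk Γ π c < tcRk Γ π c' := by
  rcases hc' with rfl | ⟨q', S', hS', rfl⟩
  · exact absurd h (Finset.not_ssubset_empty _)
  · rw [tcRk_cube hps hd hS']
    rcases hc with rfl | ⟨q, S, hS, rfl⟩
    · rw [tcRk_empty]; omega
    · rw [tcRk_cube hps hd hS]
      have h1 := (cube_subset_iff hd hps.card_le hS hS').1 h.1
      have h2 : S ⊂ S' := by
        refine ⟨h1.1, fun h3 => ?_⟩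
        have h4 : S = S' := Finset.Subset.antisymm h1.1 h3
        subst h4
        exact h.2 (mem_cube_eq hps.card_le hS h1.2).symm.subset
      have := Finset.card_lt_card h2
      omega

private theorem tcRk_le {c : Finset Q} (hc : c ∈ cubes Γ π) : tcRk Γ π c ≤ 5 := by
  rcases hc with rfl | ⟨q, S, hS, rfl⟩
  · rw [tcRk_empty]; omega
  · rw [tcRk_cube hps hd hS]
    have := hps.card_le S hS
    omega

private theorem tc_chain_le (l : List (TcP Γ π)) (hl : IsCh l) : l.length ≤ 6 :=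
  tc_len_le (fun x : TcP Γ π => tcRk Γ π (tcTp x)) 5
    (fun x y h => tcRk_lt hps hd (tcTp_spec x).choose_spec.1 (tcTp_spec y).choose_spec.1
      (tcTp_lt h))
    (fun x => tcRk_le hps hd (tcTp_spec x).choose_spec.1) l hl

/-! ### flags -/

omit hps hd in
private theorem tc_cl {a b c d : V} (h : Tet Γ a b c d) :
    Γ.IsClique (({a, b, c, d} : Finset V) : Set V) := by
  obtain ⟨h1, h2, h3, h4, h5, h6⟩ := h
  intro x hx y hy hxy
  simp only [Finset.coe_insert, Finset.coe_singleton, Set.mem_insert_iff,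
    Set.mem_singleton_iff] at hx hy
  rcases hx with rfl | rfl | rfl | rfl <;> rcases hy with rfl | rfl | rfl | rfl <;>
    first
    | exact absurd rfl hxy
    | assumption
    | (apply SimpleGraph.Adj.symm; assumption)

omit hps hd in
private theorem tc_cl3 {a b c d : V} (h : Tet Γ a b c d) :
    Γ.IsClique (({a, b, c} : Finset V) : Set V) := by
  refine (tc_cl h).subset ?_
  intro x hx
  simp only [Finset.coe_insert, Finset.coe_singleton, Set.mem_insert_iff,
    Set.mem_singleton_iff] at hx ⊢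
  tauto

omit hps hd in
private theorem tc_cl2 {a b c d : V} (h : Tet Γ a b c d) :
    Γ.IsClique (({a, b} : Finset V) : Set V) := by
  refine (tc_cl h).subset ?_
  intro x hx
  simp only [Finset.coe_insert, Finset.coe_singleton, Set.mem_insert_iff,
    Set.mem_singleton_iff] at hx ⊢
  tauto

omit hps hd in
private theorem tc_cl1 {a : V} : Γ.IsClique (({a} : Finset V) : Set V) := by
  simp

omit hps hd in
private theorem tc_cl0 : Γ.IsClique ((∅ : Finset V) : Set V) := by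
  simp

/-- complete flags -/
private noncomputable def tcFL (Γ : SimpleGraph V) (π : RA Γ →* Q) (w : RA (thick Γ π)) (q : Q)
    (a b c d : V) : List (TcP Γ π) :=
  [tcK0 Γ π w, tcK Γ π w q ∅, tcK Γ π w q {a}, tcK Γ π w q {a, b}, tcK Γ π w q {a, b, c},
    tcK Γ π w q {a, b, c, d}]

private theorem tcFL_chain {w : RA (thick Γ π)} {q : Q} {a b c d : V} (h : Tet Γ a b c d) :
    IsCh (tcFL Γ π w q a b c d) := by
  have h1 : tcK0 Γ π w < tcK Γ π w q ∅ := tcK0_lt tc_cl0
  have h2 : tcK Γ π w q ∅ < tcK Γ π w q {a} := tcK_lt hps hd tc_cl0 tc_cl1 (by simp)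
  have h3 : tcK Γ π w q {a} < tcK Γ π w q {a, b} := by
    refine tcK_lt hps hd tc_cl1 (tc_cl2 h) ?_
    rw [Finset.ssubset_iff_of_subset (by simp)]
    exact ⟨b, by simp, by simpa using h.1.ne'⟩
  have h4 : tcK Γ π w q {a, b} < tcK Γ π w q {a, b, c} := by
    refine tcK_lt hps hd (tc_cl2 h) (tc_cl3 h) ?_
    rw [Finset.ssubset_iff_of_subset (by intro x; simp; tauto)]
    refine ⟨c, by simp, ?_⟩
    have := h.2.1.ne'
    have := h.2.2.2.1.ne'
    simp only [Finset.mem_insert, Finset.mem_singleton]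
    tauto
  have h5 : tcK Γ π w q {a, b, c} < tcK Γ π w q {a, b, c, d} := by
    refine tcK_lt hps hd (tc_cl3 h) (tc_cl h) ?_
    rw [Finset.ssubset_iff_of_subset (by intro x; simp; tauto)]
    refine ⟨d, by simp, ?_⟩
    have := h.2.2.1.ne'
    have := h.2.2.2.2.1.ne'
    have := h.2.2.2.2.2.ne'
    simp only [Finset.mem_insert, Finset.mem_singleton]
    tauto
  have t1 := h1.trans h2
  have t2 := h2.trans h3
  have t3 := h3.trans h4
  have t4 := h4.trans h5
  have t5 := t1.trans h3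
  have t6 := t2.trans h4
  have t7 := t3.trans h5
  have t8 := t5.trans h4
  have t9 := t6.trans h5
  have t10 := t8.trans h5
  unfold IsCh tcFL
  simp only [List.pairwise_cons, List.mem_cons, List.not_mem_nil, or_false, forall_eq_or_imp,
    forall_eq, List.Pairwise.nil, and_true, IsEmpty.forall_iff]
  exact ⟨⟨h1, t1, t5, t8, t10⟩, ⟨h2, t2, t6, t9⟩, ⟨h3, t3, t7⟩, ⟨h4, t4⟩, h5, fun _ => trivial⟩

omit hps hd in
private theorem tcFL_smul (g w : RA (thick Γ π)) (q : Q) (a b c d : V) :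
    (tcFL Γ π w q a b c d).map (g • ·) = tcFL Γ π (g * w) q a b c d := by
  unfold tcFL
  simp only [List.map_cons, List.map_nil, tcK_smul, tcK0_smul]

private theorem tcFL_inj {w w' : RA (thick Γ π)} {q q' : Q} {a b c d a' b' c' d' : V}
    (h : Tet Γ a b c d) (h' : Tet Γ a' b' c' d')
    (he : tcFL Γ π w q a b c d = tcFL Γ π w' q' a' b' c' d') :
    w = w' ∧ q = q' ∧ a = a' ∧ b = b' ∧ c = c' ∧ d = d' := by
  unfold tcFL at he
  simp only [List.cons.injEq, and_true] at he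
  obtain ⟨e0, e1, e2, e3, e4, e5⟩ := he
  have f2 := tcK_inj hps hd tc_cl1 tc_cl1 e2
  have f3 := tcK_inj hps hd (tc_cl2 h) (tc_cl2 h') e3
  have f4 := tcK_inj hps hd (tc_cl3 h) (tc_cl3 h') e4
  have f5 := tcK_inj hps hd (tc_cl h) (tc_cl h') e5
  have ha : a = a' := by simpa using f2
  subst ha
  have hb : b = b' := by
    have : b ∈ ({a, b'} : Finset V) := by rw [← f3]; simp
    simp only [Finset.mem_insert, Finset.mem_singleton] at this
    rcases this with h1 | h1
    · exact absurd h1 h.1.ne'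
    · exact h1
  subst hb
  have hc : c = c' := by
    have : c ∈ ({a, b, c'} : Finset V) := by rw [← f4]; simp
    simp only [Finset.mem_insert, Finset.mem_singleton] at this
    rcases this with h1 | h1 | h1
    · exact absurd h1 h.2.1.ne'
    · exact absurd h1 h.2.2.2.1.ne'
    · exact h1
  subst hc
  have hd' : d = d' := by
    have : d ∈ ({a, b, c, d'} : Finset V) := by rw [← f5]; simp
    simp only [Finset.mem_insert, Finset.mem_singleton] at this
    rcases this with h1 | h1 | h1 | h1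
    · exact absurd h1 h.2.2.1.ne'
    · exact absurd h1 h.2.2.2.2.1.ne'
    · exact absurd h1 h.2.2.2.2.2.ne'
    · exact h1
  exact ⟨tcK0_inj e0, tcK_inj_q e1, rfl, rfl, rfl, hd'⟩

/-! ### summation over all flags -/

omit hps hd in
private theorem tc_sum0 {Ω : Type} [DecidableEq Ω] (s : Finset Ω) (E : Ω → ZMod 2) (σ : Ω → Ω)
    (h1 : ∀ ω ∈ s, E (σ ω) = E ω) (h2 : ∀ ω ∈ s, σ ω ≠ ω) (h3 : ∀ ω ∈ s, σ ω ∈ s)
    (h4 : ∀ ω ∈ s, σ (σ ω) = ω) : ∑ ω ∈ s, E ω = 0 := by
  refine Finset.sum_involution (fun ω _ => σ ω) ?_ ?_ ?_ ?_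
  · intro ω hω
    change E ω + E (σ ω) = 0
    rw [h1 ω hω]
    exact CharTwo.add_self_eq_zero _
  · exact fun ω hω _ => h2 ω hω
  · exact h3
  · exact h4

private theorem tc_contra [Finite V] [Finite Q] {a0 b0 c0 d0 : V} (h0 : Tet Γ a0 b0 c0 d0)
    (g : List (TcP Γ π) → ZMod 2)
    (hg : ∀ (h : (ab (thick Γ π)).ker) (l : List (TcP Γ π)), g (l.map (h • ·)) = g l)
    (H : ∀ l : List (TcP Γ π), IsCh l → l.length = 6 →
      (if ∃ h : (ab (thick Γ π)).ker, l = (tcFL Γ π 1 1 a0 b0 c0 d0).map (h • ·) then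
        (1 : ZMod 2) else 0) = dl l g) : False := by
  have := Fintype.ofFinite V
  have := Fintype.ofFinite Q
  have : Finite (Multiplicative (Q → ZMod 2)) := inferInstanceAs (Finite (Q → ZMod 2))
  have : Finite (ab (thick Γ π)).range := inferInstance
  have := Fintype.ofFinite (ab (thick Γ π)).range
  -- representatives
  have hsec : ∀ v : (ab (thick Γ π)).range, ∃ w : RA (thick Γ π),
      ab (thick Γ π) w = (v : Multiplicative (Q → ZMod 2)) := fun v => v.2
  choose sec hsec using hsec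
  -- invariance
  have inv : ∀ (E : RA (thick Γ π) → ZMod 2), (∀ (h : (ab (thick Γ π)).ker) w,
      E ((h : RA (thick Γ π)) * w) = E w) → ∀ u w, ab (thick Γ π) u = ab (thick Γ π) w →
      E u = E w := by
    intro E hE u w huw
    have h1 : u * w⁻¹ ∈ (ab (thick Γ π)).ker := by
      rw [MonoidHom.mem_ker, map_mul, huw, map_inv, mul_inv_cancel]
    have h2 := hE ⟨u * w⁻¹, h1⟩ w
    simpa using h2
  let Ω := (ab (thick Γ π)).range × Q × V × V × V × V
  let s : Finset Ω := Finset.univ.filter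
    (fun ω : Ω => Tet Γ ω.2.2.1 ω.2.2.2.1 ω.2.2.2.2.1 ω.2.2.2.2.2)
  let F : Ω → List (TcP Γ π) := fun ω =>
    tcFL Γ π (sec ω.1) ω.2.1 ω.2.2.1 ω.2.2.2.1 ω.2.2.2.2.1 ω.2.2.2.2.2
  have hmem : ∀ ω : Ω, ω ∈ s ↔ Tet Γ ω.2.2.1 ω.2.2.2.1 ω.2.2.2.2.1 ω.2.2.2.2.2 := by
    intro ω
    simp only [s, Finset.mem_filter, Finset.mem_univ, true_and]
  -- omit position 0
  let E0 : RA (thick Γ π) → Q → V → V → V → V → ZMod 2 := fun w q a b c d =>
    g [tcK Γ π w q ∅, tcK Γ π w q {a}, tcK Γ π w q {a, b}, tcK Γ π w q {a, b, c},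
      tcK Γ π w q {a, b, c, d}]
  have S0 : ∑ ω ∈ s, E0 (sec ω.1) ω.2.1 ω.2.2.1 ω.2.2.2.1 ω.2.2.2.2.1 ω.2.2.2.2.2 = 0 := by
    have hE : ∀ q a b c d (h : (ab (thick Γ π)).ker) w,
        E0 ((h : RA (thick Γ π)) * w) q a b c d = E0 w q a b c d := by
      intro q a b c d h w
      have h1 := hg h [tcK Γ π w q ∅, tcK Γ π w q {a}, tcK Γ π w q {a, b},
        tcK Γ π w q {a, b, c}, tcK Γ π w q {a, b, c, d}]
      simp only [List.map_cons, List.map_nil, Subgroup.smul_def, tcK_smul] at h1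
      exact h1
    have hx : ∀ q : Q, ab (thick Γ π) (gen (thick Γ π) q) * ab (thick Γ π) (gen (thick Γ π) q) = 1 := by
      intro q
      rw [← map_mul, gen_mul_self, map_one]
    refine tc_sum0 s _ (fun ω => (ω.1 * ⟨ab (thick Γ π) (gen (thick Γ π) ω.2.1), _, rfl⟩, ω.2))
      ?_ ?_ ?_ ?_
    · rintro ⟨v, q, a, b, c, d⟩ hω
      have hT : Tet Γ a b c d := (hmem _).1 hω
      simp only
      rw [inv (fun w => E0 w q a b c d) (hE q a b c d) _ (sec v * gen (thick Γ π) q)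
        (by rw [hsec, map_mul, hsec]; rfl)]
      simp only [E0]
      rw [tcK_congr_w tc_cl0, tcK_congr_w tc_cl1, tcK_congr_w (tc_cl2 hT),
        tcK_congr_w (tc_cl3 hT), tcK_congr_w (tc_cl hT)]
    · rintro ⟨v, q, a, b, c, d⟩ hω h
      have h1 : v * ⟨ab (thick Γ π) (gen (thick Γ π) q), _, rfl⟩ = v := congrArg Prod.fst h
      have h2 := mul_eq_left.1 h1
      have h3 : ab (thick Γ π) (gen (thick Γ π) q) = 1 := congrArg Subtype.val h2
      have h4 := ab_gen_apply (thick Γ π) q q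
      rw [h3, if_pos rfl] at h4
      have h5 : (0 : ZMod 2) = 1 := h4
      exact absurd h5 (by decide)
    · rintro ⟨v, q, a, b, c, d⟩ hω
      rw [hmem] at hω ⊢
      exact hω
    · rintro ⟨v, q, a, b, c, d⟩ hω
      refine Prod.ext ?_ rfl
      apply Subtype.ext
      simp only [Subgroup.coe_mul, mul_assoc, hx, mul_one]
  -- omit position 1
  let E1 : RA (thick Γ π) → Q → V → V → V → V → ZMod 2 := fun w q a b c d =>
    g [tcK0 Γ π w, tcK Γ π w q {a}, tcK Γ π w q {a, b}, tcK Γ π w q {a, b, c},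
      tcK Γ π w q {a, b, c, d}]
  have S1 : ∑ ω ∈ s, E1 (sec ω.1) ω.2.1 ω.2.2.1 ω.2.2.2.1 ω.2.2.2.2.1 ω.2.2.2.2.2 = 0 := by
    have hx : ∀ a : V, π (gen Γ a) * π (gen Γ a) = 1 := by
      intro a
      rw [← map_mul, gen_mul_self, map_one]
    refine tc_sum0 s _ (fun ω => (ω.1, ω.2.1 * π (gen Γ ω.2.2.1), ω.2.2)) ?_ ?_ ?_ ?_
    · rintro ⟨v, q, a, b, c, d⟩ hω
      have hT : Tet Γ a b c d := (hmem _).1 hω
      simp only [E1]
      rw [tcK_congr_q hps tc_cl1 (by simp), tcK_congr_q hps (tc_cl2 hT) (by simp),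
        tcK_congr_q hps (tc_cl3 hT) (by simp), tcK_congr_q hps (tc_cl hT) (by simp)]
    · rintro ⟨v, q, a, b, c, d⟩ hω h
      have h1 : q * π (gen Γ a) = q := congrArg (fun x : Ω => x.2.1) h
      have h2 := mul_eq_left.1 h1
      have h3 := hd (gen Γ a) (by rw [len_gen]; norm_num) h2
      have h4 := len_gen Γ a
      rw [h3, len_one] at h4
      exact absurd h4 (by norm_num)
    · rintro ⟨v, q, a, b, c, d⟩ hω
      rw [hmem] at hω ⊢
      exact hω
    · rintro ⟨v, q, a, b, c, d⟩ hω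
      simp only [mul_assoc, hx, mul_one]
  -- omit position 2
  let E2 : RA (thick Γ π) → Q → V → V → V → V → ZMod 2 := fun w q a b c d =>
    g [tcK0 Γ π w, tcK Γ π w q ∅, tcK Γ π w q {a, b}, tcK Γ π w q {a, b, c},
      tcK Γ π w q {a, b, c, d}]
  have S2 : ∑ ω ∈ s, E2 (sec ω.1) ω.2.1 ω.2.2.1 ω.2.2.2.1 ω.2.2.2.2.1 ω.2.2.2.2.2 = 0 := by
    refine tc_sum0 s _ (fun ω => (ω.1, ω.2.1, ω.2.2.2.1, ω.2.2.1, ω.2.2.2.2)) ?_ ?_ ?_ ?_
    · rintro ⟨v, q, a, b, c, d⟩ hω
      simp only [E2]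
      rw [Finset.pair_comm b a, Finset.insert_comm b a {c}, Finset.insert_comm b a {c, d}]
    · rintro ⟨v, q, a, b, c, d⟩ hω h
      have hT : Tet Γ a b c d := (hmem _).1 hω
      have h1 : b = a := congrArg (fun x : Ω => x.2.2.1) h
      exact hT.1.ne' h1
    · rintro ⟨v, q, a, b, c, d⟩ hω
      rw [hmem] at hω ⊢
      obtain ⟨h1, h2, h3, h4, h5, h6⟩ := hω
      exact ⟨h1.symm, h4, h5, h2, h3, h6⟩
    · rintro ⟨v, q, a, b, c, d⟩ hω
      rfl
  -- omit position 3
  let E3 : RA (thick Γ π) → Q → V → V → V → V → ZMod 2 := fun w q a b c d =>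
    g [tcK0 Γ π w, tcK Γ π w q ∅, tcK Γ π w q {a}, tcK Γ π w q {a, b, c},
      tcK Γ π w q {a, b, c, d}]
  have S3 : ∑ ω ∈ s, E3 (sec ω.1) ω.2.1 ω.2.2.1 ω.2.2.2.1 ω.2.2.2.2.1 ω.2.2.2.2.2 = 0 := by
    refine tc_sum0 s _ (fun ω => (ω.1, ω.2.1, ω.2.2.1, ω.2.2.2.2.1, ω.2.2.2.1, ω.2.2.2.2.2))
      ?_ ?_ ?_ ?_
    · rintro ⟨v, q, a, b, c, d⟩ hω
      simp only [E3]
      rw [Finset.pair_comm c b, Finset.insert_comm c b {d}]
    · rintro ⟨v, q, a, b, c, d⟩ hω h
      have hT : Tet Γ a b c d := (hmem _).1 hω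
      have h1 : c = b := congrArg (fun x : Ω => x.2.2.2.1) h
      exact hT.2.2.2.1.ne' h1
    · rintro ⟨v, q, a, b, c, d⟩ hω
      rw [hmem] at hω ⊢
      obtain ⟨h1, h2, h3, h4, h5, h6⟩ := hω
      exact ⟨h2, h1, h3, h4.symm, h6, h5⟩
    · rintro ⟨v, q, a, b, c, d⟩ hω
      rfl
  -- omit position 4
  let E4 : RA (thick Γ π) → Q → V → V → V → V → ZMod 2 := fun w q a b c d =>
    g [tcK0 Γ π w, tcK Γ π w q ∅, tcK Γ π w q {a}, tcK Γ π w q {a, b},
      tcK Γ π w q {a, b, c, d}]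
  have S4 : ∑ ω ∈ s, E4 (sec ω.1) ω.2.1 ω.2.2.1 ω.2.2.2.1 ω.2.2.2.2.1 ω.2.2.2.2.2 = 0 := by
    refine tc_sum0 s _ (fun ω => (ω.1, ω.2.1, ω.2.2.1, ω.2.2.2.1, ω.2.2.2.2.2, ω.2.2.2.2.1))
      ?_ ?_ ?_ ?_
    · rintro ⟨v, q, a, b, c, d⟩ hω
      simp only [E4]
      rw [Finset.pair_comm d c]
    · rintro ⟨v, q, a, b, c, d⟩ hω h
      have hT : Tet Γ a b c d := (hmem _).1 hω
      have h1 : d = c := congrArg (fun x : Ω => x.2.2.2.2.1) h
      exact hT.2.2.2.2.2.ne' h1
    · rintro ⟨v, q, a, b, c, d⟩ hω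
      rw [hmem] at hω ⊢
      obtain ⟨h1, h2, h3, h4, h5, h6⟩ := hω
      exact ⟨h1, h3, h2, h5, h4, h6.symm⟩
    · rintro ⟨v, q, a, b, c, d⟩ hω
      rfl
  -- omit position 5
  let E5 : RA (thick Γ π) → Q → V → V → V → V → ZMod 2 := fun w q a b c d =>
    g [tcK0 Γ π w, tcK Γ π w q ∅, tcK Γ π w q {a}, tcK Γ π w q {a, b},
      tcK Γ π w q {a, b, c}]
  have S5 : ∑ ω ∈ s, E5 (sec ω.1) ω.2.1 ω.2.2.1 ω.2.2.2.1 ω.2.2.2.2.1 ω.2.2.2.2.2 = 0 := by
    have hch : ∀ a b c d : V, ∃ d' : V, Tet Γ a b c d →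
        d' ≠ d ∧ Tet Γ a b c d' ∧ ∀ x, Tet Γ a b c x → x = d ∨ x = d' := by
      intro a b c d
      by_cases h : Tet Γ a b c d
      · obtain ⟨d', h1⟩ := hps.two a b c d h
        exact ⟨d', fun _ => h1⟩
      · exact ⟨d, fun h' => absurd h' h⟩
    choose ch hch using hch
    refine tc_sum0 s _ (fun ω => (ω.1, ω.2.1, ω.2.2.1, ω.2.2.2.1, ω.2.2.2.2.1,
      ch ω.2.2.1 ω.2.2.2.1 ω.2.2.2.2.1 ω.2.2.2.2.2)) ?_ ?_ ?_ ?_
    · rintro ⟨v, q, a, b, c, d⟩ hω
      rfl
    · rintro ⟨v, q, a, b, c, d⟩ hω h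
      have hT : Tet Γ a b c d := (hmem _).1 hω
      have h1 : ch a b c d = d := congrArg (fun x : Ω => x.2.2.2.2.2) h
      exact (hch a b c d hT).1 h1
    · rintro ⟨v, q, a, b, c, d⟩ hω
      rw [hmem] at hω ⊢
      exact (hch a b c d hω).2.1
    · rintro ⟨v, q, a, b, c, d⟩ hω
      have hT : Tet Γ a b c d := (hmem _).1 hω
      have h1 := hch a b c d hT
      have h2 := hch a b c (ch a b c d) h1.2.1
      have h3 : ch a b c (ch a b c d) = d := by
        rcases h1.2.2 _ h2.2.1 with h | h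
        · exact h
        · exact absurd h h2.1
      simp only [h3]
  -- the value of the cochain
  have key : ∀ ω ∈ s, (if ∃ h : (ab (thick Γ π)).ker,
      F ω = (tcFL Γ π 1 1 a0 b0 c0 d0).map (h • ·) then (1 : ZMod 2) else 0) =
      E0 (sec ω.1) ω.2.1 ω.2.2.1 ω.2.2.2.1 ω.2.2.2.2.1 ω.2.2.2.2.2 -
      (E1 (sec ω.1) ω.2.1 ω.2.2.1 ω.2.2.2.1 ω.2.2.2.2.1 ω.2.2.2.2.2 -
      (E2 (sec ω.1) ω.2.1 ω.2.2.1 ω.2.2.2.1 ω.2.2.2.2.1 ω.2.2.2.2.2 -
      (E3 (sec ω.1) ω.2.1 ω.2.2.1 ω.2.2.2.1 ω.2.2.2.2.1 ω.2.2.2.2.2 -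
      (E4 (sec ω.1) ω.2.1 ω.2.2.1 ω.2.2.2.1 ω.2.2.2.2.1 ω.2.2.2.2.2 -
      E5 (sec ω.1) ω.2.1 ω.2.2.1 ω.2.2.2.1 ω.2.2.2.2.1 ω.2.2.2.2.2)))) := by
    rintro ⟨v, q, a, b, c, d⟩ hω
    have hT : Tet Γ a b c d := (hmem _).1 hω
    rw [H (F (v, q, a, b, c, d)) (tcFL_chain hps hd hT) rfl]
    simp only [F, tcFL, dl, E0, E1, E2, E3, E4, E5, sub_zero]
  have hsum := Finset.sum_congr rfl key
  simp only [Finset.sum_sub_distrib] at hsum
  rw [S0, S1, S2, S3, S4, S5] at hsum
  -- the left hand side is one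
  have hone : ∑ ω ∈ s, (if ∃ h : (ab (thick Γ π)).ker,
      F ω = (tcFL Γ π 1 1 a0 b0 c0 d0).map (h • ·) then (1 : ZMod 2) else 0) = 1 := by
    rw [Finset.sum_eq_single ((1, 1, a0, b0, c0, d0) : Ω)]
    · rw [if_pos]
      have h1 : sec 1 ∈ (ab (thick Γ π)).ker := by
        rw [MonoidHom.mem_ker, hsec]; rfl
      refine ⟨⟨sec 1, h1⟩, ?_⟩
      have h2 := tcFL_smul (Γ := Γ) (π := π) (sec 1) 1 1 a0 b0 c0 d0
      rw [mul_one] at h2
      exact h2.symm
    · rintro ⟨v, q, a, b, c, d⟩ hω hne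
      rw [if_neg]
      rintro ⟨h, hF⟩
      apply hne
      have hT : Tet Γ a b c d := (hmem _).1 hω
      have h2 := tcFL_smul (Γ := Γ) (π := π) (h : RA (thick Γ π)) 1 1 a0 b0 c0 d0
      rw [mul_one] at h2
      have h3 : tcFL Γ π (sec v) q a b c d = tcFL Γ π (h : RA (thick Γ π)) 1 a0 b0 c0 d0 := by
        rw [← h2]
        exact hF
      obtain ⟨e1, rfl, rfl, rfl, rfl, rfl⟩ := tcFL_inj hps hd hT h0 h3
      have hv : v = 1 := by
        apply Subtype.ext
        rw [← hsec v, e1]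
        exact h.2
      rw [hv]
    · intro h
      exact absurd ((hmem _).2 h0) h
  rw [hone] at hsum
  exact absurd hsum (by decide)

end TC

/-- the top class -/
theorem top_class {V Q : Type} [Finite V] [Group Q] [Finite Q] (Γ : SimpleGraph V)
    (hps : Pseudo Γ) (π : RA Γ →* Q) (hs : Function.Surjective π) (hd : Deep Γ π) :
    Nontrivial (groupCohomology
      (Rep.trivial ℤ (ab (thick Γ π)).ker (ZMod 2)) 5) := by
  have hcl : ∀ T ∈ cubes Γ π, (thick Γ π).IsClique (T : Set Q) := fun T hT => cubes_clique hT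
  have hac : Acyclic ℤ (CP (thick Γ π) (cubes Γ π)) :=
    CP_acyclic (thick Γ π) (cubes Γ π) (Or.inl rfl) hcl
      (fun T hT T' hT' => cube_inter_mem hd hps.card_le hT hT')
      (fun T hT => cubes_cover hd hps.card_le T hT) 16
      (fun T hT => cubes_card hps.card_le hT) ℤ
  obtain ⟨a0, b0, c0, d0, h0⟩ := hps.ne
  have hmono : ∀ (g : (ab (thick Γ π)).ker) (x y : CP (thick Γ π) (cubes Γ π)), x < y →
      g • x < g • y :=
    fun g x y h => CP_smul_lt (thick Γ π) (cubes Γ π) (g : RA (thick Γ π)) x y h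
  have hfree : ∀ (g : (ab (thick Γ π)).ker) (x : CP (thick Γ π) (cubes Γ π)), g • x = x →
      g = 1 := fun g x h => CP_free (thick Γ π) (cubes Γ π) hcl g x h
  refine cohomology_nonvanish hmono hfree hac
    (Rep.trivial ℤ (ab (thick Γ π)).ker (ZMod 2)) 5 (by norm_num)
    (fun l => if ∃ h : (ab (thick Γ π)).ker, l = (tcFL Γ π 1 1 a0 b0 c0 d0).map (h • ·) then
        (1 : ZMod 2) else 0) ?_ ?_ ?_
  · intro g l
    have hiff : (∃ h : (ab (thick Γ π)).ker,
        l.map (g • ·) = (tcFL Γ π 1 1 a0 b0 c0 d0).map (h • ·)) ↔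
        ∃ h : (ab (thick Γ π)).ker, l = (tcFL Γ π 1 1 a0 b0 c0 d0).map (h • ·) := by
      constructor
      · rintro ⟨h, hh⟩
        refine ⟨g⁻¹ * h, ?_⟩
        have h1 := congrArg (List.map (g⁻¹ • ·)) hh
        rw [List.map_map, List.map_map] at h1
        have h2 : ((fun x : CP (thick Γ π) (cubes Γ π) => g⁻¹ • x) ∘ (g • ·)) = id := by
          funext x
          simp
        rw [h2, List.map_id] at h1
        rw [h1]
        congr 1
        funext x
        simp [mul_smul]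
      · rintro ⟨h, rfl⟩
        refine ⟨g * h, ?_⟩
        rw [List.map_map]
        congr 1
        funext x
        simp [mul_smul]
    by_cases hc : ∃ h : (ab (thick Γ π)).ker, l = (tcFL Γ π 1 1 a0 b0 c0 d0).map (h • ·)
    · rw [if_pos hc, if_pos (hiff.2 hc)]
      rfl
    · rw [if_neg hc, if_neg (fun h => hc (hiff.1 h))]
      rfl
  · intro l hl hlen
    have := tc_chain_le hps hd l hl
    omega
  · intro g hg
    by_contra hcon
    push Not at hcon
    refine tc_contra hps hd h0 g (fun h l => hg h l) (fun l h1 h2 => ?_)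
    exact hcon l h1 h2

end Pool.Agent.RC84
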