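import Pool.Agent.RC84.Nerve
import Pool.Agent.RC84.TopClass
import Pool.Agent.RC84.CubeExactA
import Pool.Agent.RC84.CubeExactB
import Pool.Agent.RC84.P3
import Pool.Agent.RC84.P10
import Pool.Agent.RC84.Devissage
import Pool.Agent.RC84.Ex3Sign
import Pool.Agent.RC84.Sd
import Pool.Agent.RC84.Equiv
import Pool.Agent.RC84.CPAcyclic

/-!
# Assembly of MP_8085d2_al (S02083): a torsion-free hyperbolic group with rational cohomological
dimension at most 3 and integral cohomological dimension at least 5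

The group is the kernel of the abelianisation of the right-angled Coxeter group of the
thickening `L` of a deep finite quotient `Q` of the right-angled Coxeter group of a flag
triangulation `N` (106 vertices, no induced squares) of a closed nonorientable 3-manifold.
-/

set_option autoImplicit false

namespace Pool.Agent.RC84

open scoped Classical

/-! ## Assembly -/

theorem exactAt_of_no_chain {α : Type} [Preorder α] (S : Set α) (M : Type) [AddCommGroup M]
    (n : ℕ) (h : ∀ l : List α, IsCh l → (∀ x ∈ l, x ∈ S) → l.length ≠ n) : ExactAt S M n :=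
  fun _ _ => ⟨fun _ => 0, fun l h1 h2 h3 => absurd h3 (h l h1 h2)⟩

theorem cubes_upper_exact {V Q : Type} [Finite V] [Group Q] [Finite Q] (Γ : SimpleGraph V)
    (hps : Pseudo Γ) (hG : Gen Γ Set.univ) (π : RA Γ →* Q) (hs : Function.Surjective π)
    (hd : Deep Γ π) (h4 : ExactAt {c | c ∈ cubes Γ π ∧ c ≠ ∅} (ZMod 3) 4)
    (M : Type) [AddCommGroup M] [Module ℚ M] (n : ℕ) (hn : 4 ≤ n) (c : Finset Q)
    (hc : c ∈ cubes Γ π) : ExactAt {c' | c' ∈ cubes Γ π ∧ c < c'} M n := by
  have hchain : ∀ (q : Q) (T : Finset V), Γ.IsClique (T : Set V) → c = cube Γ π q T →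
      4 < n + T.card → ExactAt {c' | c' ∈ cubes Γ π ∧ c < c'} M n := by
    intro q T hT hcT hlt
    apply exactAt_of_no_chain
    intro l hl hm hln
    have hch : IsCh (cube Γ π q T :: l) := by
      refine List.pairwise_cons.2 ⟨fun x hx => ?_, hl⟩
      rw [← hcT]
      exact (hm x hx).2
    have := cubes_chain_length Γ hps π hd q T hT l hch (fun x hx => (hm x hx).1)
    omega
  rcases hc with rfl | ⟨q, T, hT, rfl⟩
  · have hset : {c' : Finset Q | c' ∈ cubes Γ π ∧ ∅ < c'} = {c | c ∈ cubes Γ π ∧ c ≠ ∅} := by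
      ext c'
      simp only [Set.mem_setOf_eq, Finset.lt_eq_subset, Finset.empty_ssubset,
        Finset.nonempty_iff_ne_empty]
    rw [hset]
    rcases Nat.lt_or_ge n 6 with h6 | h6
    · rcases Nat.lt_or_ge n 5 with h5 | h5
      · obtain rfl : n = 4 := by omega
        exact uct _ (Set.toFinite _) 4 h4 M
      · obtain rfl : n = 5 := by omega
        exact exact_cubes_top Γ hps hG π hs hd M
    · apply exactAt_of_no_chain
      intro l hl hm hln
      rcases l with _ | ⟨x, l⟩
      · simp at hln; omega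
      · obtain ⟨hx1, hx2⟩ := hm x (by simp)
        rcases hx1 with rfl | ⟨q, T, hT, rfl⟩
        · exact hx2 rfl
        · have := cubes_chain_length Γ hps π hd q T hT l hl
            (fun y hy => (hm y (by simp [hy])).1)
          simp at hln
          omega
  · by_cases hT0 : T = ∅
    · subst hT0
      rcases Nat.lt_or_ge n 5 with h5 | h5
      · obtain rfl : n = 4 := by omega
        exact exact_cubes_vertex Γ hps hG π hs hd M q
      · exact hchain q ∅ hT rfl (by simp; omega)
    · have := Finset.card_pos.2 (Finset.nonempty_iff_ne_empty.2 hT0)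
      exact hchain q T hT rfl (by omega)

theorem main :
    ∃ (G : Type) (inst : Group G),
    (∀ g : G, g ≠ 1 → ¬ IsOfFinOrder g) ∧
    (∃ (S : Finset G) (d : G → G → ℕ) (δ : ℕ),
      Subgroup.closure (S : Set G) = ⊤ ∧
      (∀ g h : G, d g h = sInf {n : ℕ | ∃ l : List G, l.length = n ∧
          (∀ s ∈ l, s ∈ S ∨ s⁻¹ ∈ S) ∧ l.prod = g⁻¹ * h}) ∧
      (∀ x y z w : G,
        min ((d x w : ℤ) + (d y w : ℤ) - (d x y : ℤ))
            ((d y w : ℤ) + (d z w : ℤ) - (d y z : ℤ)) - 2 * (δ : ℤ)
          ≤ (d x w : ℤ) + (d z w : ℤ) - (d x z : ℤ))) ∧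
    ∃ m n : ℕ, 3 * m < 2 * n ∧
      (∀ (A : Rep ℚ G) (k : ℕ), m < k → Subsingleton (groupCohomology A k)) ∧
      (∃ (A : Rep ℤ G) (k : ℕ), n ≤ k ∧ Nontrivial (groupCohomology A k)) := by
  obtain ⟨Γ, lam, om, hps, hsq, h1, h2, hgen, hexN⟩ := nerve_data
  obtain ⟨Q, iQ, fQ, π, χ, hs, hd, hχ, hp⟩ :=
    exists_deep_quotient Γ lam om h1 h2 3 (by norm_num) 16
  have hcN : ExactAt (Clq Γ) (ZMod 3) 3 := exactAt_of_exN Γ (ZMod 3) hexN
  have hB : ∀ ω : Fin 8 → ZMod 2,
      Ex3 Γ (ZMod 3) (sgnAct {v | ω ⬝ᵥ lam v = 0} (ZMod 3)) :=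
    fun ω => ex3_sign Γ hps (hgen ω) hcN
  have hM := ex3_of_pgroup Γ lam hB π hs χ hχ hp
  have h4 := exact_cubes_zmod Γ hps π hs hd hM
  have hG : Gen Γ Set.univ := by
    have := hgen 0
    simpa using this
  let L : SimpleGraph Q := thick Γ π
  have hcl : ∀ T ∈ cubes Γ π, L.IsClique (T : Set Q) := fun T hT => cubes_clique hT
  have hac : ∀ (k : Type) [CommRing k], Acyclic k (CP L (cubes Γ π)) := by
    intro k _
    exact CP_acyclic L (cubes Γ π) (Or.inl rfl) hcl
      (fun T hT T' hT' => cube_inter_mem hd hps.card_le hT hT')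
      (fun T hT => cubes_cover hd hps.card_le T hT) 16
      (fun T hT => cubes_card hps.card_le hT) k
  refine ⟨(ab L).ker, inferInstance, torsionfree_ker L,
    hyp_ker L (thick_noSquare hd hps.card_le hsq), 3, 5, by norm_num, ?_, ?_⟩
  · intro A n hn
    have hmono : ∀ (g : (ab L).ker) (x y : CP L (cubes Γ π)), x < y → g • x < g • y :=
      fun g x y h => CP_smul_lt L (cubes Γ π) (g : RA L) x y h
    have hfree : ∀ (g : (ab L).ker) (x : CP L (cubes Γ π)), g • x = x → g = 1 :=
      fun g x h => CP_free L (cubes Γ π) hcl g x h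
    refine cohomology_vanish hmono hfree (hac ℚ) A n (by omega) ?_
    intro f hf hcoc
    refine equivariant_exact hmono hfree (fun x => x.1.ncard) ?_ ?_ (2 ^ 16) ?_ A n ?_ f hf hcoc
    · exact fun x y h => CP_ncard_lt L (cubes Γ π) x y h
    · exact fun g x => CP_ncard_smul L (cubes Γ π) (g : RA L) x
    · exact fun x => CP_ncard_le L (cubes Γ π) 16 (fun T hT => cubes_card hps.card_le hT) x
    · intro x
      refine CP_upper_exact L (cubes Γ π) hcl A.V n (fun c hc => ?_) x
      exact cubes_upper_exact Γ hps hG π hs hd h4 A.V n (by omega) c hc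
  · exact ⟨Rep.trivial ℤ (ab L).ker (ZMod 2), 5, le_rfl, top_class Γ hps π hs hd⟩

end Pool.Agent.RC84
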