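import Pool.Agent.RC84.Basic1

/-!
# Medians and thin intervals in right-angled Coxeter groups (package P10a, P10b)
-/

set_option autoImplicit false

namespace Pool.Agent.RC84

open scoped Classical

section
variable {V : Type} (Γ : SimpleGraph V)

/-- a common prefix of maximal length -/
theorem median_common_prefix (a b : RA Γ) :
    ∃ m a' b' : RA Γ, a = m * a' ∧ b = m * b' ∧ len Γ a = len Γ m + len Γ a' ∧
      len Γ b = len Γ m + len Γ b' ∧
      ∀ s, ¬ (len Γ (gen Γ s * a') < len Γ a' ∧ len Γ (gen Γ s * b') < len Γ b') := by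
  induction hn : len Γ a generalizing a b with
  | zero =>
    rw [len_eq_zero] at hn
    subst hn
    refine ⟨1, 1, b, by simp, by simp, by simp [len_one], by simp [len_one], ?_⟩
    rintro s ⟨h, -⟩
    rw [len_one] at h
    omega
  | succ n ih =>
    by_cases h : ∃ s, len Γ (gen Γ s * a) < len Γ a ∧ len Γ (gen Γ s * b) < len Γ b
    · obtain ⟨s, hsa, hsb⟩ := h
      have h1 := len_gen_mul Γ a s
      have h2 := len_gen_mul Γ b s
      obtain ⟨m, a', b', ha, hb, hla, hlb, hd⟩ := ih (gen Γ s * a) (gen Γ s * b) (by omega)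
      have ea : a = gen Γ s * m * a' := by
        rw [mul_assoc, ← ha, ← mul_assoc, gen_mul_self, one_mul]
      have eb : b = gen Γ s * m * b' := by
        rw [mul_assoc, ← hb, ← mul_assoc, gen_mul_self, one_mul]
      have h3 := len_mul_le Γ (gen Γ s * m) a'
      have h4 := len_mul_le Γ (gen Γ s) m
      rw [len_gen] at h4
      rw [← ea] at h3
      refine ⟨gen Γ s * m, a', b', ea, eb, by omega, by omega, hd⟩
    · push Not at h
      refine ⟨1, a, b, by simp, by simp, by simp [len_one, hn], by simp [len_one], ?_⟩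
      rintro s ⟨h1, h2⟩
      have := h s h1
      omega

theorem median_len_inv_mul {a b : RA Γ}
    (h : ∀ s, ¬ (len Γ (gen Γ s * a) < len Γ a ∧ len Γ (gen Γ s * b) < len Γ b)) :
    len Γ (a⁻¹ * b) = len Γ a + len Γ b := by
  rw [len_mul_of_disjoint Γ a⁻¹ b, len_inv]
  rintro s ⟨h1, h2⟩
  rw [len_inv_mul_gen, len_inv] at h1
  exact h s ⟨h1, h2⟩

/-- P10a: medians in right-angled Coxeter groups -/
theorem RA_median (x y z : RA Γ) :
    ∃ m, len Γ (x⁻¹ * m) + len Γ (m⁻¹ * y) = len Γ (x⁻¹ * y) ∧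
      len Γ (y⁻¹ * m) + len Γ (m⁻¹ * z) = len Γ (y⁻¹ * z) ∧
      len Γ (x⁻¹ * m) + len Γ (m⁻¹ * z) = len Γ (x⁻¹ * z) := by
  obtain ⟨m, a, b, ha, hb, hla, hlb, hd⟩ := median_common_prefix Γ (z⁻¹ * x) (z⁻¹ * y)
  have hx : x = z * m * a := by rw [mul_assoc, ← ha]; simp
  have hy : y = z * m * b := by rw [mul_assoc, ← hb]; simp
  have e1 : x⁻¹ * (z * m) = a⁻¹ := by rw [hx]; group
  have e2 : (z * m)⁻¹ * y = b := by rw [hy]; group
  have e3 : x⁻¹ * y = a⁻¹ * b := by rw [hx, hy]; group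
  have e4 : y⁻¹ * (z * m) = b⁻¹ := by rw [hy]; group
  have e5 : (z * m)⁻¹ * z = m⁻¹ := by group
  have e6 : y⁻¹ * z = (z⁻¹ * y)⁻¹ := by group
  have e7 : x⁻¹ * z = (z⁻¹ * x)⁻¹ := by group
  refine ⟨z * m, ?_, ?_, ?_⟩
  · rw [e1, e2, e3, len_inv, median_len_inv_mul Γ hd]
  · rw [e4, e5, e6, len_inv, len_inv, len_inv, hlb]
    omega
  · rw [e1, e5, e7, len_inv, len_inv, len_inv, hla]
    omega

theorem median_prod_cons (s : V) (l : List V) :
    ((s :: l).map (gen Γ)).prod = gen Γ s * (l.map (gen Γ)).prod := by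
  rw [List.map_cons, List.prod_cons]

theorem median_cancel (s : V) (w : RA Γ) : gen Γ s * (gen Γ s * w) = w := by
  rw [← mul_assoc, gen_mul_self, one_mul]

/-- (A) -/
theorem median_desc_adj (s : V) (l : List V) (w : RA Γ)
    (hl : len Γ (l.map (gen Γ)).prod = l.length)
    (hw : len Γ (l.map (gen Γ)).prod + len Γ ((l.map (gen Γ)).prod⁻¹ * w) = len Γ w)
    (hs : len Γ (gen Γ s * w) < len Γ w)
    (hs' : ¬ len Γ (gen Γ s * (l.map (gen Γ)).prod) < len Γ (l.map (gen Γ)).prod) :
    (∀ t ∈ l, Γ.Adj s t) ∧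
      len Γ (l.map (gen Γ)).prod + len Γ ((l.map (gen Γ)).prod⁻¹ * (gen Γ s * w)) =
        len Γ (gen Γ s * w) := by
  induction l generalizing w with
  | nil => simp [len_one]
  | cons t l ih =>
    rw [median_prod_cons] at hl hw hs' ⊢
    set v := (l.map (gen Γ)).prod with hv
    have hvl : len Γ v ≤ l.length := len_word_le Γ l
    rw [List.length_cons] at hl
    have h1 := len_gen_mul Γ v t
    have hvl' : len Γ v = l.length := by omega
    have htv : len Γ (gen Γ t * (gen Γ t * v)) < len Γ (gen Γ t * v) := by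
      rw [median_cancel]; omega
    -- `t` is a left descent of `w`
    have e1 : (gen Γ t * v)⁻¹ * w = v⁻¹ * (gen Γ t * w) := by
      rw [mul_inv_rev, gen_inv, mul_assoc]
    have e2 : gen Γ t * w = v * (v⁻¹ * (gen Γ t * w)) := by group
    have h2 := len_mul_le Γ v (v⁻¹ * (gen Γ t * w))
    rw [← e2] at h2
    rw [e1] at hw
    have htw : len Γ (gen Γ t * w) < len Γ w := by omega
    have h3 := len_gen_mul Γ w t
    have hst : s ≠ t := by
      rintro rfl
      exact hs' htv
    have hadj : Γ.Adj s t := ldesc_adj Γ hs htw hst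
    have h4 := ldesc_two Γ hs htw hst
    have h5 := len_gen_mul Γ w s
    have hs1 : ¬ len Γ (gen Γ s * v) < len Γ v := by
      intro h
      apply hs'
      have e : gen Γ s * (gen Γ t * v) = gen Γ t * (gen Γ s * v) := by
        rw [← mul_assoc, gen_comm hadj, mul_assoc]
      rw [e]
      have h6 := len_gen_mul Γ (gen Γ s * v) t
      omega
    obtain ⟨h6, h7⟩ := ih (gen Γ t * w) hvl' (by omega) (by omega) hs1
    refine ⟨?_, ?_⟩
    · intro r hr
      rcases List.mem_cons.1 hr with rfl | hr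
      · exact hadj
      · exact h6 r hr
    · have e : (gen Γ t * v)⁻¹ * (gen Γ s * w) = v⁻¹ * (gen Γ s * (gen Γ t * w)) := by
        rw [mul_inv_rev, gen_inv, mul_assoc, ← mul_assoc (gen Γ t), ← gen_comm hadj, mul_assoc]
      rw [e]
      omega

/-- (B) -/
theorem median_all_adj (l l' : List V) (w : RA Γ)
    (hl : len Γ (l.map (gen Γ)).prod = l.length)
    (hl' : len Γ (l'.map (gen Γ)).prod = l'.length)
    (hw : len Γ (l.map (gen Γ)).prod + len Γ ((l.map (gen Γ)).prod⁻¹ * w) = len Γ w)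
    (hw' : len Γ (l'.map (gen Γ)).prod + len Γ ((l'.map (gen Γ)).prod⁻¹ * w) = len Γ w)
    (h : ∀ s, ¬ (len Γ (gen Γ s * (l.map (gen Γ)).prod) < len Γ (l.map (gen Γ)).prod ∧
      len Γ (gen Γ s * (l'.map (gen Γ)).prod) < len Γ (l'.map (gen Γ)).prod)) :
    ∀ s ∈ l, ∀ t ∈ l', Γ.Adj s t := by
  induction l generalizing w with
  | nil => simp
  | cons s l ih =>
    rw [median_prod_cons] at hl hw h
    set u := (l.map (gen Γ)).prod with hu
    have hul : len Γ u ≤ l.length := len_word_le Γ l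
    rw [List.length_cons] at hl
    have h1 := len_gen_mul Γ u s
    have hul' : len Γ u = l.length := by omega
    have hsu : len Γ (gen Γ s * (gen Γ s * u)) < len Γ (gen Γ s * u) := by
      rw [median_cancel]; omega
    have e1 : (gen Γ s * u)⁻¹ * w = u⁻¹ * (gen Γ s * w) := by
      rw [mul_inv_rev, gen_inv, mul_assoc]
    have e2 : gen Γ s * w = u * (u⁻¹ * (gen Γ s * w)) := by group
    have h2 := len_mul_le Γ u (u⁻¹ * (gen Γ s * w))
    rw [← e2] at h2
    rw [e1] at hw
    have hsw : len Γ (gen Γ s * w) < len Γ w := by omega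
    have h3 := len_gen_mul Γ w s
    have hsv : ¬ len Γ (gen Γ s * (l'.map (gen Γ)).prod) < len Γ (l'.map (gen Γ)).prod :=
      fun hh => h s ⟨hsu, hh⟩
    obtain ⟨h4, h5⟩ := median_desc_adj Γ s l' w hl' hw' hsw hsv
    intro r hr
    rcases List.mem_cons.1 hr with rfl | hr
    · exact h4
    · refine ih (gen Γ s * w) hul' (by omega) h5 ?_ r hr
      rintro q ⟨hq1, hq2⟩
      -- `q` is a left descent of `w`, hence adjacent to `s`
      have hqw : len Γ (gen Γ q * w) < len Γ w := by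
        have e3 : gen Γ q * w = gen Γ q * (l'.map (gen Γ)).prod *
            ((l'.map (gen Γ)).prod⁻¹ * w) := by group
        have h6 := len_mul_le Γ (gen Γ q * (l'.map (gen Γ)).prod) ((l'.map (gen Γ)).prod⁻¹ * w)
        rw [← e3] at h6
        omega
      have hsq : s ≠ q := by
        rintro rfl
        exact hsv hq2
      have hadj : Γ.Adj s q := ldesc_adj Γ hsw hqw hsq
      apply h q
      refine ⟨?_, hq2⟩
      have e : gen Γ q * (gen Γ s * u) = gen Γ s * (gen Γ q * u) := by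
        rw [← mul_assoc, ← gen_comm hadj, mul_assoc]
      rw [e]
      have h6 := len_gen_mul Γ (gen Γ q * u) s
      omega

theorem median_comm_prod (s : V) (l : List V) (h : ∀ t ∈ l, s = t ∨ Γ.Adj s t) :
    gen Γ s * (l.map (gen Γ)).prod = (l.map (gen Γ)).prod * gen Γ s := by
  induction l with
  | nil => simp
  | cons t l ih =>
    rw [median_prod_cons]
    have h1 : gen Γ s * gen Γ t = gen Γ t * gen Γ s := by
      rcases h t (by simp) with rfl | h
      · rfl
      · exact gen_comm h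
    rw [← mul_assoc, h1, mul_assoc, ih (fun r hr => h r (by simp [hr])), mul_assoc]

theorem median_nodup (l : List V) (h : ∀ s ∈ l, ∀ t ∈ l, s = t ∨ Γ.Adj s t) :
    ∃ l' : List V, l'.Nodup ∧ l' ⊆ l ∧ (l'.map (gen Γ)).prod = (l.map (gen Γ)).prod := by
  induction l with
  | nil => exact ⟨[], by simp, by simp, rfl⟩
  | cons a l ih =>
    obtain ⟨l', h1, h2, h3⟩ := ih (fun s hs t ht => h s (by simp [hs]) t (by simp [ht]))
    by_cases ha : a ∈ l'
    · obtain ⟨l2, l3, rfl⟩ := List.append_of_mem ha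
      refine ⟨l2 ++ l3, ?_, ?_, ?_⟩
      · exact h1.sublist (by simp)
      · intro x hx
        apply List.mem_cons_of_mem
        apply h2
        rw [List.mem_append] at hx
        simp only [List.mem_append, List.mem_cons]
        tauto
      · rw [median_prod_cons, ← h3, List.map_append, List.prod_append, List.map_append,
          List.prod_append, median_prod_cons, ← mul_assoc, median_comm_prod Γ a l2,
          mul_assoc, median_cancel]
        intro t ht
        exact h a (by simp) t (List.mem_cons_of_mem _ (h2 (by simp [ht])))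
    · refine ⟨a :: l', List.nodup_cons.2 ⟨ha, h1⟩, ?_, ?_⟩
      · intro x hx
        rcases List.mem_cons.1 hx with rfl | hx
        · simp
        · exact List.mem_cons_of_mem _ (h2 hx)
      · rw [median_prod_cons, median_prod_cons, h3]

theorem median_len_clique (N : ℕ)
    (hN : ∀ T : Finset V, Γ.IsClique (T : Set V) → T.card ≤ N) (l : List V)
    (h : ∀ s ∈ l, ∀ t ∈ l, s = t ∨ Γ.Adj s t) : len Γ (l.map (gen Γ)).prod ≤ N := by
  obtain ⟨l', h1, h2, h3⟩ := median_nodup Γ l h
  rw [← h3]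
  refine le_trans (len_word_le Γ l') ?_
  rw [← List.toFinset_card_of_nodup h1]
  apply hN
  intro a ha b hb hab
  rw [Finset.mem_coe, List.mem_toFinset] at ha hb
  rcases h a (h2 ha) b (h2 hb) with h | h
  · exact absurd h hab
  · exact h

/-- P10b: thin intervals -/
theorem RA_thin (hsq : NoSquare Γ) (N : ℕ)
    (hN : ∀ T : Finset V, Γ.IsClique (T : Set V) → T.card ≤ N) (x y p p' : RA Γ)
    (h1 : len Γ (x⁻¹ * p) + len Γ (p⁻¹ * y) = len Γ (x⁻¹ * y))
    (h2 : len Γ (x⁻¹ * p') + len Γ (p'⁻¹ * y) = len Γ (x⁻¹ * y))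
    (h3 : len Γ (x⁻¹ * p) = len Γ (x⁻¹ * p')) : len Γ (p⁻¹ * p') ≤ 2 * N := by
  obtain ⟨m, u, v, hu, hv, hlu, hlv, hd⟩ := median_common_prefix Γ (x⁻¹ * p) (x⁻¹ * p')
  have hp : p = x * m * u := by rw [mul_assoc, ← hu]; simp
  have hp' : p' = x * m * v := by rw [mul_assoc, ← hv]; simp
  have e1 : p⁻¹ * p' = u⁻¹ * v := by rw [hp, hp']; group
  have huv := median_len_inv_mul Γ hd
  obtain ⟨lu, hlu1, hlu2⟩ := exists_word Γ u
  obtain ⟨lv, hlv1, hlv2⟩ := exists_word Γ v
  set w := m⁻¹ * (x⁻¹ * y) with hw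
  have e2 : p⁻¹ * y = u⁻¹ * w := by rw [hp, hw]; group
  have e3 : p'⁻¹ * y = v⁻¹ * w := by rw [hp', hw]; group
  have e4 : x⁻¹ * y = m * w := by rw [hw]; group
  have e5 : w = u * (u⁻¹ * w) := by group
  have e6 : w = v * (v⁻¹ * w) := by group
  have h4 := len_mul_le Γ m w
  rw [← e4] at h4
  have h5 := len_mul_le Γ u (u⁻¹ * w)
  rw [← e5] at h5
  have h6 := len_mul_le Γ v (v⁻¹ * w)
  rw [← e6] at h6
  rw [e2] at h1
  rw [e3] at h2
  have hall := median_all_adj Γ lu lv w (by rw [hlu2, hlu1]) (by rw [hlv2, hlv1])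
    (by rw [hlu2]; omega) (by rw [hlv2]; omega) (by rw [hlu2, hlv2]; exact hd)
  rw [e1, huv]
  by_cases hcu : ∀ s ∈ lu, ∀ t ∈ lu, s = t ∨ Γ.Adj s t
  · have := median_len_clique Γ N hN lu hcu
    rw [hlu2] at this
    omega
  · by_cases hcv : ∀ s ∈ lv, ∀ t ∈ lv, s = t ∨ Γ.Adj s t
    · have := median_len_clique Γ N hN lv hcv
      rw [hlv2] at this
      omega
    · exfalso
      push Not at hcu hcv
      obtain ⟨a, ha, b, hb, hab, hab'⟩ := hcu
      obtain ⟨c, hc, d, hd', hcd, hcd'⟩ := hcv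
      rcases hsq a c b d (hall a ha c hc) (hall b hb c hc).symm (hall b hb d hd')
        (hall a ha d hd').symm hab hcd with h | h
      · exact hab' h
      · exact hcd' h

end

end Pool.Agent.RC84
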