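import Pool.Agent.RC84.NerveA
import Pool.Agent.RC84.NerveC

/-!
# The nerve (P17-P19, helper74)
-/

set_option autoImplicit false

namespace Pool.Agent.RC84

open scoped Classical

/-- P17-P19: the data -/
theorem nerve_data : ∃ (Γ : SimpleGraph (Fin 106)) (lam om : Fin 106 → Fin 8 → ZMod 2),
    Pseudo Γ ∧ NoSquare Γ ∧ (∀ v, om v ⬝ᵥ lam v = 1) ∧
    (∀ u v, Γ.Adj u v → om v ⬝ᵥ lam u = 0) ∧
    (∀ ω : Fin 8 → ZMod 2, Gen Γ {v | ω ⬝ᵥ lam v = 0}) ∧ ExN Γ (ZMod 3) :=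
  ⟨D74.Gam, D74.lam, D74.om, D74.pseudo, D74.noSquare, D74.om_self, D74.om_adj, D74.gen_all,
    D74.exN_zmod3⟩

end Pool.Agent.RC84
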