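import Pool.Agent.RC84.Data74

/-!
# The nerve with 106 vertices: pseudomanifold, no squares, two-sidedness (helper84)
-/

set_option autoImplicit false

namespace Pool.Agent.RC84
namespace D74

/-- evaluate the argument first -/
def frc (n : ℕ) (f : ℕ → Bool) : Bool := Nat.rec (f 0) (fun k _ => f (Nat.add k 1)) n

theorem frc_eq (n : ℕ) (f : ℕ → Bool) : frc n f = f n := by cases n <;> rfl

/-- `allB` in a form which the kernel evaluates faster -/
def allF (P : ℕ → Bool) (f : ℕ) : ℕ → Bool :=
  Nat.rec (fun m => Nat.beq m 0) (fun _ ih m => cond (Nat.beq m 0) true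
    (frc (Nat.log2 m) fun v => cond (P v) (ih (Nat.xor m (Nat.shiftLeft 1 v))) false)) f

theorem allF_eq (P : ℕ → Bool) (f : ℕ) : allF P f = allB P f := by
  induction f with
  | zero => funext m; rfl
  | succ f ih =>
    funext m
    have h1 : allF P (f + 1) m = cond (Nat.beq m 0) true (frc (Nat.log2 m) fun v =>
      cond (P v) (allF P f (Nat.xor m (Nat.shiftLeft 1 v))) false) := rfl
    rw [h1, allB, frc_eq, ih]

/-- the check of a triangle -/
def chkT (m i m' j : ℕ) : Bool :=
  cond (tb m i) (cond (tb m' j) (cond (Nat.beq (Nat.xor m' (Nat.shiftLeft 1 j)) 0)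
    (Bool.not (tb (row i) j)) false) false) false

/-- the check of all triangles on an ordered edge -/
def chkE (rab : ℕ) : Bool :=
  allF (fun c =>
    (fun m => frc (Nat.log2 m) (fun i => (fun m' => frc (Nat.log2 m') (fun j => chkT m i m' j))
      (Nat.xor m (Nat.shiftLeft 1 i)))) (Nat.land rab (row c))) 106 rab

theorem pseudo_checkF : allF (fun a => allF (fun b => chkE (Nat.land (row a) (row b)))
    106 (row a)) 106 MASK = true := by decide +kernel

theorem pseudo_check : allB (fun a => allB (fun b => chkE (Nat.land (row a) (row b)))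
    106 (row a)) 106 MASK = true := by
  have h := pseudo_checkF
  simp only [allF_eq] at h
  exact h

/-- the common neighbours of a triangle -/
theorem two_common {a b c : Fin 106} (hab : Gam.Adj a b) (hac : Gam.Adj a c) (hbc : Gam.Adj b c) :
    ∃ i j : ℕ, i ≠ j ∧ tb (row i) j = false ∧ ∀ v : ℕ,
      (tb (row a) v = true ∧ tb (row b) v = true ∧ tb (row c) v = true) ↔ (v = i ∨ v = j) := by
  have h1 := allB_sound (allV_sound pseudo_check a.2) b hab
  have hc : tb (Nat.land (row a) (row b)) c = true := by
    rw [tb_land, Bool.and_eq_true]; exact ⟨hac, hbc⟩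
  rw [chkE, allF_eq] at h1
  have h2 := allB_sound h1 c hc
  set m := Nat.land (Nat.land (row a) (row b)) (row c) with hm
  set i := Nat.log2 m with hi
  set m' := Nat.xor m (Nat.shiftLeft 1 i) with hm'
  set j := Nat.log2 m' with hj
  have h3 : chkT m i m' j = true := by
    simp only [frc_eq] at h2
    exact h2
  have hmi : tb m i = true := by
    by_contra h
    rw [Bool.not_eq_true] at h
    rw [chkT, h, cond_false] at h3
    exact absurd h3 (by simp)
  rw [chkT, hmi, cond_true] at h3
  have hmj : tb m' j = true := by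
    by_contra h
    rw [Bool.not_eq_true] at h
    rw [h, cond_false] at h3
    exact absurd h3 (by simp)
  rw [hmj, cond_true] at h3
  have h0 : Nat.xor m' (Nat.shiftLeft 1 j) = 0 := by
    by_contra h
    have h' : Nat.beq (Nat.xor m' (Nat.shiftLeft 1 j)) 0 = false := by
      rw [← Bool.not_eq_true]
      exact fun e => h (Nat.eq_of_beq_eq_true e)
    rw [h', cond_false] at h3
    exact absurd h3 (by simp)
  rw [h0] at h3
  have h4 : Bool.not (tb (row i) j) = true := h3
  have hij : tb (row i) j = false := by simpa using h4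
  have hm'i : tb m' i = false := by
    rw [hm', tb_xor, hmi, tb_shl]; simp
  have hne : i ≠ j := by
    intro e
    rw [e, hmj] at hm'i
    exact absurd hm'i (by simp)
  refine ⟨i, j, hne, hij, fun v => ?_⟩
  have e1 : tb m v = (tb (row a) v && tb (row b) v && tb (row c) v) := by
    rw [hm, tb_land, tb_land]
  have e2 : tb m' v = (tb m v ^^ decide (i = v)) := by rw [hm', tb_xor, tb_shl]
  have e3 : (tb m' v ^^ decide (j = v)) = false := by
    rw [← tb_shl j v, ← tb_xor, h0, tb_zero]
  rw [← and_assoc, ← Bool.and_eq_true, ← Bool.and_eq_true, ← e1]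
  constructor
  · intro h
    by_cases hiv : i = v
    · exact Or.inl hiv.symm
    · right
      rw [h, decide_eq_false hiv] at e2
      rw [e2] at e3
      by_contra hjv
      rw [decide_eq_false (fun e => hjv e.symm)] at e3
      exact absurd e3 (by simp)
  · rintro (rfl | rfl)
    · exact hmi
    · rw [hmj, decide_eq_false hne] at e2
      simpa using e2.symm

theorem pseudo : Pseudo Gam where
  card_le := by
    intro T hT
    by_contra hcard
    rw [not_le] at hcard
    obtain ⟨U, hUT, hU⟩ := Finset.exists_subset_card_eq (show 5 ≤ T.card from hcard)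
    have hU' : Gam.IsClique (U : Set (Fin 106)) := hT.subset (Finset.coe_subset.2 hUT)
    obtain ⟨a, U1, ha, rfl, h1⟩ := Finset.card_eq_succ.1 hU
    obtain ⟨b, U2, hb, rfl, h2⟩ := Finset.card_eq_succ.1 h1
    obtain ⟨c, U3, hc, rfl, h3⟩ := Finset.card_eq_succ.1 h2
    obtain ⟨d, U4, hd, rfl, h4⟩ := Finset.card_eq_succ.1 h3
    obtain ⟨e, rfl⟩ := Finset.card_eq_one.1 h4
    simp only [Finset.mem_insert, Finset.mem_singleton, not_or] at ha hb hc hd
    have adj : ∀ x y : Fin 106, x ∈ ({a, b, c, d, e} : Finset (Fin 106)) →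
        y ∈ ({a, b, c, d, e} : Finset (Fin 106)) → x ≠ y → Gam.Adj x y :=
      fun x y hx hy hxy => hU' (Finset.mem_coe.2 hx) (Finset.mem_coe.2 hy) hxy
    have hab := adj a b (by simp) (by simp) ha.1
    have hac := adj a c (by simp) (by simp) ha.2.1
    have had := adj a d (by simp) (by simp) ha.2.2.1
    have hae := adj a e (by simp) (by simp) ha.2.2.2
    have hbc := adj b c (by simp) (by simp) hb.1
    have hbd := adj b d (by simp) (by simp) hb.2.1
    have hbe := adj b e (by simp) (by simp) hb.2.2
    have hcd := adj c d (by simp) (by simp) hc.1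
    have hce := adj c e (by simp) (by simp) hc.2
    have hde := adj d e (by simp) (by simp) hd
    obtain ⟨i, j, hne, hij, hv⟩ := two_common hab hac hbc
    have h5 := (hv d).1 ⟨had, hbd, hcd⟩
    have h6 := (hv e).1 ⟨hae, hbe, hce⟩
    have hde' : (d : ℕ) ≠ e := fun h => hd (Fin.ext h)
    have hed := hde.symm
    rw [adj_iff] at hde hed
    rcases h5 with h5 | h5 <;> rcases h6 with h6 | h6
    · exact hde' (h5.trans h6.symm)
    · rw [h5, h6, hij] at hde
      exact absurd hde (by simp)
    · rw [h5, h6, hij] at hed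
      exact absurd hed (by simp)
    · exact hde' (h5.trans h6.symm)
  two := by
    rintro a b c d ⟨hab, hac, had, hbc, hbd, hcd⟩
    obtain ⟨i, j, hne, hij, hv⟩ := two_common hab hac hbc
    have key : ∀ i j : ℕ, i ≠ j → (∀ v : ℕ,
        (tb (row a) v = true ∧ tb (row b) v = true ∧ tb (row c) v = true) ↔ (v = i ∨ v = j)) →
        (d : ℕ) = i → ∃ d', d' ≠ d ∧ Tet Gam a b c d' ∧ ∀ x, Tet Gam a b c x → x = d ∨ x = d' := by
      intro i j hne hv hdi
      obtain ⟨h1, h2, h3⟩ := (hv j).2 (Or.inr rfl)
      refine ⟨⟨j, lt_of_tb_row h1⟩, ?_, ⟨hab, hac, h1, hbc, h2, h3⟩, ?_⟩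
      · intro e
        apply hne
        rw [← hdi, ← e]
      · rintro x ⟨-, -, hax, -, hbx, hcx⟩
        rcases (hv x).1 ⟨hax, hbx, hcx⟩ with h | h
        · exact Or.inl (Fin.ext (h.trans hdi.symm))
        · exact Or.inr (Fin.ext h)
    rcases (hv d).1 ⟨had, hbd, hcd⟩ with h | h
    · exact key i j hne hv h
    · exact key j i hne.symm (fun v => (hv v).trans or_comm) h
  ne := by
    have hex : ∃ a b c : Fin 106, Gam.Adj a b ∧ Gam.Adj a c ∧ Gam.Adj b c := by
      have : tb (row 0) 34 = true ∧ tb (row 0) 35 = true ∧ tb (row 34) 35 = true := by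
        decide +kernel
      exact ⟨0, 34, 35, this⟩
    obtain ⟨a, b, c, hab, hac, hbc⟩ := hex
    obtain ⟨i, j, hne, hij, hv⟩ := two_common hab hac hbc
    obtain ⟨h1, h2, h3⟩ := (hv i).2 (Or.inl rfl)
    exact ⟨a, b, c, ⟨i, lt_of_tb_row h1⟩, hab, hac, h1, hbc, h2, h3⟩

/-- `d` is adjacent or equal to `b` for every common neighbour `d` of `a` and `c` -/
def chkS (x y : ℕ) : Bool := Nat.beq (Nat.lor x y) y

theorem chkS_sound {x y v : ℕ} (h : chkS x y = true) (hv : tb x v = true) : tb y v = true := by
  have h1 : Nat.lor x y = y := Nat.eq_of_beq_eq_true h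
  rw [tb_eq] at hv ⊢
  rw [← h1]
  have h2 : (x ||| y).testBit v = (x.testBit v || y.testBit v) := Nat.testBit_or x y v
  exact h2.trans (by rw [hv]; rfl)

theorem square_checkF : allF (fun a => allF (fun b => allF (fun c =>
    cond (tb (row a) c) true (cond (Nat.beq c a) true
      (chkS (Nat.land (row a) (row c)) (Nat.xor (row b) (Nat.shiftLeft 1 b)))))
    106 (row b)) 106 (row a)) 106 MASK = true := by decide +kernel

theorem square_check : allB (fun a => allB (fun b => allB (fun c =>
    cond (tb (row a) c) true (cond (Nat.beq c a) true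
      (chkS (Nat.land (row a) (row c)) (Nat.xor (row b) (Nat.shiftLeft 1 b)))))
    106 (row b)) 106 (row a)) 106 MASK = true := by
  have h := square_checkF
  simp only [allF_eq] at h
  exact h

theorem noSquare : NoSquare Gam := by
  intro a b c d hab hbc hcd hda hac hbd
  have h1 := allB_sound (allB_sound (allV_sound square_check a.2) b hab) c hbc
  by_cases h : tb (row a) c = true
  · exact Or.inl h
  · right
    rw [Bool.not_eq_true] at h
    have hne : Nat.beq c a = false := by
      rw [← Bool.not_eq_true]
      intro e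
      exact hac (Fin.ext (Nat.eq_of_beq_eq_true e)).symm
    rw [h, cond_false, hne, cond_false] at h1
    have h2 := chkS_sound (v := d) h1 (by
      rw [tb_land, Bool.and_eq_true]
      exact ⟨hda.symm, hcd⟩)
    have hbd'' : (b : ℕ) ≠ d := fun e => hbd (Fin.ext e)
    rw [tb_xor, tb_shl, decide_eq_false hbd'', Bool.xor_false] at h2
    exact h2

theorem om_checkF : allF (fun v => cond (dotB (fun i => tb (Om i) v) (fun i => tb (Lm i) v))
    (allF (fun u => Bool.not (dotB (fun i => tb (Om i) v) (fun i => tb (Lm i) u))) 106 (row v))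
    false) 106 MASK = true := by decide +kernel

theorem om_check : allB (fun v => cond (dotB (fun i => tb (Om i) v) (fun i => tb (Lm i) v))
    (allB (fun u => Bool.not (dotB (fun i => tb (Om i) v) (fun i => tb (Lm i) u))) 106 (row v))
    false) 106 MASK = true := by
  have h := om_checkF
  simp only [allF_eq] at h
  exact h

theorem om_self (v : Fin 106) : om v ⬝ᵥ lam v = 1 := by
  rw [om_dot_lam]
  have h := allV_sound om_check v.2
  rw [if_pos]
  by_contra h'
  rw [Bool.not_eq_true] at h'
  rw [h', cond_false] at h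
  exact absurd h (by simp)

theorem om_adj (u v : Fin 106) (huv : Gam.Adj u v) : om v ⬝ᵥ lam u = 0 := by
  rw [om_dot_lam]
  have h := allV_sound om_check v.2
  have h0 : dotB (fun i => tb (Om i) v) (fun i => tb (Lm i) v) = true := by
    by_contra h'
    rw [Bool.not_eq_true] at h'
    rw [h', cond_false] at h
    exact absurd h (by simp)
  rw [h0, cond_true] at h
  have h1 := allB_sound h u huv.symm
  have h2 : dotB (fun i => tb (Om i) v) (fun i => tb (Lm i) u) = false := by
    simpa using h1
  rw [h2]
  simp

end D74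
end Pool.Agent.RC84
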