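import Pool.Agent.RC84.Data74

/-!
# The nerve with 106 vertices: nonorientability of the subcomplexes (helper74)
-/

set_option autoImplicit false

namespace Pool.Agent.RC84
namespace D74

/-- flood fill: `fr` is the set of vertices still to be treated, `rest` the set not reached yet -/
def flood : ℕ → ℕ → ℕ → Bool
  | 0, _, _ => false
  | f + 1, fr, rest => cond (Nat.beq fr 0) (Nat.beq rest 0)
      (flood f (Nat.lor (Nat.xor fr (Nat.shiftLeft 1 (Nat.log2 fr)))
          (Nat.land (row (Nat.log2 fr)) rest))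
        (Nat.xor rest (Nat.land (row (Nat.log2 fr)) rest)))

theorem tb_lor (m n v : ℕ) : tb (Nat.lor m n) v = (tb m v || tb n v) := by
  rw [tb_eq, tb_eq, tb_eq]
  exact Nat.testBit_or m n v

theorem tb_log2 {m : ℕ} (h : Nat.beq m 0 = false) : tb m (Nat.log2 m) = true := by
  rw [tb_eq]
  have h0 : m ≠ 0 := by
    rintro rfl
    simp at h
  exact Nat.testBit_log2 h0

theorem flood_sound {q : ℕ → Prop} {R : ℕ}
    (hq : ∀ u v, q u → tb (row u) v = true → tb R v = true → q v) {f : ℕ} :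
    ∀ {fr rest : ℕ}, flood f fr rest = true → (∀ v, tb fr v = true → q v) →
      (∀ v, tb rest v = true → tb R v = true) → ∀ v, tb rest v = true → q v := by
  induction f with
  | zero => intro fr rest h; exact absurd h (by simp [flood])
  | succ f ih =>
    intro fr rest h h1 h2 v hv
    rw [flood] at h
    by_cases h0 : Nat.beq fr 0 = true
    · rw [h0, cond_true] at h
      rw [Nat.eq_of_beq_eq_true h, tb_zero] at hv
      exact absurd hv (by simp)
    · rw [Bool.not_eq_true] at h0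
      rw [h0, cond_false] at h
      have hu : q (Nat.log2 fr) := h1 _ (tb_log2 h0)
      by_cases h3 : tb (row (Nat.log2 fr)) v = true
      · exact hq _ _ hu h3 (h2 v hv)
      · refine ih h ?_ ?_ v ?_
        · intro w hw
          rw [tb_lor, tb_xor, tb_land, tb_shl] at hw
          by_cases h4 : tb fr w = true
          · exact h1 w h4
          · rw [Bool.not_eq_true] at h4
            by_cases h5 : tb (row (Nat.log2 fr)) w = true ∧ tb rest w = true
            · exact hq _ _ hu h5.1 (h2 w h5.2)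
            · by_cases h6 : Nat.log2 fr = w
              · rw [← h6, tb_log2 h0] at h4
                exact absurd h4 (by simp)
              · exfalso
                rw [h4] at hw
                simp only [h6, decide_false, Bool.xor_false, Bool.false_or,
                  Bool.and_eq_true] at hw
                exact h5 hw
        · intro w hw
          rw [tb_xor, tb_land] at hw
          refine h2 w ?_
          by_cases h4 : tb rest w = true
          · exact h4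
          · rw [Bool.not_eq_true] at h4
            rw [h4] at hw
            simp at hw
        · rw [tb_xor, tb_land, hv]
          rw [Bool.not_eq_true] at h3
          rw [h3]
          rfl

/-- connectedness of the graph induced on `R` (also true for empty `R`) -/
def conn (R : ℕ) : Bool :=
  cond (Nat.beq R 0) true
    (flood 107 (Nat.shiftLeft 1 (Nat.log2 R)) (Nat.xor R (Nat.shiftLeft 1 (Nat.log2 R))))

theorem row_symm {u v : ℕ} (hu : u < 106) (h : tb (row u) v = true) : tb (row v) u = true := by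
  have h1 := allV_sound sym_check hu
  cases h2 : tb (row u) u
  · rw [h2, cond_false] at h1
    exact allB_sound h1 v h
  · rw [h2, cond_true] at h1
    exact absurd h1 (by simp)

theorem conn_sound {q : ℕ → Prop} {R : ℕ} (h : conn R = true) (hR : ∀ v, tb R v = true → v < 106)
    (hq : ∀ u v, q u → tb R u = true → tb (row u) v = true → tb R v = true → q v)
    {v : ℕ} (hv : tb R v = true) (hqv : q v) : ∀ w, tb R w = true → q w := by
  have h0 : Nat.beq R 0 = false := by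
    by_contra h0
    rw [Bool.not_eq_false] at h0
    rw [Nat.eq_of_beq_eq_true h0, tb_zero] at hv
    exact absurd hv (by simp)
  rw [conn, h0, cond_false] at h
  have hs := tb_log2 h0
  have hrest : ∀ w, tb (Nat.xor R (Nat.shiftLeft 1 (Nat.log2 R))) w = true → tb R w = true := by
    intro w hw
    rw [tb_xor, tb_shl] at hw
    by_cases h1 : tb R w = true
    · exact h1
    · rw [Bool.not_eq_true] at h1
      have h2 : Nat.log2 R ≠ w := by
        rintro rfl
        rw [hs] at h1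
        exact absurd h1 (by simp)
      rw [h1] at hw
      simp [h2] at hw
  have hfr : ∀ (p : ℕ → Prop), p (Nat.log2 R) →
      ∀ w, tb (Nat.shiftLeft 1 (Nat.log2 R)) w = true → p w := by
    intro p hp w hw
    rw [tb_shl] at hw
    simp only [decide_eq_true_eq] at hw
    rw [← hw]; exact hp
  have hcase : ∀ w, tb R w = true → w = Nat.log2 R ∨
      tb (Nat.xor R (Nat.shiftLeft 1 (Nat.log2 R))) w = true := by
    intro w hw
    by_cases h1 : Nat.log2 R = w
    · exact Or.inl h1.symm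
    · right
      rw [tb_xor, hw, tb_shl]
      simp [h1]
  by_cases hp : q (Nat.log2 R)
  · have key := flood_sound (q := fun u => tb R u = true ∧ q u) (R := R)
      (fun u v hu huv hv' => ⟨hv', hq u v hu.2 hu.1 huv hv'⟩) h
      (hfr _ ⟨hs, hp⟩) hrest
    intro w hw
    rcases hcase w hw with rfl | h2
    · exact hp
    · exact (key w h2).2
  · exfalso
    have key := flood_sound (q := fun u => tb R u = true ∧ ¬ q u) (R := R)
      (fun u v hu huv hv' => ⟨hv', fun hqv => hu.2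
        (hq v u hqv hv' (row_symm (hR u hu.1) huv) hu.1)⟩) h
      (hfr _ ⟨hs, hp⟩) hrest
    rcases hcase v hv with rfl | h2
    · exact hp hqv
    · exact (key v h2).2 hqv

/-- Check of the links: every edge lies in a triangle, every triangle in a tetrahedron,
links of vertices and of edges are connected. -/
def chkLoc (a : ℕ) : Bool :=
  cond (conn (row a)) (allB (fun b => cond (Nat.beq (Nat.land (row a) (row b)) 0) false
    (cond (conn (Nat.land (row a) (row b)))
      (allB (fun c => cond (Nat.beq (Nat.land (Nat.land (row a) (row b)) (row c)) 0) false true)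
        106 (Nat.land (row a) (row b))) false)) 106 (row a)) false

theorem loc_check : allB chkLoc 106 MASK = true := by decide +kernel

theorem exists_tb {m : ℕ} (h : Nat.beq m 0 = false) : ∃ v, tb m v = true := ⟨_, tb_log2 h⟩

theorem of_cond_false {b c : Bool} (h : cond b false c = true) : b = false ∧ c = true := by
  cases b
  · exact ⟨rfl, h⟩
  · exact absurd h (by simp)

theorem of_cond_true {b c : Bool} (h : cond b c false = true) : b = true ∧ c = true := by
  cases b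
  · exact absurd h (by simp)
  · exact ⟨rfl, h⟩

theorem loc_conn1 (a : Fin 106) : conn (row a) = true :=
  (of_cond_true (allV_sound loc_check a.2)).1

theorem loc_edge {a b : Fin 106} (h : Gam.Adj a b) :
    Nat.beq (Nat.land (row a) (row b)) 0 = false ∧ conn (Nat.land (row a) (row b)) = true ∧
    ∀ c : ℕ, tb (Nat.land (row a) (row b)) c = true →
      Nat.beq (Nat.land (Nat.land (row a) (row b)) (row c)) 0 = false := by
  have h1 := (of_cond_true (allV_sound loc_check a.2)).2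
  have h2 := of_cond_false (allB_sound h1 b h)
  have h3 := of_cond_true h2.2
  exact ⟨h2.1, h3.1, fun c hc => (of_cond_false (allB_sound h3.2 c hc)).1⟩

theorem exists_tri {a b : Fin 106} (h : Gam.Adj a b) : ∃ c, Gam.Adj a c ∧ Gam.Adj b c := by
  obtain ⟨c, hc⟩ := exists_tb (loc_edge h).1
  rw [tb_land, Bool.and_eq_true] at hc
  exact ⟨⟨c, lt_of_tb_row hc.1⟩, hc.1, hc.2⟩

theorem exists_tet {a b c : Fin 106} (h : Gam.Adj a b) (h1 : Gam.Adj a c) (h2 : Gam.Adj b c) :
    ∃ d, Tet Gam a b c d := by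
  obtain ⟨d, hd⟩ := exists_tb ((loc_edge h).2.2 c (by
    rw [tb_land, Bool.and_eq_true]; exact ⟨h1, h2⟩))
  rw [tb_land, tb_land, Bool.and_eq_true, Bool.and_eq_true] at hd
  exact ⟨⟨d, lt_of_tb_row hd.2⟩, h, h1, hd.1.1, h2, hd.1.2, hd.2⟩

theorem tet01 {a b c d : Fin 106} (h : Tet Gam a b c d) : Tet Gam b a c d :=
  ⟨h.1.symm, h.2.2.2.1, h.2.2.2.2.1, h.2.1, h.2.2.1, h.2.2.2.2.2⟩

theorem tet12 {a b c d : Fin 106} (h : Tet Gam a b c d) : Tet Gam a c b d :=
  ⟨h.2.1, h.1, h.2.2.1, h.2.2.2.1.symm, h.2.2.2.2.2, h.2.2.2.2.1⟩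

theorem tet23 {a b c d : Fin 106} (h : Tet Gam a b c d) : Tet Gam a b d c :=
  ⟨h.1, h.2.2.1, h.2.1, h.2.2.2.2.1, h.2.2.2.1, h.2.2.2.2.2.symm⟩

/-- The hypotheses on `Λ` in the definition of `Gen`. -/
structure Lam (B : Set (Fin 106)) (U : Type) [AddCommGroup U]
    (L : Fin 106 → Fin 106 → Fin 106 → Fin 106 → U) : Prop where
  h2 : ∀ u : U, u + u = 0 → u = 0
  h0 : ∀ a b c d, Tet Gam a b c d → a ∈ B → b ∈ B → L b a c d = - L a b c d
  h1 : ∀ a b c d, Tet Gam a b c d → a ∈ B → L a c b d = - L a b c d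
  h3 : ∀ a b c d, Tet Gam a b c d → a ∈ B → L a b d c = - L a b c d
  h4 : ∀ a b c d d', Tet Gam a b c d → Tet Gam a b c d' → d ≠ d' → a ∈ B →
    L a b c d' = - L a b c d

section
variable {B : Set (Fin 106)} {U : Type} [AddCommGroup U]
  {L : Fin 106 → Fin 106 → Fin 106 → Fin 106 → U}

theorem Lam.edge (H : Lam B U L) {a b c d : Fin 106} (ha : a ∈ B) (ht : Tet Gam a b c d)
    (h0 : L a b c d = 0) : ∀ c' d', Tet Gam a b c' d' → L a b c' d' = 0 := by
  have key : ∀ w : ℕ, tb (Nat.land (row a) (row b)) w = true →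
      ∀ c' : Fin 106, (c' : ℕ) = w → ∀ d', Tet Gam a b c' d' → L a b c' d' = 0 := by
    refine conn_sound (q := fun w => ∀ c' : Fin 106, (c' : ℕ) = w → ∀ d', Tet Gam a b c' d' →
      L a b c' d' = 0) (loc_edge ht.1).2.1 ?_ ?_ (v := c) ?_ ?_
    · intro v hv
      rw [tb_land, Bool.and_eq_true] at hv
      exact lt_of_tb_row hv.1
    · intro u v hu hu1 huv hv c' hc' d' ht'
      subst hc'
      rw [tb_land, Bool.and_eq_true] at hu1 hv
      have hu2 : u < 106 := lt_of_tb_row hu1.1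
      have ht1 : Tet Gam a b ⟨u, hu2⟩ c' := ⟨ht'.1, hu1.1, ht'.2.1, hu1.2, ht'.2.2.2.1, huv⟩
      have e1 := hu ⟨u, hu2⟩ rfl c' ht1
      have e2 := H.h3 _ _ _ _ ht1 ha
      rw [e1, neg_zero] at e2
      by_cases hd : (⟨u, hu2⟩ : Fin 106) = d'
      · rw [← hd]; exact e2
      · rw [H.h4 a b c' ⟨u, hu2⟩ d' (tet23 ht1) ht' hd ha, e2, neg_zero]
    · rw [tb_land, Bool.and_eq_true]
      exact ⟨ht.2.1, ht.2.2.2.1⟩
    · intro c' hc' d' ht'
      have : c' = c := Fin.ext hc'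
      subst this
      by_cases hd : d = d'
      · rw [← hd]; exact h0
      · rw [H.h4 a b c' d d' ht ht' hd ha, h0, neg_zero]
  intro c' d' ht'
  exact key c' (by rw [tb_land, Bool.and_eq_true]; exact ⟨ht'.2.1, ht'.2.2.2.1⟩) c' rfl d' ht'

theorem Lam.vertex (H : Lam B U L) {a b c d : Fin 106} (ha : a ∈ B) (ht : Tet Gam a b c d)
    (h0 : L a b c d = 0) : ∀ b' c' d', Tet Gam a b' c' d' → L a b' c' d' = 0 := by
  have key : ∀ w : ℕ, tb (row a) w = true →
      ∀ b' : Fin 106, (b' : ℕ) = w → ∀ c' d', Tet Gam a b' c' d' → L a b' c' d' = 0 := by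
    refine conn_sound (q := fun w => ∀ b' : Fin 106, (b' : ℕ) = w → ∀ c' d',
      Tet Gam a b' c' d' → L a b' c' d' = 0) (loc_conn1 a) ?_ ?_ (v := b) ht.1 ?_
    · intro v hv
      exact lt_of_tb_row hv
    · intro u v hu hu1 huv hv b' hb' c' d' ht'
      subst hb'
      have hu2 : u < 106 := lt_of_tb_row hu1
      obtain ⟨x, hx⟩ := exists_tet (a := a) (b := ⟨u, hu2⟩) (c := b') hu1 hv huv
      have e1 := hu ⟨u, hu2⟩ rfl b' x hx
      have e2 := H.h1 _ _ _ _ hx ha
      rw [e1, neg_zero] at e2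
      exact H.edge ha (tet12 hx) e2 c' d' ht'
    · intro b' hb' c' d' ht'
      have : b' = b := Fin.ext hb'
      subst this
      exact H.edge ha ht h0 c' d' ht'
  intro b' c' d' ht'
  exact key b' ht'.1 b' rfl c' d' ht'

theorem Lam.nbr (H : Lam B U L) {a b : Fin 106} (ha : a ∈ B) (hb : b ∈ B) (hab : Gam.Adj a b)
    (h0 : ∀ b' c' d', Tet Gam a b' c' d' → L a b' c' d' = 0) :
    ∀ b' c' d', Tet Gam b b' c' d' → L b b' c' d' = 0 := by
  obtain ⟨c, h1, h2⟩ := exists_tri hab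
  obtain ⟨d, hd⟩ := exists_tet hab h1 h2
  have e := H.h0 a b c d hd ha hb
  rw [h0 b c d hd, neg_zero] at e
  exact H.vertex hb (tet01 hd) e

/-- A walk through flags, given by the base 4 digits of `code` below a leading digit `1`: digit
`0, 1, 2` exchanges two consecutive entries, digit `3` replaces the last one. -/
def wk (B a0 b0 c0 d0 : ℕ) : ℕ → ℕ → ℕ → ℕ → ℕ → ℕ → Bool → Bool
  | 0, _, _, _, _, _, _ => false
  | f + 1, code, a, b, c, d, p =>
    cond (Nat.beq code 1)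
      (cond p (cond (Nat.beq a a0) (cond (Nat.beq b b0) (cond (Nat.beq c c0) (Nat.beq d d0)
        false) false) false) false)
      (cond (tb code 1)
        (cond (tb code 0)
          (cond (tb (row a) (Nat.log2 (Nat.xor (Nat.land (Nat.land (row a) (row b)) (row c))
              (Nat.shiftLeft 1 d))))
            (cond (tb (row b) (Nat.log2 (Nat.xor (Nat.land (Nat.land (row a) (row b)) (row c))
              (Nat.shiftLeft 1 d))))
              (cond (tb (row c) (Nat.log2 (Nat.xor (Nat.land (Nat.land (row a) (row b)) (row c))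
                (Nat.shiftLeft 1 d))))
                (cond (Nat.beq d (Nat.log2 (Nat.xor (Nat.land (Nat.land (row a) (row b)) (row c))
                  (Nat.shiftLeft 1 d)))) false
                  (wk B a0 b0 c0 d0 f (Nat.shiftRight code 2) a b c
                    (Nat.log2 (Nat.xor (Nat.land (Nat.land (row a) (row b)) (row c))
                      (Nat.shiftLeft 1 d))) (!p))) false) false) false)
          (wk B a0 b0 c0 d0 f (Nat.shiftRight code 2) a b d c (!p)))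
        (cond (tb code 0)
          (wk B a0 b0 c0 d0 f (Nat.shiftRight code 2) a c b d (!p))
          (cond (tb B b) (wk B a0 b0 c0 d0 f (Nat.shiftRight code 2) b a c d (!p)) false)))

theorem wk_sound (H : Lam B U L) {Bm : ℕ} (hB : ∀ a : Fin 106, tb Bm a = true → a ∈ B)
    (a0 b0 c0 d0 : Fin 106) {f : ℕ} : ∀ {code : ℕ} {a b c d : Fin 106} {p : Bool},
    wk Bm a0 b0 c0 d0 f code a b c d p = true → Tet Gam a b c d → a ∈ B →
      L a b c d = (if p = true then - L a0 b0 c0 d0 else L a0 b0 c0 d0) →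
      L a0 b0 c0 d0 = 0 := by
  have hneg : ∀ p : Bool, (if (!p) = true then - L a0 b0 c0 d0 else L a0 b0 c0 d0) =
      - (if p = true then - L a0 b0 c0 d0 else L a0 b0 c0 d0) := by
    intro p; cases p <;> simp
  induction f with
  | zero => intro code a b c d p h; exact absurd h (by simp [wk])
  | succ f ih =>
    intro code a b c d p h ht ha hL
    rw [wk] at h
    by_cases h1 : Nat.beq code 1 = true
    · rw [h1, cond_true] at h
      obtain ⟨k1, h⟩ := of_cond_true h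
      obtain ⟨k2, h⟩ := of_cond_true h
      obtain ⟨k3, h⟩ := of_cond_true h
      obtain ⟨k4, h⟩ := of_cond_true h
      have e1 : a = a0 := Fin.ext (Nat.eq_of_beq_eq_true k2)
      have e2 : b = b0 := Fin.ext (Nat.eq_of_beq_eq_true k3)
      have e3 : c = c0 := Fin.ext (Nat.eq_of_beq_eq_true k4)
      have e4 : d = d0 := Fin.ext (Nat.eq_of_beq_eq_true h)
      subst e1; subst e2; subst e3; subst e4
      rw [k1, if_pos rfl] at hL
      refine H.h2 _ ?_
      nth_rewrite 1 [hL]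
      simp
    · rw [Bool.not_eq_true] at h1
      rw [h1, cond_false] at h
      cases h2 : tb code 1
      · rw [h2, cond_false] at h
        cases h3 : tb code 0
        · rw [h3, cond_false] at h
          obtain ⟨k1, h⟩ := of_cond_true h
          refine ih h (tet01 ht) (hB b k1) ?_
          rw [hneg, ← hL]
          exact H.h0 a b c d ht ha (hB b k1)
        · rw [h3, cond_true] at h
          refine ih h (tet12 ht) ha ?_
          rw [hneg, ← hL]
          exact H.h1 a b c d ht ha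
      · rw [h2, cond_true] at h
        cases h3 : tb code 0
        · rw [h3, cond_false] at h
          refine ih h (tet23 ht) ha ?_
          rw [hneg, ← hL]
          exact H.h3 a b c d ht ha
        · rw [h3, cond_true] at h
          obtain ⟨k1, h⟩ := of_cond_true h
          obtain ⟨k2, h⟩ := of_cond_true h
          obtain ⟨k3, h⟩ := of_cond_true h
          obtain ⟨k4, h⟩ := of_cond_false h
          generalize hd' : (Nat.log2 (Nat.xor (Nat.land (Nat.land (row a) (row b)) (row c))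
                      (Nat.shiftLeft 1 d))) = d' at h k1 k2 k3 k4
          have hlt : d' < 106 := lt_of_tb_row k1
          have ht' : Tet Gam a b c ⟨d', hlt⟩ := ⟨ht.1, ht.2.1, k1, ht.2.2.2.1, k2, k3⟩
          refine ih (d := ⟨d', hlt⟩) h ht' ha ?_
          rw [hneg, ← hL]
          refine H.h4 a b c d _ ht ht' ?_ ha
          rintro rfl
          simp at k4

end

/-- the complement of the support of the functional `w` -/
def BM (w : ℕ) : ℕ :=
  let s (i : ℕ) : ℕ := cond (tb w i) (Lm i) 0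
  Nat.xor MASK (Nat.xor (Nat.xor (Nat.xor (Nat.xor (Nat.xor (Nat.xor (Nat.xor (s 0) (s 1))
    (s 2)) (s 3)) (s 4)) (s 5)) (s 6)) (s 7))

/-- The check for one mask: a flag with a reversing walk, and the flood fill. -/
def gen1 (B x : ℕ) : Bool :=
  let a := Nat.land x 127
  let b := Nat.land (Nat.shiftRight x 7) 127
  let c := Nat.land (Nat.shiftRight x 14) 127
  let d := Nat.land (Nat.shiftRight x 21) 127
  cond (Nat.blt a 106)
    (cond (tb (row a) b) (cond (tb (row a) c) (cond (tb (row a) d) (cond (tb (row b) c)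
      (cond (tb (row b) d) (cond (tb (row c) d) (cond (tb B a)
        (cond (wk B a b c d 100 (Nat.shiftRight x 28) a b c d false)
          (flood 107 (Nat.shiftLeft 1 a) (Nat.xor B (Nat.shiftLeft 1 a))) false)
        false) false) false) false) false) false) false) false

theorem gen1_sound {Bm x : ℕ} (h : gen1 Bm x = true) {B : Set (Fin 106)}
    (hB : ∀ a : Fin 106, tb Bm a = true ↔ a ∈ B) (hBm : ∀ v, tb Bm v = true → v < 106) :
    Gen Gam B := by
  intro U _ h2 L h0 h1 h3 h4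
  have H : Lam B U L := ⟨h2, h0, h1, h3, h4⟩
  rw [gen1] at h
  generalize Nat.land x 127 = a at h
  generalize Nat.land (Nat.shiftRight x 7) 127 = b at h
  generalize Nat.land (Nat.shiftRight x 14) 127 = c at h
  generalize Nat.land (Nat.shiftRight x 21) 127 = d at h
  obtain ⟨k0, h⟩ := of_cond_true h
  obtain ⟨k1, h⟩ := of_cond_true h
  obtain ⟨k2, h⟩ := of_cond_true h
  obtain ⟨k3, h⟩ := of_cond_true h
  obtain ⟨k4, h⟩ := of_cond_true h
  obtain ⟨k5, h⟩ := of_cond_true h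
  obtain ⟨k6, h⟩ := of_cond_true h
  obtain ⟨k7, h⟩ := of_cond_true h
  obtain ⟨k8, h⟩ := of_cond_true h
  have ha : a < 106 := hBm a k7
  have hb : b < 106 := lt_of_tb_row k1
  have hc : c < 106 := lt_of_tb_row k2
  have hd : d < 106 := lt_of_tb_row k3
  have ht : Tet Gam ⟨a, ha⟩ ⟨b, hb⟩ ⟨c, hc⟩ ⟨d, hd⟩ := ⟨k1, k2, k3, k4, k5, k6⟩
  have haB : (⟨a, ha⟩ : Fin 106) ∈ B := (hB _).1 k7
  have e0 : L ⟨a, ha⟩ ⟨b, hb⟩ ⟨c, hc⟩ ⟨d, hd⟩ = 0 :=
    wk_sound H (fun a h => (hB a).1 h) ⟨a, ha⟩ ⟨b, hb⟩ ⟨c, hc⟩ ⟨d, hd⟩ k8 ht haB (by simp)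
  have e1 := H.vertex haB ht e0
  -- the property to be propagated
  have key := flood_sound (q := fun u => tb Bm u = true ∧ ∀ v : Fin 106, (v : ℕ) = u →
    ∀ b' c' d', Tet Gam v b' c' d' → L v b' c' d' = 0) (R := Bm) (by
      rintro u v ⟨hu, hu'⟩ huv hv
      refine ⟨hv, ?_⟩
      rintro v' rfl
      have hu2 := hBm u hu
      exact H.nbr (a := ⟨u, hu2⟩) ((hB _).1 hu) ((hB v').1 hv) huv (hu' ⟨u, hu2⟩ rfl)) h (by
      intro v hv
      rw [tb_shl] at hv
      simp only [decide_eq_true_eq] at hv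
      subst hv
      refine ⟨k7, ?_⟩
      intro v' hv'
      have : v' = ⟨a, ha⟩ := Fin.ext hv'
      subst this
      exact e1) (by
      intro v hv
      rw [tb_xor, tb_shl] at hv
      by_cases h5 : tb Bm v = true
      · exact h5
      · rw [Bool.not_eq_true] at h5
        have h6 : a ≠ v := by
          rintro rfl
          rw [k7] at h5
          exact absurd h5 (by simp)
        rw [h5] at hv
        simp [h6] at hv)
  intro a' b' c' d' ht' ha'
  by_cases h5 : a = a'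
  · have : a' = ⟨a, ha⟩ := Fin.ext h5.symm
    subst this
    exact e1 b' c' d' ht'
  · refine (key a' ?_).2 a' rfl b' c' d' ht'
    rw [tb_xor, tb_shl, (hB a').2 ha']
    simp [h5]

theorem cond_tb (b : Bool) (x v : ℕ) : tb (cond b x 0) v = (b && tb x v) := by
  cases b
  · rw [cond_false, tb_zero, Bool.false_and]
  · rw [cond_true, Bool.true_and]

theorem tb_BM (w v : ℕ) : tb (BM w) v =
    Bool.xor (tb MASK v) (dotB (fun i => tb w i) (fun i => tb (Lm i) v)) := by
  simp only [BM, tb_xor, cond_tb, dotB]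

theorem tb_BM_lt {w v : ℕ} (h : tb (BM w) v = true) : v < 106 := by
  by_contra hv
  have h0 : tb MASK v = false := by
    rw [tb_eq, MASK_eq, Nat.testBit_two_pow_sub_one]
    simpa using hv
  have h1 : ∀ i, tb (Lm i) v = false := by
    intro i
    rw [Lm, tb_land, h0, Bool.and_false]
  rw [tb_BM, h0] at h
  simp [dotB, h1] at h

/-- check a list of walks for consecutive functionals -/
def gens : List ℕ → ℕ → Bool
  | [], _ => true
  | x :: l, w => cond (gen1 (BM w) x) (gens l (Nat.succ w)) false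

theorem gens_sound : ∀ {l : List ℕ} {w : ℕ}, gens l w = true → ∀ v, w ≤ v → v < w + l.length →
    ∃ x, gen1 (BM v) x = true := by
  intro l
  induction l with
  | nil => intro w _ v h1 h2; simp at h2; omega
  | cons x l ih =>
    intro w h v h1 h2
    rw [gens] at h
    obtain ⟨k1, k2⟩ := of_cond_true h
    rcases h1.eq_or_lt with rfl | h3
    · exact ⟨x, k1⟩
    · exact ih k2 v h3 (by simp at h2 ⊢; omega)

theorem g0 : gens [0x7b6db1b1b6c6c6db1bb6c6c6db1b184548d100,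
    0x5b91bb6e46db6c6ed1b6db1b91b6db88cf81c7,
    0x6edb1b91b6db1b1b6c6ec6c6c6c6d8494edd02,
    0x5bb6c6e46db6c6e46edbb1b91b6db64548d100,
    0x6edb1b6e46db6d1b6d1bb6ed1b6db84b54e904,
    0x7b6e46edb1b6e46db6e46edbb91bb614074b89,
    0x7b6e46edb1b6d1b6c6e46edbb1b6d19406cb07,
    0x5b6e46db6d1b6d1b6d1b6c6e46edbb43c68b06,
    0x6edb1b1b46db46db6c6ee46db6c6d9194edd02,
    0x7b6db1b1b6c6c6db1bb6c6e46edb184548d100,
    0x76db6d1b6db1b91bb6edb46db6d1b64548d100,
    0x6edb91bb6d1b6c6db46edb6c6e46ee49cfdf03,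
    0x6edb1b1b91b6db1b1b6d1bb6ec6db614074b89,
    0x791bb6c6db6c6ed1b6db1b91bb6c6c6548d100,
    0x6edb91bb6c6d1b6c6d1b6db1bb1b6d13e70c8c,
    0x5bb6c6db1b91b6db91b6db6d1bb6db43c68b06] 0 = true := by decide +kernel

theorem g1 : gens [0x7b6db46db6c6e46edbb6c6c6db46d84548d100,
    0x76db6c6e46edb91bb6edb46db6c6c645c9d301,
    0x6edb1b46db1b1b91bb6ed1b6d1b6d845c9d301,
    0x5bb6c6c6d1b6c6e46edbb1b1b46db64548d100,
    0x6db46db6c6d1b91b6db91bb6ed1b6db91b54e904,
    0x791bb6c6db6c6ed1b6db1b91bb6d1b6bd5eb05,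
    0x5bb46db91b6db46db1b1b1b91bb6ed83c70b88,
    0x5bb6c6db46db1b91bb6ee46edb1b6e4b54e904,
    0x7b6db1b91bb6c6db1bb6c6c6db1b1845c9d301,
    0x7b6db46db46db6c6ec6ed1b6d1b6d84548d100,
    0x7b6db1b1b6d1b6db1bb6d1b6db1b464548d100,
    0x5bb6c6d1b6d1b6c6db1bb46db46db645c9d301,
    0x6edb91b6db1b1b1b6d1bb6c6c6c6d915c9d301,
    0x6db91b6db46db46db46db1b91bb6ed13c70b93,
    0x6edb91bb6d1b6e46edbb1b6d1b6db91548d100,
    0x76db91b6db46db46db6d1bb6ee46ed8406cb07] 16 = true := by decide +kernel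

theorem g2 : gens [0x76db6d1b6d1b6db46edbb46db46db64548d100,
    0x7b6db1b1b6c6c6db46edb1b1b6d1b645c9d301,
    0x6edb1b1b91b6db46db46edb91bb6d845c9d301,
    0x6edb1b46db46db46db46edb1b6c6d84548d100,
    0x5bb6c6c6c6d1b6e46edbb1b91b6db6494edd02,
    0x791bb6c6db6c6edb1b6d1b6db46db1994edd02,
    0x6edb1b91b6db1b91bb6ed1b6d1b6d915c9d301,
    0x791bb6c6db6c6edb1b6c6e46edb46d994edd02,
    0x7b6db46db46db6c6ed1bb6c6c6c6d845c9d301,
    0x76db6d1b6db1b91bb6edb46db6d1b64548d100,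
    0x6edb1b6e46db6e46edbb1b6d1b6db84548d100,
    0x7b6db46db6c6c6db46edb1b91bb6c645c9d301,
    0x7b6db1b91bb6c6db1bb6c6c6db1b1915c9d301,
    0x6edb91b6db46db1b6c6ed1b6d1b6d91548d100,
    0x791bb6c6db6c6edb91bb6e46edb46d994edd02,
    0x791bb6c6db6c6edb1b6d1b6db91b6d95c9d301] 32 = true := by decide +kernel

theorem g3 : gens [0x5bb6c6db1b1b91b6db1bb1bb46db6e4b54e904,
    0x7b46db46db46db91b6db1b91bb6ec613e68c0a,
    0x7b6e46edb91bb6d1b6e46edbb1b6d19406cb07,
    0x76db6d1b6db1b91bb6edb1b1b6d1b64548d100,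
    0x7b6db1b91bb6c6db1bb6c6c6db1b191548d100,
    0x7b6e46edb1b6c6e46db6db46edb6d193c68b06,
    0x6edb91b6db46db1b6c6ec6c6d1b6d8494edd02,
    0x76db6d1b6d1b6db46edbb1b91b6db649cfdf03,
    0x6edb1b6c6d1b6d1b6c6e46edbb1b6d13e70c8c,
    0x7b6db46db6d1b6db46edb46db6c6c64548d100,
    0x6edb1b6d1b6e46db6c6ed1bb6c6db84548d100,
    0x6edb1b6c6e46db6e46db6db46edb6c43c68b06,
    0x7b6db1b91bb6e46edbb6c6c6db1b4649cfdf03,
    0x7b6db1b91bb6c6db1bb6c6e46edb191548d100,
    0x7b6db46db46db6d1bb6ec6e46db6d915c9d301,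
    0x6edb1b6c6d1b6c6db46edb6c6e46ee494edd02] 48 = true := by decide +kernel

theorem g4 : gens [0x5bb6c6e46db6c6c6db46edb91b6db64bd5eb05,
    0x7b6db1b91bb6c6db1bb6c6c6db1b184548d100,
    0x646edb1b6db1bb6d1b6d1b6db1b1b6d94edd02,
    0x7b6db1b1b6c6c6db1bb6c6c6db1b1845c9d301,
    0x7b6db46db46db6d1bb6ec6c6d1b6d91bd5eb05,
    0x6d1bb6e46edb91b6db1b91b6db91b6d406cb07,
    0x6edb91bb6c6db91b6db91bb6ec6db613c70b88,
    0x6edb91b6db46db1b6d1bb6d1b6c6d915c9d301,
    0x7b6db1b91bb6c6db1bb6c6e46edb184548d100,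
    0x5bb6c6c6d1b6c6c6db1bb1b91b6db645c9d301,
    0x7b6db46db6c6e46edbb6d1b6db1b4645c9d301,
    0x6edb1b46db1b46db6c6ed1b6c6e46e4548d100,
    0x5bb6c6db1b46db1b91b6db6d1bb6db43c68b06,
    0x5bb1b1b91b6db1b46db46db91bb6ed84074b89,
    0x7b6c6db1b1b91b6db91b6db1bb1bb184074b89,
    0x6edb91bb6e46db6c6c6e46edbb1b6d13e70c8c] 64 = true := by decide +kernel

theorem g5 : gens [0x6db6c6c6db1b91bb6edb1b91bb6c6d1bd5eb05,
    0x6edb91b6db1b1b1b6c6ee46db6c6d84548d100,
    0x5bb6c6c6e46db6e46edbb1b91b6db64548d100,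
    0x6edb1b46db1b46db6c6ed1b6c6c6d8494edd02,
    0x6edb1b6d1b6c6d1b6d1bb6ec6c6db84bd5eb05,
    0x5bb1b1b91b6db46db1b1b1b91bb6ed83c70b88,
    0x6edb1b6d1b6c6e46edbb1b6c6c6db91548d100,
    0x7b91b6db46db1b91b6db46db6e46e46d94074b89,
    0x6db6d1b6db46db6c6edb46db6c6c6c4548d100,
    0x7b6db1b1b6c6e46edbb6c6c6db46d9194edd02,
    0x6db46db1b91b6db1b46db1b1b6c6ed1406cb07,
    0x76db6c6e46edb1b6c6edb46db6c6c64548d100,
    0x6edb1b46db46db91bb6ec6c6d1b6d91b54e904,
    0x5bb6e46edb1b1b91bb6ee46edb1b6e4bd5eb05,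
    0x5bb91b6db91b6db1b91b6db91bb6ed83c68b06,
    0x6edb1b6c6c6c6e46edbb1b6c6c6db91548d100] 80 = true := by decide +kernel

theorem g6 : gens [0x5bb6e46edb91b6db1b1b91bb6ec6db4406cb07,
    0x76e46edb1b91b6db1b91bb6e46edbb644074b92,
    0x6edb91b6db1b1b46db46edb1b6c6d84548d100,
    0x7b46db91b6db1b1b91b6db91bb6ed194274c8d,
    0x791bb6c6db6c6edb1b6c6c6db1b46d994edd02,
    0x7b6db46db6c6e46edbb6c6c6db46d91548d100,
    0x6db6c6e46edb91bb6edb46db6c6e46d94edd02,
    0x5bb6c6d1b6d1b6e46edbb1b91b6db6494edd02,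
    0x7b6db46db6c6c6db46edb1b91bb6c645c9d301,
    0x7b6c6c6e46db6d1b6db1bb1bb1b6d19406cb07,
    0x6edb1b6e46db6c6c6e46db6d1bb6ec43c68b06,
    0x6db6d1b6d1b6db46edbb1b6c6c6db84548d100,
    0x6edb1b6c6c6d1b6db1bb91bb6c6db91548d100,
    0x6edb46db91b6db1b6c6ec6e46db6d9194edd02,
    0x6edb1b1b1b46db46db46edb1b6e46e49cfdf03,
    0x7b6db1b1b6d1b6db1bb6d1b6db1b919548d100] 96 = true := by decide +kernel

theorem g7 : gens [0x5bb6c6d1b6c6c6e46edbb1b1b46db645c9d301,
    0x5bb6d1b6e46db6e46edbb46db46db64548d100,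
    0x5bb6e46db6d1b6c6db1bb91b6db1b64548d100,
    0x76db6c6e46edb91bb6edb46db6d1b645c9d301,
    0x76db6d1b6db1b91bb6edb1b1b6d1b649cfdf03,
    0x7b6db1b1b6c6c6db1bb6c6c6db1b191548d100,
    0x6edb91bb6c6db46db1b91bb6ec6db61406cb07,
    0x7b6db1b1b6c6c6db1bb6c6c6db1b1915c9d301,
    0x76db6c6e46edb1b6c6edb46db6c6c64548d100,
    0x6edb1b1b46db1b46db46edb91bb6d845c9d301,
    0x7b6db1b91bb6c6db46edb1b1b6d1b645c9d301,
    0x6edb1b6d1b6d1b6c6e46db6d1bb6ed14074b89,
    0x7b6db1b1b6c6c6db1bb6c6e46edb191548d100,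
    0x7b6db46db6c6e46edbb6c6c6db1b1849cfdf03,
    0x7b6db46db6c6e46edbb6d1b6db1b9195c9d301,
    0x6edb91bb6e46db6db1bb91bb6c6db9194edd02] 112 = true := by decide +kernel

theorem g8 : gens [0x5bb6c6e46db6e46db6d1bb6e46edb64bd5eb05,
    0x7b6db1b91bb6c6db1bb6c6c6db46d915c9d301,
    0x6edb1b6c6c6e46db6d1bb6ed1b6db849cfdf03,
    0x7b6db1b91bb6c6db1bb6c6c6db1b191548d100,
    0x76db6d1b6db1b91bb6edb1b1b6d1b64548d100,
    0x7b6db46db46db6c6ed1bb6d1b6c6d845c9d301,
    0x5bb6c6d1b6c6c6e46edbb1b1b46db645c9d301,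
    0x5bb6d1b6d1b6c6e46edbb46db46db64548d100,
    0x6edb1b6c6d1b6c6db46edb6c6e46ee494edd02,
    0x6db6d1b6db46db6c6edb1b91bb6d1b49cfdf03,
    0x7b6db1b91bb6c6db1bb6c6e46edb191548d100,
    0x6edb1b91b6db1b91bb6ec6d1b6c6d849cfdf03,
    0x7b6db1b1b6c6c6db46edb1b1b6c6c645c9d301,
    0x6db46db91b6db1b1b46db1b91bb6ed13e68c0a,
    0x7b6db46db6d1b6db46edb46db6c6c64548d100,
    0x6edb1b1b46db1b46db46edb91bb6d845c9d301] 128 = true := by decide +kernel

theorem g9 : gens [0x6db6c6e46edb91bb6edb46db6c6e46d94edd02,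
    0x6edb91b6db91b6db6c6ed1b6d1b6d8494edd02,
    0x791bb6c6db6c6edb1b6d1b6db1b1b1994edd02,
    0x7b6db46db6c6c6db1bb6c6e46edb1915c9d301,
    0x6edb1b46db1b1b46db46edb1b6c6d84548d100,
    0x7b46db46db1b1b1b91b6db91bb6ed194274c8d,
    0x6edb1b6e46db6d1b6d1b6db46edb6c43e68c0a,
    0x5b91bb6d1b6d1b6d1b6c6d1b6d1b6db644074b89,
    0x6edb1b1b1b1b1b46db46edb1b6e46e49cfdf03,
    0x7b6db1b1b6c6c6db1bb6c6c6db46d915c9d301,
    0x6edb91b6db1b1b1b6c6ed1b6d1b6d91548d100,
    0x7b6db1b91bb6c6db1bb6c6e46edb19194edd02,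
    0x7b6e46edb1b6c6c6d1b6db1bb91bb613c68b06,
    0x6edb1b91b6db1b46db46edb91bb6d84548d100,
    0x76db6d1b6db1b91bb6edb46db6d1b64548d100,
    0x5bb6c6db46db46db46db1b6d1bb6db43e68c0a] 144 = true := by decide +kernel

theorem g10 : gens [0x5bb6c6e46db6c6e46edbb46db46db64b54e904,
    0x7b6e46db46db6e46db46db46db6e46e46d9406cb07,
    0x7b6db46db6e46db6d1bb6c6db6d1b64bd5eb05,
    0x6edb91bb6c6d1b6c6d1b6db46edb6d13e70c8c,
    0x5bb6c6c6d1b6c6e46edbb1b91b6db64548d100,
    0x6edb1b91b6db46db6c6ed1b6c6c6d8494edd02,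
    0x6db6c6e46edb91bb6edb1b91bb6e46dbd5eb05,
    0x7b6db46db6c6e46edbb6c6c6db46d84548d100,
    0x5bb6e46edb91bb6d1b6d1b6d1bb6ed83c68b06,
    0x6edb91bb6c6c6e46edbb1b6c6c6db91548d100,
    0x6dbb6c6db1b46db91b6db1b1b1b1b913c70417,
    0x5bb6e46edb46db91bb6ee46edb1b6e4bd5eb05,
    0x6db46db46db1b46db91b6db1b6c6ed13e68c0a,
    0x7b6db1b1b6d1b6db1bb6d1b6db1b464548d100,
    0x6edb1b91b6db1b1b6c6ed1b6d1b6d84548d100,
    0x7b6db1b1b6c6e46edbb6c6c6db1b19194edd02] 160 = true := by decide +kernel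

theorem g11 : gens [0x5bb46db46db46db46db46db91bb6ed8406cb07,
    0x6edb91b6db46db1b6d1bb6d1b6c6d915c9d301,
    0x5bb6d1b6e46db6c6c6db46edbb1b6d83c68b06,
    0x6edb1b6e46db6d1b6d1bb6ed1b6db84b54e904,
    0x5bb6c6e46db6c6e46edbb1b1b46db64548d100,
    0x7b6db1b91bb6c6db1bb6c6c6db46d845c9d301,
    0x6db46db91b6db1b1b46db46db6c6ed1406cb14,
    0x7b6db1b1b6c6c6db1bb6c6c6db1b184548d100,
    0x5b6d1b6c6c6d1b6d1b6c6c6e46edbb43c70b88,
    0x6ed1b6db1b91bb6c6db91b6db1bb6ed13c70b93,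
    0x6edb1b6c6d1b6d1b6d1bb6ec6c6db84b54e904,
    0x6edb1b6c6c6c6e46edbb1b6d1b6db915c9d301,
    0x5bb6c6d1b6d1b6c6db1bb46db1b1b645c9d301,
    0x7b6db46db6e46db6c6edb1b6db91b64548d100,
    0x7b6db1b1b6c6c6db1bb6c6e46edb184548d100,
    0x76db6c6e46edb1b6c6edb1b91bb6c645c9d301] 176 = true := by decide +kernel

theorem g12 : gens [0x7b6db46db6c6c6db1bb6c6e46edb18494edd02,
    0x6edb91bb6c6e46db6c6ec6ed1b6db849cfdf03,
    0x7b6db1b1b6c6c6db1bb6c6c6db1b191548d100,
    0x6d1bb6ee46edb1b6d1b6c6c6e46db6d3c68b06,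
    0x7b6c6db46db6d1b6e46db6c6ec6ed194274c8d,
    0x6db6d1b6db91b6db1bb6c6db6d1b6c4548d100,
    0x6edb1b6e46db6d1b6d1bb6ec6e46ee4548d100,
    0x5b6e46db6c6e46db6d1b6d1b6db1bb4406cb07,
    0x6edb91bb6e46db6db1bb91bb6c6db9194edd02,
    0x7b6db46db6c6c6db46edb1b91bb6c6494edd02,
    0x7b6db1b1b6c6e46edbb6c6c6db1b4649cfdf03,
    0x7b6db1b1b6c6c6db1bb6c6e46edb191548d100,
    0x6db6d1b6db91b6db1bb6c6db6c6c6c4548d100,
    0x791bb6c6db6c6edb46db46db6d1b6d9bd5eb05,
    0x7b91b6db1b46db91b6db1b91bb6ed19426cc0b,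
    0x76db6c6e46edb1b6c6edb46db6c6c64548d100] 192 = true := by decide +kernel

theorem g13 : gens [0x7b6db46db6c6c6db1bb6c6e46edb1915c9d301,
    0x6db6c6e46edb91bb6edb1b1b6c6e46d94edd02,
    0x7b6db46db6c6e46edbb6c6c6db46d91548d100,
    0x791bb6c6db6c6edb1b6c6c6db91b6d994edd02,
    0x6edb1b1b91b6db46db46edb91bb6d845c9d301,
    0x6edb91b6db46db46db46edb1b6c6d84548d100,
    0x76db1b91b6db1b91bb6db6e46ee46db64548d100,
    0x7b6db1b91bb6c6db46edb1b1b6c6c645c9d301,
    0x7b6db1b1b6d1b6db1bb6d1b6db1b919548d100,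
    0x791bb6c6db6c6edb1b6c6c6db46db195c9d301,
    0x7b6db1b1b6c6c6db1bb6c6c6db46d915c9d301,
    0x6edb1b6c6e46db6db1bb91bb6e46ee494edd02,
    0x6db6d1b6d1b6db46edbb1b6d1b6db84548d100,
    0x5bb6c6c6d1b6c6e46edbb1b91b6db645c9d301,
    0x5bb6c6d1b6d1b6e46edbb46db1b1b645c9d301,
    0x6db46db1b46db46db91b6db91bb6ec43c68b06] 208 = true := by decide +kernel

theorem g14 : gens [0x5b91bb6c6e46db6c6d1b6d1b6c6c6db644074b89,
    0x6edb1b6e46db6e46edbb1b6d1b6db91548d100,
    0x6edb91bb6e46db6c6c6d1b6d1bb6ed13e70c8c,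
    0x7b6db46db6c6e46edbb6c6c6db46d91bd5eb05,
    0x7b6db46db6c6c6db1bb6c6e46edb1845c9d301,
    0x5bb6c6c6e46db6e46edbb1b1b46db64548d100,
    0x6edb91b6db46db1b6c6ee46db6c6d84548d100,
    0x7b6db46db6c6e46edbb6d1b6db91b645c9d301,
    0x6edb1b6c6d1b6e46edbb1b6d1b6db91548d100,
    0x5bb6c6c6e46db6d1b6db46edbb1b6d84074b89,
    0x6edb91b6db1b1b1b6d1bb6c6c6c6d915c9d301,
    0x6edb1b46db46db46db46edb91bb6d91b54e904,
    0x76db6c6e46edb1b6c6edb46db6c6c64548d100,
    0x5bb6c6d1b6d1b6c6db1bb46db46db645c9d301,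
    0x7b6db1b1b6c6c6db1bb6c6c6db46d845c9d301,
    0x5bb6c6d1b6d1b6e46edbb1b91b6db64548d100] 224 = true := by decide +kernel

theorem g15 : gens [0x7b46db91b6db46db46db46db6c6ed194074b89,
    0x6edb1b6d1b6e46db6c6ed1bb6c6db91548d100,
    0x6d1bb6c6db91b6db1b91b6db46db46d406cb14,
    0x6edb1b91b6db1b46db46edb91bb6d84bd5eb05,
    0x6edb1b46db1b1b1b6c6ec6c6c6c6d8494edd02,
    0x6db6c6c6db46db6d1bb6d1b6db1b1b4548d100,
    0x7b6db1b91bb6c6db1bb6c6c6db1b184548d100,
    0x6edb91bb6e46edb46db6c6ed1b6db61468802c,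
    0x6edb91b6db1b91bb6db6e46ed1b6e46e4ab5025b,
    0x5bb6c6db1b91b6db91b6db6d1bb6db43c68b06,
    0x7b6d1b6db1b91bb6c6db1bb6ec6db614074b89,
    0x6edb1b46db46db91bb6ec6c6d1b6d84b54e904,
    0x6edb1b46db91b6db6c6ed1b6c6e46e4548d100,
    0x5bb6e46db6d1b6e46edbb91b6db1b6494edd02,
    0x6edb1b1b1b1b46db6c6ee46db6c6d9194edd02,
    0x7b6db1b91bb6c6db1bb6c6e46edb184548d100] 240 = true := by decide +kernel

theorem exists_walk (w : ℕ) (hw : w < 256) : ∃ x, gen1 (BM w) x = true := by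
  rcases Nat.lt_or_ge w 16 with h | h0
  · exact gens_sound g0 w (by omega) (by simpa using h)
  rcases Nat.lt_or_ge w 32 with h | h1
  · exact gens_sound g1 w (by omega) (by simpa using h)
  rcases Nat.lt_or_ge w 48 with h | h2
  · exact gens_sound g2 w (by omega) (by simpa using h)
  rcases Nat.lt_or_ge w 64 with h | h3
  · exact gens_sound g3 w (by omega) (by simpa using h)
  rcases Nat.lt_or_ge w 80 with h | h4
  · exact gens_sound g4 w (by omega) (by simpa using h)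
  rcases Nat.lt_or_ge w 96 with h | h5
  · exact gens_sound g5 w (by omega) (by simpa using h)
  rcases Nat.lt_or_ge w 112 with h | h6
  · exact gens_sound g6 w (by omega) (by simpa using h)
  rcases Nat.lt_or_ge w 128 with h | h7
  · exact gens_sound g7 w (by omega) (by simpa using h)
  rcases Nat.lt_or_ge w 144 with h | h8
  · exact gens_sound g8 w (by omega) (by simpa using h)
  rcases Nat.lt_or_ge w 160 with h | h9
  · exact gens_sound g9 w (by omega) (by simpa using h)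
  rcases Nat.lt_or_ge w 176 with h | h10
  · exact gens_sound g10 w (by omega) (by simpa using h)
  rcases Nat.lt_or_ge w 192 with h | h11
  · exact gens_sound g11 w (by omega) (by simpa using h)
  rcases Nat.lt_or_ge w 208 with h | h12
  · exact gens_sound g12 w (by omega) (by simpa using h)
  rcases Nat.lt_or_ge w 224 with h | h13
  · exact gens_sound g13 w (by omega) (by simpa using h)
  rcases Nat.lt_or_ge w 240 with h | h14
  · exact gens_sound g14 w (by omega) (by simpa using h)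
  rcases Nat.lt_or_ge w 256 with h | h15
  · exact gens_sound g15 w (by omega) (by simpa using h)
  omega

theorem gen_all (ω : Fin 8 → ZMod 2) : Gen Gam {v | ω ⬝ᵥ lam v = 0} := by
  set w := Nat.ofBits (fun i : Fin 8 => decide (ω i = 1)) with hw
  have hlt : w < 256 := Nat.ofBits_lt_two_pow _
  have hbit : ∀ i : Fin 8, tb w i = decide (ω i = 1) := by
    intro i
    rw [tb_eq, hw, Nat.testBit_ofBits_lt _ _ i.2]
  have hom : ω = fun i : Fin 8 => if tb w i = true then (1 : ZMod 2) else 0 := by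
    funext i
    rw [hbit]
    have : ∀ x : ZMod 2, x = if decide (x = 1) = true then 1 else 0 := by decide
    exact this (ω i)
  obtain ⟨x, hx⟩ := exists_walk w hlt
  refine gen1_sound hx ?_ (fun v hv => tb_BM_lt hv)
  intro a
  have h1 : ω ⬝ᵥ lam a = if dotB (fun i => tb w i) (fun i => tb (Lm i) a) = true then 1 else 0 := by
    rw [← dot_eq, hom]
    rfl
  rw [tb_BM, tb_MASK a.2, Set.mem_setOf_eq, h1]
  cases dotB (fun i => tb w i) (fun i => tb (Lm i) a) <;> simp

end D74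
end Pool.Agent.RC84
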