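import Pool.Agent.RC84.Bridge
import Pool.Agent.RC84.Basic1
import Pool.Agent.RC84.Cosets

/-!
# P1, P2: additional facts (the package statements are in Basic1.lean and Cosets.lean)
-/

set_option autoImplicit false

namespace Pool.Agent.RC84

open scoped Classical

variable {V : Type} (Γ : SimpleGraph V)

theorem len_pr' (A : Finset V) : len Γ (pr Γ A) = A.card := by
  rw [← iso_wcl, len_iso, RACG.len_wcl]

theorem pr_injective : Function.Injective (pr Γ) := fun A B h => by
  rw [← iso_wcl, ← iso_wcl] at h
  exact RACG.wcl_injective ((iso Γ).injective h)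

theorem ab_pr' (A : Finset V) (v : V) :
    Multiplicative.toAdd (ab Γ (pr Γ A)) v = if v ∈ A then 1 else 0 := by
  have key : ∀ l : List V, l.Nodup →
      Multiplicative.toAdd (ab Γ (l.map (gen Γ)).prod) v = if v ∈ l then 1 else 0 := by
    intro l hl
    induction l with
    | nil => simp
    | cons a l ih =>
      rw [List.nodup_cons] at hl
      rw [List.map_cons, List.prod_cons, map_mul, toAdd_mul, Pi.add_apply, ih hl.2, ab_gen,
        toAdd_ofAdd]
      by_cases h : v = a
      · subst h
        simp [hl.1]
      · rw [Pi.single_eq_of_ne h]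
        simp [h]
  rw [pr, key _ A.nodup_toList]
  simp only [Finset.mem_toList]

theorem self_mem_cos (w : RA Γ) (T : Finset V) : w ∈ cos Γ w T :=
  ⟨∅, Finset.empty_subset _, by rw [pr_empty, mul_one]⟩

end Pool.Agent.RC84
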