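import Pool.Agent.RC84.Bridge

/-!
# P7: thickenings
-/

set_option autoImplicit false

namespace Pool.Agent.RC84

open scoped Classical

section P7
variable {V Q : Type} [Group Q] (Γ : SimpleGraph V) (π : RA Γ →* Q)

/-- standing assumption: `π` is injective on short elements -/
def Deep : Prop := ∀ w : RA Γ, len Γ w ≤ 16 → π w = 1 → w = 1

/-- the homomorphism on `RACG.W Γ` -/
noncomputable def piW : RACG.W Γ →* Q := π.comp (iso Γ : RACG.W Γ →* RA Γ)

variable {Γ π}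

theorem piW_wcl (A : Finset V) : piW Γ π (RACG.wcl Γ A) = π (pr Γ A) := by
  rw [← iso_wcl]; rfl

theorem deep_piW (hd : Deep Γ π) : RACG.Deep (piW Γ π) 16 := by
  intro w h1 h2
  have := hd (iso Γ w) (by rwa [len_iso]) h1
  exact (MulEquiv.map_eq_one_iff _).1 this

theorem mem_cube_iff' {q p : Q} {T : Finset V} :
    p ∈ cube Γ π q T ↔ p ∈ RACG.cube (piW Γ π) q T := by
  rw [cube, Finset.mem_image, RACG.cube, Set.mem_ofPred_eq]
  refine exists_congr fun A => ?_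
  rw [Finset.mem_powerset, piW_wcl]
  exact and_congr Iff.rfl eq_comm

theorem coe_cube (q : Q) (T : Finset V) : (cube Γ π q T : Set Q) = RACG.cube (piW Γ π) q T := by
  ext p
  rw [Finset.mem_coe, mem_cube_iff']

theorem thick_adj_iff {p q : Q} : (thick Γ π).Adj p q ↔ (RACG.thick (piW Γ π)).Adj p q := by
  constructor
  · rintro ⟨hne, x, T, hT, h1, h2⟩
    rw [isCl_iff] at hT
    rw [mem_cube_iff'] at h1 h2
    exact RACG.adj_of_mem_cube hT h1 h2 hne
  · rintro ⟨hne, σ, hσ, h⟩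
    refine ⟨hne, p, σ, isCl_iff.2 hσ, ?_, ?_⟩
    · rw [mem_cube_iff']
      exact RACG.self_mem_cube _ _
    · rw [mem_cube_iff']
      exact ⟨σ, le_rfl, h⟩

theorem cube_subset_iff (hd : Deep Γ π)
    (hc : ∀ T : Finset V, Γ.IsClique (T : Set V) → T.card ≤ 4) {q q' : Q} {T T' : Finset V}
    (hT : Γ.IsClique (T : Set V)) (hT' : Γ.IsClique (T' : Set V)) :
    cube Γ π q T ⊆ cube Γ π q' T' ↔ T ⊆ T' ∧ q ∈ cube Γ π q' T' := by
  rw [← Finset.coe_subset, coe_cube, coe_cube, mem_cube_iff',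
    RACG.cube_subset_cube_iff (D := 4) (fun σ hσ => hc σ (isCl_iff.2 hσ))
      ((deep_piW hd).mono (by norm_num)) (isCl_iff.1 hT) (isCl_iff.1 hT'), and_comm]

theorem mem_cube_eq (hc : ∀ T : Finset V, Γ.IsClique (T : Set V) → T.card ≤ 4) {q q' : Q}
    {T : Finset V} (hT : Γ.IsClique (T : Set V)) (h : q ∈ cube Γ π q' T) :
    cube Γ π q T = cube Γ π q' T := by
  have _ := hc
  rw [← Finset.coe_inj, coe_cube, coe_cube]
  rw [mem_cube_iff'] at h
  exact RACG.cube_eq_of_mem (isCl_iff.1 hT) h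

theorem cube_inter_mem (hd : Deep Γ π) (hc : ∀ T : Finset V, Γ.IsClique (T : Set V) → T.card ≤ 4)
    {c c' : Finset Q} (h : c ∈ cubes Γ π) (h' : c' ∈ cubes Γ π) : c ∩ c' ∈ cubes Γ π := by
  rcases (c ∩ c').eq_empty_or_nonempty with he | ⟨x, hx⟩
  · exact Or.inl he
  · rw [Finset.mem_inter] at hx
    rcases h with rfl | ⟨q, T, hT, rfl⟩
    · simp at hx
    rcases h' with rfl | ⟨q', T', hT', rfl⟩
    · simp at hx
    rw [← mem_cube_eq hc hT hx.1, ← mem_cube_eq hc hT' hx.2]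
    refine Or.inr ⟨x, T ∩ T', hT.subset (by simp), ?_⟩
    ext p
    rw [Finset.mem_inter, mem_cube_iff', mem_cube_iff', mem_cube_iff']
    have hD : ∀ σ, RACG.IsCl Γ σ → σ.card ≤ 4 := fun σ hσ => hc σ (isCl_iff.2 hσ)
    have hd' : RACG.Deep (piW Γ π) (2 * 4) := (deep_piW hd).mono (by norm_num)
    rw [isCl_iff] at hT hT'
    constructor
    · rintro ⟨⟨σ, hσ, rfl⟩, h2⟩
      have h3 := (RACG.mem_cube_iff hD hd' (hT.mono hσ) hT').1 h2
      exact ⟨σ, Finset.subset_inter hσ h3, rfl⟩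
    · rintro ⟨σ, hσ, rfl⟩
      exact ⟨⟨σ, hσ.trans Finset.inter_subset_left, rfl⟩,
        ⟨σ, hσ.trans Finset.inter_subset_right, rfl⟩⟩

theorem cubes_clique {c : Finset Q} (h : c ∈ cubes Γ π) :
    (thick Γ π).IsClique (c : Set Q) := by
  rcases h with rfl | ⟨q, T, hT, rfl⟩
  · simp
  · intro p hp p' hp' hne
    exact ⟨hne, q, T, hT, hp, hp'⟩

theorem cubes_cover (hd : Deep Γ π)
    (hc : ∀ T : Finset V, Γ.IsClique (T : Set V) → T.card ≤ 4) (T : Finset Q)
    (hT : (thick Γ π).IsClique (T : Set Q)) : ∃ c ∈ cubes Γ π, T ⊆ c := by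
  rcases T.eq_empty_or_nonempty with rfl | ⟨q, hq⟩
  · exact ⟨∅, Or.inl rfl, le_rfl⟩
  · obtain ⟨κ, h1, h2, _⟩ := RACG.exists_least_cube_finset (π := piW Γ π) (D := 4)
      (fun σ hσ => hc σ (isCl_iff.2 hσ)) ((deep_piW hd).mono (by norm_num)) (s := T)
      (fun p hp p' hp' hne => thick_adj_iff.1 (hT hp hp' hne)) hq
    refine ⟨cube Γ π q κ, Or.inr ⟨q, κ, isCl_iff.2 h1, rfl⟩, ?_⟩
    rw [← Finset.coe_subset, coe_cube]
    exact h2

theorem cubes_card (hc : ∀ T : Finset V, Γ.IsClique (T : Set V) → T.card ≤ 4)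
    {c : Finset Q} (h : c ∈ cubes Γ π) : c.card ≤ 16 := by
  rcases h with rfl | ⟨q, T, hT, rfl⟩
  · simp
  · refine Finset.card_image_le.trans ?_
    rw [Finset.card_powerset]
    exact (Nat.pow_le_pow_right (by norm_num) (hc T hT)).trans (by norm_num)

theorem thick_noSquare (hd : Deep Γ π)
    (hc : ∀ T : Finset V, Γ.IsClique (T : Set V) → T.card ≤ 4) (hsq : NoSquare Γ) :
    NoSquare (thick Γ π) := by
  have h := RACG.thick_noSquare (π := piW Γ π) (D := 4) hsq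
    (fun σ hσ => hc σ (isCl_iff.2 hσ)) ((deep_piW hd).mono (by norm_num))
  intro a b c d
  rw [thick_adj_iff, thick_adj_iff, thick_adj_iff, thick_adj_iff, thick_adj_iff, thick_adj_iff]
  exact h a b c d

/-- the number of elements of a cube -/
theorem card_cube (hd : Deep Γ π)
    (hc : ∀ T : Finset V, Γ.IsClique (T : Set V) → T.card ≤ 4) (q : Q) {T : Finset V}
    (hT : Γ.IsClique (T : Set V)) : (cube Γ π q T).card = 2 ^ T.card := by
  rw [← Set.ncard_coe_finset, coe_cube]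
  exact RACG.ncard_cube (D := 4) (fun σ hσ => hc σ (isCl_iff.2 hσ))
    ((deep_piW hd).mono (by norm_num)) q (isCl_iff.1 hT)

end P7

end Pool.Agent.RC84
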