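import Pool.Agent.RC84.Defs

/-!
# P15 of MP_8085d2_al: universal coefficients, from `ZMod 3` to rational vector spaces
-/

set_option autoImplicit false

namespace Pool.Agent.RC84

open scoped Classical

namespace UctAux

variable {α : Type}

/-- `dl l` as a homomorphism -/
def dlHom {V : Type} [AddCommGroup V] : List α → ((List α → V) →+ V)
  | [] => 0
  | x :: l => (Pi.evalAddMonoidHom (fun _ : List α => V) l) -
      (dlHom l).comp
        { toFun := fun f l' => f (x :: l')
          map_zero' := rfl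
          map_add' := fun _ _ => rfl }

theorem dlHom_apply {V : Type} [AddCommGroup V] (l : List α) : ∀ f : List α → V,
    dlHom l f = dl l f := by
  induction l with
  | nil => intro f; rfl
  | cons x l ih =>
    intro f
    show f l - dlHom l (fun l' => f (x :: l')) = f l - dl l (fun l' => f (x :: l'))
    rw [ih]

theorem dl_add {V : Type} [AddCommGroup V] (l : List α) (f g : List α → V) :
    dl l (f + g) = dl l f + dl l g := by
  rw [← dlHom_apply, ← dlHom_apply, ← dlHom_apply, map_add]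

theorem dl_sub {V : Type} [AddCommGroup V] (l : List α) (f g : List α → V) :
    dl l (f - g) = dl l f - dl l g := by
  rw [← dlHom_apply, ← dlHom_apply, ← dlHom_apply, map_sub]

theorem dl_zero {V : Type} [AddCommGroup V] (l : List α) : dl l (0 : List α → V) = 0 := by
  rw [← dlHom_apply, map_zero]

theorem dl_sum {V ι : Type} [AddCommGroup V] (l : List α) (s : Finset ι) (f : ι → List α → V) :
    dl l (∑ i ∈ s, f i) = ∑ i ∈ s, dl l (f i) := by
  rw [← dlHom_apply, map_sum]
  exact Finset.sum_congr rfl fun i _ => dlHom_apply l _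

theorem dl_map {V W : Type} [AddCommGroup V] [AddCommGroup W] (φ : V →+ W) (l : List α) :
    ∀ f : List α → V, dl l (fun l' => φ (f l')) = φ (dl l f) := by
  induction l with
  | nil => intro f; exact (map_zero φ).symm
  | cons x l ih =>
    intro f
    show φ (f l) - dl l (fun l' => φ (f (x :: l'))) = φ (f l - dl l (fun l' => f (x :: l')))
    rw [ih (fun l' => f (x :: l')), map_sub]

/-- `dl` only uses the lists obtained by deleting one element -/
theorem dl_congr {V : Type} [AddCommGroup V] (l : List α) : ∀ {f g : List α → V},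
    (∀ l', List.Sublist l' l → l'.length + 1 = l.length → f l' = g l') → dl l f = dl l g := by
  induction l with
  | nil => intro f g _; rfl
  | cons x l ih =>
    intro f g h
    show f l - dl l (fun l' => f (x :: l')) = g l - dl l (fun l' => g (x :: l'))
    rw [h l (List.sublist_cons_self x l) rfl, ih (f := fun l' => f (x :: l'))
      (g := fun l' => g (x :: l'))]
    intro l' hl' hlen
    exact h (x :: l') (hl'.cons_cons x) (by simp only [List.length_cons]; omega)

theorem dl_dl {V : Type} [AddCommGroup V] (l : List α) : ∀ f : List α → V,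
    dl l (fun l' => dl l' f) = 0 := by
  induction l with
  | nil => intro f; rfl
  | cons x l ih =>
    intro f
    show dl l f - dl l (fun l' => dl (x :: l') f) = 0
    have : (fun l' => dl (x :: l') f) = f - fun l' => dl l' (fun l'' => f (x :: l'')) := by
      funext l'; rfl
    rw [this, dl_sub, ih, sub_zero, sub_self]

variable [Preorder α] (S : Set α)

/-- chains of length `n` of elements of `S` -/
def Cn (n : ℕ) : Set (List α) := {l | IsCh l ∧ (∀ x ∈ l, x ∈ S) ∧ l.length = n}

theorem Cn_sub {n : ℕ} {l l' : List α} (hl : l ∈ Cn S (n + 1)) (hs : List.Sublist l' l)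
    (hlen : l'.length + 1 = l.length) : l' ∈ Cn S n :=
  ⟨List.Pairwise.sublist hs hl.1, fun x hx => hl.2.1 x (hs.subset hx), by
    have := hl.2.2; omega⟩

theorem dl_congr_Cn {V : Type} [AddCommGroup V] {n : ℕ} {l : List α} (hl : l ∈ Cn S (n + 1))
    {f g : List α → V} (h : ∀ l' ∈ Cn S n, f l' = g l') : dl l f = dl l g :=
  dl_congr l fun l' hs hlen => h l' (Cn_sub S hl hs hlen)

theorem Cn_finite (hS : S.Finite) (n : ℕ) : (Cn S n).Finite := by
  have : Finite S := hS
  have hfin : (Set.range (fun v : List.Vector S n => v.toList.map Subtype.val)).Finite := by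
    have : Finite (List.Vector S n) := by
      have := Fintype.ofFinite S
      infer_instance
    exact Set.finite_range _
  refine hfin.subset ?_
  rintro l ⟨-, hl, hn⟩
  refine ⟨⟨l.attach.map fun x => ⟨x.1, hl x.1 x.2⟩, by simp [hn]⟩, ?_⟩
  show List.map Subtype.val (List.map _ l.attach) = l
  rw [List.map_map]
  exact List.attach_map_subtype_val l

/-- one step: integral cocycles are coboundaries modulo `3` times cocycles -/
theorem step {n : ℕ} (h : ExactAt S (ZMod 3) n) (z : List α → ℤ)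
    (hz : ∀ l ∈ Cn S (n + 1), dl l z = 0) :
    ∃ a z' : List α → ℤ, (∀ l ∈ Cn S n, z l = dl l a + 3 * z' l) ∧
      ∀ l ∈ Cn S (n + 1), dl l z' = 0 := by
  have hcast : ∀ (f : List α → ℤ) (l : List α),
      dl l (fun l' => ((f l' : ℤ) : ZMod 3)) = ((dl l f : ℤ) : ZMod 3) := fun f l =>
    dl_map (Int.castAddHom (ZMod 3)) l f
  obtain ⟨g, hg⟩ := h (fun l' => ((z l' : ℤ) : ZMod 3)) (fun l h1 h2 h3 => by
    rw [hcast, hz l ⟨h1, h2, h3⟩, Int.cast_zero])
  choose a ha using fun l => ZMod.intCast_surjective (g l)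
  have hdvd : ∀ l ∈ Cn S n, (3 : ℤ) ∣ z l - dl l a := by
    intro l hl
    have h1 := hg l hl.1 hl.2.1 hl.2.2
    have h2 : dl l g = ((dl l a : ℤ) : ZMod 3) := by
      rw [← hcast]
      congr 1
      funext l'
      exact (ha l').symm
    rw [h2] at h1
    have h3 : (((z l - dl l a : ℤ)) : ZMod 3) = 0 := by
      rw [Int.cast_sub]
      exact sub_eq_zero.2 h1
    exact (ZMod.intCast_zmod_eq_zero_iff_dvd _ 3).1 h3
  refine ⟨a, fun l => (z l - dl l a) / 3, fun l hl => ?_, fun l hl => ?_⟩
  · have := Int.mul_ediv_cancel' (hdvd l hl)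
    linarith
  · have h3 : 3 * dl l (fun l => (z l - dl l a) / 3) = dl l (z - fun l' => dl l' a) := by
      refine (dl_map (AddMonoidHom.mulLeft (3 : ℤ)) l _).symm.trans ?_
      exact dl_congr_Cn S hl fun l' hl' => Int.mul_ediv_cancel' (hdvd l' hl')
    rw [dl_sub, dl_dl, hz l hl, sub_zero] at h3
    omega

/-- extension by zero -/
noncomputable def ext (n : ℕ) (z : Cn S n → ℤ) : List α → ℤ :=
  fun l => if h : l ∈ Cn S n then z ⟨l, h⟩ else 0

theorem ext_apply (n : ℕ) (z : Cn S n → ℤ) (l : List α) (h : l ∈ Cn S n) :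
    ext S n z l = z ⟨l, h⟩ := by
  simp [ext, h]

/-- integral cocycles -/
noncomputable def Kz (n : ℕ) : Submodule ℤ (Cn S n → ℤ) where
  carrier := {z | ∀ l ∈ Cn S (n + 1), dl l (ext S n z) = 0}
  zero_mem' := by
    intro l _
    have : ext S n (0 : Cn S n → ℤ) = 0 := by
      funext l'; simp [ext]
    rw [this, dl_zero]
  add_mem' := by
    intro z w hz hw l hl
    have : ext S n (z + w) = ext S n z + ext S n w := by
      funext l'
      by_cases h : l' ∈ Cn S n
      · simp [ext, h]
      · simp [ext, h]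
    rw [this, dl_add, hz l hl, hw l hl, add_zero]
  smul_mem' := by
    intro c z hz l hl
    have : ext S n (c • z) = fun l' => (AddMonoidHom.mulLeft c) (ext S n z l') := by
      funext l'
      by_cases h : l' ∈ Cn S n
      · simp [ext, h]
      · simp [ext, h]
    rw [this, dl_map, hz l hl, map_zero]

/-- integral coboundaries -/
noncomputable def Iz (n : ℕ) : Submodule ℤ (Cn S n → ℤ) where
  carrier := {z | ∃ a : List α → ℤ, ∀ l : Cn S n, z l = dl l.1 a}
  zero_mem' := ⟨0, fun l => (dl_zero _).symm⟩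
  add_mem' := by
    rintro z w ⟨a, ha⟩ ⟨b, hb⟩
    exact ⟨a + b, fun l => by rw [dl_add, ← ha, ← hb]; rfl⟩
  smul_mem' := by
    rintro c z ⟨a, ha⟩
    refine ⟨fun l' => (AddMonoidHom.mulLeft c) (a l'), fun l => ?_⟩
    rw [dl_map, ← ha]; rfl

theorem exists_r (hS : S.Finite) {n : ℕ} (h : ExactAt S (ZMod 3) n) :
    ∃ r : ℤ, r ≠ 0 ∧ ∀ z : List α → ℤ, (∀ l ∈ Cn S (n + 1), dl l z = 0) →
      ∃ a : List α → ℤ, ∀ l ∈ Cn S n, r * z l = dl l a := by
  have : Finite (Cn S n) := Cn_finite S hS n
  have : Fintype (Cn S n) := Fintype.ofFinite _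
  have hK : (Kz S n).FG := IsNoetherian.noetherian _
  have hN : ((Kz S n).map (Iz S n).mkQ).FG := hK.map _
  obtain ⟨r, hr, hr'⟩ := Submodule.exists_sub_one_mem_and_smul_eq_zero_of_fg_of_le_smul
    (Ideal.span {(3 : ℤ)}) _ hN (by
      rintro _ ⟨z, hz, rfl⟩
      obtain ⟨a, z', h1, h2⟩ := step S h (ext S n z) hz
      have hz' : (fun l : Cn S n => z' l.1) ∈ Kz S n := by
        intro l hl
        rw [← h2 l hl]
        exact dl_congr_Cn S hl fun l' hl' => ext_apply S n _ l' hl'
      have he : (Iz S n).mkQ z = (3 : ℤ) • (Iz S n).mkQ (fun l : Cn S n => z' l.1) := by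
        rw [← map_smul, ← sub_eq_zero, ← map_sub, Submodule.mkQ_apply,
          Submodule.Quotient.mk_eq_zero]
        refine ⟨a, fun l => ?_⟩
        have := h1 l.1 l.2
        rw [ext_apply S n z l.1 l.2] at this
        show z l - 3 * z' l.1 = dl l.1 a
        rw [this]; ring
      rw [he]
      exact Submodule.smul_mem_smul (Ideal.mem_span_singleton_self 3)
        (Submodule.mem_map_of_mem hz'))
  refine ⟨r, ?_, fun z hz => ?_⟩
  · rintro rfl
    rw [Ideal.mem_span_singleton] at hr
    omega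
  · have hzK : (fun l : Cn S n => z l.1) ∈ Kz S n := by
      intro l hl
      rw [← hz l hl]
      exact dl_congr_Cn S hl fun l' hl' => ext_apply S n _ l' hl'
    have h1 := hr' _ (Submodule.mem_map_of_mem (f := (Iz S n).mkQ) hzK)
    rw [← map_smul, Submodule.mkQ_apply, Submodule.Quotient.mk_eq_zero] at h1
    obtain ⟨a, ha⟩ := h1
    exact ⟨a, fun l hl => ha ⟨l, hl⟩⟩

/-- exactness over the rationals -/
theorem exact_rat (hS : S.Finite) {n : ℕ} (h : ExactAt S (ZMod 3) n) (q : List α → ℚ)
    (hq : ∀ l ∈ Cn S (n + 1), dl l q = 0) : ∃ g : List α → ℚ, ∀ l ∈ Cn S n, q l = dl l g := by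
  obtain ⟨r, hr0, hr⟩ := exists_r S hS h
  have hfin := Cn_finite S hS n
  -- common denominator
  obtain ⟨N, hN0, hN⟩ : ∃ N : ℤ, N ≠ 0 ∧ ∀ l ∈ Cn S n, ∃ m : ℤ, (m : ℚ) = N * q l := by
    refine ⟨∏ l ∈ hfin.toFinset, ((q l).den : ℤ), ?_, fun l hl => ?_⟩
    · exact Finset.prod_ne_zero_iff.2 fun l _ => by exact_mod_cast (q l).den_ne_zero
    · refine ⟨(∏ l' ∈ hfin.toFinset.erase l, ((q l').den : ℤ)) * (q l).num, ?_⟩
      rw [← Finset.mul_prod_erase _ _ (hfin.mem_toFinset.2 hl)]
      push_cast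
      have hd : ((q l).den : ℚ) * q l = (q l).num := by
        rw [mul_comm]; exact_mod_cast Rat.mul_den_eq_num (q l)
      calc (∏ x ∈ hfin.toFinset.erase l, ((q x).den : ℚ)) * ((q l).num : ℚ)
          = (∏ x ∈ hfin.toFinset.erase l, ((q x).den : ℚ)) * (((q l).den : ℚ) * q l) := by rw [hd]
        _ = ((q l).den : ℚ) * (∏ x ∈ hfin.toFinset.erase l, ((q x).den : ℚ)) * q l := by ring
  choose! z hz using hN
  obtain ⟨a, ha⟩ := hr z (fun l hl => by
    have h1 : ((dl l z : ℤ) : ℚ) = N * dl l q := by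
      refine (dl_map (Int.castAddHom ℚ) l z).symm.trans ?_
      refine Eq.trans ?_ (dl_map (AddMonoidHom.mulLeft (N : ℚ)) l q)
      exact dl_congr_Cn S hl fun l' hl' => hz l' hl'
    rw [hq l hl, mul_zero] at h1
    exact_mod_cast h1)
  refine ⟨fun l => (AddMonoidHom.mulLeft (1 / ((r : ℚ) * N))) ((Int.castAddHom ℚ) (a l)),
    fun l hl => ?_⟩
  have hr0' : (r : ℚ) ≠ 0 := by exact_mod_cast hr0
  have hN0' : (N : ℚ) ≠ 0 := by exact_mod_cast hN0
  rw [dl_map (AddMonoidHom.mulLeft (1 / ((r : ℚ) * N))) l (fun l => (Int.castAddHom ℚ) (a l)),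
    dl_map (Int.castAddHom ℚ) l a, ← ha l hl]
  show q l = 1 / ((r : ℚ) * N) * ((r * z l : ℤ) : ℚ)
  rw [Int.cast_mul, hz l hl]
  field_simp

end UctAux

open UctAux

/-- P15: universal coefficients -/
theorem uct {α : Type} [Preorder α] (S : Set α) (hS : S.Finite) (n : ℕ)
    (h : ExactAt S (ZMod 3) n) (M : Type) [AddCommGroup M] [Module ℚ M] : ExactAt S M n := by
  intro f hf
  have hfin := Cn_finite S hS n
  let b := Module.Basis.ofVectorSpace ℚ M
  have hcoord : ∀ i, ∃ g : List α → ℚ, ∀ l ∈ Cn S n, b.repr (f l) i = dl l g := by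
    intro i
    refine exact_rat S hS h (fun l => (b.coord i).toAddMonoidHom (f l)) fun l hl => ?_
    rw [dl_map, hf l hl.1 hl.2.1 hl.2.2, map_zero]
  choose g hg using hcoord
  let U : Finset (Module.Basis.ofVectorSpaceIndex ℚ M) :=
    hfin.toFinset.biUnion fun l => (b.repr (f l)).support
  refine ⟨∑ i ∈ U, fun l => (LinearMap.toSpanSingleton ℚ M (b i)).toAddMonoidHom (g i l),
    fun l h1 h2 h3 => ?_⟩
  have hl : l ∈ Cn S n := ⟨h1, h2, h3⟩
  rw [dl_sum]
  have : ∀ i ∈ U, dl l (fun l => (LinearMap.toSpanSingleton ℚ M (b i)).toAddMonoidHom (g i l))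
      = b.repr (f l) i • b i := by
    intro i _
    rw [dl_map, ← hg i l hl]
    rfl
  rw [Finset.sum_congr rfl this]
  conv_lhs => rw [← b.linearCombination_repr (f l), Finsupp.linearCombination_apply, Finsupp.sum]
  refine Finset.sum_subset (fun i hi => Finset.mem_biUnion.2 ⟨l, hfin.mem_toFinset.2 hl, hi⟩) ?_
  intro i _ hi
  rw [Finsupp.notMem_support_iff.1 hi, zero_smul]

end Pool.Agent.RC84
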